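import Pool.Agent.Lib.MP_72f1d0_gt.PC.Defs

/-!
A finite atlas of boxes adapted to a line field on a closed component of a compact surface.
-/

set_option linter.unusedSectionVars false

open scoped ContDiff Manifold Topology
open Set Filter Function

namespace Pool.Agent.Lib.MP_72f1d0_gt.PC

open Eq.Man (dp dp_inv)

noncomputable section

variable {E₂ H₂ : Type*} [NormedAddCommGroup E₂] [NormedSpace ℝ E₂] [FiniteDimensional ℝ E₂]
  [TopologicalSpace H₂] {J : ModelWithCorners ℝ E₂ H₂} {S : Type*} [TopologicalSpace S]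
  [ChartedSpace H₂ S] [IsManifold J ∞ S]

namespace BoxesAux

lemma inv_smooth {π : Q → S} (hπ : Disc J π) (q : Q) :
    ContMDiffAt J 𝓘(ℝ, Q) ∞ (invFun π) (π q) := by
  have h := hπ.1 q
  refine h.localInverse_contMDiffAt.congr_of_eventuallyEq ?_
  filter_upwards [h.localInverse_eventuallyEq_right] with y hy
  have hy' : π (h.localInverse y) = y := hy
  conv_lhs => rw [← hy']
  exact leftInverse_invFun hπ.2 _

lemma trans_smooth {π π' : Q → S} (hπ : Disc J π) (hπ' : Disc J π') {q : Q}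
    (h : π q ∈ range π') : ContDiffAt ℝ ∞ (fun y => invFun π' (π y)) q := by
  obtain ⟨q', h⟩ := h
  have h1 := inv_smooth hπ' q'
  rw [h] at h1
  exact (h1.comp q (hπ.1.contMDiff q)).contDiffAt

lemma near_range {π π' : Q → S} (hπ : Disc J π) (hπ' : Disc J π') {q : Q}
    (h : π q ∈ range π') : ∀ᶠ y in 𝓝 q, π y ∈ range π' :=
  hπ.1.contMDiff.continuous.continuousAt.preimage_mem_nhds (hπ'.1.isOpen_range.mem_nhds h)

lemma dp_comp {π : Q → S} (hπ : Disc J π) {k : Q → Q} {k' : Q →L[ℝ] Q} {q : Q}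
    (hk : HasFDerivAt k k' q) (w : Q) : dp J (fun y => π (k y)) q w = dp J π (k q) (k' w) := by
  have := (HasMFDerivAt.comp q (hπ.1.contMDiff.mdifferentiableAt (by simp)).hasMFDerivAt
    hk.hasMFDerivAt).mfderiv
  exact congrArg (fun T : Q →L[ℝ] E₂ => T w) this

lemma dp_trans {π π' : Q → S} (hπ : Disc J π) (hπ' : Disc J π') {q q' : Q} (h : π q = π' q')
    (e : Q) : dp J π q (fderiv ℝ (fun y => invFun π (π' y)) q' e) = dp J π' q' e := by
  have h0 : π' q' ∈ range π := ⟨q, h⟩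
  have h1 := dp_comp hπ ((trans_smooth hπ' hπ h0).differentiableAt (by simp)).hasFDerivAt e
  have h2 : (fun y => π (invFun π (π' y))) =ᶠ[𝓝 q'] π' := by
    filter_upwards [near_range hπ' hπ h0] with y hy
    exact invFun_eq hy
  have h3 : invFun π (π' q') = q := by rw [← h]; exact leftInverse_invFun hπ.2 q
  rw [h3] at h1
  rw [← h1]
  exact congrArg (fun T : Q →L[ℝ] E₂ => T e) h2.mfderiv_eq

lemma disc_comp {π : Q → S} (hπ : Disc J π) (T : Q ≃L[ℝ] Q) : Disc J fun q => π (T q) :=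
  ⟨fun q => (T.toDiffeomorph.isLocalDiffeomorph q).comp _ _ (hπ.1 (T q)), hπ.2.comp T.injective⟩

variable (J) in
/-- `X` is smooth at `π q` when read in the disc `π`. -/
def Sm (π : Q → S) (X : S → E₂) (q : Q) : Prop :=
  ∃ u : Q → Q, ContDiffAt ℝ ∞ u q ∧ ∀ᶠ y in 𝓝 q, dp J π y (u y) = X (π y)

variable (J) in
/-- The pull back of a vector field. -/
def pull (π : Q → S) (X : S → E₂) (q : Q) : Q := (dp J π q).inverse (X (π q))

lemma dp_pull {π : Q → S} (hπ : Disc J π) (X : S → E₂) (q : Q) :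
    dp J π q (pull J π X q) = X (π q) :=
  (dp_inv hπ.1 q).self_apply_inverse _

lemma Sm.pull {π : Q → S} (hπ : Disc J π) {X : S → E₂} {q : Q} (h : Sm J π X q) :
    ContDiffAt ℝ ∞ (pull J π X) q := by
  obtain ⟨u, hu, h⟩ := h
  refine hu.congr_of_eventuallyEq ?_
  filter_upwards [h] with y hy
  exact (dp_inv hπ.1 y).injective ((dp_pull hπ X y).trans hy.symm)

lemma sm_sum {π : Q → S} {ι : Type*} [Fintype ι] {X : ι → S → E₂} {q : Q}
    (h : ∀ i, Sm J π (X i) q) : Sm J π (fun y => ∑ i, X i y) q := by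
  choose u hu h using h
  refine ⟨fun y => ∑ i, u i y, ContDiffAt.sum fun i _ => hu i, ?_⟩
  filter_upwards [eventually_all.2 h] with y hy
  rw [map_sum]
  exact Finset.sum_congr rfl fun i _ => hy i

variable (J) in
/-- The constant field of a disc. -/
def cf (π : Q → S) (e : Q) (x : S) : E₂ := dp J π (invFun π x) e

lemma cf_apply {π : Q → S} (hπ : Disc J π) (e q : Q) : cf J π e (π q) = dp J π q e := by
  rw [cf, leftInverse_invFun hπ.2 q]

lemma sm_cf {π π' : Q → S} (hπ : Disc J π) (hπ' : Disc J π') {q : Q} (h : π q ∈ range π')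
    (e : Q) : Sm J π (cf J π' e) q := by
  refine ⟨fun y => fderiv ℝ (fun y => invFun π (π' y)) (invFun π' (π y)) e, ?_, ?_⟩
  · have h1 : π' (invFun π' (π q)) ∈ range π := ⟨q, (invFun_eq h).symm⟩
    have h2 := (trans_smooth hπ' hπ h1).fderiv_right (m := ∞) (by simp)
    exact (h2.comp q (trans_smooth hπ hπ' h)).clm_apply contDiffAt_const
  · filter_upwards [near_range hπ hπ' h] with y hy
    exact dp_trans hπ hπ' (invFun_eq hy).symm e

variable (J) in
/-- A continuous form on `U`. -/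
def Form (U : Set S) (ℓ : S → (E₂ →L[ℝ] ℝ)) : Prop :=
  IsOpen U ∧ ContinuousOn (fun z : TangentBundle J S => ℓ z.1 z.2) {z | z.1 ∈ U}

lemma Form.cont {U : Set S} {ℓ : S → (E₂ →L[ℝ] ℝ)} (h : Form J U ℓ) {π : Q → S} (hπ : Disc J π)
    {u : Q → Q} {q : Q} (hq : π q ∈ U) (hu : ContinuousAt u q) :
    ContinuousAt (fun y => ℓ (π y) (dp J π y (u y))) q := by
  have hp : Continuous fun z : TangentBundle J S => z.1 := FiberBundle.continuous_proj _ _
  have h1 : ContinuousAt (fun y => tangentMap 𝓘(ℝ, Q) J π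
      ((tangentBundleModelSpaceHomeomorph 𝓘(ℝ, Q)).symm (y, u y))) q :=
    ((hπ.1.contMDiff.continuous_tangentMap (by simp)).comp
      (tangentBundleModelSpaceHomeomorph 𝓘(ℝ, Q)).symm.continuous).continuousAt.comp
      (continuousAt_id.prodMk hu)
  exact (h.2.continuousAt ((h.1.preimage hp).mem_nhds hq)).comp h1

/-- `ℓ` is a nonzero form with kernel `P`. -/
def Ker (P : Submodule ℝ E₂) (ℓ : E₂ →L[ℝ] ℝ) : Prop := ℓ ≠ 0 ∧ ∀ v, v ∈ P ↔ ℓ v = 0

lemma Ker.prop {P : Submodule ℝ E₂} {ℓ ℓ' : E₂ →L[ℝ] ℝ} (h : Ker P ℓ) (h' : Ker P ℓ') :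
    ∃ c : ℝ, c ≠ 0 ∧ ∀ w, ℓ' w = c * ℓ w := by
  obtain ⟨u, hu⟩ : ∃ u, ℓ u ≠ 0 := by
    by_contra hn
    push Not at hn
    exact h.1 (ContinuousLinearMap.ext hn)
  refine ⟨ℓ' u / ℓ u, div_ne_zero (fun e => hu ((h.2 u).1 ((h'.2 u).2 e))) hu, fun w => ?_⟩
  have h1 : ℓ (w - (ℓ w / ℓ u) • u) = 0 := by
    rw [map_sub, map_smul, smul_eq_mul, div_mul_cancel₀ _ hu, sub_self]
  have h2 := (h'.2 _).1 ((h.2 _).2 h1)
  rw [map_sub, map_smul, smul_eq_mul, sub_eq_zero] at h2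
  rw [h2]
  ring

open Classical in
/-- A bump function of a disc, read on the surface. -/
def bump (π : Q → S) (f : ContDiffBump (0 : Q)) (x : S) : ℝ :=
  if x ∈ range π then f (invFun π x) else 0

lemma bump_nonneg (π : Q → S) (f : ContDiffBump (0 : Q)) (x : S) : 0 ≤ bump π f x := by
  unfold bump
  split_ifs
  · exact f.nonneg
  · exact le_rfl

lemma bump_apply {π : Q → S} (hπ : Disc J π) (f : ContDiffBump (0 : Q)) (q : Q) :
    bump π f (π q) = f q := by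
  rw [bump, if_pos (mem_range_self q), leftInverse_invFun hπ.2 q]

lemma bump_zero {π : Q → S} (hπ : Disc J π) (f : ContDiffBump (0 : Q)) {x : S}
    (hx : x ∉ π '' Metric.closedBall 0 f.rOut) : bump π f x = 0 := by
  by_cases h : x ∈ range π
  · obtain ⟨q, rfl⟩ := h
    rw [bump_apply hπ]
    refine f.zero_of_le_dist (not_lt.1 fun h => hx ⟨q, h.le, rfl⟩)
  · rw [bump, if_neg h]

variable (J) in
/-- One term of the transverse field. -/
def term (π : Q → S) (e : Q) (f : ContDiffBump (0 : Q)) (x : S) (ℓ : E₂ →L[ℝ] ℝ) : E₂ :=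
  (bump π f x * (SignType.sign (ℓ (cf J π e x)) : ℝ)) • cf J π e x

lemma sm_term [T2Space S] {L : S → Submodule ℝ E₂} {π' : Q → S} (hπ' : Disc J π') {e : Q}
    {f : ContDiffBump (0 : Q)} (he : ∀ q, ‖q‖ ≤ f.rOut → dp J π' q e ∉ L (π' q))
    {U : Set S} {ℓ : S → (E₂ →L[ℝ] ℝ)} (h : Form J U ℓ) {π : Q → S} (hπ : Disc J π) {q : Q}
    (hq : π q ∈ U) (hk : Ker (L (π q)) (ℓ (π q))) :
    Sm J π (fun x => term J π' e f x (ℓ x)) q := by
  by_cases h0 : π q ∈ π' '' Metric.closedBall 0 f.rOut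
  · obtain ⟨q', hq', e1⟩ := h0
    have hr : π q ∈ range π' := ⟨q', e1⟩
    obtain ⟨u, hu, hu'⟩ := sm_cf hπ hπ' hr e
    have h1 : ℓ (π q) (cf J π' e (π q)) ≠ 0 := by
      intro e2
      have e3 := (hk.2 _).2 e2
      rw [← e1, cf_apply hπ'] at e3
      exact he q' (by simpa using hq') e3
    have h2 : ContinuousAt (fun y => ℓ (π y) (cf J π' e (π y))) q := by
      refine (h.cont hπ hq hu.continuousAt).congr ?_
      filter_upwards [hu'] with y hy
      rw [hy]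
    have h3 : ∀ᶠ y in 𝓝 q, SignType.sign (ℓ (π y) (cf J π' e (π y))) =
        SignType.sign (ℓ (π q) (cf J π' e (π q))) := by
      rcases h1.lt_or_gt with h4 | h4
      · filter_upwards [h2.eventually_lt continuousAt_const h4] with y hy
        rw [sign_neg hy, sign_neg h4]
      · filter_upwards [continuousAt_const.eventually_lt h2 h4] with y hy
        rw [sign_pos hy, sign_pos h4]
    refine ⟨fun y => (f (invFun π' (π y)) * (SignType.sign (ℓ (π q) (cf J π' e (π q))) : ℝ)) • u y,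
      ((f.contDiffAt.comp q (trans_smooth hπ hπ' hr)).mul contDiffAt_const).smul hu, ?_⟩
    filter_upwards [hu', h3, near_range hπ hπ' hr] with y e1 e2 e3
    rw [map_smul, e1, term, e2, bump, if_pos e3]
  · refine ⟨fun _ => 0, contDiffAt_const, ?_⟩
    have hc : IsClosed (π' '' Metric.closedBall 0 f.rOut) :=
      ((isCompact_closedBall _ _).image hπ'.1.contMDiff.continuous).isClosed
    filter_upwards [hπ.1.contMDiff.continuous.continuousAt.preimage_mem_nhds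
      (hc.isOpen_compl.mem_nhds h0)] with y hy
    rw [map_zero, term, bump_zero hπ' f hy, zero_mul, zero_smul]

lemma exists_small {L : S → Submodule ℝ E₂} (hL : LineField J L) {π : Q → S} (hπ : Disc J π) :
    ∃ (e : Q) (f : ContDiffBump (0 : Q)), ∀ q, ‖q‖ ≤ f.rOut → dp J π q e ∉ L (π q) := by
  obtain ⟨U, ℓ, hU, hx, hc, hk⟩ := hL (π 0)
  obtain ⟨w, hw⟩ : ∃ w, ℓ (π 0) w ≠ 0 := by
    by_contra hn
    push Not at hn
    exact (hk _ hx).1 (ContinuousLinearMap.ext hn)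
  obtain ⟨e, rfl⟩ := (dp_inv hπ.1 0).surjective w
  have h1 := (Form.cont ⟨hU, hc⟩ hπ hx (continuousAt_const (y := e))).eventually_ne hw
  have h2 : ∀ᶠ y in 𝓝 (0 : Q), π y ∈ U :=
    hπ.1.contMDiff.continuous.continuousAt.preimage_mem_nhds (hU.mem_nhds hx)
  obtain ⟨r, hr, h3⟩ := Metric.nhds_basis_closedBall.eventually_iff.1 (h1.and h2)
  refine ⟨e, ⟨r / 2, r, by positivity, by linarith⟩, fun q hq hm => ?_⟩
  have h4 := h3 (x := q) (by simpa using hq)
  exact h4.1 (((hk _ h4.2).2 _).1 hm)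

lemma finite_cover {C : Set S} (hC : IsCompact C) {P : (Q → S) → ℝ → Prop}
    (h : ∀ x ∈ C, ∃ π r, Disc J π ∧ π 0 = x ∧ 0 < r ∧ P π r) :
    ∃ (k : ℕ) (π : Fin k → Q → S) (r : Fin k → ℝ), (∀ i, Disc J (π i) ∧ π i 0 ∈ C ∧ P (π i) (r i)) ∧
      ∀ x ∈ C, ∃ i q, ‖q‖ < r i ∧ π i q = x := by
  choose π r h1 h2 h3 h4 using h
  obtain ⟨t, ht⟩ := hC.elim_nhds_subcover' (fun x hx => π x hx '' Metric.ball 0 (r x hx))
    fun x hx => ((h1 x hx).1.isOpenMap _ Metric.isOpen_ball).mem_nhds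
      ⟨0, Metric.mem_ball_self (h3 x hx), h2 x hx⟩
  refine ⟨t.card, fun i => π (t.equivFin.symm i).1.1 (t.equivFin.symm i).1.2,
    fun i => r (t.equivFin.symm i).1.1 (t.equivFin.symm i).1.2,
    fun i => ⟨h1 _ _, by simp only [h2]; exact (t.equivFin.symm i).1.2, h4 _ _⟩, fun x hx => ?_⟩
  obtain ⟨y, hy, q, hq, e⟩ := mem_iUnion₂.1 (ht hx)
  refine ⟨t.equivFin ⟨y, hy⟩, q, ?_, ?_⟩
  · simpa using hq
  · simpa using e

/-- A transverse line field that is locally spanned by a smooth field. -/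
lemma exists_field [T2Space S] {L : S → Submodule ℝ E₂} (hL : LineField J L) {C : Set S}
    (hC : IsCompact C) (hD : ∀ x ∈ C, ∃ π : Q → S, Disc J π ∧ π 0 = x) :
    ∃ V : S → (E₂ →L[ℝ] ℝ) → E₂, (∀ x ∈ C, ∀ ℓ, Ker (L x) ℓ → 0 < ℓ (V x ℓ)) ∧
      (∀ x ℓ ℓ', Ker (L x) ℓ → Ker (L x) ℓ' → V x ℓ = V x ℓ' ∨ V x ℓ = -V x ℓ') ∧
      ∀ U ℓ, Form J U ℓ → ∀ π : Q → S, Disc J π → ∀ q, π q ∈ U → Ker (L (π q)) (ℓ (π q)) →
        Sm J π (fun x => V x (ℓ x)) q := by
  obtain ⟨k, π, r, h1, h2⟩ := finite_cover (J := J) hC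
    (P := fun π r => ∃ (e : Q) (f : ContDiffBump (0 : Q)), f.rOut = r ∧
      ∀ q, ‖q‖ ≤ f.rOut → dp J π q e ∉ L (π q)) fun x hx => by
      obtain ⟨π, hπ, e⟩ := hD x hx
      obtain ⟨e', f, hf⟩ := exists_small hL hπ
      exact ⟨π, f.rOut, hπ, e, f.rOut_pos, e', f, rfl, hf⟩
  choose hπ _ e f hr hf using h1
  refine ⟨fun x ℓ => ∑ i, term J (π i) (e i) (f i) x ℓ, fun x hx ℓ hℓ => ?_,
    fun x ℓ ℓ' hℓ hℓ' => ?_, fun U ℓ hU π' hπ' q hq hk =>
      sm_sum fun i => sm_term (hπ i) (hf i) hU hπ' hq hk⟩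
  · have key : ∀ i, ℓ (term J (π i) (e i) (f i) x ℓ)
        = bump (π i) (f i) x * |ℓ (cf J (π i) (e i) x)| := by
      intro i
      rw [term, map_smul, smul_eq_mul, mul_assoc, sign_mul_self]
    rw [map_sum]
    refine Finset.sum_pos' (fun i _ => ?_) ?_
    · rw [key]
      exact mul_nonneg (bump_nonneg _ _ _) (abs_nonneg _)
    · obtain ⟨i, q, hq, rfl⟩ := h2 x hx
      refine ⟨i, Finset.mem_univ _, ?_⟩
      rw [← hr] at hq
      rw [key, bump_apply (hπ i), cf_apply (hπ i)]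
      exact mul_pos ((f i).pos_of_mem_ball (by simpa using hq))
        (abs_pos.2 fun e0 => hf i q hq.le ((hℓ.2 _).2 e0))
  · obtain ⟨c, hc, h⟩ := hℓ'.prop hℓ
    rcases hc.lt_or_gt with h0 | h0
    · right
      rw [← Finset.sum_neg_distrib]
      refine Finset.sum_congr rfl fun i _ => ?_
      rw [term, term, h, sign_mul, sign_neg h0]
      simp
    · left
      refine Finset.sum_congr rfl fun i _ => ?_
      rw [term, term, h, sign_mul, sign_pos h0]
      simp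

/-- A linear change of coordinates sending the first axis into the kernel of a form and the
second basis vector to a given vector. -/
lemma exists_lin (l : Q →L[ℝ] ℝ) (w : Q) (h : l w ≠ 0) :
    ∃ T : Q ≃L[ℝ] Q, l (T (1, 0)) = 0 ∧ T (0, 1) = w := by
  have hl : ∀ y : Q, l y = y.1 * l (1, 0) + y.2 * l (0, 1) := by
    intro y
    have : y = y.1 • ((1, 0) : Q) + y.2 • ((0, 1) : Q) := by simp
    conv_lhs => rw [this, map_add, map_smul, map_smul]
    rfl
  rw [hl] at h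
  generalize l (1, 0) = A at h hl
  generalize l (0, 1) = B at h hl
  let T : Q →L[ℝ] Q := (ContinuousLinearMap.fst ℝ ℝ ℝ).smulRight (B, -A) +
    (ContinuousLinearMap.snd ℝ ℝ ℝ).smulRight w
  let T' : Q →L[ℝ] Q := (w.1 * A + w.2 * B)⁻¹ • ((ContinuousLinearMap.fst ℝ ℝ ℝ).smulRight (w.2, A) +
    (ContinuousLinearMap.snd ℝ ℝ ℝ).smulRight (-w.1, B))
  refine ⟨ContinuousLinearEquiv.equivOfInverse T T' (fun y => ?_) (fun y => ?_), ?_, ?_⟩
  · ext <;> simp [T, T'] <;> field_simp <;> ring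
  · ext <;> simp [T, T'] <;> field_simp <;> ring
  · rw [hl]
    simp [T]
    ring
  · simp [T]

lemma box_at {L : S → Submodule ℝ E₂} (hL : LineField J L) (N : ℝ)
    {V : S → (E₂ →L[ℝ] ℝ) → E₂} {π₀ : Q → S} (h₀ : Disc J π₀)
    (hV : ∀ ℓ, Ker (L (π₀ 0)) ℓ → 0 < ℓ (V (π₀ 0) ℓ))
    (hS : ∀ U ℓ, Form J U ℓ → ∀ π : Q → S, Disc J π → ∀ q, π q ∈ U → Ker (L (π q)) (ℓ (π q)) →
      Sm J π (fun x => V x (ℓ x)) q) :
    ∃ π : Q → S, Disc J π ∧ π 0 = π₀ 0 ∧ ∃ v : Q → Q, ContDiff ℝ ∞ v ∧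
      (∀ q, 3 ≤ ‖q‖ → v q = (0, 1)) ∧ (∀ q, 0 < (v q).2 ∧ |(v q).1| ≤ (v q).2 / 10) ∧
      (∀ q w : Q, ‖q‖ ≤ 2 → w ≠ 0 → |w.1| ≤ N * |w.2| → dp J π q w ∉ L (π q)) ∧
      ∀ q, ‖q‖ ≤ 2 → ∃ ℓ, Ker (L (π q)) ℓ ∧ dp J π q (v q) = V (π q) ℓ := by
  obtain ⟨U, ℓ, hU, hx, hc, hk⟩ := hL (π₀ 0)
  have hF : Form J U ℓ := ⟨hU, hc⟩
  have hpos := hV _ (hk _ hx)
  obtain ⟨T, hT1, hT2⟩ := exists_lin ((ℓ (π₀ 0)).comp (dp J π₀ 0))
    (pull J π₀ (fun x => V x (ℓ x)) 0)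
    (by rw [ContinuousLinearMap.comp_apply, dp_pull h₀]; exact hpos.ne')
  obtain ⟨π, hπ, e0, e1, e2⟩ : ∃ π : Q → S, Disc J π ∧ π 0 = π₀ 0 ∧
      ℓ (π₀ 0) (dp J π 0 (1, 0)) = 0 ∧ dp J π 0 (0, 1) = V (π₀ 0) (ℓ (π₀ 0)) := by
    refine ⟨fun q => π₀ (T q), disc_comp h₀ T, by simp, ?_, ?_⟩
    · rw [dp_comp h₀ T.hasFDerivAt, map_zero]
      exact hT1
    · rw [dp_comp h₀ T.hasFDerivAt, map_zero, ContinuousLinearEquiv.coe_coe, hT2, dp_pull h₀]
  rw [← e0] at hx hpos e1 e2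
  let u := pull J π fun x => V x (ℓ x)
  have hu0 : u 0 = (0, 1) := (dp_inv hπ.1 0).injective ((dp_pull hπ _ 0).trans e2.symm)
  have hu : ∀ q, π q ∈ U → ContDiffAt ℝ ∞ u q := fun q hq =>
    (hS U ℓ hF π hπ q hq (hk _ hq)).pull hπ
  have c0 : ∀ᶠ y in 𝓝 (0 : Q), π y ∈ U :=
    hπ.1.contMDiff.continuous.continuousAt.preimage_mem_nhds (hU.mem_nhds hx)
  have c1 : ∀ᶠ y in 𝓝 (0 : Q), |(u y).1| < (u y).2 / 10 :=
    (hu 0 hx).continuousAt.fst.abs.eventually_lt ((hu 0 hx).continuousAt.snd.div_const _)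
      (by simp [hu0])
  have c2 : ∀ᶠ y in 𝓝 (0 : Q), |N| * |ℓ (π y) (dp J π y (1, 0))| < ℓ (π y) (dp J π y (0, 1)) :=
    (continuousAt_const.mul (hF.cont hπ hx continuousAt_const).abs).eventually_lt
      (hF.cont hπ hx continuousAt_const) (by simpa [e1, e2] using hpos)
  obtain ⟨r, hr, h3⟩ := Metric.nhds_basis_closedBall.eventually_iff.1 (c0.and (c1.and c2))
  have hε : 0 < r / 3 := by positivity
  have h4 : ∀ q : Q, ‖q‖ ≤ 3 → (r / 3) • q ∈ Metric.closedBall (0 : Q) r := by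
    intro q hq
    rw [mem_closedBall_zero_iff, norm_smul, Real.norm_of_nonneg hε.le]
    nlinarith
  let R : Q ≃L[ℝ] Q := ContinuousLinearEquiv.smulLeft (Units.mk0 (r / 3) hε.ne')
  have hR : ∀ q, R q = (r / 3) • q := fun q => rfl
  let χ : ContDiffBump (0 : Q) := ⟨2, 3, by norm_num, by norm_num⟩
  have hχ0 : ∀ q : Q, 3 ≤ ‖q‖ → χ q = 0 := fun q hq => χ.zero_of_le_dist (by simpa using hq)
  refine ⟨fun q => π (R q), disc_comp hπ R, by simpa using e0,
    fun q => (χ q * (r / 3)⁻¹) • u (R q) + (1 - χ q) • ((0, 1) : Q), ?_, fun q hq => ?_,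
    fun q => ?_, fun q w hq hw hN hm => ?_, fun q hq => ?_⟩
  · refine ContDiff.add (contDiff_iff_contDiffAt.2 fun q => ?_)
      ((contDiff_const.sub χ.contDiff).smul contDiff_const)
    by_cases hq : ‖q‖ ≤ 3
    · exact (χ.contDiffAt.mul contDiffAt_const).smul
        ((hu _ (h3 (h4 q hq)).1).comp q R.contDiff.contDiffAt)
    · refine (contDiffAt_const (c := (0 : Q))).congr_of_eventuallyEq ?_
      filter_upwards [continuousAt_const.eventually_lt continuous_norm.continuousAt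
        (not_le.1 hq)] with y hy
      rw [hχ0 y hy.le, zero_mul, zero_smul]
  · simp [hχ0 q hq]
  · by_cases hq : ‖q‖ ≤ 3
    · have h5 := (h3 (h4 q hq)).2.1
      rw [← hR] at h5
      have h6 : 0 ≤ χ q * (r / 3)⁻¹ := mul_nonneg χ.nonneg (inv_pos.2 hε).le
      have h7 : 0 ≤ 1 - χ q := sub_nonneg.2 χ.le_one
      have h8 : 0 < (u (R q)).2 := by linarith [abs_nonneg (u (R q)).1]
      simp only [Prod.snd_add, Prod.smul_snd, Prod.fst_add, Prod.smul_fst, smul_eq_mul, mul_one,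
        mul_zero, add_zero]
      constructor
      · rcases h7.eq_or_lt with h9 | h9
        · have : χ q = 1 := by linarith
          rw [this]
          have := mul_pos (inv_pos.2 hε) h8
          linarith
        · have := mul_nonneg h6 h8.le
          linarith
      · rw [abs_mul, abs_of_nonneg h6]
        nlinarith
    · simp [hχ0 q (not_le.1 hq).le]
  · have h5 := h3 (h4 q (by linarith))
    rw [← hR] at h5
    have h6 := ((hk _ h5.1).2 _).1 hm
    have h7 : (R : Q →L[ℝ] Q) w = (r / 3 * w.1) • ((1, 0) : Q) + (r / 3 * w.2) • ((0, 1) : Q) := by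
      rw [ContinuousLinearEquiv.coe_coe, hR]
      ext <;> simp
    rw [dp_comp hπ R.hasFDerivAt, h7, map_add, map_smul, map_smul, map_add, map_smul, map_smul,
      smul_eq_mul, smul_eq_mul, mul_assoc, mul_assoc, ← mul_add, mul_eq_zero] at h6
    have h8 := h5.2.2
    generalize ℓ (π (R q)) (dp J π (R q) (1, 0)) = A at h6 h8
    generalize ℓ (π (R q)) (dp J π (R q) (0, 1)) = B at h6 h8
    have h9 : 0 < |w.2| := by
      refine abs_pos.2 fun e => hw ?_
      rw [e, abs_zero, mul_zero] at hN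
      exact Prod.ext (abs_nonpos_iff.1 hN) e
    have h10 : |w.1| * |A| = |w.2| * |B| := by
      rw [← abs_mul, ← abs_mul, eq_neg_of_add_eq_zero_left (h6.resolve_left hε.ne'), abs_neg]
    have h11 : |w.1| ≤ |N| * |w.2| := hN.trans (mul_le_mul_of_nonneg_right (le_abs_self N) h9.le)
    have h12 := mul_le_mul_of_nonneg_right h11 (abs_nonneg A)
    have h13 := mul_lt_mul_of_pos_left (h8.trans_le (le_abs_self B)) h9
    nlinarith
  · have h5 := h3 (h4 q (by linarith))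
    rw [← hR] at h5
    refine ⟨ℓ (π (R q)), hk _ h5.1, ?_⟩
    have h6 : χ q = 1 := χ.one_of_mem_closedBall (by simpa using hq)
    rw [dp_comp hπ R.hasFDerivAt, ContinuousLinearEquiv.coe_coe, hR (_ + _), h6, sub_self,
      zero_smul, add_zero, one_mul, smul_smul, mul_inv_cancel₀ hε.ne', one_smul]
    exact dp_pull hπ _ _

end BoxesAux

open BoxesAux in
theorem boxesStmt [T2Space S] [CompactSpace S] (_h2 : Module.finrank ℝ E₂ = 2)
    (hD : DiscStmt J S) : BoxesStmt J S := by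
  intro L hL p hp N
  have hC : IsCompact (connectedComponent p) := isClosed_connectedComponent.isCompact
  have hD' : ∀ x ∈ connectedComponent p, ∃ π : Q → S, Disc J π ∧ π 0 = x :=
    fun x hx => (hD x (hp x hx)).2
  obtain ⟨V, hV1, hV2, hV3⟩ := exists_field hL hC hD'
  obtain ⟨k, π, r, h1, h2⟩ := finite_cover (J := J) hC
    (P := fun π r => r = 1 / 4 ∧ ∃ v : Q → Q, ContDiff ℝ ∞ v ∧
      (∀ q, 3 ≤ ‖q‖ → v q = (0, 1)) ∧ (∀ q, 0 < (v q).2 ∧ |(v q).1| ≤ (v q).2 / 10) ∧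
      (∀ q w : Q, ‖q‖ ≤ 2 → w ≠ 0 → |w.1| ≤ N * |w.2| → dp J π q w ∉ L (π q)) ∧
      ∀ q, ‖q‖ ≤ 2 → ∃ ℓ, Ker (L (π q)) ℓ ∧ dp J π q (v q) = V (π q) ℓ) fun x hx => by
      obtain ⟨π₀, h₀, rfl⟩ := hD' x hx
      obtain ⟨π, hπ, e, hv⟩ := box_at hL N h₀ (hV1 _ hx) hV3
      exact ⟨π, 1 / 4, hπ, e, by norm_num, rfl, hv⟩
  choose hπ h0 hr v a1 a2 a3 a4 a5 using h1
  refine ⟨k, π, v, hπ, a1, a2, a3, a4, fun x hx => ?_, fun i q => ?_, fun i j q q' hq hq' e => ?_⟩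
  · obtain ⟨i, q, hq, e⟩ := h2 x hx
    exact ⟨i, q, hr i ▸ hq, e⟩
  · rw [connectedComponent_eq (h0 i)]
    exact (isPreconnected_range (hπ i).1.contMDiff.continuous).subset_connectedComponent
      (mem_range_self 0) (mem_range_self q)
  · obtain ⟨ℓ, hℓ, e1⟩ := a5 i q hq
    obtain ⟨ℓ', hℓ', e2⟩ := a5 j q' hq'
    rw [e1, e2, ← e]
    rw [← e] at hℓ'
    exact hV2 _ _ _ hℓ hℓ'

end

end Pool.Agent.Lib.MP_72f1d0_gt.PC
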