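import Pool.Agent.Lib.MP_72f1d0_gt.PC.CollarB

/-!
An annulus next to an embedded closed curve in a surface.
-/

set_option linter.unusedSectionVars false

open scoped ContDiff Manifold Topology
open Set Filter

namespace Pool.Agent.Lib.MP_72f1d0_gt.PC

open Eq.Man (dp inv_of_inj)

noncomputable section

variable {E₂ H₂ : Type*} [NormedAddCommGroup E₂] [NormedSpace ℝ E₂] [FiniteDimensional ℝ E₂]
  [TopologicalSpace H₂] {J : ModelWithCorners ℝ E₂ H₂} {S : Type*} [TopologicalSpace S]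
  [ChartedSpace H₂ S] [IsManifold J ∞ S]

namespace Collar

theorem sgn_pow {b : ℝ} (hb : b = 1 ∨ b = -1) (n : ℤ) : |b ^ n| = 1 := by
  rcases hb with rfl | rfl <;> simp [abs_zpow]

theorem per_zpow {b : ℝ} (hb : b ≠ 0) {T : Q → S} (per : ∀ s t, T (s, t + 1) = T (b * s, t))
    (n : ℤ) : ∀ s t, T (s, t + n) = T (b ^ n * s, t) := by
  induction n using Int.induction_on with
  | zero => simp
  | succ n ih =>
    intro s t
    rw [Int.cast_add, Int.cast_one, ← add_assoc, per, ih, zpow_add_one₀ hb, mul_assoc]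
  | pred n ih =>
    intro s t
    have h1 := per (b⁻¹ * s) (t + ((-(n : ℤ) - 1 : ℤ) : ℝ))
    rw [mul_inv_cancel_left₀ hb] at h1
    rw [← h1, show t + ((-(n : ℤ) - 1 : ℤ) : ℝ) + 1 = t + ((-(n : ℤ) : ℤ) : ℝ) by push_cast; ring,
      ih, zpow_sub_one₀ hb, mul_assoc]

theorem tan_cont {g : Q → S} {x : Q} (hg : ∀ᶠ y in 𝓝 x, ContMDiffAt 𝓘(ℝ, Q) J ∞ g y) (v : Q) :
    ContinuousAt (fun y => (⟨g y, mx J g y v⟩ : TangentBundle J S)) x := by
  obtain ⟨O, hO, ho, hx⟩ := eventually_nhds_iff.mp hg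
  have h0 : ContMDiffOn 𝓘(ℝ, Q) J ∞ g O := fun y hy => (hO y hy).contMDiffWithinAt
  have c1 : Continuous fun y : Q => (tangentBundleModelSpaceHomeomorph 𝓘(ℝ, Q)).symm (y, v) :=
    (tangentBundleModelSpaceHomeomorph 𝓘(ℝ, Q)).symm.continuous.comp
      (continuous_id.prodMk continuous_const)
  have hp : Continuous fun z : TangentBundle 𝓘(ℝ, Q) Q => z.1 := FiberBundle.continuous_proj _ _
  have h1 := (h0.continuousOn_tangentMapWithin (by simp) ho.uniqueMDiffOn).continuousAt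
    (x := (tangentBundleModelSpaceHomeomorph 𝓘(ℝ, Q)).symm (x, v))
    (hp.continuousAt.preimage_mem_nhds (ho.mem_nhds hx))
  refine (ContinuousAt.comp (f := fun y : Q =>
    (tangentBundleModelSpaceHomeomorph 𝓘(ℝ, Q)).symm (y, v)) h1 c1.continuousAt).congr ?_
  filter_upwards [ho.mem_nhds hx] with y hy
  exact congrArg (fun A : Q →L[ℝ] E₂ => (⟨g y, A v⟩ : TangentBundle J S))
    (mfderivWithin_of_mem_nhds (ho.mem_nhds hy))

theorem exists_rad [T2Space S] {L : S → Submodule ℝ E₂} (hL : LineField J L) {c : ℝ → S} {b : ℝ}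
    (hb : b = 1 ∨ b = -1) {T : Q → S} (per : ∀ (n : ℤ) s t, T (s, t + n) = T (b ^ n * s, t))
    (zero : ∀ t, T (0, t) = c t) (hc : ∀ t t', c t = c t' → ∃ n : ℤ, t' = t + n)
    (ld : ∀ t, IsLocalDiffeomorphAt 𝓘(ℝ, Q) J ∞ T (0, t))
    (tr : ∀ t, mx J T (0, t) (0, 1) ∉ L (T (0, t))) :
    ∃ d : ℝ, 0 < d ∧ (∀ s t, |s| < d → IsLocalDiffeomorphAt 𝓘(ℝ, Q) J ∞ T (s, t) ∧
      mx J T (s, t) (0, 1) ∉ L (T (s, t))) ∧ ∀ s t s' t', |s| < d → |s'| < d →
      T (s, t) = T (s', t') → ∃ n : ℤ, t' = t + n ∧ s = b ^ n * s' := by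
  have hb0 : b ≠ 0 := by rcases hb with rfl | rfl <;> norm_num
  have hbn : ∀ n : ℤ, b ^ n ≠ 0 := fun n => zpow_ne_zero n hb0
  have habs : ∀ (n : ℤ) s, |b ^ n * s| = |s| := fun n s => by rw [abs_mul, sgn_pow hb, one_mul]
  have hK : IsCompact (Icc (0 : ℝ) 1) := isCompact_Icc
  have hcont : ∀ t, ContinuousAt T (0, t) := fun t => (ld t).contMDiffAt.continuousAt
  have e1 : ∀ᶠ s in 𝓝 (0 : ℝ), ∀ t ∈ Icc (0 : ℝ) 1, IsLocalDiffeomorphAt 𝓘(ℝ, Q) J ∞ T (s, t) ∧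
      mx J T (s, t) (0, 1) ∉ L (T (s, t)) := by
    refine hK.eventually_forall_of_forall_eventually fun t _ => (ld_eventually (ld t)).1.and ?_
    obtain ⟨U, ℓ, hU, hx, hℓ, hk⟩ := hL (T (0, t))
    have c1 := tan_cont ((ld_eventually (ld t)).1.mono fun y hy => hy.contMDiffAt) ((0, 1) : Q)
    have hp : Continuous fun z : TangentBundle J S => z.1 := FiberBundle.continuous_proj _ _
    have c2 := ContinuousAt.comp (f := fun y => (⟨T y, mx J T y (0, 1)⟩ : TangentBundle J S))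
      (hℓ.continuousAt ((hU.preimage hp).mem_nhds hx)) c1
    have c3 := (c2.ne_iff_eventually_ne (continuousAt_const (y := (0 : ℝ)))).mp
      fun h => tr t (((hk _ hx).2 _).mpr h)
    filter_upwards [c3, (hcont t).preimage_mem_nhds (hU.mem_nhds hx)] with y a1 a2 h
    exact a1 (((hk _ a2).2 _).mp h)
  have e2 : ∀ᶠ z in 𝓝 ((0, 0) : ℝ × ℝ), ∀ k ∈ Icc (0 : ℝ) 1 ×ˢ Icc (0 : ℝ) 1,
      T (z.1, k.1) = T (z.2, k.2) → ∃ n : ℤ, k.2 = k.1 + n ∧ z.1 = b ^ n * z.2 := by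
    refine (hK.prod hK).eventually_forall_of_forall_eventually fun k _ => ?_
    have c1 : ContinuousAt (fun y : (ℝ × ℝ) × ℝ × ℝ => ((y.1.1, y.2.1) : Q)) ((0, 0), k) := by
      fun_prop
    have c2 : ContinuousAt (fun y : (ℝ × ℝ) × ℝ × ℝ => ((y.1.2, y.2.2) : Q)) ((0, 0), k) := by
      fun_prop
    by_cases he : T (0, k.1) = T (0, k.2)
    · rw [zero, zero] at he
      obtain ⟨n, hn⟩ := hc _ _ he
      obtain ⟨O, hO, hinj⟩ := (ld_eventually (ld k.1)).2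
      have c3 : ContinuousAt (fun y : (ℝ × ℝ) × ℝ × ℝ => ((b ^ n * y.1.2, y.2.2 - n) : Q))
          ((0, 0), k) := by fun_prop
      have hO' : O ∈ 𝓝 ((b ^ n * 0, k.2 - n) : Q) := by rwa [mul_zero, hn, add_sub_cancel_right]
      filter_upwards [c1.preimage_mem_nhds hO, c3.preimage_mem_nhds hO'] with y a1 a2 h
      have e := hinj a1 a2 (h.trans (by rw [← per, sub_add_cancel]))
      have e1 : y.2.1 = y.2.2 - n := congrArg Prod.snd e
      exact ⟨n, by rw [e1, sub_add_cancel], congrArg Prod.fst e⟩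
    · have d1 : ContinuousAt (fun y : (ℝ × ℝ) × ℝ × ℝ => T (y.1.1, y.2.1)) ((0, 0), k) :=
        ContinuousAt.comp_of_eq (hcont k.1) c1 rfl
      have d2 : ContinuousAt (fun y : (ℝ × ℝ) × ℝ × ℝ => T (y.1.2, y.2.2)) ((0, 0), k) :=
        ContinuousAt.comp_of_eq (hcont k.2) c2 rfl
      filter_upwards [(d1.ne_iff_eventually_ne d2).1 he] with y a1 h
      exact absurd h a1
  obtain ⟨d₁, hd₁, b₁⟩ := Metric.eventually_nhds_iff.1 e1
  obtain ⟨d₂, hd₂, b₂⟩ := Metric.eventually_nhds_iff.1 e2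
  have hf : ∀ t : ℝ, Int.fract t ∈ Icc (0 : ℝ) 1 := fun t =>
    ⟨Int.fract_nonneg t, (Int.fract_lt_one t).le⟩
  refine ⟨min d₁ d₂, lt_min hd₁ hd₂, fun s t hs => ?_, fun s t s' t' hs hs' h => ?_⟩
  · obtain ⟨a1, a2⟩ := b₁ (y := b ^ ⌊t⌋ * s)
      (by rw [Real.dist_eq, sub_zero, habs]; exact hs.trans_le (min_le_left _ _)) _ (hf t)
    let A : Q ≃L[ℝ] Q := (ContinuousLinearEquiv.unitsEquivAut ℝ (Units.mk0 _ (hbn ⌊t⌋))).prodCongr
      (ContinuousLinearEquiv.refl ℝ ℝ)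
    let γ : Q → Q := fun y => A y + (0, -(⌊t⌋ : ℝ))
    have hγ : ∀ y, γ y = (b ^ ⌊t⌋ * y.1, y.2 - ⌊t⌋) := fun y => by
      simp [γ, A, mul_comm, sub_eq_add_neg]
    have hT : T ∘ γ = T := funext fun y => by rw [Function.comp_apply, hγ, ← per, sub_add_cancel]
    have h0 : γ (s, t) = (b ^ ⌊t⌋ * s, Int.fract t) := hγ _
    rw [← h0] at a1 a2
    have hd : HasFDerivAt γ (A : Q →L[ℝ] Q) (s, t) := A.hasFDerivAt.add_const _
    let Γ : Q ≃ₘ^∞⟮𝓘(ℝ, Q), 𝓘(ℝ, Q)⟯ Q :=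
      { toEquiv := A.toEquiv.trans (Equiv.addRight ((0, -(⌊t⌋ : ℝ)) : Q))
        contMDiff_toFun := (A.contDiff.add contDiff_const).contMDiff
        contMDiff_invFun := (A.symm.contDiff.comp (contDiff_id.add contDiff_const)).contMDiff }
    constructor
    · have := IsLocalDiffeomorphAt.comp J S (f := γ) (Γ.isLocalDiffeomorph (s, t)) a1
      rwa [hT] at this
    · have h1 := mx_comp hd a1.contMDiffAt
      rw [hT] at h1
      rw [h1, ← congrFun hT (s, t)]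
      simpa [A] using a2
  · rw [← Int.fract_add_floor t, ← Int.fract_add_floor t', per, per] at h
    obtain ⟨n, h1, h2⟩ := b₂ (y := (b ^ ⌊t⌋ * s, b ^ ⌊t'⌋ * s')) (by
      rw [Prod.dist_eq, Real.dist_eq, Real.dist_eq, sub_zero, sub_zero, habs, habs]
      exact max_lt (hs.trans_le (min_le_right _ _)) (hs'.trans_le (min_le_right _ _)))
      (Int.fract t, Int.fract t') ⟨hf t, hf t'⟩ h
    refine ⟨n + ⌊t'⌋ - ⌊t⌋, ?_, mul_left_cancel₀ (hbn ⌊t⌋) ?_⟩
    · have h3 : Int.fract t' = Int.fract t + n := h1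
      have := Int.fract_add_floor t
      have := Int.fract_add_floor t'
      push_cast
      linarith
    · have h3 : b ^ ⌊t⌋ * s = b ^ n * (b ^ ⌊t'⌋ * s') := h2
      rw [h3, ← mul_assoc, ← mul_assoc, ← zpow_add₀ hb0, ← zpow_add₀ hb0]
      congr 2
      ring

end Collar

open Collar in
theorem collarStmt [T2Space S] (h2 : Module.finrank ℝ E₂ = 2) (hI : IFTStmt) (hD : DiscStmt J S) :
    CollarStmt J S := by
  intro L hL c ⟨hc, hci, htr⟩ hint
  have _ := h2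
  have hp : ∀ t, c (t + 1) = c t := fun t => ((hci t (t + 1)).mpr ⟨1, by simp⟩).symm
  obtain ⟨ι, _, π, ρ, hπ, s, p, n, q, z⟩ := exists_cover hc.continuous hp
    fun t => (hD _ (hint t)).1
  obtain ⟨b, w, hb, hw, pw, hs, hN⟩ := exists_normal hc hp
    (fun t h => htr t (by rw [h]; exact Submodule.zero_mem _)) hπ s p n q z
  have hb0 : b ≠ 0 := by rcases hb with rfl | rfl <;> norm_num
  obtain ⟨T, hT⟩ := exists_gd hc hp hb0 hπ hw pw hs Finset.univ
  have hl : ∀ t, IsLocalDiffeomorphAt 𝓘(ℝ, Q) J ∞ T (0, t) ∧ mx J T (0, t) (0, 1) = dc J c t :=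
    fun t => by
      obtain ⟨π, hπ, h0⟩ := (hD _ (hint t)).1
      exact gd_local hI hT hπ ⟨0, h0⟩ (hN t)
  have per := per_zpow hb0 hT.per
  obtain ⟨d, hd, h1, h3⟩ := exists_rad hL hb per hT.zero (fun t t' => (hci t t').mp)
    (fun t => (hl t).1) fun t => by rw [(hl t).2, hT.zero]; exact htr t
  obtain ⟨m, hm, hbm⟩ : ∃ m : ℤ, m ≠ 0 ∧ ∀ n : ℤ, b ^ n = 1 ↔ ∃ k, n = m * k := by
    rcases hb with rfl | rfl
    · exact ⟨1, one_ne_zero, fun n => by simp⟩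
    · refine ⟨2, two_ne_zero, fun n => ?_⟩
      rw [← even_iff_exists_two_mul]
      rcases Int.even_or_odd n with h | h
      · exact ⟨fun _ => h, fun _ => h.neg_one_zpow⟩
      · rw [h.neg_one_zpow]
        exact ⟨fun e => by norm_num at e, fun e => absurd e (Int.not_even_iff_odd.mpr h)⟩
  have hm' : (m : ℝ) ≠ 0 := Int.cast_ne_zero.mpr hm
  let κ : Q → Q := fun x => (d * Real.sigmoid x.1, m * x.2)
  have hpos : ∀ u, 0 < d * Real.sigmoid u := fun u => mul_pos hd (Real.sigmoid_pos u)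
  have hlt : ∀ u, |d * Real.sigmoid u| < d := fun u => by
    rw [abs_of_pos (hpos u)]
    exact mul_lt_of_lt_one_right hd (Real.sigmoid_lt_one u)
  have hκ : ContDiff ℝ ∞ κ :=
    (contDiff_const.mul ((contDiff_sigmoid.of_le le_top).comp contDiff_fst)).prodMk
      (contDiff_const.mul contDiff_snd)
  have dκ : ∀ x : Q, HasFDerivAt κ _ x := fun x =>
    (((Real.hasDerivAt_sigmoid x.1).const_mul d).comp_hasFDerivAt x
      (hasFDerivAt_fst (𝕜 := ℝ) (p := x))).prodMk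
      ((hasFDerivAt_snd (𝕜 := ℝ) (p := x)).const_mul (m : ℝ))
  have lκ : ∀ x, IsLocalDiffeomorphAt 𝓘(ℝ, Q) 𝓘(ℝ, Q) ∞ κ x := fun x =>
    hI Q Q κ univ isOpen_univ hκ.contDiffOn (fun x _ => inv_of_inj rfl _ (by
      rw [(dκ x).fderiv, injective_iff_map_eq_zero]
      rintro ⟨u, v⟩ h
      have a1 := (Real.sigmoid_pos x.1).ne'
      have a2 := (sub_pos.mpr (Real.sigmoid_lt_one x.1)).ne'
      simpa [hd.ne', hm, a1, a2] using h)) x trivial
  refine ⟨T ∘ κ, ⟨fun x => (lκ x).comp J S (h1 _ _ (hlt x.1)).1, fun x y => ⟨fun h => ?_, ?_⟩⟩, ?_,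
    fun t h => ?_⟩
  · obtain ⟨n, e1, e2⟩ := h3 _ _ _ _ (hlt x.1) (hlt y.1) h
    have e3 : b ^ n = 1 := by
      rcases abs_eq (zero_le_one' ℝ) |>.mp (sgn_pow hb n) with e | e
      · exact e
      · rw [e] at e2
        linarith [hpos x.1, hpos y.1]
    obtain ⟨k, rfl⟩ := (hbm n).mp e3
    rw [e3, one_mul] at e2
    refine ⟨k, Prod.ext ?_ (mul_left_cancel₀ hm' ?_)⟩
    · simpa using (Real.sigmoid_injective (mul_left_cancel₀ hd.ne' e2)).symm
    · rw [e1]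
      simp [mul_add]
  · rintro ⟨k, rfl⟩
    have := per (m * k) (d * Real.sigmoid x.1) (m * x.2)
    rw [(hbm _).mpr ⟨k, rfl⟩, one_mul] at this
    simpa [κ, mul_add] using this.symm
  · have hcon : ContinuousOn (fun u : ℝ => T (u, 0)) (Ioo (-d) d) := fun u hu =>
      (ContinuousAt.comp (f := fun u : ℝ => ((u, 0) : Q))
        (h1 u 0 (abs_lt.mpr hu)).1.contMDiffAt.continuousAt (by fun_prop)).continuousWithinAt
    refine (isPreconnected_Ioo.image _ hcon).subset_connectedComponent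
      ⟨0, ⟨by linarith, hd⟩, hT.zero 0⟩ ⟨d * Real.sigmoid 0, abs_lt.mp (hlt 0), ?_⟩
    simp [κ]
  · have e := mx_comp (dκ (0, t)) (h1 _ _ (hlt 0)).1.contMDiffAt
    have e' : dp J (T ∘ κ) (0, t) (0, 1) = (m : ℝ) • mx J T (κ (0, t)) (0, 1) := by
      rw [← map_smul]
      refine (congrArg (fun A : Q →L[ℝ] E₂ => A (0, 1)) e).trans ?_
      simp
    rw [e'] at h
    exact (h1 _ _ (hlt 0)).2 ((Submodule.smul_mem_iff _ hm').mp h)

end

end Pool.Agent.Lib.MP_72f1d0_gt.PC
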