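import Pool.Agent.Lib.MP_72f1d0_gt.PC.Defs

/-!
Discs as charts, and an exponential map along a closed curve.
-/

set_option linter.unusedSectionVars false

open scoped ContDiff Manifold Topology
open Set Filter

namespace Pool.Agent.Lib.MP_72f1d0_gt.PC.Collar

open Eq.Man (dp inj_eventually inv_of_inj)

noncomputable section

variable {E₂ H₂ : Type*} [NormedAddCommGroup E₂] [NormedSpace ℝ E₂] [TopologicalSpace H₂]
  {J : ModelWithCorners ℝ E₂ H₂} {S : Type*} [TopologicalSpace S] [ChartedSpace H₂ S]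
  {X X' : Type*} [NormedAddCommGroup X] [NormedSpace ℝ X] [NormedAddCommGroup X']
  [NormedSpace ℝ X']

variable (J) in
/-- The differential of a map from a vector space to the surface. -/
def mx (g : X → S) (x : X) : X →L[ℝ] E₂ := mfderiv 𝓘(ℝ, X) J g x

/-- The inverse of a disc. -/
def sg (π : ℂ → S) : S → ℂ := Function.invFun π

variable (J) in
/-- The differential of the inverse of a disc. -/
def ds (π : ℂ → S) (y : S) : E₂ →L[ℝ] ℂ := mfderiv J 𝓘(ℝ, ℂ) (sg π) y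

theorem mx_comp {g : X → S} {k : X' → X} {k' : X' →L[ℝ] X} {x : X'} (hk : HasFDerivAt k k' x)
    (hg : ContMDiffAt 𝓘(ℝ, X) J ∞ g (k x)) :
    mx J (g ∘ k) x = (mx J g (k x)).comp k' :=
  (HasMFDerivAt.comp x (hg.mdifferentiableAt (by simp)).hasMFDerivAt hk.hasMFDerivAt).mfderiv

theorem mx_congr {g g' : X → S} {x : X} (h : g =ᶠ[𝓝 x] g') : mx J g x = mx J g' x :=
  Filter.EventuallyEq.mfderiv_eq h

theorem ld_congr {g g' : X → S} {x : X} (hg : IsLocalDiffeomorphAt 𝓘(ℝ, X) J ∞ g x)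
    (h : g' =ᶠ[𝓝 x] g) : IsLocalDiffeomorphAt 𝓘(ℝ, X) J ∞ g' x := by
  obtain ⟨Φ, hx, he⟩ := hg
  obtain ⟨O, hO, ho, hxO⟩ := eventually_nhds_iff.mp h
  let e := Φ.toOpenPartialHomeomorph.restrOpen O ho
  refine ⟨⟨e.toPartialEquiv, e.open_source, e.open_target,
    Φ.contMDiffOn_toFun.mono inter_subset_left, Φ.contMDiffOn_invFun.mono inter_subset_left⟩,
    ⟨hx, hxO⟩, fun y hy => (hO y hy.2).trans (he hy.1)⟩

theorem ld_eventually {g : X → S} {x : X} (hg : IsLocalDiffeomorphAt 𝓘(ℝ, X) J ∞ g x) :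
    (∀ᶠ y in 𝓝 x, IsLocalDiffeomorphAt 𝓘(ℝ, X) J ∞ g y) ∧ ∃ O ∈ 𝓝 x, InjOn g O := by
  obtain ⟨Φ, hx, he⟩ := hg
  refine ⟨?_, Φ.source, Φ.open_source.mem_nhds hx, fun a ha b hb h => ?_⟩
  · filter_upwards [Φ.open_source.mem_nhds hx] with y hy using ⟨Φ, hy, he⟩
  · rw [he ha, he hb] at h
    exact Φ.toPartialEquiv.injOn ha hb h

variable {π : ℂ → S}

theorem sg_pi (hπ : Disc J π) (z : ℂ) : sg π (π z) = z := Function.leftInverse_invFun hπ.2 z

theorem pi_sg {y : S} (hy : y ∈ range π) : π (sg π y) = y := Function.invFun_eq hy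

theorem range_nhds (hπ : Disc J π) {y : S} (hy : y ∈ range π) : range π ∈ 𝓝 y :=
  hπ.1.isOpen_range.mem_nhds hy

theorem sg_smooth (hπ : Disc J π) {y : S} (hy : y ∈ range π) :
    ContMDiffAt J 𝓘(ℝ, ℂ) ∞ (sg π) y := by
  obtain ⟨z, rfl⟩ := hy
  refine (hπ.1 z).localInverse_contMDiffAt.congr_of_eventuallyEq ?_
  filter_upwards [(hπ.1 z).localInverse_eventuallyEq_right] with y hy
  have : π ((hπ.1 z).localInverse y) = y := hy
  rw [← sg_pi hπ ((hπ.1 z).localInverse y), this]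

theorem sg_comp (hπ : Disc J π) {g : X → S} {x : X} (hg : ContMDiffAt 𝓘(ℝ, X) J ∞ g x)
    (hx : g x ∈ range π) : ContDiffAt ℝ ∞ (sg π ∘ g) x ∧
      HasFDerivAt (sg π ∘ g) ((ds J π (g x)).comp (mx J g x)) x :=
  ⟨((sg_smooth hπ hx).comp x hg).contDiffAt,
    (HasMFDerivAt.comp x ((sg_smooth hπ hx).mdifferentiableAt (by simp)).hasMFDerivAt
      (hg.mdifferentiableAt (by simp)).hasMFDerivAt).hasFDerivAt⟩

theorem mx_ds (hπ : Disc J π) {y : S} (hy : y ∈ range π) (v : E₂) :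
    mx J π (sg π y) (ds J π y v) = v := by
  have e : π ∘ sg π =ᶠ[𝓝 y] id := by
    filter_upwards [range_nhds hπ hy] with x hx using pi_sg hx
  have h1 := mfderiv_comp y ((hπ.1.contMDiff (sg π y)).mdifferentiableAt (by simp))
    ((sg_smooth hπ hy).mdifferentiableAt (by simp))
  rw [e.mfderiv_eq, mfderiv_id] at h1
  exact (congrArg (fun T : E₂ →L[ℝ] E₂ => T v) h1).symm

theorem ds_mx (hπ : Disc J π) {y : S} (hy : y ∈ range π) (v : ℂ) :
    ds J π y (mx J π (sg π y) v) = v := by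
  have h1 := (sg_comp hπ (hπ.1.contMDiff (sg π y)) ⟨_, rfl⟩).2
  rw [show sg π ∘ π = id from funext (sg_pi hπ), pi_sg hy] at h1
  exact congrArg (fun T : ℂ →L[ℝ] ℂ => T v) (h1.unique (hasFDerivAt_id _))

/-- A strip around the curve `c` with normal derivative `N`. -/
structure Gd (J : ModelWithCorners ℝ E₂ H₂) (c : ℝ → S) (b : ℝ) (T : Q → S) (N : ℝ → E₂) :
    Prop where
  per : ∀ s t, T (s, t + 1) = T (b * s, t)
  zero : ∀ t, T (0, t) = c t
  smooth : ∀ t, ∀ᶠ x in 𝓝 ((0, t) : Q), ContMDiffAt 𝓘(ℝ, Q) J ∞ T x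
  fib : ∀ t, mx J T (0, t) (1, 0) = N t

theorem gd_zero {c : ℝ → S} (hc : ContMDiff 𝓘(ℝ, ℝ) J ∞ c) (hp : ∀ t, c (t + 1) = c t) (b : ℝ) :
    Gd J c b (fun x => c x.2) fun _ => 0 where
  per _ t := hp t
  zero _ := rfl
  smooth _ := Eventually.of_forall fun x =>
    (hc x.2).comp x (contDiff_snd.contMDiff (𝕜 := ℝ) (n := ∞) x)
  fib t := by
    have h := mx_comp (J := J) (g := c) (k := Prod.snd) (x := ((0, t) : Q)) hasFDerivAt_snd (hc t)
    have h' : mx J (fun x : Q => c x.2) (0, t) = _ := h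
    rw [h']
    simp

theorem gd_step {c : ℝ → S} {b : ℝ} (hb : b ≠ 0) {T : Q → S} {N : ℝ → E₂} (hT : Gd J c b T N)
    (hπ : Disc J π) {w : ℝ → ℂ} (hw : ContDiff ℝ ∞ w) (pw : ∀ t, w (t + 1) = b • w t)
    (hs : ∀ t, c t ∉ range π → ∀ᶠ u in 𝓝 t, w u = 0) :
    ∃ T' : Q → S, Gd J c b T' fun t => N t + mx J π (sg π (c t)) (w t) := by
  classical
  let k : Q → ℂ := fun x => sg π (T x) + x.1 • w x.2
  let T' : Q → S := fun x => if w x.2 = 0 then T x else π (k x)
  have hk0 : ∀ t, k (0, t) = sg π (c t) := fun t => by simp [k, hT.zero]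
  have hcont : ∀ t, ContinuousAt T (0, t) := fun t => (hT.smooth t).self_of_nhds.continuousAt
  have hin : ∀ t, c t ∈ range π → (∀ᶠ x in 𝓝 ((0, t) : Q), T' x = (π ∘ k) x) ∧
      ∀ᶠ x in 𝓝 ((0, t) : Q), ContDiffAt ℝ ∞ k x := by
    intro t ht
    have e1 : ∀ᶠ x in 𝓝 ((0, t) : Q), T x ∈ range π :=
      (hcont t).preimage_mem_nhds (range_nhds hπ (by rwa [hT.zero]))
    constructor
    · filter_upwards [e1] with x hx
      simp only [T', Function.comp]
      split_ifs with h0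
      · simp [k, h0, pi_sg hx]
      · rfl
    · filter_upwards [e1, hT.smooth t] with x hx hsm
      exact (sg_comp hπ hsm hx).1.add (contDiff_fst.smul (hw.comp contDiff_snd)).contDiffAt
  have hout : ∀ t, c t ∉ range π → T' =ᶠ[𝓝 ((0, t) : Q)] T := by
    intro t ht
    have c2 : Tendsto Prod.snd (𝓝 ((0, t) : Q)) (𝓝 t) := continuous_snd.continuousAt
    filter_upwards [c2.eventually (hs t ht)] with x hx
    simp only [T', if_pos hx]
  refine ⟨T', fun s t => ?_, fun t => ?_, fun t => ?_, fun t => ?_⟩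
  · simp only [T', k, pw, hT.per, smul_eq_zero, hb, false_or, smul_smul, mul_comm s b]
  · simp only [T']
    split_ifs with h0
    · exact hT.zero t
    · have ht : c t ∈ range π := by
        by_contra ht
        exact h0 (hs t ht).self_of_nhds
      rw [hk0, pi_sg ht]
  · by_cases ht : c t ∈ range π
    · obtain ⟨e1, e2⟩ := hin t ht
      filter_upwards [e1.eventually_nhds, e2] with x a1 a2
      exact ((hπ.1.contMDiff _).comp x a2.contMDiffAt).congr_of_eventuallyEq a1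
    · filter_upwards [(hout t ht).eventually_nhds, hT.smooth t] with x a1 a2
      exact a2.congr_of_eventuallyEq a1
  · by_cases ht : c t ∈ range π
    · obtain ⟨e1, -⟩ := hin t ht
      have b1 := (sg_comp hπ (hT.smooth t).self_of_nhds (by rwa [hT.zero])).2
      have b2 : HasFDerivAt (fun x : Q => w x.2) ((fderiv ℝ w t).comp (ContinuousLinearMap.snd ℝ ℝ ℝ))
          (0, t) :=
        HasFDerivAt.comp (g := w) ((0, t) : Q) (hw.differentiable (by simp) t).hasFDerivAt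
          hasFDerivAt_snd
      have b3 := b1.add ((hasFDerivAt_fst (𝕜 := ℝ) (p := ((0, t) : Q))).smul b2)
      have b4 := mx_comp (J := J) (g := π) (k := k) b3 (hπ.1.contMDiff _)
      rw [mx_congr e1, b4, hk0]
      simp [hT.zero, hT.fib, mx_ds hπ ht]
    · rw [mx_congr (hout t ht), hT.fib, (hs t ht).self_of_nhds, map_zero, add_zero]

theorem exists_gd {c : ℝ → S} (hc : ContMDiff 𝓘(ℝ, ℝ) J ∞ c) (hp : ∀ t, c (t + 1) = c t)
    {b : ℝ} (hb : b ≠ 0) {ι : Type*} {π : ι → ℂ → S} (hπ : ∀ i, Disc J (π i)) {w : ι → ℝ → ℂ}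
    (hw : ∀ i, ContDiff ℝ ∞ (w i)) (pw : ∀ i t, w i (t + 1) = b • w i t)
    (hs : ∀ i t, c t ∉ range (π i) → ∀ᶠ u in 𝓝 t, w i u = 0) (A : Finset ι) :
    ∃ T : Q → S, Gd J c b T fun t => ∑ i ∈ A, mx J (π i) (sg (π i) (c t)) (w i t) := by
  classical
  induction A using Finset.induction_on with
  | empty => exact ⟨_, by simpa using gd_zero hc hp b⟩
  | insert i A hi ih =>
    obtain ⟨T, hT⟩ := ih
    obtain ⟨T', hT'⟩ := gd_step hb hT (hπ i) (hw i) (pw i) (hs i)
    refine ⟨T', ?_⟩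
    simpa only [Finset.sum_insert hi, add_comm] using hT'

/-- A strip whose normal derivative is transverse to the curve is a local diffeomorphism. -/
theorem gd_local (hI : IFTStmt) {c : ℝ → S} {b : ℝ} {T : Q → S} {N : ℝ → E₂} (hT : Gd J c b T N)
    (hπ : Disc J π) {t : ℝ} (ht : c t ∈ range π)
    (hN : ∀ x y : ℝ, x • N t + y • dc J c t = 0 → x = 0 ∧ y = 0) :
    IsLocalDiffeomorphAt 𝓘(ℝ, Q) J ∞ T (0, t) ∧ mx J T (0, t) (0, 1) = dc J c t := by
  have h0 := (hT.smooth t).self_of_nhds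
  have ht' : T (0, t) ∈ range π := by rwa [hT.zero]
  have hv : mx J T (0, t) (0, 1) = dc J c t := by
    have := mx_comp (J := J) (hasFDerivAt_prodMk_right (𝕜 := ℝ) (0 : ℝ) t) h0
    rw [show (T ∘ fun u : ℝ => ((0, u) : Q)) = c from funext hT.zero] at this
    exact (congrArg (fun A : ℝ →L[ℝ] E₂ => A 1) this).symm
  refine ⟨?_, hv⟩
  have e1 : ∀ᶠ x in 𝓝 ((0, t) : Q), T x ∈ range π :=
    h0.continuousAt.preimage_mem_nhds (range_nhds hπ ht')
  obtain ⟨s0, d0⟩ := sg_comp hπ h0 ht'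
  have hi : Function.Injective (fderiv ℝ (sg π ∘ T) (0, t)) := by
    rw [d0.fderiv, injective_iff_map_eq_zero]
    rintro ⟨x, y⟩ h
    have h1 := congrArg (mx J π (sg π (T (0, t)))) h
    rw [ContinuousLinearMap.comp_apply, mx_ds hπ ht', map_zero,
      show ((x, y) : Q) = x • ((1, 0) : Q) + y • ((0, 1) : Q) by simp, map_add, map_smul, map_smul,
      hT.fib, hv] at h1
    exact Prod.ext (hN x y h1).1 (hN x y h1).2
  have e2 := inj_eventually (s0.continuousAt_fderiv (by simp)) hi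
  obtain ⟨O, hO, ho, hx⟩ := eventually_nhds_iff.mp ((e1.and (hT.smooth t)).and e2)
  have h1 := hI Q ℂ (sg π ∘ T) O ho
    (fun x hx => (sg_comp hπ (hO x hx).1.2 (hO x hx).1.1).1.contDiffWithinAt)
    (fun x hx => inv_of_inj (by simp) _ (hO x hx).2) _ hx
  refine ld_congr (h1.comp J S (hπ.1 _)) ?_
  filter_upwards [e1] with x hx using (pi_sg hx).symm

end

end Pool.Agent.Lib.MP_72f1d0_gt.PC.Collar
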