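import Pool.Agent.Lib.MP_72f1d0_gt.PC.CollarA

/-!
A normal field along a closed curve, periodic up to sign.
-/

set_option linter.unusedSectionVars false

open scoped ContDiff Manifold Topology ComplexConjugate
open Set Filter

namespace Pool.Agent.Lib.MP_72f1d0_gt.PC.Collar

open Eq.Man (lift_smooth sign_const)

noncomputable section

variable {E₂ H₂ : Type*} [NormedAddCommGroup E₂] [NormedSpace ℝ E₂] [TopologicalSpace H₂]
  {J : ModelWithCorners ℝ E₂ H₂} {S : Type*} [TopologicalSpace S] [ChartedSpace H₂ S]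

theorem per_int {α : Type*} {f : ℝ → α} (hp : ∀ t, f (t + 1) = f t) (t : ℝ) (n : ℤ) :
    f (t + n) = f t := by
  have := (show Function.Periodic f 1 from hp).int_mul n t
  rwa [mul_one] at this

/-- A periodic bump function. -/
theorem exists_bump {O : Set ℝ} (hO : IsOpen O) (pO : ∀ t, (t + 1 ∈ O) = (t ∈ O)) {t₀ : ℝ}
    (h0 : t₀ ∈ O) : ∃ ρ : ℝ → ℝ, ContDiff ℝ ∞ ρ ∧ (∀ t, ρ (t + 1) = ρ t) ∧ (∀ t, 0 ≤ ρ t) ∧
      0 < ρ t₀ ∧ ∀ t, t ∉ O → ∀ᶠ u in 𝓝 t, ρ u = 0 := by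
  let g : ℝ → ℝ := fun t => Real.cos (2 * Real.pi * (t - t₀))
  have hg : ContDiff ℝ ∞ g := by unfold g; fun_prop
  have pg : ∀ t, g (t + 1) = g t := fun t => by
    simp only [g]
    rw [show 2 * Real.pi * (t + 1 - t₀) = 2 * Real.pi * (t - t₀) + 2 * Real.pi by ring,
      Real.cos_add_two_pi]
  have hlt : ∀ t, t ∉ O → g t < 1 := fun t ht => by
    refine lt_of_le_of_ne (Real.cos_le_one _) fun h => ht ?_
    obtain ⟨n, hn⟩ := (Real.cos_eq_one_iff _).mp h
    have e : t = t₀ + n := by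
      have := Real.pi_pos
      have h1 : (2 * Real.pi) * (n : ℝ) = (2 * Real.pi) * (t - t₀) := by rw [← hn]; ring
      have := mul_left_cancel₀ (by positivity) h1
      linarith
    rw [e, per_int (f := fun t => t ∈ O) pO]
    exact h0
  have hK : IsCompact (Icc (0 : ℝ) 1 ∩ Oᶜ) := isCompact_Icc.inter_right hO.isClosed_compl
  obtain ⟨a, ha, hb⟩ : ∃ a < 1, ∀ t ∈ Icc (0 : ℝ) 1 ∩ Oᶜ, g t < a := by
    rcases (Icc (0 : ℝ) 1 ∩ Oᶜ).eq_empty_or_nonempty with e | e
    · exact ⟨0, one_pos, by simp [e]⟩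
    · obtain ⟨u, hu, hm⟩ := hK.exists_isMaxOn e hg.continuous.continuousOn
      have := hlt u hu.2
      exact ⟨(g u + 1) / 2, by linarith, fun t ht => by have : g t ≤ g u := hm ht; linarith⟩
  refine ⟨fun t => expNegInvGlue (g t - a), expNegInvGlue.contDiff.comp (hg.sub contDiff_const),
    fun t => by simp only [pg], fun t => expNegInvGlue.nonneg _,
    expNegInvGlue.pos_of_pos (by simp [g, ha]), fun t ht => ?_⟩
  have e : t = Int.fract t + (⌊t⌋ : ℤ) := (Int.fract_add_floor t).symm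
  have h1 : g t < a := by
    rw [e, per_int pg]
    refine hb _ ⟨⟨Int.fract_nonneg t, (Int.fract_lt_one t).le⟩, fun h => ht ?_⟩
    rw [e, per_int (f := fun t => t ∈ O) pO]
    exact h
  filter_upwards [hg.continuous.continuousAt.eventually (gt_mem_nhds h1)] with u hu
  exact expNegInvGlue.zero_of_nonpos (by linarith)

/-- Finitely many discs and periodic bump functions along a closed curve. -/
theorem exists_cover {c : ℝ → S} (hc : Continuous c) (hp : ∀ t, c (t + 1) = c t)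
    (hD : ∀ t, ∃ π : ℂ → S, Disc J π ∧ π 0 = c t) :
    ∃ (ι : Type) (_ : Fintype ι) (π : ι → ℂ → S) (ρ : ι → ℝ → ℝ), (∀ i, Disc J (π i)) ∧
      (∀ i, ContDiff ℝ ∞ (ρ i)) ∧ (∀ i t, ρ i (t + 1) = ρ i t) ∧ (∀ i t, 0 ≤ ρ i t) ∧
      (∀ t, ∃ i, 0 < ρ i t) ∧ ∀ i t, c t ∉ range (π i) → ∀ᶠ u in 𝓝 t, ρ i u = 0 := by
  choose π hπ h0 using hD
  choose ρ s p n q z using fun t => exists_bump (O := c ⁻¹' range (π t))
    ((hπ t).1.isOpen_range.preimage hc) (fun u => by simp only [mem_preimage, hp]) (t₀ := t)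
    ⟨0, h0 t⟩
  obtain ⟨A, -, hA⟩ := (isCompact_Icc (a := (0 : ℝ)) (b := 1)).elim_nhds_subcover
    (fun t => {u | 0 < ρ t u}) fun t _ =>
      (isOpen_lt continuous_const (s t).continuous).mem_nhds (q t)
  refine ⟨A, inferInstance, fun i => π i, fun i => ρ i, fun i => hπ i, fun i => s i, fun i => p i,
    fun i => n i, fun t => ?_, fun i => z i⟩
  obtain ⟨i, hi, h⟩ := mem_iUnion₂.mp (hA ⟨Int.fract_nonneg t, (Int.fract_lt_one t).le⟩)
  refine ⟨⟨i, hi⟩, ?_⟩
  change 0 < ρ i t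
  rw [← Int.fract_add_floor t, per_int (p i)]
  exact h

/-- The velocity of the curve in a disc. -/
def kv (π : ℂ → S) (c : ℝ → S) (t : ℝ) : ℂ := deriv (sg π ∘ c) t

theorem kv_per (π : ℂ → S) {c : ℝ → S} (hp : ∀ t, c (t + 1) = c t) (t : ℝ) :
    kv π c (t + 1) = kv π c t := by
  rw [kv, ← deriv_comp_add_const]
  congr 1
  exact funext fun u => congrArg (sg π) (hp u)

variable {π π' : ℂ → S} {c : ℝ → S} {t : ℝ}

theorem kv_eq (hπ : Disc J π) (hc : ContMDiff 𝓘(ℝ, ℝ) J ∞ c) (ht : c t ∈ range π) :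
    kv π c t = ds J π (c t) (dc J c t) := (sg_comp hπ (hc t) ht).2.hasDerivAt.deriv

theorem kv_smooth (hπ : Disc J π) (hc : ContMDiff 𝓘(ℝ, ℝ) J ∞ c) (ht : c t ∈ range π) :
    ContDiffAt ℝ ∞ (kv π c) t :=
  ((sg_comp hπ (hc t) ht).1.fderiv_right (m := ∞) (by simp)).clm_apply contDiffAt_const

theorem kv_ne (hπ : Disc J π) (hc : ContMDiff 𝓘(ℝ, ℝ) J ∞ c) (ht : c t ∈ range π)
    (h : dc J c t ≠ 0) : kv π c t ≠ 0 := fun e => h <| by
  rw [← mx_ds hπ ht (dc J c t), ← kv_eq hπ hc ht, e, map_zero]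

theorem change_smooth (hπ : Disc J π) (hπ' : Disc J π') (hc : ContMDiff 𝓘(ℝ, ℝ) J ∞ c)
    (ht : c t ∈ range π) (ht' : c t ∈ range π') {v : ℝ → ℂ} (hv : ContDiffAt ℝ ∞ v t) :
    ContDiffAt ℝ ∞ (fun u => ds J π (c u) (mx J π' (sg π' (c u)) (v u))) t := by
  have h1 := (sg_comp hπ (hπ'.1.contMDiff (sg π' (c t))) (by rwa [pi_sg ht'])).1
  have h2 := (((h1.fderiv_right (m := ∞) (by simp)).comp t
    (sg_comp hπ' (hc t) ht').1).clm_apply hv)
  refine h2.congr_of_eventuallyEq ?_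
  filter_upwards [hc.continuous.continuousAt.preimage_mem_nhds (range_nhds hπ ht),
    hc.continuous.continuousAt.preimage_mem_nhds (range_nhds hπ' ht')] with u a1 a2
  have h3 := (sg_comp hπ (hπ'.1.contMDiff (sg π' (c u))) (by rwa [pi_sg a2])).2
  simp only [Function.comp_apply] at h3 ⊢
  rw [h3.fderiv, pi_sg a2]
  rfl

theorem rot (k ζ : ℂ) : (conj k * ζ).im • (Complex.I * k) =
    (‖k‖ ^ 2) • ζ - (conj k * ζ).re • k := by
  rw [← Complex.normSq_eq_norm_sq, Complex.normSq_apply]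
  apply Complex.ext <;> simp <;> ring

theorem rot_indep {k : ℂ} (hk : k ≠ 0) {x y : ℝ} (h : x • (Complex.I * k) + y • k = 0) :
    x = 0 ∧ y = 0 := by
  have h1 : ((x : ℂ) * Complex.I + y) * k = 0 := by
    rw [← h]; simp only [Complex.real_smul]; ring
  have h2 := (mul_eq_zero.mp h1).resolve_right hk
  have h3 := congrArg Complex.re h2
  have h4 := congrArg Complex.im h2
  simp at h3 h4
  exact ⟨h4, h3⟩

theorem exists_normal (hc : ContMDiff 𝓘(ℝ, ℝ) J ∞ c) (hp : ∀ t, c (t + 1) = c t)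
    (hv : ∀ t, dc J c t ≠ 0) {ι : Type} [Fintype ι] {π : ι → ℂ → S} {ρ : ι → ℝ → ℝ}
    (hπ : ∀ i, Disc J (π i)) (s : ∀ i, ContDiff ℝ ∞ (ρ i)) (p : ∀ i t, ρ i (t + 1) = ρ i t)
    (n : ∀ i t, 0 ≤ ρ i t) (q : ∀ t, ∃ i, 0 < ρ i t)
    (z : ∀ i t, c t ∉ range (π i) → ∀ᶠ u in 𝓝 t, ρ i u = 0) :
    ∃ (b : ℝ) (w : ι → ℝ → ℂ), (b = 1 ∨ b = -1) ∧ (∀ i, ContDiff ℝ ∞ (w i)) ∧
      (∀ i t, w i (t + 1) = b • w i t) ∧ (∀ i t, c t ∉ range (π i) → ∀ᶠ u in 𝓝 t, w i u = 0) ∧
      ∀ t (x y : ℝ), x • (∑ i, mx J (π i) (sg (π i) (c t)) (w i t)) + y • dc J c t = 0 →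
        x = 0 ∧ y = 0 := by
  have hm : ∀ i t, ρ i t ≠ 0 → c t ∈ range (π i) := fun i t h => by
    by_contra h'
    exact h (z i t h').self_of_nhds
  let vec : ℝ → E₂ → EuclideanSpace ℝ ι := fun t v => WithLp.toLp 2 fun i =>
    ρ i t * (conj (kv (π i) c t) * ds J (π i) (c t) v).im
  let η : ι → ℝ → E₂ := fun j t => mx J (π j) (sg (π j) (c t)) (Complex.I * kv (π j) c t)
  let Λ : ℝ → Submodule ℝ (EuclideanSpace ℝ ι) := fun t => Submodule.span ℝ (range (vec t))
  have hΛ : ∀ j t, ρ j t ≠ 0 → vec t (η j t) ≠ 0 ∧ Λ t = Submodule.span ℝ {vec t (η j t)} := by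
    intro j t hj
    have hj' := hm j t hj
    have hk := kv_ne (hπ j) hc hj' (hv t)
    have hn : ‖kv (π j) c t‖ ^ 2 ≠ 0 := pow_ne_zero _ (norm_ne_zero_iff.mpr hk)
    constructor
    · intro h
      have h1 : ρ j t * (conj (kv (π j) c t) * ds J (π j) (c t) (η j t)).im = 0 :=
        congrArg (fun v : EuclideanSpace ℝ ι => v j) h
      simp only [η, ds_mx (hπ j) hj'] at h1
      refine hn ?_
      rw [← (mul_eq_zero.mp h1).resolve_left hj, ← Complex.normSq_eq_norm_sq,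
        Complex.normSq_apply]
      simp
    · refine le_antisymm (Submodule.span_le.mpr ?_)
        (Submodule.span_mono (singleton_subset_iff.mpr ⟨_, rfl⟩))
      rintro _ ⟨v, rfl⟩
      have h1 := congrArg (mx J (π j) (sg (π j) (c t))) (rot (kv (π j) c t) (ds J (π j) (c t) v))
      rw [map_smul, map_sub, map_smul, map_smul, mx_ds (hπ j) hj'] at h1
      set β := (conj (kv (π j) c t) * ds J (π j) (c t) v).im
      set α := (conj (kv (π j) c t) * ds J (π j) (c t) v).re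
      rw [kv_eq (hπ j) hc hj', mx_ds (hπ j) hj', ← kv_eq (hπ j) hc hj'] at h1
      have h2 : v = (‖kv (π j) c t‖ ^ 2)⁻¹ • (β • η j t + α • dc J c t) := by
        simp only [η]
        rw [h1, sub_add_cancel, smul_smul, inv_mul_cancel₀ hn, one_smul]
      refine Submodule.mem_span_singleton.mpr ⟨(‖kv (π j) c t‖ ^ 2)⁻¹ * β, ?_⟩
      ext i
      change _ * (ρ i t * _) = ρ i t * _
      by_cases hi : ρ i t = 0
      · simp [hi]
      · conv_rhs => rw [h2]
        rw [map_smul, map_add, map_smul, map_smul, ← kv_eq (hπ i) hc (hm i t hi)]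
        generalize (‖kv (π j) c t‖ ^ 2)⁻¹ = r
        simp
        ring
  obtain ⟨W, hW, hWL⟩ := lift_smooth Λ fun t₀ => by
    obtain ⟨j, hj⟩ := q t₀
    refine ⟨{t | ρ j t ≠ 0}, fun t => vec t (η j t), isOpen_ne_fun (s j).continuous continuous_const,
      hj.ne', fun t ht => ContDiffAt.contDiffWithinAt ?_, fun t ht => hΛ j t ht⟩
    refine contDiffAt_euclidean.mpr fun i => ?_
    change ContDiffAt ℝ ∞ (fun t => ρ i t * (conj (kv (π i) c t) * ds J (π i) (c t) (η j t)).im) t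
    by_cases hi : c t ∈ range (π i)
    · exact (s i).contDiffAt.mul (Complex.imCLM.contDiff.contDiffAt.comp t
        ((Complex.conjCLE.contDiff.contDiffAt.comp t (kv_smooth (hπ i) hc hi)).mul
          (change_smooth (hπ i) (hπ j) hc hi (hm j t ht)
            (contDiffAt_const.mul (kv_smooth (hπ j) hc (hm j t ht))))))
    · refine (contDiffAt_const (c := 0)).congr_of_eventuallyEq ?_
      filter_upwards [z i t hi] with u hu
      rw [hu, zero_mul]
  have pΛ : ∀ t, Λ (t + 1) = Λ t := fun t => by simp only [Λ, vec, p, kv_per _ hp, hp]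
  have mW : ∀ t, W t ∈ Λ t := fun t => by
    rw [(hWL t).2]; exact Submodule.mem_span_singleton_self _
  obtain ⟨b, hb, eb⟩ := sign_const (u := W) (v := fun t => W (t + 1)) hW.continuous
    (hW.continuous.comp (continuous_add_const 1)) (fun t => (hWL t).1) (fun t => (hWL _).1)
    fun t => by rw [← (hWL t).2, ← pΛ]; exact mW _
  have hWa : ∀ t, ∃ j a, 0 < ρ j t ∧ a ≠ 0 ∧ ∀ i, W t i =
      a * (ρ i t * (conj (kv (π i) c t) * ds J (π i) (c t) (η j t)).im) := fun t => by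
    obtain ⟨j, hj⟩ := q t
    have := mW t
    rw [(hΛ j t hj.ne').2] at this
    obtain ⟨a, ha⟩ := Submodule.mem_span_singleton.mp this
    refine ⟨j, a, hj, fun e => ?_, fun i => by rw [← ha]; rfl⟩
    have h1 := (hWL t).1
    rw [← ha, e, zero_smul, norm_zero] at h1
    exact zero_ne_one h1
  have hz : ∀ i t, c t ∉ range (π i) → ∀ᶠ u in 𝓝 t, W u i • (Complex.I * kv (π i) c u) = 0 :=
    fun i t h => by
      filter_upwards [z i t h] with u hu
      obtain ⟨j, a, -, -, e⟩ := hWa u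
      rw [e, hu, zero_mul, mul_zero, zero_smul]
  refine ⟨b, fun i t => W t i • (Complex.I * kv (π i) c t), hb,
    fun i => contDiff_iff_contDiffAt.mpr fun t => ?_, fun i t => ?_, hz, fun t x y h => ?_⟩
  · by_cases hi : c t ∈ range (π i)
    · exact (contDiffAt_euclidean.mp hW.contDiffAt i).smul
        (contDiffAt_const.mul (kv_smooth (hπ i) hc hi))
    · exact (contDiffAt_const (c := 0)).congr_of_eventuallyEq (hz i t hi)
  · beta_reduce
    rw [kv_per _ hp, show W (t + 1) = b • W t from eb t, smul_smul]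
    rfl
  · obtain ⟨j, a, hj, ha, e⟩ := hWa t
    have hj' := hm j t hj.ne'
    have hk := kv_ne (hπ j) hc hj' (hv t)
    have h1 : ∀ i, mx J (π i) (sg (π i) (c t)) (W t i • (Complex.I * kv (π i) c t)) =
        (a * (ρ i t * ‖kv (π i) c t‖ ^ 2)) • η j t -
          (a * (ρ i t * (conj (kv (π i) c t) * ds J (π i) (c t) (η j t)).re)) • dc J c t := by
      intro i
      by_cases hi : ρ i t = 0
      · simp [e, hi]
      · have hi' := hm i t hi
        rw [e, mul_smul, mul_smul, rot, map_smul, map_smul, map_sub, map_smul, map_smul,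
          mx_ds (hπ i) hi']
        conv_lhs => rw [kv_eq (hπ i) hc hi', mx_ds (hπ i) hi', ← kv_eq (hπ i) hc hi']
        simp only [smul_sub, mul_smul]
    rw [Finset.sum_congr rfl fun i _ => h1 i, Finset.sum_sub_distrib, ← Finset.sum_smul,
      ← Finset.sum_smul, ← Finset.mul_sum] at h
    have h2 : 0 < ∑ i, ρ i t * ‖kv (π i) c t‖ ^ 2 :=
      Finset.sum_pos' (fun i _ => mul_nonneg (n i t) (sq_nonneg _))
        ⟨j, Finset.mem_univ _, mul_pos hj (pow_pos (norm_pos_iff.mpr hk) 2)⟩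
    have h3 := congrArg (ds J (π j) (c t)) h
    simp only [η] at h3
    rw [map_add, map_smul, map_sub, map_smul, map_smul, map_smul, ds_mx (hπ j) hj',
      ← kv_eq (hπ j) hc hj', map_zero, smul_sub, smul_smul, smul_smul, sub_add, ← sub_smul,
      sub_eq_add_neg, ← neg_smul] at h3
    obtain ⟨h4, h5⟩ := rot_indep hk h3
    have hx : x = 0 := (mul_eq_zero.mp h4).resolve_right (mul_ne_zero ha h2.ne')
    rw [hx, zero_mul] at h5
    exact ⟨hx, by linarith⟩

end

end Pool.Agent.Lib.MP_72f1d0_gt.PC.Collar
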