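import Pool.Agent.Lib.MP_72f1d0_gt.Defs3
import Pool.Agent.Lib.MP_72f1d0_gt.Eq.ManDescent

/-!
Definitions and module statements for the case of an arbitrary compact surface.
-/

open scoped ContDiff Manifold Topology
open Set Filter

namespace Pool.Agent.Lib.MP_72f1d0_gt.PC

open Eq.Stmt (Distr Data IsPath derived diff)
open Eq.Man (dp Fv)

noncomputable section

/-! ### The relative layer in the Euclidean model -/

/-- A closed periodic band. -/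
def Kab (a b : ℝ) : Set Q := {q | a ≤ Int.fract q.1 ∧ Int.fract q.1 ≤ b}

/-- A deformation supported in `K` (up to a global change `φ` of the formal parameter) during
which `K` is mapped into `U`. -/
def RR {c : Ctx} (K : Set Q) (U : Set G) (x y : St c ∅) : Prop :=
  ∃ (z : ℝ → St c ∅) (φ : ℝ × ℝ → ℝ), (ContDiff ℝ ∞ fun p : ℝ × Q => (z p.1).f p.2) ∧
    (Continuous fun p : ℝ × ℝ × Q => (z p.1).γ p.2) ∧ z 0 = x ∧ z 1 = y ∧ Continuous φ ∧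
    (∀ l s, 0 ≤ s → s ≤ 1 → 0 ≤ φ (l, s) ∧ φ (l, s) ≤ 1) ∧
    (∀ s, 0 ≤ s → s ≤ 1 → φ (0, s) = s) ∧ (∀ l, φ (l, 0) = 0 ∧ φ (l, 1) = 1) ∧
    (∀ l q, q ∉ K → (z l).f q = x.f q ∧
      ∀ s, 0 ≤ s → s ≤ 1 → (z l).γ (s, q) = x.γ (φ (l, s), q)) ∧
    ∀ l, ∀ q ∈ K, (z l).f q ∈ U

/-- An open lattice invariant set. -/
def UOK (c : Ctx) (U : Set G) : Prop := IsOpen U ∧ ∀ p m, p ∈ U → p + c.i (lat m) ∈ U

/-- Transversality near one circle, relative to a closed set. -/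
def CircleStmt : Prop :=
  ∀ (c : Ctx) (x : St c ∅) (U : Set G), UOK c U → (∀ q ∈ Kab (1 / 16) (3 / 16), x.f q ∈ U) →
  ∀ C : Set Q, IsClosed C → PerSet C → (∀ᶠ q in 𝓝ˢ C, Good x q) →
  ∃ y, RR (Kab (1 / 16) (3 / 16)) U x y ∧
    ∀ᶠ q in 𝓝ˢ (C ∪ {q : Q | Int.fract q.1 = 1 / 8}), Good y q

/-- The relative theorem on an annulus without winding. -/
def AnnStmt : Prop :=
  ∀ c : Ctx, c.Nrm → ∀ (x : St c ∅) (U : Set G), UOK c U →
  (∀ q : Q, 0 ≤ q.1 → q.1 ≤ 1 / 4 → x.f q ∈ U) → ZR x → ∀ δ : ℝ, 0 < δ →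
  (∀ q : Q, 0 ≤ q.1 → q.1 ≤ 1 / 4 → q.1 ≤ δ ∨ 1 / 4 - δ ≤ q.1 → Good x q) →
  ∃ (a b : ℝ) (y : St c ∅), 0 < a ∧ b < 1 / 4 ∧ RR (Kab a b) U x y ∧
    ∀ q : Q, 0 ≤ q.1 → q.1 ≤ 1 / 4 → Good y q

/-! ### Surfaces -/

/-- The inverse function theorem for maps between vector spaces. -/
def IFTStmt : Prop :=
  ∀ (X Y : Type) [NormedAddCommGroup X] [NormedSpace ℝ X] [FiniteDimensional ℝ X]
    [NormedAddCommGroup Y] [NormedSpace ℝ Y] (k : X → Y) (U : Set X), IsOpen U →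
    ContDiffOn ℝ ∞ k U → (∀ x ∈ U, (fderiv ℝ k x).IsInvertible) →
    ∀ x ∈ U, IsLocalDiffeomorphAt 𝓘(ℝ, X) 𝓘(ℝ, Y) ∞ k x

/-- Polar coordinates. -/
def pol (r : ℝ) (q : Q) : ℂ := r * Complex.exp (q.1 + 2 * Real.pi * q.2 * Complex.I)

section Surface

variable {E₂ H₂ : Type*} [NormedAddCommGroup E₂] [NormedSpace ℝ E₂] [TopologicalSpace H₂]
  (J : ModelWithCorners ℝ E₂ H₂) {S : Type*} [TopologicalSpace S] [ChartedSpace H₂ S]

/-- A parametrised open annulus. -/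
def Ann (ψ : Q → S) : Prop :=
  IsLocalDiffeomorph 𝓘(ℝ, Q) J ∞ ψ ∧ ∀ q q', ψ q = ψ q' ↔ ∃ n : ℤ, q' = q + (0, (n : ℝ))

/-- A parametrised open disc. -/
def Disc {X : Type*} [NormedAddCommGroup X] [NormedSpace ℝ X] (π : X → S) : Prop :=
  IsLocalDiffeomorph 𝓘(ℝ, X) J ∞ π ∧ Function.Injective π

/-- `φ` is isotopic to the identity through injective immersions of `S` into itself. -/
def SelfIso (φ : S → S) : Prop :=
  ∃ Φ : ℝ × S → S, ContMDiff (𝓘(ℝ, ℝ).prod J) J ∞ Φ ∧ (∀ p, Φ (0, p) = p) ∧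
    (∀ p, Φ (1, p) = φ p) ∧ ∀ t, (Function.Injective fun p => Φ (t, p)) ∧
      ∀ p, Function.Injective (mfderiv J J (fun p => Φ (t, p)) p)

/-- The velocity of a curve. -/
def dc (c : ℝ → S) (t : ℝ) : E₂ := mfderiv 𝓘(ℝ, ℝ) J c t (1 : ℝ)

/-- An embedded closed curve transverse to `L`. -/
def TrLoop (L : S → Submodule ℝ E₂) (c : ℝ → S) : Prop :=
  ContMDiff 𝓘(ℝ, ℝ) J ∞ c ∧ (∀ t t', c t = c t' ↔ ∃ n : ℤ, t' = t + n) ∧
    ∀ t, dc J c t ∉ L (c t)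

/-- Finitely many boxes that cover `C`, with vector fields that agree up to sign. -/
structure Boxes (L : S → Submodule ℝ E₂) (N : ℝ) (C : Set S) {ι : Type} (π : ι → Q → S)
    (v : ι → Q → Q) : Prop where
  disc : ∀ i, Disc J (π i)
  smooth : ∀ i, ContDiff ℝ ∞ (v i)
  out : ∀ i q, 3 ≤ ‖q‖ → v i q = (0, 1)
  pos : ∀ i q, 0 < (v i q).2 ∧ |(v i q).1| ≤ (v i q).2 / 10
  cone : ∀ i (q w : Q), ‖q‖ ≤ 2 → w ≠ 0 → |w.1| ≤ N * |w.2| → dp J (π i) q w ∉ L (π i q)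
  cover : ∀ x ∈ C, ∃ i q, ‖q‖ < 1 / 4 ∧ π i q = x
  mem : ∀ i q, π i q ∈ C
  compat : ∀ i j q q', ‖q‖ ≤ 2 → ‖q'‖ ≤ 2 → π i q = π j q' →
    dp J (π i) q (v i q) = dp J (π j) q' (v j q') ∨
      dp J (π i) q (v i q) = -dp J (π j) q' (v j q')

/-- A recurrent leaf `γ` and a box `π` in which it solves `(s, t)' = ± (m, 1)`. -/
structure LeafBox (L : S → Submodule ℝ E₂) (N : ℝ) (γ : ℝ → S) (π : Q → S) (m : Q → ℝ) :
    Prop where
  disc : Disc J π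
  smooth : ContDiff ℝ ∞ m
  out : ∀ q, 3 ≤ ‖q‖ → m q = 0
  small : ∀ q, |m q| ≤ 1 / 10
  cone : ∀ q w : Q, ‖q‖ ≤ 2 → w ≠ 0 → |w.1| ≤ N * |w.2| → dp J π q w ∉ L (π q)
  curve : ContMDiff 𝓘(ℝ, ℝ) J ∞ γ
  tr : ∀ u, dc J γ u ∉ L (γ u)
  pass : ∀ u q, ‖q‖ ≤ 3 / 2 → γ u = π q →
    dc J γ u = dp J π q (m q, 1) ∨ dc J γ u = -dp J π q (m q, 1)
  uniq : ∀ u u', γ u = γ u' → ∀ v, γ (u + v) = γ (u' + v)
  recur : ∀ T : ℝ, ∃ u a : ℝ, T ≤ u ∧ |a| ≤ 1 / 2 ∧ γ u = π (a, 0)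

variable (S) in
/-- Discs centred at interior points. -/
def DiscStmt : Prop :=
  ∀ p : S, J.IsInteriorPoint p → (∃ π : ℂ → S, Disc J π ∧ π 0 = p) ∧
    ∃ π : Q → S, Disc J π ∧ π 0 = p

variable (S) in
/-- The annulus around a circle in a disc. -/
def PolarStmt : Prop :=
  ∀ π : ℂ → S, Disc J π → ∀ r : ℝ, 0 < r → Ann J fun q => π (pol r q)

variable (S) in
def CompStmt : Prop :=
  SelfIso J (fun p : S => p) ∧ (∀ φ : S → S, SelfIso J φ → Continuous φ ∧ Function.Injective φ) ∧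
    ∀ φ φ' : S → S, SelfIso J φ → SelfIso J φ' → SelfIso J fun p => φ (φ' p)

variable (S) in
/-- A small ball can be blown up to a big one. -/
def ShrinkStmt : Prop :=
  ∀ π : ℂ → S, Disc J π → ∀ (r R ε : ℝ) (a : ℂ), r < R → 0 < ε → ‖a‖ ≤ r →
  ∃ φ : S → S, SelfIso J φ ∧ (∀ p, p ∉ π '' Metric.ball 0 R → φ p = p) ∧
    MapsTo φ (π '' Metric.ball 0 R) (π '' Metric.ball 0 R) ∧
    ∀ p, φ p ∈ π '' Metric.closedBall 0 r → p ∈ π '' Metric.ball a ε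

variable (S) in
/-- Pushing the surface away from a boundary point. -/
def PushStmt : Prop :=
  ∀ q : S, J.IsBoundaryPoint q → ∀ V ∈ 𝓝 q, ∃ φ : S → S, SelfIso J φ ∧ (∀ p, p ∉ V → φ p = p) ∧
    MapsTo φ V V ∧ (∀ p, φ p = p ∨ J.IsInteriorPoint (φ p)) ∧ ∃ N ∈ 𝓝 q, ∀ p, φ p ∉ N

variable [IsManifold J 1 S]

/-- `L` is locally the kernel of a continuous nowhere vanishing form. -/
def LineField (L : S → Submodule ℝ E₂) : Prop :=
  ∀ p, ∃ (U : Set S) (ℓ : S → (E₂ →L[ℝ] ℝ)), IsOpen U ∧ p ∈ U ∧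
    ContinuousOn (fun z : TangentBundle J S => ℓ z.1 z.2) {z | z.1 ∈ U} ∧
    ∀ x ∈ U, ℓ x ≠ 0 ∧ ∀ v, v ∈ L x ↔ ℓ x v = 0

variable (S) in
def BoxesStmt : Prop :=
  ∀ L : S → Submodule ℝ E₂, LineField J L → ∀ p : S,
  (∀ x ∈ connectedComponent p, J.IsInteriorPoint x) → ∀ N : ℝ,
  ∃ (k : ℕ) (π : Fin k → Q → S) (v : Fin k → Q → Q), Boxes J L N (connectedComponent p) π v

variable (S) in
def LeafStmt : Prop :=
  ∀ (L : S → Submodule ℝ E₂) (N : ℝ) (C : Set S) (k : ℕ) (π : Fin k → Q → S)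
    (v : Fin k → Q → Q), 1 ≤ N → Boxes J L N C π v → ∀ p ∈ C,
  ∃ (γ : ℝ → S) (i : Fin k) (m : Q → ℝ), LeafBox J L N γ (π i) m ∧ γ 0 = p

variable (S) in
def LoopStmt : Prop :=
  ∃ N : ℝ, 1 ≤ N ∧ ∀ (L : S → Submodule ℝ E₂) (γ : ℝ → S) (π : Q → S) (m : Q → ℝ),
  LeafBox J L N γ π m → ∃ c : ℝ → S, TrLoop J L c ∧ c 0 ∈ connectedComponent (γ 0)

variable (S) in
def CollarStmt : Prop :=
  ∀ L : S → Submodule ℝ E₂, LineField J L → ∀ c : ℝ → S, TrLoop J L c →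
  (∀ t, J.IsInteriorPoint (c t)) →
  ∃ ψ : Q → S, Ann J ψ ∧ ψ 0 ∈ connectedComponent (c 0) ∧
    ∀ t : ℝ, dp J ψ (0, t) (0, 1) ∉ L (ψ (0, t))

end Surface

/-! ### Formal transverse embeddings -/

section Formal

variable {E : Type*} [NormedAddCommGroup E] [NormedSpace ℝ E]
  {M : Type*} [TopologicalSpace M] [ChartedSpace E M] [IsManifold 𝓘(ℝ, E) ∞ M]
  {E₂ H₂ : Type*} [NormedAddCommGroup E₂] [NormedSpace ℝ E₂] [TopologicalSpace H₂]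
  {J : ModelWithCorners ℝ E₂ H₂} {S : Type*} [TopologicalSpace S] [ChartedSpace H₂ S]
  [IsManifold J ∞ S]

def MReach (D : Distr E M) (x y : Data J E S M) : Prop :=
  ∃ γ : UI → Data J E S M, IsPath γ ∧ (∀ l, (γ l).Formal D) ∧ γ 0 = x ∧ γ 1 = y

def MGood (x : Data J E S M) (p : S) : Prop := ∀ s, x.F s p = diff J E x.f p

/-- The formal characteristic line field. -/
def lin (D : Distr E M) (x : Data J E S M) (p : S) : Submodule ℝ E₂ :=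
  Submodule.comap (Fv x 1 p).toLinearMap (derived D (x.f p) : Submodule ℝ E)

/-- The line field is orientable along the core of the annulus. -/
def Triv (D : Distr E M) (x : Data J E S M) (ψ : Q → S) : Prop :=
  ∃ σ : ℝ → Q, Continuous σ ∧ (∀ t, σ (t + 1) = σ t) ∧
    ∀ t, σ t ≠ 0 ∧ dp J ψ (0, t) (σ t) ∈ lin D x (ψ (0, t))

/-- The line field does not wind along the core of the annulus. -/
def ZW (D : Distr E M) (x : Data J E S M) (ψ : Q → S) : Prop :=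
  ∃ Λ : ℝ → ℂ, Continuous Λ ∧ (∀ t, Λ (t + 1) = Λ t) ∧
    ∀ t, dp J ψ (0, t) ((Complex.exp (Λ t)).re, (Complex.exp (Λ t)).im) ∈ lin D x (ψ (0, t))

variable (J S)

def ReachStmt (D : Distr E M) : Prop :=
  (∀ x y z : Data J E S M, MReach D x y → MReach D y z → MReach D x z) ∧
  ∀ (x : Data J E S M) (φ : S → S), x.Formal D → SelfIso J φ →
    ∃ y, MReach D x y ∧ ∀ p, MGood x (φ p) → MGood y p

def LineStmt (D : Distr E M) : Prop :=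
  (∀ x : Data J E S M, x.Formal D → LineField J (lin D x)) ∧
  (∀ x : Data J E S M, x.Formal D → ∀ π : ℂ → S, Disc J π → ∀ r : ℝ, 0 < r →
    Triv D x fun q => π (pol r q)) ∧
  (∀ x : Data J E S M, x.Formal D → ∀ ψ : Q → S, Ann J ψ →
    (∀ t : ℝ, dp J ψ (0, t) (0, 1) ∉ lin D x (ψ (0, t))) → ZW D x ψ) ∧
  ∀ x y : Data J E S M, MReach D x y → ∀ ψ : Q → S, Ann J ψ → ZW D x ψ → ZW D y ψ

def MCircle (D : Distr E M) : Prop :=
  ∀ x : Data J E S M, x.Formal D → ∀ ψ : Q → S, Ann J ψ → Triv D x ψ →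
  ∀ C : Set S, IsClosed C → (∀ᶠ p in 𝓝ˢ C, MGood x p) →
  ∃ y, MReach D x y ∧ ∀ᶠ p in 𝓝ˢ (C ∪ range fun t : ℝ => ψ (0, t)), MGood y p

def MAnn (D : Distr E M) : Prop :=
  ∃ b : ℝ, 0 < b ∧ ∀ x : Data J E S M, x.Formal D → ∀ ψ : Q → S, Ann J ψ → ZW D x ψ →
  ∀ ρ : ℝ, ρ < b → (∀ q : Q, ρ ≤ |q.1| → MGood x (ψ q)) →
  ∃ y, MReach D x y ∧ ∀ p, MGood x p ∨ p ∈ range ψ → MGood y p

/-- Every closed component contains an annulus without winding. -/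
def ExAnn (D : Distr E M) : Prop :=
  ∀ x : Data J E S M, x.Formal D → ∀ p : S, (∀ y ∈ connectedComponent p, J.IsInteriorPoint y) →
  ∃ ψ : Q → S, Ann J ψ ∧ ψ 0 ∈ connectedComponent p ∧ ZW D x ψ

/-- The existence h-principle. -/
def Final (D : Distr E M) : Prop :=
  ∀ x : Data J E S M, x.Formal D → ∃ y, MReach D x y ∧ ∀ p, MGood y p

end Formal

end

end Pool.Agent.Lib.MP_72f1d0_gt.PC
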