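import Pool.Agent.Lib.MP_72f1d0_gt.PC.FakeDefs
import Pool.Agent.Lib.MP_72f1d0_gt.Eq.GCore1

/-!
The auxiliary torus and the extension of the formal data over it.
-/

open scoped ContDiff Topology
open Set Filter

namespace Pool.Agent.Lib.MP_72f1d0_gt.PC

namespace Fake

open GCore (pj)

/-- Pull back of a frame along a local diffeomorphism. -/
theorem pull (c₀ : V3.Ctx0) {Λ : G → G} (sΛ : ContDiff ℝ ∞ Λ)
    (hi : ∀ p, (fderiv ℝ Λ p).IsInvertible)
    (hp : ∀ m : ℤ × ℤ, ∃ b, (∀ p, Λ (p + i0 (lat m)) = Λ p + b) ∧ ∀ p, c₀.e (p + b) = c₀.e p) :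
    ∃ c : Ctx, c.Nrm ∧ (∀ q, c.i q = i0 q) ∧
      (∀ p, c.om p = (c₀.om (Λ p)).comp (fderiv ℝ Λ p)) ∧
      ∀ p a, fderiv ℝ Λ p (c.e p a) = c₀.e (Λ p) a := by
  have sD : ContDiff ℝ ∞ (fderiv ℝ Λ) := sΛ.fderiv_right (m := ∞) le_rfl
  have sI : ContDiff ℝ ∞ fun p => (fderiv ℝ Λ p).inverse := contDiff_iff_contDiffAt.mpr fun p =>
    (hi p).contDiffAt_map_inverse.comp p sD.contDiffAt
  let e : G → (G →L[ℝ] G) := fun p => (fderiv ℝ Λ p).inverse.comp (c₀.e (Λ p))
  let om : G → (G →L[ℝ] G) := fun p => (c₀.om (Λ p)).comp (fderiv ℝ Λ p)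
  have he : ∀ p a, fderiv ℝ Λ p (e p a) = c₀.e (Λ p) a := fun p a => (hi p).self_apply_inverse _
  have hb : ∀ p A B, brk e om p A B = brk c₀.e c₀.om (Λ p) A B := fun p A B => by
    have h1 : HasFDerivAt (fun p => c₀.om (Λ p)) _ p :=
      (c₀.om_smooth.differentiable (by simp) (Λ p)).hasFDerivAt.comp p
        (sΛ.differentiable (by simp) p).hasFDerivAt
    have h2 := h1.clm_comp (sD.differentiable (by simp) p).hasFDerivAt
    have h3 := (sΛ.contDiffAt (x := p)).isSymmSndFDerivAt
      (by rw [minSmoothness_of_isRCLikeNormedField]; exact ENat.LEInfty.out)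
    have h4 : ∀ v w, fderiv ℝ om p v w = c₀.om (Λ p) (fderiv ℝ (fderiv ℝ Λ) p v w) +
        fderiv ℝ c₀.om (Λ p) (fderiv ℝ Λ p v) (fderiv ℝ Λ p w) := fun v w => by
      rw [show fderiv ℝ om p = _ from h2.fderiv]
      simp
    simp only [brk, h4, he, h3.eq (e p A) (e p B)]
    abel
  have hD : ∀ p m, fderiv ℝ Λ (p + i0 (lat m)) = fderiv ℝ Λ p := fun p m => by
    obtain ⟨b, h1, -⟩ := hp m
    exact fderiv_shift h1 p
  refine ⟨{ i := Manifold.iL
            i_inj := fun q q' h => Manifold.i0_inj (by rwa [Manifold.iL_apply, Manifold.iL_apply] at h)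
            e := e
            om := om
            e_smooth := sI.clm_comp (c₀.e_smooth.comp sΛ)
            om_smooth := (c₀.om_smooth.comp sΛ).clm_comp sD
            om_e := fun p v => by
              simp only [om, ContinuousLinearMap.comp_apply, he, c₀.om_e]
            e_om := fun p v => by
              simp only [om, e, ContinuousLinearMap.comp_apply, c₀.e_om, (hi p).inverse_apply_self]
            e_per := fun p m => ?_
            om_per := fun p m => ?_
            brXW := fun p => by rw [hb]; exact c₀.brXW _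
            brXZ := fun p => by rw [hb]; exact c₀.brXZ _ },
    fun p => ?_, Manifold.iL_apply, fun _ => rfl, he⟩
  · obtain ⟨b, h1, h2⟩ := hp m
    simp only [e, Manifold.iL_apply, hD, h1, h2]
  · obtain ⟨b, h1, h2⟩ := hp m
    simp only [om, Manifold.iL_apply, hD, h1]
    congr 1
    refine ContinuousLinearMap.ext fun v => ?_
    rw [← c₀.e_om (Λ p) v, c₀.om_e, ← h2, c₀.om_e]
  · change al (brk e om p vW vZ) = 0
    rw [hb]
    exact c₀.nrm _

/-- The folding map attached to a closed curve which is star shaped about `(0, k)`. -/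
noncomputable def Lam (a b : ℝ → ℝ) (k : ℝ) (p : G) : G :=
  (((Real.exp p.2.re * a p.1.re : ℝ) : ℂ) + p.1.im * Complex.I,
    ((k + Real.exp p.2.re * (b p.1.re - k) : ℝ) : ℂ) + p.2.im * Complex.I)

variable {a b : ℝ → ℝ} {k : ℝ}

lemma Lam_smooth (sa : ContDiff ℝ ∞ a) (sb : ContDiff ℝ ∞ b) (k : ℝ) :
    ContDiff ℝ ∞ (Lam a b k) := by
  have h1 : ContDiff ℝ ∞ fun p : G => p.1.re := Complex.reCLM.contDiff.comp contDiff_fst
  have h2 : ContDiff ℝ ∞ fun p : G => p.2.re := Complex.reCLM.contDiff.comp contDiff_snd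
  have h3 : ContDiff ℝ ∞ fun p : G => p.1.im := Complex.imCLM.contDiff.comp contDiff_fst
  have h4 : ContDiff ℝ ∞ fun p : G => p.2.im := Complex.imCLM.contDiff.comp contDiff_snd
  have o := Complex.ofRealCLM.contDiff (n := ∞)
  exact ((o.comp (h2.exp.mul (sa.comp h1))).add ((o.comp h3).mul contDiff_const)).prodMk
    ((o.comp (contDiff_const.add (h2.exp.mul ((sb.comp h1).sub contDiff_const)))).add
      ((o.comp h4).mul contDiff_const))

lemma Lam_fderiv (sa : ContDiff ℝ ∞ a) (sb : ContDiff ℝ ∞ b) (k : ℝ) (p v : G) :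
    fderiv ℝ (Lam a b k) p v =
      (((Real.exp p.2.re * (deriv a p.1.re * v.1.re + a p.1.re * v.2.re) : ℝ) : ℂ) +
        v.1.im * Complex.I,
      ((Real.exp p.2.re * (deriv b p.1.re * v.1.re + (b p.1.re - k) * v.2.re) : ℝ) : ℂ) +
        v.2.im * Complex.I) := by
  have h1 : HasFDerivAt (fun p : G => p.1.re) _ p :=
    (Complex.reCLM.comp (ContinuousLinearMap.fst ℝ ℂ ℂ)).hasFDerivAt
  have h2 : HasFDerivAt (fun p : G => p.2.re) _ p :=
    (Complex.reCLM.comp (ContinuousLinearMap.snd ℝ ℂ ℂ)).hasFDerivAt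
  have h3 : HasFDerivAt (fun p : G => p.1.im) _ p :=
    (Complex.imCLM.comp (ContinuousLinearMap.fst ℝ ℂ ℂ)).hasFDerivAt
  have h4 : HasFDerivAt (fun p : G => p.2.im) _ p :=
    (Complex.imCLM.comp (ContinuousLinearMap.snd ℝ ℂ ℂ)).hasFDerivAt
  have ha := (sa.differentiable (by simp) p.1.re).hasDerivAt.comp_hasFDerivAt p h1
  have hb := (sb.differentiable (by simp) p.1.re).hasDerivAt.comp_hasFDerivAt p h1
  have o : ∀ {f : G → ℝ} {f' : G →L[ℝ] ℝ}, HasFDerivAt f f' p →
      HasFDerivAt (fun p => (f p : ℂ)) (Complex.ofRealCLM.comp f') p :=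
    fun h => Complex.ofRealCLM.hasFDerivAt.comp p h
  have h := ((o (h2.exp.mul ha)).add ((o h3).mul_const Complex.I)).prodMk
    ((o ((h2.exp.mul (hb.sub_const k)).const_add k)).add ((o h4).mul_const Complex.I))
  rw [show fderiv ℝ (Lam a b k) p = _ from h.fderiv]
  refine Prod.ext (Complex.ext ?_ ?_) (Complex.ext ?_ ?_) <;> simp <;> ring

lemma Lam_inv (sa : ContDiff ℝ ∞ a) (sb : ContDiff ℝ ∞ b)
    (hd : ∀ s, deriv a s * (b s - k) - deriv b s * a s ≠ 0) (p : G) :
    (fderiv ℝ (Lam a b k) p).IsInvertible := by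
  refine Eq.Man.inv_of_inj (E := G) (X := G) rfl _ ((injective_iff_map_eq_zero _).2 fun v hv => ?_)
  rw [Lam_fderiv sa sb] at hv
  have e1 := congrArg (fun z : G => z.1.re) hv
  have e2 := congrArg (fun z : G => z.1.im) hv
  have e3 := congrArg (fun z : G => z.2.re) hv
  have e4 := congrArg (fun z : G => z.2.im) hv
  simp only [Complex.add_re, Complex.ofReal_re, Complex.mul_re, Complex.I_re, mul_zero,
    Complex.ofReal_im, Complex.I_im, mul_one, sub_self, add_zero, Prod.fst_zero, Complex.zero_re,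
    mul_eq_zero, Real.exp_ne_zero, false_or, Complex.add_im, Complex.mul_im, zero_add,
    Complex.zero_im, Prod.snd_zero] at e1 e2 e3 e4
  have e5 : (deriv a p.1.re * (b p.1.re - k) - deriv b p.1.re * a p.1.re) * v.1.re = 0 := by
    linear_combination (b p.1.re - k) * e1 - a p.1.re * e3
  have e6 : (deriv a p.1.re * (b p.1.re - k) - deriv b p.1.re * a p.1.re) * v.2.re = 0 := by
    linear_combination deriv a p.1.re * e3 - deriv b p.1.re * e1
  exact Prod.ext (Complex.ext ((mul_eq_zero.1 e5).resolve_left (hd _)) e2)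
    (Complex.ext ((mul_eq_zero.1 e6).resolve_left (hd _)) e4)

/-- The angle. -/
noncomputable def ph (s : ℝ) : ℝ := 2 * Real.pi * (s - 1 / 8)

noncomputable def c1 (s : ℝ) : ℝ := Real.sin (ph s)
noncomputable def c2 (s : ℝ) : ℝ := expNegInvGlue (1 / 2 - Real.cos (ph s))

lemma ph_smooth : ContDiff ℝ ∞ ph := by unfold ph; fun_prop
lemma c1_smooth : ContDiff ℝ ∞ c1 := Real.contDiff_sin.comp ph_smooth
lemma c2_smooth : ContDiff ℝ ∞ c2 :=
  expNegInvGlue.contDiff.comp (contDiff_const.sub (Real.contDiff_cos.comp ph_smooth))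

lemma ph_int (s : ℝ) (m : ℤ) : ph (s + m) = ph s + m * (2 * Real.pi) := by unfold ph; ring
lemma c1_int (s : ℝ) (m : ℤ) : c1 (s + m) = c1 s := by rw [c1, ph_int, Real.sin_add_int_mul_two_pi, c1]
lemma c2_int (s : ℝ) (m : ℤ) : c2 (s + m) = c2 s := by rw [c2, ph_int, Real.cos_add_int_mul_two_pi, c2]

lemma ph_deriv (s : ℝ) : HasDerivAt ph (2 * Real.pi) s := by
  have := ((hasDerivAt_id' s).sub_const (1 / 8)).const_mul (2 * Real.pi)
  rwa [mul_one] at this

lemma c1_deriv (s : ℝ) : deriv c1 s = 2 * Real.pi * Real.cos (ph s) := by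
  rw [show deriv c1 s = _ from (ph_deriv s).sin.deriv, mul_comm]

lemma c2_deriv (s : ℝ) : deriv c2 s =
    (1 / 2 - Real.cos (ph s))⁻¹ ^ 2 * c2 s * (Real.sin (ph s) * (2 * Real.pi)) := by
  have h1 : ∀ x, HasDerivAt expNegInvGlue (x⁻¹ ^ 2 * expNegInvGlue x) x := fun x => by
    simpa using expNegInvGlue.hasDerivAt_polynomial_eval_inv_mul 1 x
  have h2 := (h1 _).comp s ((ph_deriv s).cos.const_sub (1 / 2))
  rw [show deriv c2 s = _ from h2.deriv, c2]
  ring

lemma det_ne (s : ℝ) :
    deriv c1 s * (c2 s - expNegInvGlue (1 / 2)) - deriv c2 s * c1 s ≠ 0 := by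
  rw [c1_deriv, c2_deriv, c1]
  have hk : 0 < expNegInvGlue (1 / 2) := expNegInvGlue.pos_of_pos (by norm_num)
  have h0 : 0 ≤ c2 s := expNegInvGlue.nonneg _
  have hπ := Real.pi_pos
  have hs := Real.sin_sq_add_cos_sq (ph s)
  set x := Real.cos (ph s) with hx
  set y := Real.sin (ph s)
  have h1 : x * (c2 s - expNegInvGlue (1 / 2)) ≤ 0 := by
    rcases le_total 0 x with h | h
    · exact mul_nonpos_of_nonneg_of_nonpos h (sub_nonpos.2 (expNegInvGlue.monotone (by linarith)))
    · exact mul_nonpos_of_nonpos_of_nonneg h (sub_nonneg.2 (expNegInvGlue.monotone (by linarith)))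
  have h2 : 0 ≤ (1 / 2 - x)⁻¹ ^ 2 * c2 s * y ^ 2 := by positivity
  have h3 : x * (c2 s - expNegInvGlue (1 / 2)) < 0 ∨ 0 < (1 / 2 - x)⁻¹ ^ 2 * c2 s * y ^ 2 := by
    rcases le_or_gt (1 / 2) x with h | h
    · left
      rw [show c2 s = 0 from expNegInvGlue.zero_of_nonpos (by linarith)]
      nlinarith
    · by_cases hy : y = 0
      · left
        have e : x = -1 := by
          have : (x + 1) * (x - 1) = 0 := by rw [hy] at hs; linarith
          rcases mul_eq_zero.1 this with h' | h' <;> linarith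
        have : expNegInvGlue (1 / 2) < c2 s := by
          rw [c2, ← hx, e, expNegInvGlue, expNegInvGlue, if_neg (by norm_num), if_neg (by norm_num)]
          exact Real.exp_lt_exp.2 (by norm_num)
        rw [e]; linarith
      · right
        have : 0 < c2 s := expNegInvGlue.pos_of_pos (by linarith)
        have : 0 < 1 / 2 - x := by linarith
        positivity
  refine ne_of_lt ?_
  rcases h3 with h | h <;> nlinarith

lemma c2_RS {s : ℝ} (h : 1 / 2 < Real.cos (ph s)) : c2 s = 0 :=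
  expNegInvGlue.zero_of_nonpos (by linarith)

lemma fold_eq (q : Q) : fold q = (c1 q.1, q.2) := rfl

lemma fold_lat (q : Q) (m : ℤ × ℤ) : fold (q + lat m) = ((fold q).1, (fold q).2 + m.2) :=
  Prod.ext (c1_int q.1 m.1) rfl

lemma dl_smul (A : G × G) (t : ℝ) : dl (t • A.1, A.2) = t * dl A := by
  simp only [dl, Prod.smul_snd, Complex.smul_re, Complex.smul_im, smul_eq_mul]; ring

/-- The first vector of the formal path, in coordinates. -/
noncomputable def av (u s : ℝ) : G :=
  ((((1 - u) * deriv c1 s + u * max (deriv c1 s) Real.pi : ℝ) : ℂ),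
    (((1 - u) * deriv c2 s : ℝ) : ℂ) +
      ((u * (1 - u) * (max (deriv c1 s) Real.pi - deriv c1 s) : ℝ) : ℂ) * Complex.I)

/-- The base point of the formal path. -/
noncomputable def bp (u : ℝ) (q : Q) : G := i0 (fold q) + (0, (((1 - u) * c2 q.1 : ℝ) : ℂ))

lemma av_ind (u s : ℝ) : Inj (av u s, vW) := fun x y h => by
  have e1 := congrArg (fun z : G => z.1.re) h
  have e2 := congrArg (fun z : G => z.1.im) h
  have e3 := congrArg (fun z : G => z.2.re) h
  have e4 := congrArg (fun z : G => z.2.im) h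
  simp only [av, vW, Prod.smul_mk, Prod.mk_add_mk, Complex.add_re, Complex.smul_re,
    Complex.ofReal_re, Complex.I_re, smul_eq_mul, mul_zero, add_zero, Prod.fst_zero,
    Complex.zero_re, Complex.add_im, Complex.smul_im, Complex.ofReal_im, Complex.I_im, mul_one,
    zero_add, Complex.zero_im, Complex.mul_re, Complex.mul_im, sub_self, Prod.snd_zero,
    smul_zero] at e1 e2 e3 e4
  refine ⟨by_contra fun hx => ?_, e2⟩
  have f1 := (mul_eq_zero.1 e1).resolve_left hx
  have f3 := (mul_eq_zero.1 e3).resolve_left hx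
  have f4 := (mul_eq_zero.1 e4).resolve_left hx
  have hP : 0 < max (deriv c1 s) Real.pi := lt_max_of_lt_right Real.pi_pos
  rcases mul_eq_zero.1 f4 with h1 | h1
  · rcases mul_eq_zero.1 h1 with h2 | h2
    · rw [h2] at f1 f3
      refine det_ne s ?_
      rw [show deriv c1 s = 0 by linarith, show deriv c2 s = 0 by linarith]
      ring
    · rw [h2, show u = 1 by linarith] at f1
      linarith
  · rw [show deriv c1 s = max (deriv c1 s) Real.pi by linarith] at f1
    simp only [max_self, max_assoc] at f1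
    linarith

lemma inj_map {T : G →L[ℝ] G} (hT : Function.Injective T) {A : G × G} (h : Inj A) :
    Inj (T A.1, T A.2) := fun x y e =>
  h x y (hT (by rw [map_add, map_smul, map_smul, map_zero]; exact e))

end Fake

open Fake GCore in
theorem fakeStmt (hF : FramesStmt) : FakeStmt := by
  intro c₀ Γ hΓ hpos pe pΓ
  obtain ⟨k, hk, det_ne⟩ : ∃ k : ℝ, 0 < k ∧ ∀ s, deriv c1 s * (c2 s - k) - deriv c2 s * c1 s ≠ 0 :=
    ⟨_, expNegInvGlue.pos_of_pos (by norm_num), det_ne⟩
  let Λ := Lam c1 c2 k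
  have sΛ : ContDiff ℝ ∞ Λ := Lam_smooth c1_smooth c2_smooth k
  have hi : ∀ p, (fderiv ℝ Λ p).IsInvertible := Lam_inv c1_smooth c2_smooth det_ne
  have pe' : ∀ p (n : ℤ), c₀.e (p + i0 (0, n)) = c₀.e p := fun p n => by
    have := Band.per_int (g := fun t => c₀.e (p + i0 (0, t))) (fun t => by
      rw [← pe (p + i0 (0, t)), add_assoc, ← i0_add]; simp) 0 n
    simpa [show i0 (0, 0) = 0 from by simp [i0, Complex.ext_iff]] using this
  have po : ∀ p (n : ℤ), c₀.om (p + i0 (0, n)) = c₀.om p := fun p n =>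
    ContinuousLinearMap.ext fun v => by rw [← c₀.e_om p v, c₀.om_e, ← pe' p n, c₀.om_e]
  have pΛ : ∀ p (m : ℤ × ℤ), Λ (p + i0 (lat m)) = Λ p + i0 (0, (m.2 : ℝ)) := fun p m => by
    refine Prod.ext (Complex.ext ?_ ?_) (Complex.ext ?_ ?_) <;>
      simp [Λ, Lam, i0, c1_int, c2_int]
  obtain ⟨c, cN, ci, co, ce⟩ := pull c₀ sΛ hi fun m => ⟨_, fun p => pΛ p m, fun p => pe' p m.2⟩
  have cf : Continuous fold := c1_smooth.continuous.comp continuous_fst |>.prodMk continuous_snd
  have pK : ∀ s, Per fun q => Γ s (fold q) := fun s q m => by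
    simp only [fold_lat]
    exact Band.per_snd (pΓ s) _ _ _
  obtain ⟨C, C', cC, cC', pC, pC', CC', C'C, -, hC, -⟩ := hF (fun x => Γ (pj x.1) (fold x.2))
    (hΓ.cont.comp (f := fun x : ℝ × Q => (pj x.1, fold x.2)) (by fun_prop)) (fun s => pK (pj s))
    fun s q _ _ => hΓ.inj _ _
  let B : ℝ × Q → (G →L[ℝ] G) := fun x => (C x).comp ((C' (0, x.2)).comp (c₀.om (bp x.1 x.2)))
  have Bi : ∀ x, Function.Injective (B x) := fun x =>
    (Function.LeftInverse.injective (C'C x)).comp
      ((Function.LeftInverse.injective (CC' _)).comp (Function.LeftInverse.injective (c₀.e_om _)))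
  have si : ContDiff ℝ ∞ i0 := by
    rw [show i0 = Manifold.iL from (funext Manifold.iL_apply).symm]
    exact Manifold.iL.contDiff
  have di : ∀ q v, fderiv ℝ i0 q v = i0 v := fun q v => by
    rw [show i0 = Manifold.iL from (funext Manifold.iL_apply).symm, Manifold.iL.fderiv]
  have iX : i0 (1, 0) = vX := rfl
  have iW : i0 (0, 1) = vW := rfl
  have cB : Continuous B := by
    have h1 := c2_smooth.continuous
    have h2 := si.continuous
    have h3 : Continuous fun x : ℝ × Q => bp x.1 x.2 := by unfold bp; fun_prop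
    exact cC.clm_comp ((cC'.comp (by fun_prop)).clm_comp (c₀.om_smooth.continuous.comp h3))
  have cA : Continuous fun x : ℝ × Q => av x.1 x.2.1 := by
    have h1 : Continuous (deriv c1) := c1_smooth.continuous_deriv (by simp)
    have h2 : Continuous (deriv c2) := c2_smooth.continuous_deriv (by simp)
    unfold av
    fun_prop
  have key : ∀ (u : ℝ) q, 0 ≤ u → u ≤ 1 → (1 - u) * c2 q.1 = 0 →
      B (u, q) vX = (Γ (pj u) (fold q)).1 ∧ B (u, q) vW = (Γ (pj u) (fold q)).2 :=
    fun u q u0 u1 h => by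
      have e1 : bp u q = i0 (fold q) := by simp [bp, h]
      obtain ⟨a1, a2⟩ := hC 0 q le_rfl zero_le_one
      obtain ⟨b1, b2⟩ := hC u q u0 u1
      simp only [pj_zero, hΓ.start, V3.dd0, di, iX, iW] at a1 a2
      simp only [B, ContinuousLinearMap.comp_apply, e1, ← a1, ← a2, C'C]
      exact ⟨b1, b2⟩
  have g0 : ∀ q, (B (0, q) (av 0 q.1), B (0, q) vW) = dd c i0 q := fun q => by
    have e1 : bp 0 q = Λ (i0 q) := by
      refine Prod.ext (Complex.ext ?_ ?_) (Complex.ext ?_ ?_) <;>
        simp [Λ, Lam, i0, bp, fold_eq]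
    simp only [B, ContinuousLinearMap.comp_apply, CC', dd, co, di, e1, iX, iW]
    have e2 : fderiv ℝ Λ (i0 q) vX = av 0 q.1 := by
      rw [Lam_fderiv c1_smooth c2_smooth]
      simp [av, i0, vX]
    have e3 : fderiv ℝ Λ (i0 q) vW = vW := by
      rw [Lam_fderiv c1_smooth c2_smooth]
      simp [i0, vW]
    rw [e2, e3]
  have gi : ∀ u q, Inj (B (u, q) (av u q.1), B (u, q) vW) := fun u q =>
    inj_map (A := (av u q.1, vW)) (Bi (u, q)) (av_ind u q.1)
  have gp : ∀ u, Per fun q => (B (u, q) (av u q.1), B (u, q) vW) := fun s q m => by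
    have e1 := pC s q m
    have e2 := pC' 0 q m
    have e3 : bp s (q + lat m) = bp s q + i0 (0, (m.2 : ℝ)) := by
      simp only [bp, fold_lat, Prod.fst_add, lat_fst, c2_int]
      rw [add_right_comm, ← i0_add]
      simp [fold_eq]
    have e4 : av s (q + lat m).1 = av s q.1 := by
      simp only [av, Prod.fst_add, lat_fst, c1_deriv, c2_deriv, c2_int, ph_int,
        Real.cos_add_int_mul_two_pi, Real.sin_add_int_mul_two_pi]
    simp only at e1 e2
    simp only [B, e1, e2, e3, e4, po]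
  have g1 : ∀ q, 0 < dl (B (1, q) (av 1 q.1), B (1, q) vW) := fun q => by
    obtain ⟨a1, a2⟩ := key 1 q zero_le_one le_rfl (by simp)
    have e : av 1 q.1 = max (deriv c1 q.1) Real.pi • vX := by simp [av, vX]
    simp only [e, map_smul, a1, a2, pj_one]
    rw [dl_smul]
    exact mul_pos (lt_max_of_lt_right Real.pi_pos) (hpos _)
  clear_value B
  let x' : St c ∅ :=
    { f := i0
      γ := fun x => (B x (av x.1 x.2.1), B x vW)
      emb := ⟨si, fun q m => by rw [i0_add, ci], Manifold.i0_inj, fun q => by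
        rw [← g0]; exact gi 0 q⟩
      fam := ⟨(cB.clm_apply cA).prodMk (cB.clm_apply continuous_const), gp,
        fun s q _ _ => gi s q⟩
      g0 := g0
      g1 := g1
      ef := fun _ h => h.elim
      eg := fun _ h => h.elim }
  have z2 : ∀ p : G, Eq.Man.pq p ∈ RS → (Λ p).2.re = k * (1 - Real.exp p.2.re) := fun p hp => by
    have := c2_RS (s := p.1.re) hp
    simp only [Λ, Lam, this, Complex.add_re, Complex.ofReal_re, Complex.mul_re, Complex.I_re,
      Complex.ofReal_im, Complex.I_im]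
    ring
  refine ⟨c, Λ, x', cN, ci, sΛ, hi, ce, pΛ, fun p p' hp hp' n h => ?_, fun p hp h => ?_,
    fun q hq => ?_, fun _ => rfl, fun q hq s => ?_⟩
  · have e1 : p'.2.re = p.2.re := by
      have := congrArg (fun z : G => z.2.re) h
      simp only [Prod.snd_add, i0, add_zero, z2 p hp, z2 p' hp'] at this
      exact Real.exp_injective (by linarith [mul_left_cancel₀ hk.ne' this])
    have e2 : p'.2.im = p.2.im := by simpa [Λ, Lam, i0] using congrArg (fun z : G => z.2.im) h
    have e3 : p'.1.im = p.1.im + n := by simpa [Λ, Lam, i0] using congrArg (fun z : G => z.1.im) h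
    have e4 : c1 p.1.re = c1 p'.1.re := by
      have := congrArg (fun z : G => z.1.re) h
      simp only [Λ, Lam, i0, Prod.fst_add, Complex.add_re, Complex.ofReal_re, Complex.mul_re,
        Complex.I_re, mul_zero, Complex.ofReal_im, Complex.I_im, mul_one, sub_self, add_zero,
        e1] at this
      exact (mul_left_cancel₀ (Real.exp_ne_zero _) this).symm
    obtain ⟨m, hm | hm⟩ := Real.sin_eq_sin_iff.1 e4
    · refine ⟨(m, n), Prod.ext (Complex.ext ?_ ?_) (Complex.ext ?_ ?_)⟩ <;> simp [i0, e1, e2, e3]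
      refine mul_left_cancel₀ (by positivity : 2 * Real.pi ≠ 0) ?_
      simp only [ph] at hm
      linarith
    · have h1 : 1 / 2 < Real.cos (ph p.1.re) := hp
      have h2 : 1 / 2 < Real.cos (ph p'.1.re) := hp'
      rw [hm, show (2 * (m : ℝ) + 1) * Real.pi - ph p.1.re =
        Real.pi - ph p.1.re + m * (2 * Real.pi) by ring, Real.cos_add_int_mul_two_pi,
        Real.cos_pi_sub] at h2
      linarith
  · have e1 := z2 p hp
    rw [h, Complex.zero_re] at e1
    have e2 : Real.exp p.2.re = 1 := by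
      linarith [(mul_eq_zero.1 e1.symm).resolve_left hk.ne']
    exact Complex.ext (Real.exp_eq_one_iff _ |>.1 e2)
      (by simpa [Λ, Lam] using congrArg Complex.im h)
  · have := c2_RS (s := q.1) hq
    refine Prod.ext (Complex.ext ?_ ?_) (Complex.ext ?_ ?_) <;>
      simp [Λ, Lam, i0, fold_eq, this]
  · have h1 : 1 / 2 < Real.cos (ph q.1) := hq
    have h2 := c2_RS h1
    obtain ⟨a1, a2⟩ := key s q s.2.1 s.2.2 (by rw [h2, mul_zero])
    have h3 : max (deriv c1 q.1) Real.pi = deriv c1 q.1 :=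
      max_eq_left (by rw [c1_deriv]; nlinarith [Real.pi_pos])
    have e : av s q.1 = (2 * Real.pi * Real.cos (ph q.1)) • vX := by
      simp only [av, h3, c2_deriv, h2, ← c1_deriv, vX]
      simp
      ring
    simp only [x', e, map_smul, a1, a2, pj_coe, ph]

end Pool.Agent.Lib.MP_72f1d0_gt.PC
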