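import Pool.Agent.Lib.MP_72f1d0_gt.PC.ModDefs
import Pool.Agent.Lib.MP_72f1d0_gt.V3.Model

/-!
The auxiliary torus: from a model that is periodic in one direction to a doubly periodic one.
-/

open scoped ContDiff Topology

namespace Pool.Agent.Lib.MP_72f1d0_gt.PC

/-- The folding of the model torus onto the annulus. -/
noncomputable def fold (q : Q) : Q := (Real.sin (2 * Real.pi * (q.1 - 1 / 8)), q.2)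

def FakeStmt : Prop :=
  ∀ (c₀ : V3.Ctx0) (Γ : UI → Q → G × G), V3.Form c₀ Γ → (∀ q, 0 < dl (Γ 1 q)) →
  (∀ p, c₀.e (p + i0 (0, 1)) = c₀.e p) → (∀ s q, Γ s (q + (0, 1)) = Γ s q) →
  ∃ (c : Ctx) (Λ : G → G) (x' : St c ∅), c.Nrm ∧ (∀ q, c.i q = i0 q) ∧ ContDiff ℝ ∞ Λ ∧
    (∀ p, (fderiv ℝ Λ p).IsInvertible) ∧ (∀ p a, fderiv ℝ Λ p (c.e p a) = c₀.e (Λ p) a) ∧
    (∀ p (m : ℤ × ℤ), Λ (p + i0 (lat m)) = Λ p + i0 (0, (m.2 : ℝ))) ∧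
    (∀ p p' : G, Eq.Man.pq p ∈ RS → Eq.Man.pq p' ∈ RS → ∀ n : ℤ, Λ p' = Λ p + i0 (0, (n : ℝ)) →
      ∃ m, p' = p + i0 (lat m)) ∧
    (∀ p : G, Eq.Man.pq p ∈ RS → (Λ p).2 = 0 → p.2 = 0) ∧
    (∀ q ∈ RS, Λ (i0 q) = i0 (fold q)) ∧ (∀ q, x'.f q = i0 q) ∧
    ∀ q ∈ RS, ∀ s : UI, x'.γ (s, q) =
      ((2 * Real.pi * Real.cos (2 * Real.pi * (q.1 - 1 / 8))) • (Γ s (fold q)).1,
        (Γ s (fold q)).2)

end Pool.Agent.Lib.MP_72f1d0_gt.PC
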