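import Pool.Agent.Lib.MP_72f1d0_gt.PC.Defs

/-!
The topological assembly: finitely many holes, moving, merging and closing them.
-/

open scoped ContDiff Manifold Topology
open Set Filter Metric

namespace Pool.Agent.Lib.MP_72f1d0_gt.PC

open Eq.Stmt (Distr Data IsPath derived diff Engel)
open Eq.Man (dp Fv)

noncomputable section

namespace Holes

section Abstract

variable {E₂ H₂ : Type*} [NormedAddCommGroup E₂] [NormedSpace ℝ E₂] [TopologicalSpace H₂]
  {J : ModelWithCorners ℝ E₂ H₂} {S : Type*} [TopologicalSpace S] [ChartedSpace H₂ S]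

variable (J) in
/-- The properties of the family `W` of sets on which the formal datum can be made genuine. -/
structure Sys (W : Set S → Prop) : Prop where
  mono : ∀ A B : Set S, B ⊆ A → W A → W B
  empty : W ∅
  rep : ∀ (A : Set S) (φ : S → S), SelfIso J φ → W A → W (φ ⁻¹' A)
  circ : ∀ π : ℂ → S, Disc J π → ∀ C : Set S, IsClosed C → ∀ A ∈ 𝓝ˢ C, W A →
    ∃ B ∈ 𝓝ˢ (C ∪ π '' sphere 0 1), W B
  ann : ∀ p : S, (∀ y ∈ connectedComponent p, J.IsInteriorPoint y) →
    ∃ ψ : Q → S, Ann J ψ ∧ ψ 0 ∈ connectedComponent p ∧ ∃ b : ℝ, 0 < b ∧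
      ∀ A : Set S, W A → (∀ q : Q, b ≤ |q.1| → ψ q ∈ A) → W (A ∪ range ψ)

/-- Everything outside an arbitrary neighbourhood of `P` can be made genuine. -/
def Phi (W : Set S → Prop) (P : Set S) : Prop := ∀ U : Set S, IsOpen U → P ⊆ U → W Uᶜ

/-- The same near a closed set `K`. -/
def Psi (W : Set S → Prop) (K P : Set S) : Prop :=
  ∀ U : Set S, IsOpen U → P ⊆ U → ∃ A ∈ 𝓝ˢ (K \ U), W A

variable {W : Set S → Prop}

lemma Phi.mono {P P' : Set S} (h : Phi W P) (hP : P ⊆ P') : Phi W P' :=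
  fun U hU hs => h U hU (hP.trans hs)

lemma disc_cont {π : ℂ → S} (h : Disc J π) : Continuous π := h.1.contMDiff.continuous

lemma disc_open {π : ℂ → S} (h : Disc J π) : IsOpenMap π := h.1.isOpenMap

/-- A small ball in a disc inside a given neighbourhood. -/
lemma disc_ball {π : ℂ → S} (h : Disc J π) {a : ℂ} {U : Set S} (hU : IsOpen U) (ha : π a ∈ U) :
    ∃ ε : ℝ, 0 < ε ∧ π '' ball a ε ⊆ U := by
  obtain ⟨ε, hε, hb⟩ := Metric.isOpen_iff.1 (hU.preimage (disc_cont h)) a ha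
  exact ⟨ε, hε, image_subset_iff.2 hb⟩

/-- Adding a closed disc, at the price of one more hole. -/
lemma psi_step [T2Space S] (hW : Sys J W) (hC : CompStmt J S) (hS : ShrinkStmt J S)
    {K P : Set S} (hK : IsClosed K) (h : Psi W K P) {π : ℂ → S} (hπ : Disc J π) :
    Psi W (K ∪ π '' closedBall 0 1) (insert (π 0) P) := by
  intro U hU hPU
  obtain ⟨A, hA, hWA⟩ := h U hU ((subset_insert _ _).trans hPU)
  obtain ⟨B, hB, hWB⟩ := hW.circ π hπ (K \ U) (hK.sdiff hU) A hA hWA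
  have hB' : K \ U ∪ π '' sphere 0 1 ⊆ interior B := subset_interior_iff_mem_nhdsSet.2 hB
  have ho : IsOpen (ball (0 : ℂ) 1 ∪ π ⁻¹' interior B) :=
    isOpen_ball.union (isOpen_interior.preimage (disc_cont hπ))
  have hsub : closedBall (0 : ℂ) 1 ⊆ ball (0 : ℂ) 1 ∪ π ⁻¹' interior B := by
    intro z hz
    by_cases hz1 : z ∈ ball (0 : ℂ) 1
    · exact Or.inl hz1
    · refine Or.inr (hB' (Or.inr ⟨z, ?_, rfl⟩))
      rw [mem_sphere]
      exact le_antisymm (mem_closedBall.1 hz) (not_lt.1 fun h' => hz1 (mem_ball.2 h'))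
  obtain ⟨δ, hδ, hth⟩ := (isCompact_closedBall (0 : ℂ) 1).exists_thickening_subset_open ho hsub
  rw [thickening_closedBall hδ zero_le_one] at hth
  obtain ⟨ε, hε, hεU⟩ := disc_ball hπ hU (hPU (mem_insert _ _))
  obtain ⟨φ, hφ, hout, hin, hpre⟩ := hS π hπ 1 (δ + 1) ε 0 (by linarith) hε (by simp)
  refine ⟨φ ⁻¹' interior B, ?_, hW.rep _ φ hφ (hW.mono _ _ interior_subset hWB)⟩
  refine (isOpen_interior.preimage (hC.2.1 φ hφ).1).mem_nhdsSet.2 ?_
  rintro p ⟨hp, hpU⟩
  by_cases hb : p ∈ π '' ball 0 (δ + 1)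
  · obtain ⟨z, hz, hzp⟩ := hin hb
    rcases hth hz with h1 | h1
    · exact absurd (hεU (hpre p ⟨z, ball_subset_closedBall h1, hzp⟩)) hpU
    · show φ p ∈ interior B
      rw [← hzp]; exact h1
  · show φ p ∈ interior B
    rw [hout p hb]
    rcases hp with hp | hp
    · exact hB' (Or.inl ⟨hp, hpU⟩)
    · exact absurd (image_mono (closedBall_subset_ball (by linarith)) hp) hb

/-- Finitely many discs. -/
lemma psi_finset [T2Space S] (hW : Sys J W) (hC : CompStmt J S) (hS : ShrinkStmt J S)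
    {ι : Type*} (π : ι → ℂ → S) (hπ : ∀ i, Disc J (π i)) (t : Finset ι) :
    ∃ K P : Set S, IsClosed K ∧ P.Finite ∧ (∀ i ∈ t, π i '' ball 0 1 ⊆ K) ∧ Psi W K P := by
  classical
  induction t using Finset.induction_on with
  | empty =>
    refine ⟨∅, ∅, isClosed_empty, finite_empty, by simp, fun U _ _ => ⟨∅, by simp, hW.empty⟩⟩
  | insert i t _ ih =>
    obtain ⟨K, P, hK, hP, hcov, h⟩ := ih
    refine ⟨K ∪ π i '' closedBall 0 1, insert (π i 0) P,
      hK.union ((isCompact_closedBall _ _).image (disc_cont (hπ i))).isClosed, hP.insert _, ?_,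
      psi_step hW hC hS hK h (hπ i)⟩
    intro j hj
    rcases Finset.mem_insert.1 hj with rfl | hj
    · exact (image_mono ball_subset_closedBall).trans subset_union_right
    · exact (hcov j hj).trans subset_union_left

/-- The surface can be pushed into its interior. -/
lemma push_all [CompactSpace S] [IsManifold J ∞ S] (hC : CompStmt J S) (hU : PushStmt J S) :
    ∃ φ : S → S, SelfIso J φ ∧ ∀ p, J.IsInteriorPoint (φ p) := by
  have key : ∃ φ : S → S, SelfIso J φ ∧ (∀ p, φ p = p ∨ J.IsInteriorPoint (φ p)) ∧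
      ∀ p, φ p ∈ (univ : Set S) → J.IsInteriorPoint (φ p) := by
    refine isCompact_univ.induction_on (p := fun A : Set S => ∃ φ : S → S, SelfIso J φ ∧
      (∀ p, φ p = p ∨ J.IsInteriorPoint (φ p)) ∧ ∀ p, φ p ∈ A → J.IsInteriorPoint (φ p))
      ⟨fun p => p, hC.1, fun _ => Or.inl rfl, fun _ h => h.elim⟩ ?_ ?_ ?_
    · rintro A B hAB ⟨φ, h1, h2, h3⟩
      exact ⟨φ, h1, h2, fun p hp => h3 p (hAB hp)⟩
    · rintro A B ⟨φ, h1, h2, h3⟩ ⟨φ', h1', h2', h3'⟩
      refine ⟨fun p => φ (φ' p), hC.2.2 φ φ' h1 h1', fun p => ?_, fun p hp => ?_⟩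
      · rcases h2 (φ' p) with h | h
        · beta_reduce; rw [h]; exact h2' p
        · exact Or.inr h
      · rcases hp with hp | hp
        · exact h3 _ hp
        · rcases h2 (φ' p) with h | h
          · beta_reduce at hp ⊢; rw [h] at hp ⊢; exact h3' p hp
          · exact h
    · intro q _
      rcases J.isInteriorPoint_or_isBoundaryPoint q with hq | hq
      · refine ⟨J.interior S, mem_nhdsWithin_of_mem_nhds
          ((J.isOpen_interior (n := ∞) (by simp)).mem_nhds hq),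
          fun p => p, hC.1, fun _ => Or.inl rfl, fun _ h => h⟩
      · obtain ⟨φ, h1, -, -, h2, N, hN, h3⟩ := hU q hq univ univ_mem
        exact ⟨N, mem_nhdsWithin_of_mem_nhds hN, φ, h1, h2, fun p hp => absurd hp (h3 p)⟩
  obtain ⟨φ, h1, -, h3⟩ := key
  exact ⟨φ, h1, fun p => h3 p (mem_univ _)⟩

/-- Finitely many holes suffice. -/
lemma exists_holes [T2Space S] [CompactSpace S] [IsManifold J ∞ S] (hW : Sys J W)
    (hD : DiscStmt J S) (hC : CompStmt J S) (hS : ShrinkStmt J S) (hU : PushStmt J S) :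
    ∃ P : Set S, P.Finite ∧ Phi W P := by
  obtain ⟨φ, hφ, hint⟩ := push_all hC hU
  obtain ⟨hc, hi⟩ := hC.2.1 φ hφ
  choose π hπ hπ0 using fun p => (hD (φ p) (hint p)).1
  obtain ⟨t, ht⟩ := (isCompact_range hc).elim_finite_subcover (fun p => π p '' ball 0 1)
    (fun p => disc_open (hπ p) _ isOpen_ball) (by
      rintro _ ⟨p, rfl⟩
      exact mem_iUnion.2 ⟨p, 0, mem_ball_self one_pos, hπ0 p⟩)
  obtain ⟨K, P, -, hP, hcov, h⟩ := psi_finset hW hC hS π hπ t
  refine ⟨φ ⁻¹' P, hP.preimage hi.injOn, fun U hUo hPU => ?_⟩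
  obtain ⟨A, hA, hWA⟩ := h (φ '' Uᶜ)ᶜ
    (hUo.isClosed_compl.isCompact.image hc).isClosed.isOpen_compl (by
      rintro _ hp ⟨a, ha, rfl⟩
      exact ha (hPU hp))
  refine hW.mono _ _ (fun a ha => ?_) (hW.rep A φ hφ hWA)
  refine subset_of_mem_nhdsSet hA ⟨?_, fun h' => h' ⟨a, ha, rfl⟩⟩
  obtain ⟨i, hi, hp⟩ := mem_iUnion₂.1 (ht (mem_range_self a))
  exact hcov i hi hp

/-- Pulling the holes back by an isotopy. -/
lemma pull [T2Space S] [CompactSpace S] (hW : Sys J W) (hC : CompStmt J S) {P U : Set S}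
    (h : Phi W P) {φ : S → S} (hφ : SelfIso J φ) (hU : IsOpen U) (hP : ∀ p, φ p ∈ P → p ∈ U) :
    W Uᶜ := by
  have := h (φ '' Uᶜ)ᶜ
    (hU.isClosed_compl.isCompact.image (hC.2.1 φ hφ).1).isClosed.isOpen_compl (by
      rintro _ hp ⟨a, ha, rfl⟩
      exact ha (hP a hp))
  rw [compl_compl] at this
  exact hW.mono _ _ (subset_preimage_image φ _) (hW.rep _ φ hφ this)

/-- A hole near the boundary can be removed. -/
lemma loc_bdry [T2Space S] [CompactSpace S] (hW : Sys J W) (hC : CompStmt J S)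
    (hU : PushStmt J S) {P : Set S} (hP : P.Finite) {q₀ : S} (hq : J.IsBoundaryPoint q₀) :
    ∃ N ∈ 𝓝 q₀, ∀ q ∈ N, Phi W (insert q P) → Phi W P := by
  have hV : (P \ {q₀})ᶜ ∈ 𝓝 q₀ :=
    (hP.subset sdiff_subset).isClosed.isOpen_compl.mem_nhds (by simp)
  obtain ⟨φ, hφ, hout, -, -, N, hN, hmiss⟩ := hU q₀ hq _ hV
  refine ⟨N, hN, fun q hqN h U hUo hPU => pull hW hC h hφ hUo fun p hp => ?_⟩
  rcases hp with hp | hp
  · exact absurd (hp ▸ hqN) (hmiss p)
  · have h1 : φ p ≠ q₀ := fun h' => hmiss p (h' ▸ mem_of_mem_nhds hN)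
    have h2 : φ (φ p) = φ p := hout _ fun h' => h' ⟨hp, h1⟩
    rw [(hC.2.1 φ hφ).2 h2] at hp
    exact hPU hp

/-- A hole can be moved locally. -/
lemma loc_move [T2Space S] [CompactSpace S] (hW : Sys J W) (hD : DiscStmt J S)
    (hC : CompStmt J S) (hS : ShrinkStmt J S) (hU : PushStmt J S) {P : Set S} (hP : P.Finite)
    (q₀ : S) :
    ∃ N ∈ 𝓝 q₀, ∀ q ∈ N, ∀ q' ∈ N, Phi W (insert q P) → Phi W (insert q' P) := by
  rcases J.isInteriorPoint_or_isBoundaryPoint q₀ with hq | hq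
  · obtain ⟨π, hπ, rfl⟩ := (hD q₀ hq).1
    obtain ⟨δ, hδ, hb⟩ := disc_ball hπ (a := 0)
      (hP.subset (sdiff_subset (t := {π 0}))).isClosed.isOpen_compl (by simp)
    refine ⟨π '' ball 0 (δ / 2), (disc_open hπ _ isOpen_ball).mem_nhds
      ⟨0, mem_ball_self (half_pos hδ), rfl⟩, ?_⟩
    rintro q hq _ ⟨a, ha, rfl⟩ h U hUo hPU
    obtain ⟨ε, hε, hεU⟩ := disc_ball hπ hUo (hPU (mem_insert _ _))
    obtain ⟨φ, hφ, hout, -, hpre⟩ := hS π hπ (δ / 2) δ ε a (half_lt_self hδ) hε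
      (le_of_lt (by simpa using ha))
    refine pull hW hC h hφ hUo fun p hp => ?_
    rcases hp with hp | hp
    · exact hεU (hpre p (hp ▸ image_mono ball_subset_closedBall hq))
    · by_cases h0 : φ p = π 0
      · exact hεU (hpre p ⟨0, mem_closedBall_self (half_pos hδ).le, h0.symm⟩)
      · have h2 : φ (φ p) = φ p := hout _ fun h' => hb h' ⟨hp, h0⟩
        rw [(hC.2.1 φ hφ).2 h2] at hp
        exact hPU (mem_insert_of_mem _ hp)
  · obtain ⟨N, hN, h⟩ := loc_bdry hW hC hU hP hq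
    exact ⟨N, hN, fun q hq q' _ h' => (h q hq h').mono (subset_insert _ _)⟩

/-- A hole can be moved in its component. -/
lemma move [T2Space S] [CompactSpace S] (hW : Sys J W) (hD : DiscStmt J S)
    (hC : CompStmt J S) (hS : ShrinkStmt J S) (hU : PushStmt J S) {P : Set S} (hP : P.Finite)
    {q q' : S} (hq : q' ∈ connectedComponent q) (h : Phi W (insert q P)) :
    Phi W (insert q' P) := by
  have hcl : IsClopen {z : S | Phi W (insert z P)} := by
    constructor
    · rw [← isOpen_compl_iff, isOpen_iff_mem_nhds]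
      intro z hz
      obtain ⟨N, hN, hm⟩ := loc_move hW hD hC hS hU hP z
      exact mem_of_superset hN fun w hw hw' => hz (hm w hw z (mem_of_mem_nhds hN) hw')
    · rw [isOpen_iff_mem_nhds]
      intro z hz
      obtain ⟨N, hN, hm⟩ := loc_move hW hD hC hS hU hP z
      exact mem_of_superset hN fun w hw => hm z (mem_of_mem_nhds hN) w hw hz
  exact hcl.connectedComponent_subset h hq

/-- One hole can be removed. -/
lemma remove [T2Space S] [CompactSpace S] (hW : Sys J W) (hD : DiscStmt J S)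
    (hC : CompStmt J S) (hS : ShrinkStmt J S) (hU : PushStmt J S) {P : Set S} (hP : P.Finite)
    {q : S} (h : Phi W (insert q P)) : Phi W P := by
  by_cases h1 : ∀ y ∈ connectedComponent q, J.IsInteriorPoint y
  swap
  · push Not at h1
    obtain ⟨y, hy, hy'⟩ := h1
    obtain ⟨N, hN, hm⟩ := loc_bdry hW hC hU hP
      ((J.isInteriorPoint_or_isBoundaryPoint y).resolve_left hy')
    exact hm y (mem_of_mem_nhds hN) (move hW hD hC hS hU hP hy h)
  by_cases h2 : ∃ y ∈ P, y ∈ connectedComponent q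
  · obtain ⟨y, hy, hy'⟩ := h2
    have := move hW hD hC hS hU hP hy' h
    rwa [insert_eq_of_mem hy] at this
  push Not at h2
  obtain ⟨ψ, hψ, h0, b, hb, hA⟩ := hW.ann q h1
  have hc : Continuous ψ := hψ.1.contMDiff.continuous
  have hr : range ψ ⊆ connectedComponent q := by
    rw [connectedComponent_eq h0]
    exact (isPreconnected_range hc).subset_connectedComponent (mem_range_self _)
  intro U hUo hPU
  have ho : IsOpen (ψ '' {z : Q | |z.1| < b}) :=
    hψ.1.isOpenMap _ (isOpen_lt (by fun_prop) continuous_const)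
  have h3 := move hW hD hC hS hU hP h0 h (U \ connectedComponent q ∪ ψ '' {z : Q | |z.1| < b})
    ((hUo.sdiff isClosed_connectedComponent).union ho) (by
      rintro y (rfl | hy)
      · exact Or.inr ⟨0, by simpa using hb, rfl⟩
      · exact Or.inl ⟨hPU hy, h2 y hy⟩)
  refine hW.mono _ _ (fun p hp => ?_) (hA _ h3 ?_)
  · by_cases hp' : p ∈ range ψ
    · exact Or.inr hp'
    · refine Or.inl ?_
      rintro (h' | h')
      · exact hp h'.1
      · exact hp' (image_subset_range _ _ h')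
  · rintro z hz (h' | ⟨w, hw, hwz⟩)
    · exact h'.2 (hr (mem_range_self z))
    · obtain ⟨n, rfl⟩ := (hψ.2 w z).1 hwz
      simp only [Prod.fst_add, add_zero] at hz
      exact absurd hw (not_lt.2 hz)

theorem all [T2Space S] [CompactSpace S] [IsManifold J ∞ S] (hW : Sys J W) (hD : DiscStmt J S)
    (hC : CompStmt J S) (hS : ShrinkStmt J S) (hU : PushStmt J S) : W univ := by
  obtain ⟨P, hP, h⟩ := exists_holes hW hD hC hS hU
  have : Phi W (∅ : Set S) := by
    induction P, hP using Set.Finite.induction_on with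
    | empty => exact h
    | insert _ hs ih => exact ih (remove hW hD hC hS hU hs h)
  simpa using this ∅ isOpen_empty subset_rfl

end Abstract

lemma sphere_pol {z : ℂ} (hz : z ∈ sphere (0 : ℂ) 1) : ∃ t : ℝ, pol 1 (0, t) = z := by
  refine ⟨Complex.arg z / (2 * Real.pi), ?_⟩
  have hn : ‖z‖ = 1 := by simpa using hz
  have hp : (Real.pi : ℂ) ≠ 0 := by exact_mod_cast Real.pi_ne_zero
  have h := Complex.norm_mul_exp_arg_mul_I z
  rw [hn] at h
  rw [← h, pol]
  congr 2
  rw [h]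
  push_cast
  field_simp
  ring

end Holes

variable {E : Type*} [NormedAddCommGroup E] [NormedSpace ℝ E] [FiniteDimensional ℝ E]
  {M : Type*} [TopologicalSpace M] [ChartedSpace E M] [IsManifold 𝓘(ℝ, E) ∞ M]
  {E₂ H₂ : Type*} [NormedAddCommGroup E₂] [NormedSpace ℝ E₂] [FiniteDimensional ℝ E₂]
  [TopologicalSpace H₂] {J : ModelWithCorners ℝ E₂ H₂} {S : Type*} [TopologicalSpace S]
  [ChartedSpace H₂ S] [IsManifold J ∞ S]

omit [FiniteDimensional ℝ E] [FiniteDimensional ℝ E₂] in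
theorem exAnn {D : Distr E M} (hL : LineStmt J S D) (hB : BoxesStmt J S) (hF : LeafStmt J S)
    (hG : LoopStmt J S) (hH : CollarStmt J S) : ExAnn J S D := by
  intro x hx p hp
  have hlf := hL.1 x hx
  obtain ⟨N, hN, hG⟩ := hG
  obtain ⟨k, π, v, hb⟩ := hB _ hlf p hp N
  obtain ⟨γ, i, m, hγ, h0⟩ := hF _ N _ k π v hN hb p mem_connectedComponent
  obtain ⟨c, hc, hc0⟩ := hG _ γ (π i) m hγ
  rw [h0] at hc0
  have hr : range c ⊆ connectedComponent p := by
    rw [connectedComponent_eq hc0]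
    exact (isPreconnected_range hc.1.continuous).subset_connectedComponent (mem_range_self _)
  obtain ⟨ψ, hψ, hψ0, ht⟩ := hH _ hlf c hc fun t => hp _ (hr (mem_range_self t))
  refine ⟨ψ, hψ, ?_, hL.2.2.1 x hx ψ hψ ht⟩
  rwa [connectedComponent_eq hc0]

omit [FiniteDimensional ℝ E] [FiniteDimensional ℝ E₂] in
theorem final [T2Space S] [CompactSpace S] {D : Distr E M} (hD : DiscStmt J S)
    (hP : PolarStmt J S) (hC : CompStmt J S) (hS : ShrinkStmt J S) (hU : PushStmt J S)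
    (hR : ReachStmt J S D) (hL : LineStmt J S D) (h1 : MCircle J S D) (h2 : MAnn J S D)
    (h3 : ExAnn J S D) : Final J S D := by
  intro x hx
  have hf : ∀ y : Data J E S M, MReach D x y → y.Formal D := by
    rintro y ⟨γ, -, h, -, rfl⟩
    exact h 1
  have hW : Holes.Sys J fun A : Set S => ∃ y, MReach D x y ∧ ∀ p ∈ A, MGood y p := by
    refine ⟨?_, ?_, ?_, ?_, ?_⟩
    · rintro A B hAB ⟨y, hy, h⟩
      exact ⟨y, hy, fun p hp => h p (hAB hp)⟩
    · obtain ⟨y, hy, -⟩ := hR.2 x _ hx hC.1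
      exact ⟨y, hy, fun _ h => h.elim⟩
    · rintro A φ hφ ⟨y, hy, h⟩
      obtain ⟨z, hz, h'⟩ := hR.2 y φ (hf y hy) hφ
      exact ⟨z, hR.1 _ _ _ hy hz, fun p hp => h' p (h _ hp)⟩
    · rintro π hπ C hCc A hA ⟨y, hy, h⟩
      obtain ⟨z, hz, h'⟩ := h1 y (hf y hy) _ (hP π hπ 1 one_pos)
        (hL.2.1 y (hf y hy) π hπ 1 one_pos) C hCc (mem_of_superset hA h)
      refine ⟨{p | MGood z p}, nhdsSet_mono (union_subset_union_right _ ?_) h',
        z, hR.1 _ _ _ hy hz, fun _ hp => hp⟩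
      rintro _ ⟨w, hw, rfl⟩
      obtain ⟨t, rfl⟩ := Holes.sphere_pol hw
      exact ⟨t, rfl⟩
    · intro p hp
      obtain ⟨ψ, hψ, h0, hz⟩ := h3 x hx p hp
      obtain ⟨b, hb, h2⟩ := h2
      refine ⟨ψ, hψ, h0, b / 2, half_pos hb, ?_⟩
      rintro A ⟨y, hy, h⟩ hA
      obtain ⟨z, hz', h'⟩ := h2 y (hf y hy) ψ hψ (hL.2.2.2 x y hy ψ hψ hz) (b / 2)
        (half_lt_self hb) fun q hq => h _ (hA q hq)
      exact ⟨z, hR.1 _ _ _ hy hz', fun p hp => h' p (hp.imp_left (h p))⟩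
  obtain ⟨y, hy, h⟩ := Holes.all hW hD hC hS hU
  exact ⟨y, hy, fun p => h p (mem_univ p)⟩

end

end Pool.Agent.Lib.MP_72f1d0_gt.PC
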