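import Pool.Agent.Lib.MP_72f1d0_gt.PC.LeafODE

/-!
A recurrent leaf of the line field defined by finitely many boxes.
-/

open scoped ContDiff Manifold Topology
open Set Filter

namespace Pool.Agent.Lib.MP_72f1d0_gt.PC

open Eq.Man (dp)

set_option linter.unusedSectionVars false

noncomputable section

variable {E₂ H₂ : Type*} [NormedAddCommGroup E₂] [NormedSpace ℝ E₂] [TopologicalSpace H₂]
  {J : ModelWithCorners ℝ E₂ H₂} {S : Type*} [TopologicalSpace S] [ChartedSpace H₂ S]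

namespace Leaf

variable {ι : Type} {π : ι → Q → S} {v : ι → Q → Q} {L : S → Submodule ℝ E₂} {N : ℝ} {C : Set S}

/-- Near `u` the curve `γ` is `π i ∘ κ` with `κ' = ε v i (κ)`. -/
def Ch (π : ι → Q → S) (v : ι → Q → Q) (γ : ℝ → S) (u : ℝ) (i : ι) (ε : ℝ) (κ : ℝ → Q) : Prop :=
  (ε = 1 ∨ ε = -1) ∧
    ∀ᶠ t in 𝓝 u, γ t = π i (κ t) ∧ HasDerivAt κ (ε • v i (κ t)) t ∧ ‖κ t‖ < 2

/-- The curve `γ` is a leaf near `u`. -/
def Lf (π : ι → Q → S) (v : ι → Q → Q) (γ : ℝ → S) (u : ℝ) : Prop := ∃ i ε κ, Ch π v γ u i ε κ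

lemma fld (hB : Boxes J L N C π v) (i : ι) : Fld (v i) := ⟨hB.smooth i, hB.out i, hB.pos i⟩

lemma Lf.congr {γ γ' : ℝ → S} {u : ℝ} (h : Lf π v γ u) (e : γ' =ᶠ[𝓝 u] γ) : Lf π v γ' u := by
  obtain ⟨i, ε, κ, h1, h2⟩ := h
  refine ⟨i, ε, κ, h1, ?_⟩
  filter_upwards [h2, e] with t ht et using ⟨et.trans ht.1, ht.2⟩

lemma Lf.add {γ : ℝ → S} {a u : ℝ} (h : Lf π v γ (a + u)) : Lf π v (fun t => γ (a + t)) u := by
  obtain ⟨i, ε, κ, h1, h2⟩ := h
  refine ⟨i, ε, fun t => κ (a + t), h1, ?_⟩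
  have hc : Tendsto (fun t => a + t) (𝓝 u) (𝓝 (a + u)) := (continuous_const_add a).tendsto u
  filter_upwards [hc.eventually h2] with t ht using ⟨ht.1, ht.2.1.comp_const_add a t, ht.2.2⟩

lemma Lf.neg {γ : ℝ → S} {u : ℝ} (h : Lf π v γ (-u)) : Lf π v (fun t => γ (-t)) u := by
  obtain ⟨i, ε, κ, h1, h2⟩ := h
  refine ⟨i, -ε, fun t => κ (-t), by rcases h1 with rfl | rfl <;> simp, ?_⟩
  have hc : Tendsto (fun t : ℝ => -t) (𝓝 u) (𝓝 (-u)) := continuous_neg.tendsto u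
  filter_upwards [hc.eventually h2] with t ht
  refine ⟨ht.1, ?_, ht.2.2⟩
  have := ht.2.1.scomp t (hasDerivAt_neg t)
  rw [neg_one_smul, ← neg_smul] at this
  exact this

lemma Lf.mem (hB : Boxes J L N C π v) {γ : ℝ → S} {u : ℝ} (h : Lf π v γ u) : γ u ∈ C := by
  obtain ⟨i, ε, κ, -, h2⟩ := h
  rw [h2.self_of_nhds.1]
  exact hB.mem _ _

lemma Ch.smooth (hB : Boxes J L N C π v) {γ : ℝ → S} {u : ℝ} {i : ι} {ε : ℝ} {κ : ℝ → Q}
    (h : Ch π v γ u i ε κ) : ContDiffAt ℝ ∞ κ u :=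
  smooth_sol (f := fun q => ε • v i q) ((hB.smooth i).const_smul ε) (h.2.mono fun _ ht => ht.2.1)

lemma Lf.smooth (hB : Boxes J L N C π v) {γ : ℝ → S} {u : ℝ} (h : Lf π v γ u) :
    ContMDiffAt 𝓘(ℝ, ℝ) J ∞ γ u := by
  obtain ⟨i, ε, κ, h⟩ := h
  exact (((hB.disc i).1.contMDiff _).comp u (h.smooth hB).contMDiffAt).congr_of_eventuallyEq
    (h.2.mono fun _ ht => ht.1)

lemma dc_eq {p : Q → S} (hp : ContMDiff 𝓘(ℝ, Q) J ∞ p) {γ : ℝ → S} {κ : ℝ → Q} {u : ℝ} {w : Q}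
    (e : ∀ᶠ t in 𝓝 u, γ t = p (κ t)) (hk : HasDerivAt κ w u) : dc J γ u = dp J p (κ u) w := by
  have h1 := HasMFDerivAt.comp u (hp.mdifferentiableAt (x := κ u) (by simp)).hasMFDerivAt
    hk.hasFDerivAt.hasMFDerivAt
  have h2 := (h1.congr_of_eventuallyEq (f₁ := γ) e).mfderiv
  have h3 : dc J γ u = dp J p (κ u) (ContinuousLinearMap.toSpanSingleton ℝ w 1) :=
    congrArg (fun A : ℝ →L[ℝ] E₂ => A 1) h2
  rw [h3, ContinuousLinearMap.toSpanSingleton_apply, one_smul]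

lemma dp_inj (hB : Boxes J L N C π v) (i : ι) (q : Q) : Function.Injective (dp J (π i) q) := by
  exact ((hB.disc i).1.mfderivToContinuousLinearEquiv (by simp) q).injective

/-- A leaf can be read in any box. -/
lemma Lf.chart (hB : Boxes J L N C π v) {γ : ℝ → S} {u : ℝ} (h : Lf π v γ u) {j : ι} {q : Q}
    (hq : ‖q‖ < 2) (e : γ u = π j q) : ∃ ε κ, Ch π v γ u j ε κ ∧ κ u = q := by
  have hs := h.smooth hB
  obtain ⟨i, ε, κ, hε, h2⟩ := h
  have hl := (hB.disc j).1 q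
  set σ : S → Q := fun x => hl.localInverse x with hσ
  have s1 : ContMDiffAt J 𝓘(ℝ, Q) ∞ σ (γ u) := e ▸ hl.localInverse_contMDiffAt
  have s2 : ContDiffAt ℝ ∞ (fun t => σ (γ t)) u := contMDiffAt_iff_contDiffAt.1 (s1.comp u hs)
  set κ' : ℝ → Q := fun t => σ (γ t) with hκ'
  have k0 : κ' u = q := by
    show σ (γ u) = q
    rw [e]
    exact hl.localInverse_left_inv hl.localInverse_mem_target
  have r1 : ∀ᶠ t in 𝓝 u, γ t = π j (κ' t) := by
    have : ∀ᶠ y in 𝓝 (γ u), π j (σ y) = y := e ▸ hl.localInverse_eventuallyEq_right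
    filter_upwards [hs.continuousAt.eventually this] with t ht using ht.symm
  have s3 : ContDiffAt ℝ 1 κ' u := s2.of_le (by simp)
  have r2 : ∀ᶠ t in 𝓝 u, HasDerivAt κ' (deriv κ' t) t := by
    filter_upwards [s3.eventually (by simp)] with t ht
    exact (ht.differentiableAt (by simp)).hasDerivAt
  have r3 : ∀ᶠ t in 𝓝 u, ‖κ' t‖ < 2 :=
    s3.continuousAt.norm.eventually_lt continuousAt_const (by rw [k0]; exact hq)
  have r4 : ∀ᶠ t in 𝓝 u, deriv κ' t = v j (κ' t) ∨ deriv κ' t = -v j (κ' t) := by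
    filter_upwards [r1.eventually_nhds, h2.eventually_nhds, r2, r3] with t a1 a2 a3 a4
    obtain ⟨b1, b2, b3⟩ := a2.self_of_nhds
    have c1 := dc_eq (hB.disc j).1.contMDiff a1 a3
    have c2 := dc_eq (hB.disc i).1.contMDiff (a2.mono fun _ hs => hs.1) b2
    rw [c1, map_smul] at c2
    have c3 := hB.compat i j _ _ b3.le a4.le (b1.symm.trans a1.self_of_nhds)
    rcases hε with rfl | rfl <;> rcases c3 with c3 | c3 <;> rw [c3] at c2
    · exact Or.inl (dp_inj hB j _ (by rw [c2, one_smul]))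
    · exact Or.inr (dp_inj hB j _ (by rw [c2, one_smul, map_neg]))
    · exact Or.inr (dp_inj hB j _ (by rw [c2, neg_one_smul, map_neg]))
    · exact Or.inl (dp_inj hB j _ (by rw [c2, neg_one_smul, neg_neg]))
  have cd : ContinuousAt (fun t => (deriv κ' t).2) u :=
    (s3.derivWithin (m := 0) (by simp)).continuousAt.snd
  rcases r4.self_of_nhds with c | c
  · have r5 : ∀ᶠ t in 𝓝 u, 0 < (deriv κ' t).2 :=
      continuousAt_const.eventually_lt cd (by rw [c]; exact (hB.pos _ _).1)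
    refine ⟨1, κ', ⟨Or.inl rfl, ?_⟩, k0⟩
    filter_upwards [r1, r2, r3, r4, r5] with t a1 a2 a3 a4 a5
    refine ⟨a1, ?_, a3⟩
    rcases a4 with a4 | a4
    · rwa [one_smul, ← a4]
    · rw [a4, Prod.snd_neg] at a5
      linarith [(hB.pos j (κ' t)).1]
  · have r5 : ∀ᶠ t in 𝓝 u, (deriv κ' t).2 < 0 :=
      cd.eventually_lt continuousAt_const (by
        rw [c, Prod.snd_neg]; linarith [(hB.pos j (κ' u)).1])
    refine ⟨-1, κ', ⟨Or.inr rfl, ?_⟩, k0⟩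
    filter_upwards [r1, r2, r3, r4, r5] with t a1 a2 a3 a4 a5
    refine ⟨a1, ?_, a3⟩
    rcases a4 with a4 | a4
    · rw [a4] at a5
      linarith [(hB.pos j (κ' t)).1]
    · rwa [neg_one_smul, ← a4]

lemma Ch.uniq (hB : Boxes J L N C π v) {γ γ' : ℝ → S} {u : ℝ} {j : ι} {ε : ℝ} {κ κ' : ℝ → Q}
    (h : Ch π v γ u j ε κ) (h' : Ch π v γ' u j ε κ') (e : κ u = κ' u) : γ =ᶠ[𝓝 u] γ' := by
  obtain ⟨K, hK⟩ := (fld hB j).neg_lip ε
  have := ODE_solution_unique_of_eventually (v := fun _ q => ε • v j q) (s := fun _ => univ)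
    (Eventually.of_forall fun _ => hK.lipschitzOnWith)
    (h.2.mono fun _ ht => ⟨ht.2.1, mem_univ _⟩) (h'.2.mono fun _ ht => ⟨ht.2.1, mem_univ _⟩) e
  filter_upwards [h.2, h'.2, this] with t a1 a2 a3
  rw [a1.1, a2.1, a3]

lemma Ch.neg {γ : ℝ → S} {j : ι} {ε : ℝ} {κ : ℝ → Q} (h : Ch π v γ 0 j ε κ) :
    Ch π v (fun t => γ (-t)) 0 j (-ε) fun t => κ (-t) := by
  obtain ⟨h1, h2⟩ := h
  refine ⟨by rcases h1 with rfl | rfl <;> simp, ?_⟩
  have hc : Tendsto (fun t : ℝ => -t) (𝓝 0) (𝓝 0) := by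
    simpa using continuous_neg.tendsto (0 : ℝ)
  filter_upwards [hc.eventually h2] with t ht
  refine ⟨ht.1, ?_, ht.2.2⟩
  have := ht.2.1.scomp t (hasDerivAt_neg t)
  rw [neg_one_smul, ← neg_smul] at this
  exact this

/-- Two leaves through the same point agree up to a reflection. -/
lemma Lf.alt (hB : Boxes J L N C π v) {γ γ' : ℝ → S} (h : Lf π v γ 0) (h' : Lf π v γ' 0)
    (e : γ 0 = γ' 0) : γ =ᶠ[𝓝 0] γ' ∨ γ =ᶠ[𝓝 0] fun t => γ' (-t) := by
  obtain ⟨j, ε, κ, h⟩ := h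
  obtain ⟨a1, -, a3⟩ := h.2.self_of_nhds
  obtain ⟨ε', κ', h', k0⟩ := h'.chart hB a3 (e.symm.trans a1)
  by_cases he : ε' = ε
  · subst he
    exact Or.inl (h.uniq hB h' k0.symm)
  · have he' : -ε' = ε := by
      rcases h.1 with rfl | rfl <;> rcases h'.1 with rfl | rfl <;> simp_all
    subst he'
    exact Or.inr (h.uniq hB h'.neg (by rw [neg_zero, k0]))

lemma sign_eq (hB : Boxes J L N C π v) {j : ι} {ε ε' : ℝ} {q : Q} (h : ε • v j q = ε' • v j q) :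
    ε = ε' :=
  mul_right_cancel₀ (hB.pos j q).1.ne' (congrArg Prod.snd h)

lemma germ_eq (hB : Boxes J L N C π v) {γ γ' : ℝ → S} {j : ι} {κ κ' : ℝ → Q} {s : ℝ}
    (a1 : ∀ᶠ t in 𝓝 s, γ t = π j (κ t)) (a2 : ∀ᶠ t in 𝓝 s, γ' t = π j (κ' t))
    (e : γ =ᶠ[𝓝 s] γ') : κ =ᶠ[𝓝 s] κ' := by
  filter_upwards [a1, a2, e] with t b1 b2 b3
  exact (hB.disc j).2 (b1.symm.trans (b3.trans b2))

lemma Lf.no_refl (hB : Boxes J L N C π v) {γ : ℝ → S} (h : Lf π v γ 0)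
    (e : γ =ᶠ[𝓝 0] fun t => γ (-t)) : False := by
  obtain ⟨j, ε, κ, h⟩ := h
  have h' := h.neg
  have e1 := germ_eq hB (h.2.mono fun _ ht => ht.1) (h'.2.mono fun _ ht => ht.1) e
  have e2 := (h.2.self_of_nhds.2.1).unique (h'.2.self_of_nhds.2.1.congr_of_eventuallyEq e1)
  simp only [neg_zero] at e2
  have e3 := sign_eq hB e2
  rcases h.1 with rfl | rfl <;> norm_num at e3

/-- Uniqueness on intervals. -/
lemma uniq_on [T2Space S] (hB : Boxes J L N C π v) {γ γ' : ℝ → S} {I : Set ℝ}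
    (hI : IsPreconnected I) (h : ∀ t ∈ I, Lf π v γ t) (h' : ∀ t ∈ I, Lf π v γ' t) {a : ℝ}
    (ha : a ∈ I) (e : γ =ᶠ[𝓝 a] γ') : ∀ t ∈ I, γ =ᶠ[𝓝 t] γ' := by
  refine hI.subset_of_closure_inter_subset (u := {t | γ =ᶠ[𝓝 t] γ'})
    isOpen_setOfPred_eventually_nhds ⟨a, ha, e⟩ ?_
  rintro u ⟨hu, uI⟩
  have fr : ∃ᶠ s in 𝓝 u, γ =ᶠ[𝓝 s] γ' := mem_closure_iff_frequently.1 hu
  have e0 : γ u = γ' u := tendsto_nhds_unique_of_frequently_eq
    ((h u uI).smooth hB).continuousAt ((h' u uI).smooth hB).continuousAt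
    (fr.mono fun _ hs => hs.self_of_nhds)
  obtain ⟨j, ε, κ, c⟩ := h u uI
  obtain ⟨a1, -, a3⟩ := c.2.self_of_nhds
  obtain ⟨ε', κ', c', k0⟩ := (h' u uI).chart hB a3 (e0.symm.trans a1)
  obtain ⟨s, b1, b2, b3⟩ := (fr.and_eventually (c.2.eventually_nhds.and c'.2.eventually_nhds)).exists
  have e1 := germ_eq hB (b2.mono fun _ ht => ht.1) (b3.mono fun _ ht => ht.1) b1
  have e2 := (b2.self_of_nhds.2.1).unique (b3.self_of_nhds.2.1.congr_of_eventuallyEq e1)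
  rw [← e1.self_of_nhds] at e2
  obtain rfl := sign_eq hB e2
  exact c.uniq hB c' k0.symm

lemma of_sol {j : ι} {κ : ℝ → Q} {t : ℝ} (h : ∀ᶠ s in 𝓝 t, HasDerivAt κ (v j (κ s)) s)
    (h2 : ‖κ t‖ < 2) : Lf π v (fun s => π j (κ s)) t := by
  refine ⟨j, 1, κ, Or.inl rfl, ?_⟩
  filter_upwards [h, h.self_of_nhds.continuousAt.norm.eventually_lt continuousAt_const h2]
    with s a1 a2 using ⟨rfl, by rwa [one_smul], a2⟩

/-- Gluing two curves with a common germ. -/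
lemma glue {γ γ' : ℝ → S} {a : ℝ} (e : γ =ᶠ[𝓝 a] γ') :
    ∃ g : ℝ → S, (∀ t ≤ a, g =ᶠ[𝓝 t] γ) ∧ ∀ t, a ≤ t → g =ᶠ[𝓝 t] γ' := by
  classical
  have h0 : (fun t => if t ≤ a then γ t else γ' t) =ᶠ[𝓝 a] γ := by
    filter_upwards [e] with t ht
    split_ifs
    exacts [rfl, ht.symm]
  refine ⟨fun t => if t ≤ a then γ t else γ' t, fun t ht => ?_, fun t ht => ?_⟩
  · rcases ht.eq_or_lt with rfl | ht
    · exact h0
    · filter_upwards [Iio_mem_nhds ht] with s hs using if_pos (le_of_lt hs)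
  · rcases ht.eq_or_lt with rfl | ht
    · exact h0.trans e
    · filter_upwards [Ioi_mem_nhds ht] with s hs using if_neg (not_le.2 hs)

lemma shift_germ {γ γ' : ℝ → S} {a : ℝ} (e : (fun t => γ (a + t)) =ᶠ[𝓝 0] γ') :
    γ =ᶠ[𝓝 a] fun t => γ' (-a + t) := by
  have hc : Tendsto (fun t : ℝ => -a + t) (𝓝 a) (𝓝 0) := by
    simpa using (continuous_const_add (-a)).tendsto a
  filter_upwards [hc.eventually e] with t ht
  rw [← ht, add_neg_cancel_left]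

lemma neg_germ {γ γ' : ℝ → S} (e : γ =ᶠ[𝓝 0] fun t => γ' (-t)) :
    (fun t => γ (-t)) =ᶠ[𝓝 0] γ' := by
  have hc : Tendsto (fun t : ℝ => -t) (𝓝 0) (𝓝 0) := by
    simpa using continuous_neg.tendsto (0 : ℝ)
  filter_upwards [hc.eventually e] with t ht
  rw [ht, neg_neg]

section Global

variable {c : ℝ}

lemma loc (hB : Boxes J L N C π v) (c0 : 0 < c) (hc : ∀ i q, c ≤ (v i q).2 ∧ (v i q).2 ≤ c⁻¹)
    {x : S} (hx : x ∈ C) : ∃ l : ℝ → S, l 0 = x ∧ ∀ t ∈ Icc (-c) c, Lf π v l t := by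
  obtain ⟨j, q, hq, rfl⟩ := hB.cover x hx
  obtain ⟨κ, k0, hk⟩ := (fld hB j).stay c0 (hc j) hq
  exact ⟨fun s => π j (κ s), congrArg (π j) k0, fun t ht => of_sol (hk t ht).1 (hk t ht).2⟩

lemma loc' (hB : Boxes J L N C π v) (c0 : 0 < c) (hc : ∀ i q, c ≤ (v i q).2 ∧ (v i q).2 ≤ c⁻¹)
    {γ : ℝ → S} (h : Lf π v γ 0) : ∃ l : ℝ → S, γ =ᶠ[𝓝 0] l ∧ ∀ t ∈ Icc 0 c, Lf π v l t := by
  obtain ⟨l, l0, hl⟩ := loc hB c0 hc (h.mem hB)
  rcases h.alt hB (hl 0 ⟨by linarith, c0.le⟩) l0.symm with e | e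
  · exact ⟨l, e, fun t ht => hl t ⟨by linarith [ht.1], ht.2⟩⟩
  · exact ⟨_, e, fun t ht => (hl (-t) ⟨by linarith [ht.2], by linarith [ht.1]⟩).neg⟩

lemma fwd (hB : Boxes J L N C π v) (c0 : 0 < c) (hc : ∀ i q, c ≤ (v i q).2 ∧ (v i q).2 ≤ c⁻¹)
    {γ₀ : ℝ → S} (h : Lf π v γ₀ 0) (n : ℕ) :
    ∃ γ : ℝ → S, γ =ᶠ[𝓝 0] γ₀ ∧ ∀ t ∈ Icc 0 (n * c), Lf π v γ t := by
  induction n with
  | zero =>
    refine ⟨γ₀, EventuallyEq.rfl, fun t ht => ?_⟩
    obtain rfl : t = 0 := le_antisymm (by simpa using ht.2) ht.1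
    exact h
  | succ n ih =>
    obtain ⟨γ, e, hγ⟩ := ih
    have r0 : (0 : ℝ) ≤ n * c := by positivity
    have h1 : Lf π v (fun t => γ (n * c + t)) 0 :=
      Lf.add (by rw [add_zero]; exact hγ _ ⟨r0, le_rfl⟩)
    obtain ⟨l, e1, hl⟩ := loc' hB c0 hc h1
    obtain ⟨g, g1, g2⟩ := glue (shift_germ e1)
    refine ⟨g, (g1 0 r0).trans e, fun t ht => ?_⟩
    rcases le_total t (n * c) with h2 | h2
    · exact (hγ t ⟨ht.1, h2⟩).congr (g1 t h2)
    · refine (Lf.add (hl _ ⟨by linarith, ?_⟩)).congr (g2 t h2)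
      have := ht.2
      push_cast at this
      linarith

lemma both (hB : Boxes J L N C π v) (c0 : 0 < c) (hc : ∀ i q, c ≤ (v i q).2 ∧ (v i q).2 ≤ c⁻¹)
    {γ₀ : ℝ → S} (h : Lf π v γ₀ 0) (r : ℝ) :
    ∃ γ : ℝ → S, γ =ᶠ[𝓝 0] γ₀ ∧ ∀ t, |t| ≤ r → Lf π v γ t := by
  obtain ⟨n, hn⟩ := exists_nat_ge (r / c)
  rw [div_le_iff₀ c0] at hn
  obtain ⟨γ, e, hγ⟩ := fwd hB c0 hc h n
  obtain ⟨γ', e', hγ'⟩ := fwd hB c0 hc (Lf.neg (u := 0) (by rwa [neg_zero])) n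
  obtain ⟨g, g1, g2⟩ := glue ((neg_germ e').trans e.symm)
  refine ⟨g, (g2 0 le_rfl).trans e, fun t ht => ?_⟩
  rw [abs_le] at ht
  rcases le_total t 0 with h2 | h2
  · exact (hγ' (-t) ⟨by linarith, by linarith⟩).neg.congr (g1 t h2)
  · exact (hγ t ⟨h2, by linarith⟩).congr (g2 t h2)

/-- The global leaf. -/
lemma global [T2Space S] (hB : Boxes J L N C π v) (c0 : 0 < c)
    (hc : ∀ i q, c ≤ (v i q).2 ∧ (v i q).2 ≤ c⁻¹) {p : S} (hp : p ∈ C) :
    ∃ γ : ℝ → S, γ 0 = p ∧ ∀ t, Lf π v γ t := by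
  obtain ⟨l, l0, hl⟩ := loc hB c0 hc hp
  choose g g0 hg using both hB c0 hc (hl 0 ⟨by linarith, c0.le⟩)
  refine ⟨fun t => g |t| t, (g0 _).self_of_nhds.trans l0, fun u => ?_⟩
  refine (hg (|u| + 1) u (by linarith)).congr ?_
  filter_upwards [continuous_abs.continuousAt.eventually_lt continuousAt_const (lt_add_one |u|)]
    with t ht
  refine (uniq_on hB (I := Icc (-|t|) |t|) isPreconnected_Icc
    (fun s hs => hg _ s (abs_le.2 hs)) (fun s hs => hg _ s ((abs_le.2 hs).trans ht.le))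
    (a := 0) ⟨by simp, abs_nonneg t⟩ ((g0 _).trans (g0 _).symm) t
    (abs_le.1 le_rfl)).self_of_nhds

lemma global_uniq [T2Space S] (hB : Boxes J L N C π v) {γ : ℝ → S} (h : ∀ t, Lf π v γ t)
    {a a' : ℝ} (e : γ a = γ a') (s : ℝ) : γ (a + s) = γ (a' + s) := by
  have h1 : ∀ b t, Lf π v (fun t => γ (b + t)) t := fun b t => (h _).add
  rcases (h1 a 0).alt hB (h1 a' 0) (by simpa using e) with e1 | e1
  · exact (uniq_on hB isPreconnected_univ (fun t _ => h1 a t) (fun t _ => h1 a' t) (mem_univ 0) e1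
      s (mem_univ s)).self_of_nhds
  · have e2 : ∀ t, γ (a + t) = γ (a' + -t) := fun t =>
      (uniq_on hB isPreconnected_univ (fun t _ => h1 a t) (fun t _ => (h1 a' (-t)).neg)
        (mem_univ 0) e1 t (mem_univ t)).self_of_nhds
    refine ((h1 ((a + a') / 2) 0).no_refl hB (Eventually.of_forall fun t => ?_)).elim
    have := e2 ((a' - a) / 2 + t)
    rw [show a + ((a' - a) / 2 + t) = (a + a') / 2 + t by ring,
      show a' + -((a' - a) / 2 + t) = (a + a') / 2 + -t by ring] at this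
    exact this

lemma global_hit [T2Space S] (hB : Boxes J L N C π v) (c0 : 0 < c)
    (hc : ∀ i q, c ≤ (v i q).2 ∧ (v i q).2 ≤ c⁻¹) {γ : ℝ → S} (h : ∀ t, Lf π v γ t) (u : ℝ) :
    ∃ (j : ι) (s a : ℝ), u - c⁻¹ ≤ s ∧ |a| ≤ 1 / 2 ∧ γ s = π j (a, 0) := by
  obtain ⟨j, q, hq, e⟩ := hB.cover _ ((h u).mem hB)
  obtain ⟨κ, s, a, k0, hs, ha, ks, hk⟩ := (fld hB j).hit c0 (hc j) hq
  have hl : ∀ t ∈ uIcc 0 s, Lf π v (fun s => π j (κ s)) t := fun t ht =>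
    of_sol (hk t ht).1 (hk t ht).2
  have h1 : ∀ t, Lf π v (fun t => γ (u + t)) t := fun t => (h _).add
  rw [abs_le] at hs
  rcases (hl 0 left_mem_uIcc).alt hB (h1 0) (by simp only [k0, e, add_zero]) with e1 | e1
  · have := (uniq_on hB isPreconnected_uIcc hl (fun t _ => h1 t) left_mem_uIcc e1 s
      right_mem_uIcc).self_of_nhds
    exact ⟨j, u + s, a, by linarith, ha, by rw [← ks]; exact this.symm⟩
  · have := (uniq_on hB isPreconnected_uIcc hl (fun t _ => (h1 (-t)).neg) left_mem_uIcc e1 s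
      right_mem_uIcc).self_of_nhds
    exact ⟨j, u + -s, a, by linarith, ha, by rw [← ks]; exact this.symm⟩

lemma global_rec [T2Space S] [Finite ι] (hB : Boxes J L N C π v) (c0 : 0 < c)
    (hc : ∀ i q, c ≤ (v i q).2 ∧ (v i q).2 ≤ c⁻¹) {γ : ℝ → S} (h : ∀ t, Lf π v γ t) :
    ∃ j : ι, ∀ T : ℝ, ∃ s a : ℝ, T ≤ s ∧ |a| ≤ 1 / 2 ∧ γ s = π j (a, 0) := by
  by_contra hn
  push Not at hn
  choose T hT using hn
  obtain ⟨B, hB'⟩ := (finite_range T).bddAbove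
  obtain ⟨j, s, a, h1, h2, h3⟩ := global_hit hB c0 hc h (B + c⁻¹)
  exact hT j s a (by linarith [hB' (mem_range_self j)]) h2 h3

end Global

/-- The speed used for the time change. -/
lemma exists_speed [T2Space S] (hB : Boxes J L N C π v) {c : ℝ} (c1 : c ≤ 1) (i : ι)
    (hc : ∀ q, c ≤ (v i q).2) {γ : ℝ → S} (h : ∀ t, Lf π v γ t) :
    ∃ φ : S → ℝ, ContDiff ℝ ∞ (fun t => φ (γ t)) ∧ (∀ x, c ≤ φ x) ∧
      ∀ q, ‖q‖ ≤ 3 / 2 → φ (π i q) = (v i q).2 := by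
  let β : ContDiffBump (0 : Q) := ⟨3 / 2, 7 / 4, by norm_num, by norm_num⟩
  let f : Q → ℝ := fun q => 1 + β q * ((v i q).2 - 1)
  have hf : ContDiff ℝ ∞ f :=
    contDiff_const.add (β.contDiff.mul ((hB.smooth i).snd.sub contDiff_const))
  have ex : ∀ q, Function.extend (π i) f (fun _ => 1) (π i q) = f q :=
    fun q => (hB.disc i).2.extend_apply _ _ q
  refine ⟨Function.extend (π i) f fun _ => 1, contDiff_iff_contDiffAt.2 fun u => ?_,
    fun x => ?_, fun q hq => ?_⟩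
  · by_cases hu : γ u ∈ π i '' Metric.closedBall 0 (7 / 4)
    · obtain ⟨q, hq, e⟩ := hu
      rw [mem_closedBall_zero_iff] at hq
      obtain ⟨ε, κ, hκ, -⟩ := (h u).chart hB (by linarith) e.symm
      refine (hf.contDiffAt.comp u (hκ.smooth hB)).congr_of_eventuallyEq ?_
      filter_upwards [hκ.2] with t ht
      rw [ht.1, ex]
      rfl
    · have cl : IsClosed (π i '' Metric.closedBall 0 (7 / 4)) :=
        ((isCompact_closedBall _ _).image (hB.disc i).1.contMDiff.continuous).isClosed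
      refine (contDiffAt_const (c := (1 : ℝ))).congr_of_eventuallyEq ?_
      filter_upwards [((h u).smooth hB).continuousAt.eventually (cl.isOpen_compl.mem_nhds hu)]
        with t ht
      by_cases hr : ∃ q, π i q = γ t
      · obtain ⟨q, hq⟩ := hr
        have hq' : (7 / 4 : ℝ) ≤ dist q 0 := by
          by_contra hlt
          exact ht ⟨q, (not_le.1 hlt).le, hq⟩
        rw [← hq, ex]
        show 1 + β q * ((v i q).2 - 1) = 1
        rw [β.zero_of_le_dist hq', zero_mul, add_zero]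
      · exact Function.extend_apply' _ _ _ hr
  · by_cases hr : ∃ q, π i q = x
    · obtain ⟨q, rfl⟩ := hr
      rw [ex]
      show c ≤ 1 + β q * ((v i q).2 - 1)
      have b0 : 0 ≤ β q := β.nonneg
      have b1 : β q ≤ 1 := β.le_one
      nlinarith [hc q]
    · rw [Function.extend_apply' _ _ _ hr]
      exact c1
  · rw [ex]
    show 1 + β q * ((v i q).2 - 1) = _
    rw [β.one_of_mem_closedBall (mem_closedBall_zero_iff.2 hq)]
    ring

end Leaf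

variable [FiniteDimensional ℝ E₂] [IsManifold J ∞ S]

open Leaf in
theorem leafStmt [T2Space S] : LeafStmt J S := by
  intro L N C k π v hN hB p hp
  have hb : ∀ᶠ c in 𝓝[>] (0 : ℝ), ∀ i q, c ≤ (v i q).2 ∧ (v i q).2 ≤ c⁻¹ :=
    eventually_all.2 fun i => (fld hB i).bd
  obtain ⟨c, hc, c0, c1⟩ := (hb.and (Ioo_mem_nhdsGT one_pos)).exists
  obtain ⟨γ, γ0, hγ⟩ := global hB c0 hc hp
  obtain ⟨i, hi⟩ := global_rec hB c0 hc hγ
  obtain ⟨φ, φ1, φ2, φ3⟩ := exists_speed hB c1.le i (fun q => (hc i q).1) hγ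
  obtain ⟨θ, τ, r1, r2, θ0, mo, dθ, sτ, dτ⟩ := exists_time φ1 c0 fun u => φ2 _
  have φ0 : ∀ x, 0 < φ x := fun x => c0.trans_le (φ2 x)
  have vel : ∀ u j ε κ, Ch π v γ (τ u) j ε κ → γ (τ u) = π j (κ (τ u)) ∧
      dc J (fun u => γ (τ u)) u =
        dp J (π j) (κ (τ u)) ((φ (γ (τ u)))⁻¹ • ε • v j (κ (τ u))) := by
    intro u j ε κ h
    refine ⟨h.2.self_of_nhds.1, dc_eq (κ := fun u => κ (τ u)) (hB.disc j).1.contMDiff ?_ ?_⟩
    · exact ((dτ u).continuousAt.eventually h.2).mono fun _ ht => ht.1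
    · exact h.2.self_of_nhds.2.1.scomp u (dτ u)
  refine ⟨fun u => γ (τ u), i, fun q => (v i q).1 / (v i q).2,
    ⟨hB.disc i, ?_, fun q hq => ?_, fun q => ?_, hB.cone i, fun u => ?_, fun u => ?_,
      fun u q hq e => ?_, fun u u' e s => ?_, fun T => ?_⟩, ?_⟩
  · exact (hB.smooth i).fst.div (hB.smooth i).snd fun q => (hB.pos i q).1.ne'
  · rw [hB.out i q hq, zero_div]
  · obtain ⟨a1, a2⟩ := hB.pos i q
    rw [abs_div, abs_of_pos a1, div_le_iff₀ a1]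
    linarith
  · exact ((hγ (τ u)).smooth hB).comp u sτ.contMDiff.contMDiffAt
  · obtain ⟨j, ε, κ, h⟩ := hγ (τ u)
    obtain ⟨e1, e2⟩ := vel u j ε κ h
    obtain ⟨a1, a2⟩ := hB.pos j (κ (τ u))
    have p0 := inv_pos.2 (φ0 (γ (τ u)))
    rw [e2]
    set r := (φ (γ (τ u)))⁻¹
    show _ ∉ L (γ (τ u))
    rw [e1]
    have ε1 : |ε| = 1 := by rcases h.1 with rfl | rfl <;> simp
    have ε0 : ε ≠ 0 := by rintro rfl; simp at ε1
    refine hB.cone j _ _ h.2.self_of_nhds.2.2.le (fun h0 => ?_) ?_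
    · have : r * (ε * (v j (κ (τ u))).2) = 0 := congrArg Prod.snd h0
      exact mul_ne_zero p0.ne' (mul_ne_zero ε0 a1.ne') this
    · show |r * (ε * (v j (κ (τ u))).1)| ≤ N * |r * (ε * (v j (κ (τ u))).2)|
      simp only [abs_mul, ε1, one_mul, abs_of_pos p0, abs_of_pos a1]
      have : |(v j (κ (τ u))).1| ≤ N * (v j (κ (τ u))).2 := by nlinarith
      nlinarith
  · obtain ⟨ε, κ, h, k0⟩ := (hγ (τ u)).chart hB (by linarith) e
    obtain ⟨-, e2⟩ := vel u i ε κ h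
    have e' : γ (τ u) = π i q := e
    have a1 := (hB.pos i q).1
    have e3 : ((v i q).2)⁻¹ • v i q = ((v i q).1 / (v i q).2, 1) :=
      Prod.ext (div_eq_inv_mul _ _).symm (inv_mul_cancel₀ a1.ne')
    rw [e2, k0, e', φ3 q hq, smul_comm, e3, map_smul]
    rcases h.1 with rfl | rfl
    · exact Or.inl (one_smul _ _)
    · exact Or.inr (neg_one_smul _ _)
  · have e1 := global_uniq hB hγ (show γ (τ u) = γ (τ u') from e)
    have d1 : ∀ s, HasDerivAt (fun s => θ (τ u + s) - θ (τ u' + s)) 0 s := by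
      intro s
      have := ((dθ (τ u + s)).comp_const_add _ s).sub ((dθ (τ u' + s)).comp_const_add _ s)
      rwa [e1 s, sub_self] at this
    have d2 := is_const_of_deriv_eq_zero (fun s => (d1 s).differentiableAt)
      (fun s => (d1 s).deriv) (τ (u + s) - τ u) 0
    simp only [add_sub_cancel, add_zero, r1] at d2
    have d3 : τ (u' + s) = τ u' + (τ (u + s) - τ u) := by
      rw [← r2 (τ u' + (τ (u + s) - τ u))]
      congr 1
      linarith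
    show γ (τ (u + s)) = γ (τ (u' + s))
    rw [d3, ← e1, add_sub_cancel]
  · obtain ⟨s, a, h1, h2, h3⟩ := hi (τ T)
    exact ⟨θ s, a, (r1 T).symm.le.trans (mo h1), h2, by rw [← h3]; exact congrArg γ (r2 s)⟩
  · show γ (τ 0) = p
    rw [← θ0, r2, γ0]

end

end Pool.Agent.Lib.MP_72f1d0_gt.PC
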