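import Pool.Agent.Lib.MP_72f1d0_gt.PC.Defs

/-!
Plane vector fields that are vertical at infinity: existence of solutions, estimates, time changes.
-/

open scoped ContDiff Manifold Topology
open Set Filter

namespace Pool.Agent.Lib.MP_72f1d0_gt.PC.Leaf

noncomputable section

/-- An almost vertical smooth field that is vertical off a bounded set. -/
structure Fld (w : Q → Q) : Prop where
  smooth : ContDiff ℝ ∞ w
  out : ∀ q, 3 ≤ ‖q‖ → w q = (0, 1)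
  pos : ∀ q, 0 < (w q).2 ∧ |(w q).1| ≤ (w q).2 / 10

lemma Fld.lip {w : Q → Q} (h : Fld w) : ∃ K, LipschitzWith K w := by
  have h1 : HasCompactSupport fun q => w q - (0, 1) := by
    refine HasCompactSupport.intro (isCompact_closedBall (0 : Q) 3) fun q hq => ?_
    rw [mem_closedBall_zero_iff, not_le] at hq
    rw [h.out q hq.le, sub_self]
  obtain ⟨K, hK⟩ := ContDiff.lipschitzWith_of_hasCompactSupport h1
    (h.smooth.sub contDiff_const) (by simp)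
  refine ⟨K, LipschitzWith.of_dist_le_mul fun a b => ?_⟩
  have := hK.dist_le_mul a b
  rwa [dist_sub_right] at this

lemma Fld.norm_eq {w : Q → Q} (h : Fld w) (q : Q) : ‖w q‖ = (w q).2 := by
  obtain ⟨h1, h2⟩ := h.pos q
  rw [Prod.norm_def, Real.norm_eq_abs, Real.norm_eq_abs, abs_of_pos h1, max_eq_right]
  linarith

lemma Fld.bd {w : Q → Q} (h : Fld w) :
    ∀ᶠ c in 𝓝[>] (0 : ℝ), ∀ q, c ≤ (w q).2 ∧ (w q).2 ≤ c⁻¹ := by
  have hc : Continuous fun q => (w q).2 := h.smooth.continuous.snd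
  obtain ⟨a, -, ha⟩ := (isCompact_closedBall (0 : Q) 3).exists_isMinOn
    ⟨0, Metric.mem_closedBall_self (by norm_num)⟩ hc.continuousOn
  obtain ⟨b, -, hb⟩ := (isCompact_closedBall (0 : Q) 3).exists_isMaxOn
    ⟨0, Metric.mem_closedBall_self (by norm_num)⟩ hc.continuousOn
  have pa := (h.pos a).1
  have pb := (h.pos b).1
  have hp : 0 < min 1 (min (w a).2 (w b).2⁻¹) := lt_min one_pos (lt_min pa (inv_pos.2 pb))
  filter_upwards [Ioo_mem_nhdsGT hp] with c hc0 q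
  obtain ⟨c0, c1⟩ := hc0
  simp only [lt_min_iff] at c1
  obtain ⟨c1, c2, c3⟩ := c1
  by_cases hq : q ∈ Metric.closedBall (0 : Q) 3
  · refine ⟨c2.le.trans (ha hq), (hb hq : (w q).2 ≤ (w b).2).trans ?_⟩
    exact ((lt_inv_comm₀ c0 pb).1 c3).le
  · rw [mem_closedBall_zero_iff, not_le] at hq
    rw [h.out q hq.le]
    exact ⟨c1.le, (one_le_inv₀ c0).2 c1.le⟩

lemma Fld.neg_lip {w : Q → Q} (h : Fld w) (ε : ℝ) : ∃ K, LipschitzWith K fun q => ε • w q := by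
  obtain ⟨K, hK⟩ := h.lip
  exact ⟨_, (lipschitzWith_smul ε).comp hK⟩

/-- Solutions on arbitrarily long intervals. -/
lemma Fld.sol {w : Q → Q} (h : Fld w) (q : Q) {R : ℝ} (hR : 0 < R) :
    ∃ κ : ℝ → Q, κ 0 = q ∧ ∀ t ∈ Ioo (-R) R, HasDerivAt κ (w (κ t)) t := by
  obtain ⟨K, hK⟩ := h.lip
  obtain ⟨c, hc, c0⟩ := (h.bd.and self_mem_nhdsWithin).exists
  have c0 : 0 < c := c0
  have hp : IsPicardLindelof (fun _ : ℝ => w) (⟨0, by constructor <;> linarith⟩ : Icc (-R) R) q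
      ⟨c⁻¹ * R, by positivity⟩ 0 ⟨c⁻¹, by positivity⟩ K := by
    refine IsPicardLindelof.of_time_independent (fun x _ => ?_) hK.lipschitzOnWith ?_
    · rw [h.norm_eq]; exact (hc x).2
    · show c⁻¹ * max (R - 0) (0 - -R) ≤ c⁻¹ * R - 0
      simp
  obtain ⟨κ, k0, hk⟩ := hp.exists_eq_forall_mem_Icc_hasDerivWithinAt₀
  exact ⟨κ, k0, fun t ht => (hk t (Ioo_subset_Icc_self ht)).hasDerivAt (Icc_mem_nhds ht.1 ht.2)⟩

/-- Smoothness of solutions. -/
lemma smooth_sol {f : Q → Q} (hf : ContDiff ℝ ∞ f) {κ : ℝ → Q} {u : ℝ}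
    (h : ∀ᶠ t in 𝓝 u, HasDerivAt κ (f (κ t)) t) : ContDiffAt ℝ ∞ κ u := by
  obtain ⟨O, hO, oO, uO⟩ := eventually_nhds_iff.1 h
  have key : ∀ n : ℕ, ContDiffOn ℝ n κ O := by
    intro n
    induction n with
    | zero =>
      exact contDiffOn_zero.2 fun t ht => (hO t ht).continuousAt.continuousWithinAt
    | succ n ih =>
      have e : ((n + 1 : ℕ) : ℕ∞ω) = (n : ℕ∞ω) + 1 := by push_cast; rfl
      rw [e, contDiffOn_succ_iff_deriv_of_isOpen oO]
      refine ⟨fun t ht => (hO t ht).differentiableAt.differentiableWithinAt, by simp, ?_⟩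
      refine ContDiffOn.congr (f := fun t => f (κ t)) ?_ fun t ht => (hO t ht).deriv
      exact (hf.of_le (by exact_mod_cast le_top)).comp_contDiffOn ih
  exact (contDiffOn_infty.2 key).contDiffAt (oO.mem_nhds uO)

lemma mono_of {g g' : ℝ → ℝ} {a b : ℝ} (hab : a ≤ b) (h : ∀ t ∈ Icc a b, HasDerivAt g (g' t) t)
    (h0 : ∀ t, 0 ≤ g' t) : g a ≤ g b := by
  have : MonotoneOn g (Icc a b) := by
    refine monotoneOn_of_deriv_nonneg (convex_Icc a b)
      (fun t ht => (h t ht).continuousAt.continuousWithinAt)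
      (fun t ht => (h t (interior_subset ht)).differentiableAt.differentiableWithinAt)
      fun t ht => ?_
    rw [(h t (interior_subset ht)).deriv]
    exact h0 t
  exact this ⟨le_rfl, hab⟩ ⟨hab, le_rfl⟩ hab

/-- Estimates along a solution. -/
lemma Fld.est {w : Q → Q} (h : Fld w) {c : ℝ} (hc : ∀ q, c ≤ (w q).2 ∧ (w q).2 ≤ c⁻¹)
    {κ : ℝ → Q} {a b : ℝ} (hab : a ≤ b) (hk : ∀ t ∈ Icc a b, HasDerivAt κ (w (κ t)) t) :
    c * (b - a) ≤ (κ b).2 - (κ a).2 ∧ (κ b).2 - (κ a).2 ≤ c⁻¹ * (b - a) ∧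
      |(κ b).1 - (κ a).1| ≤ ((κ b).2 - (κ a).2) / 10 := by
  have d1 : ∀ t ∈ Icc a b, HasDerivAt (fun t => (κ t).1) (w (κ t)).1 t := fun t ht =>
    (ContinuousLinearMap.fst ℝ ℝ ℝ).hasFDerivAt.comp_hasDerivAt t (hk t ht)
  have d2 : ∀ t ∈ Icc a b, HasDerivAt (fun t => (κ t).2) (w (κ t)).2 t := fun t ht =>
    (ContinuousLinearMap.snd ℝ ℝ ℝ).hasFDerivAt.comp_hasDerivAt t (hk t ht)
  have e1 := mono_of (g := fun t => (κ t).2 - c * t) (g' := fun t => (w (κ t)).2 - c * 1) hab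
    (fun t ht => (d2 t ht).sub ((hasDerivAt_id t).const_mul c))
    fun t => by have := (hc (κ t)).1; linarith
  have e2 := mono_of (g := fun t => c⁻¹ * t - (κ t).2) (g' := fun t => c⁻¹ * 1 - (w (κ t)).2) hab
    (fun t ht => ((hasDerivAt_id t).const_mul c⁻¹).sub (d2 t ht))
    fun t => by have := (hc (κ t)).2; linarith
  have e3 := mono_of (g := fun t => (κ t).2 - 10 * (κ t).1)
    (g' := fun t => (w (κ t)).2 - 10 * (w (κ t)).1) hab
    (fun t ht => (d2 t ht).sub ((d1 t ht).const_mul 10))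
    fun t => by have := (abs_le.1 (h.pos (κ t)).2).2; linarith
  have e4 := mono_of (g := fun t => (κ t).2 + 10 * (κ t).1)
    (g' := fun t => (w (κ t)).2 + 10 * (w (κ t)).1) hab
    (fun t ht => (d2 t ht).add ((d1 t ht).const_mul 10))
    fun t => by have := (abs_le.1 (h.pos (κ t)).2).1; linarith
  refine ⟨by linarith, by linarith, abs_le.2 ⟨by linarith, by linarith⟩⟩

lemma norm_lt_two {q : Q} (h1 : |q.1| < 2) (h2 : |q.2| < 2) : ‖q‖ < 2 := by
  rw [Prod.norm_def]; exact max_lt h1 h2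

lemma abs_of_norm {q : Q} {r : ℝ} (h : ‖q‖ < r) : |q.1| < r ∧ |q.2| < r :=
  ⟨(norm_fst_le q).trans_lt h, (norm_snd_le q).trans_lt h⟩

/-- A solution starting in the small box stays in the big box for a uniform time. -/
lemma Fld.stay {w : Q → Q} (h : Fld w) {c : ℝ} (c0 : 0 < c)
    (hc : ∀ q, c ≤ (w q).2 ∧ (w q).2 ≤ c⁻¹) {q : Q} (hq : ‖q‖ < 1 / 4) :
    ∃ κ : ℝ → Q, κ 0 = q ∧
      ∀ t ∈ Icc (-c) c, (∀ᶠ s in 𝓝 t, HasDerivAt κ (w (κ s)) s) ∧ ‖κ t‖ < 2 := by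
  obtain ⟨κ, k0, hk⟩ := h.sol q (R := c + 1) (by linarith)
  obtain ⟨q1, q2⟩ := abs_of_norm hq
  rw [abs_lt] at q1 q2
  have ec : c⁻¹ * c = 1 := inv_mul_cancel₀ c0.ne'
  have ci : 0 < c⁻¹ := inv_pos.2 c0
  refine ⟨κ, k0, fun t ht => ⟨?_, ?_⟩⟩
  · filter_upwards [Ioo_mem_nhds (a := -(c + 1)) (b := c + 1) (by linarith [ht.1])
      (by linarith [ht.2])] with s hs using hk s hs
  · rcases le_total 0 t with h0 | h0
    · obtain ⟨e1, e2, e3⟩ := h.est hc h0 fun s hs =>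
        hk s ⟨by linarith [hs.1], by linarith [hs.2, ht.2]⟩
      rw [k0] at e1 e2 e3
      rw [abs_le] at e3
      have : c⁻¹ * (t - 0) ≤ c⁻¹ * c := mul_le_mul_of_nonneg_left (by linarith [ht.2]) ci.le
      have : 0 ≤ c * (t - 0) := mul_nonneg c0.le (by linarith)
      exact norm_lt_two (abs_lt.2 ⟨by linarith, by linarith⟩) (abs_lt.2 ⟨by linarith, by linarith⟩)
    · obtain ⟨e1, e2, e3⟩ := h.est hc h0 fun s hs =>
        hk s ⟨by linarith [hs.1, ht.1], by linarith [hs.2]⟩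
      rw [k0] at e1 e2 e3
      rw [abs_le] at e3
      have : c⁻¹ * (0 - t) ≤ c⁻¹ * c := mul_le_mul_of_nonneg_left (by linarith [ht.1]) ci.le
      have : 0 ≤ c * (0 - t) := mul_nonneg c0.le (by linarith)
      exact norm_lt_two (abs_lt.2 ⟨by linarith, by linarith⟩) (abs_lt.2 ⟨by linarith, by linarith⟩)

/-- A solution starting in the small box reaches height zero within a uniform time. -/
lemma Fld.hit {w : Q → Q} (h : Fld w) {c : ℝ} (c0 : 0 < c)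
    (hc : ∀ q, c ≤ (w q).2 ∧ (w q).2 ≤ c⁻¹) {q : Q} (hq : ‖q‖ < 1 / 4) :
    ∃ (κ : ℝ → Q) (s a : ℝ), κ 0 = q ∧ |s| ≤ c⁻¹ ∧ |a| ≤ 1 / 2 ∧ κ s = (a, 0) ∧
      ∀ t ∈ uIcc 0 s, (∀ᶠ s in 𝓝 t, HasDerivAt κ (w (κ s)) s) ∧ ‖κ t‖ < 2 := by
  have ci : 0 < c⁻¹ := inv_pos.2 c0
  obtain ⟨κ, k0, hk⟩ := h.sol q (R := c⁻¹ + 1) (by linarith)
  obtain ⟨q1, q2⟩ := abs_of_norm hq
  rw [abs_lt] at q1 q2
  have ec : c * c⁻¹ = 1 := mul_inv_cancel₀ c0.ne'
  have hk' : ∀ t ∈ Icc (-c⁻¹) c⁻¹, HasDerivAt κ (w (κ t)) t := fun t ht =>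
    hk t ⟨by linarith [ht.1], by linarith [ht.2]⟩
  have E : ∀ a b, -c⁻¹ ≤ a → a ≤ b → b ≤ c⁻¹ → c * (b - a) ≤ (κ b).2 - (κ a).2 ∧
      0 ≤ (κ b).2 - (κ a).2 ∧ -(((κ b).2 - (κ a).2) / 10) ≤ (κ b).1 - (κ a).1 ∧
      (κ b).1 - (κ a).1 ≤ ((κ b).2 - (κ a).2) / 10 := by
    intro a b ha hab hb
    obtain ⟨e1, -, e3⟩ := h.est hc hab fun s hs => hk' s ⟨ha.trans hs.1, hs.2.trans hb⟩
    exact ⟨e1, (mul_nonneg c0.le (by linarith)).trans e1, abs_le.1 e3⟩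
  have hcont : ContinuousOn (fun t => (κ t).2) (Icc (-c⁻¹) c⁻¹) := fun t ht =>
    (hk' t ht).continuousAt.snd.continuousWithinAt
  have b1 := (E 0 c⁻¹ (by linarith) ci.le le_rfl).1
  have b2 := (E (-c⁻¹) 0 le_rfl (by linarith) ci.le).1
  rw [k0] at b1 b2
  obtain ⟨s, hs, es⟩ := intermediate_value_Icc (by linarith : -c⁻¹ ≤ c⁻¹) hcont
    (show (0 : ℝ) ∈ Icc _ _ from ⟨by nlinarith, by nlinarith⟩)
  have es : (κ s).2 = 0 := es
  have main : ∀ t ∈ uIcc 0 s, |(κ t).1| ≤ 1 / 2 ∧ |(κ t).2| < 2 := by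
    intro t ht
    rcases le_total 0 s with h0 | h0
    · rw [uIcc_of_le h0] at ht
      obtain ⟨-, a1, a2, a3⟩ := E 0 t (by linarith) ht.1 (ht.2.trans hs.2)
      obtain ⟨-, a4, -, -⟩ := E t s (by linarith [ht.1]) ht.2 hs.2
      rw [k0] at a1 a2 a3
      exact ⟨abs_le.2 ⟨by linarith, by linarith⟩, abs_lt.2 ⟨by linarith, by linarith⟩⟩
    · rw [uIcc_of_ge h0] at ht
      obtain ⟨-, a1, a2, a3⟩ := E t 0 (hs.1.trans ht.1) ht.2 ci.le
      obtain ⟨-, a4, -, -⟩ := E s t hs.1 ht.1 (by linarith [ht.2])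
      rw [k0] at a1 a2 a3
      exact ⟨abs_le.2 ⟨by linarith, by linarith⟩, abs_lt.2 ⟨by linarith, by linarith⟩⟩
  refine ⟨κ, s, (κ s).1, k0, abs_le.2 hs, (main s right_mem_uIcc).1, Prod.ext rfl es,
    fun t ht => ⟨?_, norm_lt_two (by linarith [(main t ht).1]) (main t ht).2⟩⟩
  have ht' : t ∈ Icc (-c⁻¹) c⁻¹ :=
    uIcc_subset_Icc ⟨by linarith, ci.le⟩ hs ht
  filter_upwards [Ioo_mem_nhds (a := -(c⁻¹ + 1)) (b := c⁻¹ + 1) (by linarith [ht'.1])
    (by linarith [ht'.2])] with s hs using hk s hs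

/-- The time change defined by a positive speed. -/
lemma exists_time {ψ : ℝ → ℝ} (hψ : ContDiff ℝ ∞ ψ) {c : ℝ} (c0 : 0 < c) (hc : ∀ u, c ≤ ψ u) :
    ∃ θ τ : ℝ → ℝ, (∀ u, θ (τ u) = u) ∧ (∀ s, τ (θ s) = s) ∧ θ 0 = 0 ∧ Monotone θ ∧
      (∀ s, HasDerivAt θ (ψ s) s) ∧ ContDiff ℝ ∞ τ ∧ ∀ u, HasDerivAt τ (ψ (τ u))⁻¹ u := by
  set θ : ℝ → ℝ := fun u => ∫ s in (0 : ℝ)..u, ψ s with hθ
  have d : ∀ s, HasDerivAt θ (ψ s) s := fun s =>
    intervalIntegral.integral_hasDerivAt_right (hψ.continuous.intervalIntegrable _ _)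
      (hψ.continuous.stronglyMeasurableAtFilter _ _) hψ.continuous.continuousAt
  have p : ∀ s, 0 < ψ s := fun s => c0.trans_le (hc s)
  have z : θ 0 = 0 := by simp [hθ]
  have sm : StrictMono θ := strictMono_of_deriv_pos fun s => by rw [(d s).deriv]; exact p s
  have cd : ContDiff ℝ ∞ θ := by
    rw [contDiff_infty_iff_deriv]
    refine ⟨fun s => (d s).differentiableAt, ?_⟩
    rw [show deriv θ = ψ from funext fun s => (d s).deriv]
    exact hψ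
  have lb : ∀ a b, a ≤ b → c * (b - a) ≤ θ b - θ a := by
    intro a b hab
    have := mono_of (g := fun t => θ t - c * t) (g' := fun t => ψ t - c * 1) hab
      (fun t _ => (d t).sub ((hasDerivAt_id t).const_mul c)) fun t => by linarith [hc t]
    linarith
  have su : Function.Surjective θ := by
    intro y
    have ec : c * (|y| / c) = |y| := mul_div_cancel₀ _ c0.ne'
    have h0 : 0 ≤ |y| / c := by positivity
    have b1 := lb 0 (|y| / c) h0
    have b2 := lb (-(|y| / c)) 0 (by linarith)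
    obtain ⟨s, -, hs⟩ := intermediate_value_Icc (by linarith : -(|y| / c) ≤ |y| / c)
      cd.continuous.continuousOn
      (show y ∈ Icc _ _ from ⟨by nlinarith [neg_abs_le y], by nlinarith [le_abs_self y]⟩)
    exact ⟨s, hs⟩
  let H : ℝ ≃ₜ ℝ := (sm.orderIsoOfSurjective θ su).toHomeomorph
  have eH : (H : ℝ → ℝ) = θ := rfl
  have r1 : ∀ u, θ (H.symm u) = u := fun u => H.apply_symm_apply u
  refine ⟨θ, H.symm, r1, fun s => H.symm_apply_apply s, z, sm.monotone, d,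
    H.contDiff_symm_deriv (fun s => (p s).ne') d cd, fun u => ?_⟩
  exact HasDerivAt.of_local_left_inverse H.symm.continuous.continuousAt (d _) (p _).ne'
    (Eventually.of_forall r1)

end

end Pool.Agent.Lib.MP_72f1d0_gt.PC.Leaf
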