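import Pool.Agent.Lib.MP_72f1d0_gt.PC.Defs

/-!
The formal characteristic line field and the invariance of its winding.
-/

set_option linter.unusedSectionVars false

open scoped ContDiff Manifold Topology ComplexConjugate
open Set Filter

namespace Pool.Agent.Lib.MP_72f1d0_gt.PC

open Eq.Stmt (Distr Data IsPath derived diff Engel)
open Eq.Man (dp Fv)

noncomputable section

namespace Line

lemma half {u F : ℂ} (hu : ‖u‖ = 1) (h : Complex.exp F = u) :
    Complex.exp (F / 2) = u * conj (Complex.exp (F / 2)) := by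
  have h1 : F.re = 0 := by
    rw [← h, Complex.norm_exp] at hu
    exact Real.exp_eq_one_iff _ |>.mp hu
  have h2 : conj F = -F := Complex.ext (by simp [h1]) (by simp)
  rw [← h, ← Complex.exp_conj, ← Complex.exp_add, map_div₀, h2, map_ofNat]
  congr 1
  ring

lemma uniq {u u' : ℂ} (hu : ‖u‖ = 1) (h : ∀ z, z = u * conj z → z = u' * conj z) : u' = u := by
  have h1 := half hu (Complex.exp_log (by rintro rfl; simp at hu))
  exact mul_right_cancel₀ ((map_ne_zero _).mpr (Complex.exp_ne_zero _)) ((h _ h1).symm.trans h1)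

lemma ker_iff {a b : ℝ} (h : a ≠ 0 ∨ b ≠ 0) (z : ℂ) : z.re * a + z.im * b = 0 ↔
    z = ((b : ℂ) - a * Complex.I) / conj ((b : ℂ) - a * Complex.I) * conj z := by
  have h0 : conj ((b : ℂ) - a * Complex.I) ≠ 0 := fun e => by
    have h1 := congrArg Complex.re e
    have h2 := congrArg Complex.im e
    simp at h1 h2
    tauto
  rw [div_mul_eq_mul_div, eq_div_iff h0, Complex.ext_iff]
  simp
  constructor
  · intro e
    constructor <;> linarith
  · intro e
    linarith [e.2]

/-- A continuous field of real lines in `ℂ` is given by a continuous unimodular function. -/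
lemma exists_unit {X : Type*} [TopologicalSpace X] (L : X → ℂ → Prop)
    (h : ∀ x₀, ∃ a b : X → ℝ, ContinuousAt a x₀ ∧ ContinuousAt b x₀ ∧
      ∀ᶠ x in 𝓝 x₀, (a x ≠ 0 ∨ b x ≠ 0) ∧ ∀ z, L x z ↔ z.re * a x + z.im * b x = 0) :
    ∃ u : X → ℂ, Continuous u ∧ ∀ x, ‖u x‖ = 1 ∧ ∀ z, L x z ↔ z = u x * conj z := by
  have h0 : ∀ {a b : ℝ}, a ≠ 0 ∨ b ≠ 0 → conj ((b : ℂ) - a * Complex.I) ≠ 0 := fun h e => by
    have h1 := congrArg Complex.re e
    have h2 := congrArg Complex.im e
    simp at h1 h2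
    tauto
  have h1 : ∀ x, ∃ u : ℂ, ‖u‖ = 1 ∧ ∀ z, L x z ↔ z = u * conj z := fun x => by
    obtain ⟨a, b, -, -, e⟩ := h x
    obtain ⟨e1, e2⟩ := e.self_of_nhds
    refine ⟨_, ?_, fun z => (e2 z).trans (ker_iff e1 z)⟩
    rw [norm_div, Complex.norm_conj, div_self]
    rw [← Complex.norm_conj]
    exact norm_ne_zero_iff.mpr (h0 e1)
  choose u hu using h1
  refine ⟨u, continuous_iff_continuousAt.mpr fun x₀ => ?_, hu⟩
  obtain ⟨a, b, ha, hb, e⟩ := h x₀
  have c : ContinuousAt (fun x => (b x : ℂ) - a x * Complex.I) x₀ := by fun_prop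
  refine (c.div (Complex.continuous_conj.continuousAt.comp c) (h0 e.self_of_nhds.1)).congr ?_
  filter_upwards [e] with x hx
  exact uniq (hu x).1 fun z hz => (ker_iff hx.1 z).mp ((hx.2 z).mp (((hu x).2 z).mpr hz))

lemma exists_log {X : Type*} [NormedAddCommGroup X] [NormedSpace ℝ X] {u : X → ℂ}
    (hu : Continuous u) (h : ∀ x, ‖u x‖ = 1) {c : ℂ} (hc : Complex.exp c = u 0) :
    ∃ F : X → ℂ, Continuous F ∧ F 0 = c ∧ ∀ x, Complex.exp (F x) = u x := by
  let f : C(X, {z : ℂ // z ≠ 0}) :=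
    ⟨fun p => ⟨u p, fun e => by simpa [e] using h p⟩, hu.subtype_mk _⟩
  obtain ⟨F, ⟨hF0, hF⟩, -⟩ := Complex.isCoveringMap_exp.existsUnique_continuousMap_lifts f 0
    c (Subtype.ext hc)
  exact ⟨F, F.continuous, hF0, fun p => congrArg Subtype.val (congrFun hF p)⟩

lemma log_eq {X : Type*} [TopologicalSpace X] [PreconnectedSpace X] {F G : X → ℂ}
    (hF : Continuous F) (hG : Continuous G) (h : ∀ x, Complex.exp (F x) = Complex.exp (G x))
    {x₀ : X} (h0 : F x₀ = G x₀) (x : X) : F x = G x := by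
  have h1 : ∀ x, Complex.exp (F x - G x) = 1 := fun x => by
    rw [Complex.exp_sub, h, div_self (Complex.exp_ne_zero _)]
  have := Complex.isCoveringMap_exp.const_of_comp (g := fun x => F x - G x)
    (hF.sub hG) (fun a a' => Subtype.ext (by simp only [h1])) x x₀
  rw [← sub_eq_zero, this, h0, sub_self]

variable {E : Type*} [NormedAddCommGroup E] [NormedSpace ℝ E] [FiniteDimensional ℝ E]
  {M : Type*} [TopologicalSpace M] [ChartedSpace E M] [IsManifold 𝓘(ℝ, E) ∞ M]
  {E₂ H₂ : Type*} [NormedAddCommGroup E₂] [NormedSpace ℝ E₂] [FiniteDimensional ℝ E₂]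
  [TopologicalSpace H₂] {J : ModelWithCorners ℝ E₂ H₂} {S : Type*} [TopologicalSpace S]
  [ChartedSpace H₂ S] [IsManifold J ∞ S]

/-- The derived distribution is locally the kernel of a continuous form. -/
lemma exists_form (hE : Module.finrank ℝ E = 4) {D : Distr E M} (hD : Engel D) (p : M) :
    ∃ (U : Set M) (α : M → (E →L[ℝ] ℝ)), IsOpen U ∧ p ∈ U ∧
      (∀ z : TangentBundle 𝓘(ℝ, E) M, z.1 ∈ U →
        ContinuousAt (fun z : TangentBundle 𝓘(ℝ, E) M => α z.1 z.2) z) ∧
      ∀ x ∈ U, α x ≠ 0 ∧ ∀ v : E, v ∈ (derived D x : Submodule ℝ E) ↔ α x v = 0 := by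
  obtain ⟨U, hU, hp, V, hV, hs⟩ := hD.2.1 p
  let b : Module.Basis (Fin 4) ℝ E := Module.finBasisOfFinrankEq ℝ E hE
  let w : M → Fin 3 → E := fun x i => Eq.Man.tr E p x (V i x)
  let α : M → (E →L[ℝ] ℝ) := fun x => (LinearMap.toContinuousLinearMap
    (b.det.toMultilinearMap.toLinearMap (Fin.cons 0 (w x)) 0)).comp (Eq.Man.tr E p x)
  have ha : ∀ x v, α x v = b.det (Fin.cons (Eq.Man.tr E p x v) (w x)) := fun x v => by
    simp [α]
  have hp' : Continuous fun z : TangentBundle 𝓘(ℝ, E) M => z.1 := FiberBundle.continuous_proj _ _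
  refine ⟨U ∩ (chartAt E p).source, α, hU.inter (chartAt E p).open_source,
    ⟨hp, mem_chart_source E p⟩, fun z hz => ?_, fun x hx => ?_⟩
  · simp only [ha, Module.Basis.det_apply]
    refine (b.continuous_toMatrix.matrix_det.continuousAt.comp
      (f := fun z : TangentBundle 𝓘(ℝ, E) M => Fin.cons (Eq.Man.tr E p z.1 z.2) (w z.1)) ?_ :)
    refine continuousAt_pi.mpr fun i => Fin.cases (Eq.Man.tr_smooth hz.2).continuousAt
      (fun i => ?_) i
    have h1 := ((Eq.Man.smoothOn_iff hU).mp (hV i) z.1 hz.1).continuousAt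
    exact ((Eq.Man.tr_smooth (z := ⟨z.1, V i z.1⟩) hz.2).continuousAt.comp
      (f := fun y => (⟨y, V i y⟩ : TangentBundle 𝓘(ℝ, E) M)) h1).comp hp'.continuousAt
  · have inj : Function.Injective (Eq.Man.tr E p x) := fun u v e => by
      rw [← Eq.Man.trs_tr hx.2 u, e, Eq.Man.trs_tr hx.2]
    have hi : LinearIndependent ℝ (w x) :=
      (hs x hx.1).1.map' (Eq.Man.tr E p x).toLinearMap (LinearMap.ker_eq_bot.mpr inj)
    have key : ∀ v : E, v ∈ (derived D x : Submodule ℝ E) ↔ α x v = 0 := fun v => by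
      have e1 : Submodule.span ℝ (range (w x)) =
          Submodule.map (Eq.Man.tr E p x).toLinearMap (derived D x : Submodule ℝ E) := by
        rw [← (hs x hx.1).2]
        exact (Submodule.span_image (Eq.Man.tr E p x).toLinearMap ▸
          congrArg (Submodule.span ℝ) (range_comp _ _) :)
      have e2 : Eq.Man.tr E p x v ∈ Submodule.span ℝ (range (w x)) ↔
          v ∈ (derived D x : Submodule ℝ E) := by
        rw [e1]
        exact ⟨fun ⟨u, h1, h2⟩ => inj h2 ▸ h1, fun h => ⟨v, h, rfl⟩⟩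
      rw [ha, ← e2, ← not_iff_not, ← Ne, ← isUnit_iff_ne_zero, ← b.is_basis_iff_det]
      refine ⟨fun h => ?_, fun h => (linearIndependent_finCons.mp h.1).2⟩
      have h3 := linearIndependent_finCons.mpr ⟨hi, h⟩
      exact ⟨h3, h3.span_eq_top_of_card_eq_finrank (by simp [hE])⟩
    refine ⟨fun e => ?_, key⟩
    have h4 : Module.finrank ℝ (derived D x) = 3 := by
      rw [← (hs x hx.1).2, finrank_span_eq_card (hs x hx.1).1]
      simp
    have h5 : derived D x = ⊤ := eq_top_iff.mpr fun v _ => (key v).mpr (by simp [e])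
    rw [h5, finrank_top] at h4
    exact absurd (hE.symm.trans h4) (by norm_num)

lemma form_ne {D : Distr E M} {x : Data J E S M} (hx : x.Formal D) {p : S} {α : E →L[ℝ] ℝ}
    (h : α ≠ 0 ∧ ∀ v : E, v ∈ (derived D (x.f p) : Submodule ℝ E) ↔ α v = 0) :
    α.comp (Fv x 1 p) ≠ 0 := fun e => h.1 (ContinuousLinearMap.ext fun v => by
  obtain ⟨_, ⟨u, rfl⟩, d, hd, h4⟩ := Submodule.mem_sup.mp ((hx.2.2.2.2 p).sup_eq_top.ge
    (Submodule.mem_top (x := (v : TangentSpace 𝓘(ℝ, E) (x.f p)))))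
  have h2 : α (Fv x 1 p u) = 0 := congrArg (fun T : E₂ →L[ℝ] ℝ => T u) e
  have h5 : d ∈ derived D (x.f p) := Submodule.mem_sup_left hd
  have h3 : α d = 0 := (h.2 d).mp h5
  exact (congrArg α h4).symm.trans
    ((α.map_add (Fv x 1 p u) d).trans (by rw [h2, h3, add_zero]; rfl)))

/-- The line field in a family, read in complex coordinates. -/
lemma fam (hE : Module.finrank ℝ E = 4) {D : Distr E M} (hD : Engel D) {X : Type*}
    [TopologicalSpace X] (γ : X → Data J E S M) (p : X → S) (B : X → ℂ →L[ℝ] E₂)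
    (hF : ∀ x, (γ x).Formal D) (hB : ∀ x, Function.Surjective (B x))
    (hc : ∀ z : ℂ, Continuous fun x => (γ x).total 1 ⟨p x, B x z⟩) :
    ∃ u : X → ℂ, Continuous u ∧ ∀ x, ‖u x‖ = 1 ∧
      ∀ z, B x z ∈ lin D (γ x) (p x) ↔ z = u x * conj z := by
  refine exists_unit _ fun x₀ => ?_
  obtain ⟨U, α, hU, h0, h1, h2⟩ := exists_form hE hD ((γ x₀).f (p x₀))
  have hp' : Continuous fun z : TangentBundle 𝓘(ℝ, E) M => z.1 := FiberBundle.continuous_proj _ _
  have c : ∀ z : ℂ, ContinuousAt (fun x => α ((γ x).f (p x)) (Fv (γ x) 1 (p x) (B x z))) x₀ :=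
    fun z => (h1 ((γ x₀).total 1 ⟨p x₀, B x₀ z⟩) h0).comp
      (f := fun x => (γ x).total 1 ⟨p x, B x z⟩) (hc z).continuousAt
  refine ⟨_, _, c 1, c Complex.I, ?_⟩
  filter_upwards [(hp'.comp (hc 0)).continuousAt.preimage_mem_nhds (hU.mem_nhds h0)] with x hx
  have e : ∀ z : ℂ, α ((γ x).f (p x)) (Fv (γ x) 1 (p x) (B x z)) =
      z.re * α ((γ x).f (p x)) (Fv (γ x) 1 (p x) (B x 1)) +
        z.im * α ((γ x).f (p x)) (Fv (γ x) 1 (p x) (B x Complex.I)) := fun z => by
    conv_lhs => rw [show z = z.re • (1 : ℂ) + z.im • Complex.I by simp]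
    simp only [map_add, map_smul, smul_eq_mul]
  refine ⟨by_contra fun hn => form_ne (hF x) (h2 _ hx) (ContinuousLinearMap.ext fun v => ?_),
    fun z => e z ▸ (h2 _ hx).2 _⟩
  obtain ⟨z, rfl⟩ := hB x v
  push Not at hn
  exact (e z).trans (by rw [hn.1, hn.2]; simp)

lemma tan_cont {Y : Type*} [NormedAddCommGroup Y] [NormedSpace ℝ Y] {π : Y → S}
    (hπ : ContMDiff 𝓘(ℝ, Y) J ∞ π) : Continuous fun q : Y × Y =>
      (⟨π q.1, mfderiv 𝓘(ℝ, Y) J π q.1 q.2⟩ : TangentBundle J S) :=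
  (hπ.continuous_tangentMap (by simp)).comp
    (tangentBundleModelSpaceHomeomorph 𝓘(ℝ, Y)).symm.continuous

lemma ann_per {ψ : Q → S} (h : Ann J ψ) (t : ℝ) :
    ψ (0, t + 1) = ψ (0, t) ∧ dp J ψ (0, t + 1) = dp J ψ (0, t) := by
  have h1 : ∀ q : Q, ψ (q + (0, 1)) = ψ q := fun q => ((h.2 q _).mpr ⟨1, by simp⟩).symm
  have h2 : ((0, t + 1) : Q) = (0, t) + (0, 1) := by simp
  rw [h2]
  refine ⟨h1 _, ?_⟩
  have hk : HasFDerivAt (fun q : Q => q + (0, 1)) (ContinuousLinearMap.id ℝ Q) (0, t) :=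
    (hasFDerivAt_id _).add_const _
  have := (HasMFDerivAt.comp (0, t) (h.1.contMDiff.mdifferentiableAt (by simp)).hasMFDerivAt
    hk.hasMFDerivAt).mfderiv
  rw [show ψ ∘ (fun q : Q => q + (0, 1)) = ψ from funext h1] at this
  exact this.symm

/-- The line field along the core of an annulus, in a family. -/
lemma core (hE : Module.finrank ℝ E = 4) {D : Distr E M} (hD : Engel D) {X : Type*}
    [TopologicalSpace X] (γ : X → Data J E S M) (hF : ∀ x, (γ x).Formal D)
    (hc : Continuous fun z : X × TangentBundle J S => (γ z.1).total 1 z.2) {ψ : Q → S}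
    (h : Ann J ψ) : ∃ u : X × ℝ → ℂ, Continuous u ∧ (∀ x t, u (x, t + 1) = u (x, t)) ∧
      ∀ x t, ‖u (x, t)‖ = 1 ∧ ∀ z : ℂ,
        dp J ψ (0, t) (z.re, z.im) ∈ lin D (γ x) (ψ (0, t)) ↔ z = u (x, t) * conj z := by
  obtain ⟨u, h1, h2⟩ := fam hE hD (fun y : X × ℝ => γ y.1) (fun y => ψ (0, y.2))
    (fun y => (dp J ψ (0, y.2)).comp (Complex.equivRealProdCLM : ℂ →L[ℝ] Q)) (fun y => hF y.1)
    (fun y => (Eq.Man.dp_inv h.1 _).surjective.comp Complex.equivRealProdCLM.surjective)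
    fun z => hc.comp (continuous_fst.prodMk ((tan_cont h.1.contMDiff).comp
      (f := fun y : X × ℝ => (((0, y.2), (z.re, z.im)) : Q × Q)) (by fun_prop)))
  refine ⟨u, h1, fun x t => uniq (h2 _).1 fun z hz => ((h2 (x, t + 1)).2 z).mp ?_,
    fun x t => h2 (x, t)⟩
  simp only [(ann_per h t).1, (ann_per h t).2]
  exact ((h2 (x, t)).2 z).mpr hz

lemma pol_deriv (r : ℝ) (q : Q) : HasFDerivAt (pol r) (pol r q •
    (Complex.ofRealCLM.comp (ContinuousLinearMap.fst ℝ ℝ ℝ) + (2 * Real.pi * Complex.I) •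
      Complex.ofRealCLM.comp (ContinuousLinearMap.snd ℝ ℝ ℝ))) q := by
  have h1 := (Complex.ofRealCLM.comp (ContinuousLinearMap.fst ℝ ℝ ℝ) + (2 * Real.pi * Complex.I) •
      Complex.ofRealCLM.comp (ContinuousLinearMap.snd ℝ ℝ ℝ)).hasFDerivAt (x := q)
  have e : pol r = fun q => r * Complex.exp ((Complex.ofRealCLM.comp (ContinuousLinearMap.fst ℝ ℝ ℝ)
      + (2 * Real.pi * Complex.I) • Complex.ofRealCLM.comp (ContinuousLinearMap.snd ℝ ℝ ℝ)) q) := by
    funext q
    simp only [pol, add_apply, smul_apply, smul_eq_mul]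
    congr 2
    exact congrArg _ (mul_right_comm _ _ _)
  rw [e]
  simpa only [smul_smul] using h1.cexp.const_mul (r : ℂ)

end Line

open Line

variable {E : Type*} [NormedAddCommGroup E] [NormedSpace ℝ E] [FiniteDimensional ℝ E]
  {M : Type*} [TopologicalSpace M] [ChartedSpace E M] [IsManifold 𝓘(ℝ, E) ∞ M]
  {E₂ H₂ : Type*} [NormedAddCommGroup E₂] [NormedSpace ℝ E₂] [FiniteDimensional ℝ E₂]
  [TopologicalSpace H₂] {J : ModelWithCorners ℝ E₂ H₂} {S : Type*} [TopologicalSpace S]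
  [ChartedSpace H₂ S] [IsManifold J ∞ S]

set_option linter.unusedVariables false in
theorem lineStmt (hE : Module.finrank ℝ E = 4) (h2 : Module.finrank ℝ E₂ = 2) {D : Distr E M}
    (hD : Engel D) (hP : PolarStmt J S) : LineStmt J S D := by
  have c1 : ∀ x : Data J E S M, x.Formal D → Continuous (x.total 1) := fun x hx =>
    hx.2.1.comp (continuous_const.prodMk continuous_id)
  refine ⟨fun x hx p => ?_, fun x hx π hπ r hr => ?_, fun x hx ψ hψ h => ?_, ?_⟩
  · obtain ⟨U, α, hU, h0, h1, h2⟩ := exists_form hE hD (x.f p)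
    exact ⟨x.f ⁻¹' U, fun y => (α (x.f y)).comp (Fv x 1 y), hU.preimage hx.1.1.continuous, h0,
      fun z hz => ((h1 (x.total 1 z) hz).comp (c1 x hx).continuousAt).continuousWithinAt,
      fun y hy => ⟨form_ne hx (h2 _ hy), fun v => (h2 _ hy).2 _⟩⟩
  · have hs := hπ.1.contMDiff
    obtain ⟨u, h1, h2⟩ := fam hE hD (fun _ : ℂ => x) π (fun y => mfderiv 𝓘(ℝ, ℂ) J π y)
      (fun _ => hx) (fun y => (hπ.1.mfderivToContinuousLinearEquiv (by simp) y).surjective)
      fun z => (c1 x hx).comp ((tan_cont hs).comp (continuous_id.prodMk continuous_const))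
    obtain ⟨F, h3, -, h4⟩ := exists_log h1 (fun y => (h2 y).1)
      (Complex.exp_log fun e => by simpa [e] using (h2 0).1)
    have h5 : ∀ q, pol r q ≠ 0 := fun q =>
      mul_ne_zero (by exact_mod_cast hr.ne') (Complex.exp_ne_zero _)
    have h6 : Continuous fun t : ℝ => pol r (0, t) := by unfold pol; fun_prop
    have h7 : ∀ t : ℝ, pol r (0, t + 1) = pol r (0, t) := fun t => by
      simp only [pol, Complex.ofReal_add, Complex.ofReal_one, mul_add, add_mul, mul_one,
        Complex.exp_add, Complex.exp_two_pi_mul_I]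
    let ζ : ℝ → ℂ := fun t => Complex.exp (F (pol r (0, t)) / 2) / pol r (0, t)
    have h8 : Continuous ζ := Continuous.div (by fun_prop) h6 fun t => h5 _
    refine ⟨fun t => ((ζ t).re, (ζ t).im / (2 * Real.pi)), by fun_prop,
      fun t => by simp only [ζ, h7], fun t => ⟨fun e => ?_, ?_⟩⟩
    · have e1 := congrArg Prod.fst e
      have e2 := congrArg Prod.snd e
      simp only [Prod.fst_zero, Prod.snd_zero, div_eq_zero_iff, mul_eq_zero, Real.pi_ne_zero,
        two_ne_zero, or_false] at e1 e2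
      exact div_ne_zero (Complex.exp_ne_zero _) (h5 _) (Complex.ext e1 e2 : ζ t = 0)
    · have h9 : dp J (fun q => π (pol r q)) (0, t) = _ := (HasMFDerivAt.comp (0, t)
        (hs.mdifferentiableAt (by simp)).hasMFDerivAt (pol_deriv r (0, t)).hasMFDerivAt).mfderiv
      have h10 := ((h2 (pol r (0, t))).2 _).mpr (half (h2 _).1 (h4 _))
      have h11 : pol r (0, t) * ((ζ t).re + 2 * Real.pi * Complex.I * ((ζ t).im / (2 * Real.pi) : ℝ))
          = Complex.exp (F (pol r (0, t)) / 2) := by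
        have : (Real.pi : ℂ) ≠ 0 := by exact_mod_cast Real.pi_ne_zero
        rw [← mul_div_cancel₀ (Complex.exp _) (h5 (0, t))]
        congr 1
        conv_rhs => rw [← Complex.re_add_im (_ / _)]
        push_cast
        field_simp
        rfl
      rw [← h11] at h10
      rw [h9]
      exact h10
  · obtain ⟨u, h1, h2, h3⟩ := core hE hD (fun _ : Unit => x) (fun _ => hx)
      ((c1 x hx).comp continuous_snd) hψ
    refine ⟨fun t => Complex.log (u ((), t)) / 2,
      (Continuous.clog (by fun_prop) fun t => ?_).div_const _,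
      fun t => by simp only [h2], fun t => ((h3 () t).2 _).mpr (half (h3 () t).1
        (Complex.exp_log fun e => by simpa [e] using (h3 () t).1))⟩
    by_contra hn
    rw [Complex.mem_slitPlane_iff] at hn
    push Not at hn
    have e : u ((), t) = (u ((), t)).re := Complex.ext (by simp) (by simp [hn.2])
    have e2 := (h3 () t).1
    rw [e, Complex.norm_real, Real.norm_eq_abs, abs_of_nonpos hn.1] at e2
    refine h t (((h3 () t).2 Complex.I).mpr ?_)
    rw [e, show (u ((), t)).re = -1 by linarith]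
    simp
  · rintro _ _ ⟨γ, hγ, hF, rfl, rfl⟩ ψ hψ ⟨Λ, hΛ, hp, he⟩
    obtain ⟨u, h1, h2, h3⟩ := core hE hD (fun l : ℝ => γ (projIcc 0 1 zero_le_one l))
      (fun _ => hF _) (hγ.2.comp (((continuous_projIcc (h := zero_le_one)).comp continuous_fst).prodMk
        (continuous_const.prodMk continuous_snd))) hψ
    have h4 : ∀ t, Complex.exp (Λ t - conj (Λ t)) = u (0, t) := fun t => by
      rw [Complex.exp_sub, div_eq_iff (Complex.exp_ne_zero _), Complex.exp_conj]
      refine ((h3 0 t).2 _).mp ?_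
      rw [projIcc_left]
      exact he t
    obtain ⟨F, h5, h6, h7⟩ := exists_log h1 (fun y => (h3 y.1 y.2).1) (h4 0)
    have h8 : ∀ t, F (0, t) = Λ t - conj (Λ t) :=
      log_eq (by fun_prop) (hΛ.sub (Complex.continuous_conj.comp hΛ))
        (fun t => by rw [h7, h4]) (x₀ := 0) h6
    have h9 := log_eq (F := fun y : ℝ × ℝ => F (y.1, y.2 + 1)) (by fun_prop) h5
      (fun y => by rw [h7, h7, h2]) (x₀ := (0, 0)) (by simp only [h8, hp])
    refine ⟨fun t => F (1, t) / 2, by fun_prop, fun t => congrArg (· / 2) (h9 (1, t)), fun t => ?_⟩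
    have := ((h3 1 t).2 _).mpr (half (h3 1 t).1 (h7 _))
    rwa [projIcc_right] at this

end

end Pool.Agent.Lib.MP_72f1d0_gt.PC
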