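import Pool.Agent.Lib.MP_72f1d0_gt.PC.Loop2

/-!
A recurrent leaf gives an embedded closed transversal.
-/

set_option linter.unusedSectionVars false

open scoped ContDiff Manifold Topology
open Set Filter

namespace Pool.Agent.Lib.MP_72f1d0_gt.PC

noncomputable section

variable {E₂ H₂ : Type*} [NormedAddCommGroup E₂] [NormedSpace ℝ E₂] [FiniteDimensional ℝ E₂]
  [TopologicalSpace H₂] {J : ModelWithCorners ℝ E₂ H₂} {S : Type*} [TopologicalSpace S]
  [ChartedSpace H₂ S] [IsManifold J ∞ S]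

namespace Loop

variable {L : S → Submodule ℝ E₂} {N : ℝ} {γ : ℝ → S} {π : Q → S} {m : Q → ℝ}
  {u u' u'' ε ε' : ℝ} {f f' f'' : ℝ → ℝ}

lemma hit_pass [T2Space S] (hb : LeafBox J L N γ π m) {t a : ℝ} (ha : |a| ≤ 1 / 2)
    (e : γ t = π (a, 0)) : ∃ ε f, Pass π γ t ε f ∧ f 0 = a := by
  obtain ⟨ε, f, h, h0⟩ := exists_pass hb e (ha.trans (by norm_num)) (by norm_num)
  exact ⟨ε, f, by simpa using h, h0⟩

lemma periodic_case [T2Space S] (hb : LeafBox J L N γ π m) (hγ : ¬Function.Injective γ) :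
    ∃ c, TrLoop J L c ∧ c 0 = γ 0 := by
  let G : AddSubgroup ℝ :=
    { carrier := {p | ∀ t, γ (t + p) = γ t}
      zero_mem' := fun t => by rw [add_zero]
      add_mem' := fun {a b} ha hb t => by rw [← add_assoc, hb, ha]
      neg_mem' := fun {a} ha t => by rw [← ha (t + -a), neg_add_cancel_right] }
  have hG : ∀ p, p ∈ G ↔ ∀ t, γ (t + p) = γ t := fun p => Iff.rfl
  have hsub : ∀ v v', γ v = γ v' → v' - v ∈ G := fun v v' e => (hG _).mpr fun t => by
    have := hb.uniq v v' e (t - v)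
    rw [add_sub_cancel] at this
    rw [this]
    congr 1
    ring
  rcases G.dense_or_cyclic with hd | ⟨a, ha⟩
  · obtain ⟨p, hp, hp0, hp1⟩ := hd.exists_mem_open (isOpen_Ioo (a := (0 : ℝ)) (b := 1))
      ⟨1 / 2, by norm_num, by norm_num⟩
    obtain ⟨t, a, -, ha, e⟩ := hb.recur 0
    obtain ⟨ε, f, h, -⟩ := hit_pass hb ha e
    have e1 := h.eq' p (abs_le.mpr ⟨by linarith, by linarith⟩)
    rw [(hG p).mp hp t, e] at e1
    have e2 : (0 : ℝ) = ε * p := congrArg Prod.snd (hb.disc.2 e1)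
    have e3 : p = 0 := by linear_combination -ε * e2 - p * h.sq
    exact absurd e3 hp0.ne'
  · have hm : ∀ p, p ∈ G ↔ ∃ n : ℤ, n • a = p := fun p => by
      rw [ha, AddSubgroup.mem_closure_singleton]
    have ha0 : a ≠ 0 := by
      rintro rfl
      refine hγ fun v v' e => ?_
      obtain ⟨n, hn⟩ := (hm _).mp (hsub v v' e)
      rw [smul_zero] at hn
      linarith
    have haG : |a| ∈ G := by
      rcases abs_choice a with e | e <;> rw [e, hm]
      · exact ⟨1, one_smul _ _⟩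
      · exact ⟨-1, by simp⟩
    refine loop_of (a := 0) (P := |a|) (η := 1) (abs_pos.mpr ha0) one_pos
      (fun v => ⟨hb.curve v, hb.tr v⟩) (fun v _ => (hG _).mp haG v) fun v v' h1 h2 h3 h4 e => ?_
    obtain ⟨n, hn⟩ := (hm _).mp (hsub v v' e)
    have h5 : |(n : ℝ)| * |a| < 1 * |a| := by
      rw [← abs_mul, ← zsmul_eq_mul, hn, one_mul]
      exact abs_lt.mpr ⟨by linarith, by linarith⟩
    have h6 : |n| < 1 := by exact_mod_cast lt_of_mul_lt_mul_right h5 (abs_nonneg a)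
    rw [Int.abs_lt_one_iff.mp h6, zero_smul] at hn
    linarith

variable (π γ) in
/-- No hit strictly between two times. -/
def NoHit (u u' : ℝ) : Prop := ∀ t a, u < t → t < u' → |a| ≤ 1 / 2 → γ t ≠ π (a, 0)

lemma next_hit [T2Space S] (hb : LeafBox J L N γ π m) (h : Pass π γ u ε f) :
    ∃ u' ε' f', Pass π γ u' ε' f' ∧ |f' 0| ≤ 1 / 2 ∧ u + 5 / 2 ≤ u' ∧ NoHit γ π u u' := by
  classical
  have hex : ∃ n : ℕ, ∃ t a, u < t ∧ t ≤ u + n + 1 ∧ |a| ≤ 1 / 2 ∧ γ t = π (a, 0) := by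
    obtain ⟨t, a, h1, h2, h3⟩ := hb.recur (u + 1)
    obtain ⟨n, hn⟩ := exists_nat_ge (t - u)
    exact ⟨n, t, a, by linarith, by linarith, h2, h3⟩
  obtain ⟨t, a, h1, h2, h3, h4⟩ := Nat.find_spec hex
  obtain ⟨ε', f', h', rfl⟩ := hit_pass hb h3 h4
  refine ⟨t, ε', f', h', h3, not_lt.mp fun h5 => h1.ne (h.gap hb.disc.2 h'
    (abs_lt.mpr ⟨by linarith, by linarith⟩)), fun s b k1 k2 k3 k4 => ?_⟩
  obtain ⟨ε'', f'', h'', -⟩ := hit_pass hb k3 k4
  have k5 : u + Nat.find hex < s := by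
    rcases Nat.eq_zero_or_eq_succ_pred (Nat.find hex) with e | e
    · rw [e]; simpa using k1
    · refine not_le.mp fun k6 => Nat.find_min hex (m := (Nat.find hex).pred) (by omega)
        ⟨s, b, k1, ?_, k3, k4⟩
      rw [e] at k6
      push_cast at k6
      linarith
  exact k2.ne (h''.gap hb.disc.2 h' (abs_lt.mpr ⟨by linarith, by linarith⟩))

lemma abs_of_uIcc {a b x : ℝ} (ha : |a| ≤ 1 / 2) (hb : |b| ≤ 1 / 2) (hx : x ∈ uIcc a b) :
    |x| ≤ 1 / 2 := by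
  have h1 := abs_le.mp ha
  have h2 := abs_le.mp hb
  rcases mem_uIcc.mp hx with k | k <;> exact abs_le.mpr ⟨by linarith, by linarith⟩

lemma simple_case [T2Space S] (hb : LeafBox J L N γ π m)
    (hN : ∀ v, |v| ≤ 1 → 1 + 2 * |deriv β v| ≤ N) (hγ : Function.Injective γ)
    (h : Pass π γ u ε f) (h' : Pass π γ u' ε f') (h0 : |f 0| ≤ 1 / 2) (h0' : |f' 0| ≤ 1 / 2)
    (hu : u + 5 / 2 ≤ u')
    (hno : ∀ t a, u < t → t < u' → a ∈ uIcc (f' 0) (f 0) → γ t ≠ π (a, 0)) :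
    ∃ c, TrLoop J L c ∧ c 0 ∈ range γ := by
  obtain ⟨c, hc, e⟩ := closing hb hN h h' h0 h0' (fun v => ⟨hb.curve v, hb.tr v⟩) hu
    (fun _ _ _ _ _ _ e => hγ e) fun t v h1 h2 hv e => by
      obtain ⟨s, a, k1, k2, k3⟩ := hit_between hb hγ h' h h0' h0 e ((h.abs v).trans_lt hv)
        (sl_mem _ _ _ _)
      have := abs_lt.mp k1
      exact hno s a (by linarith) (by linarith) k3 k2
  exact ⟨c, hc, _, e.symm⟩

lemma hard_case [T2Space S] (hb : LeafBox J L N γ π m)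
    (hN : ∀ v, |v| ≤ 1 → 1 + 2 * |deriv β v| ≤ N) (hγ : Function.Injective γ)
    (h : Pass π γ u ε f) (h' : Pass π γ u' (-ε) f') (h'' : Pass π γ u'' ε f'')
    (h0 : |f 0| ≤ 1 / 2) (h0' : |f' 0| ≤ 1 / 2) (h0'' : |f'' 0| ≤ 1 / 2)
    (hu : u + 5 / 2 ≤ u') (hu' : u' + 5 / 2 ≤ u'') (hno : NoHit γ π u u')
    (hno' : NoHit γ π u' u'') (hx : f 0 < f' 0 ∧ f' 0 < f'' 0 ∨ f'' 0 < f' 0 ∧ f' 0 < f 0) :
    ∃ c, TrLoop J L c ∧ c 0 ∈ range γ := by
  have hπ := hb.disc.2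
  have htr : ∀ v, TrAt J L γ v := fun v => ⟨hb.curve v, hb.tr v⟩
  have hr : Pass π (fun t => γ (-1 * t + (u' + u''))) u' (-ε) f'' :=
    ⟨h'.sign, fun y hy => by rw [← h''.eq y hy]; congr 1; ring, h''.smooth, h''.slope⟩
  obtain ⟨d, a0, a1, a2, a3⟩ := splice hb hN h' hr h0' h0'' htr
    fun v => (htr _).affine (by norm_num)
  have b1 : ∀ t, t ≤ u' - 1 / 4 → d (-u' + t) = γ t := fun t ht => by
    rw [a1 _ (by linarith)]; congr 1; ring
  have b2 : ∀ t, u' + 1 / 4 ≤ t → d (-u' + t) = γ (u' + u'' - t) := fun t ht => by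
    rw [a2 _ (by linarith)]; congr 1; ring
  have p1 : Pass π (fun t => d (-u' + t)) u ε f := ⟨h.sign, fun y hy => by
    have := abs_le.mp ((h.abs y).trans_le hy)
    rw [b1 _ (by linarith), h.eq y hy], h.smooth, h.slope⟩
  have p2 : Pass π (fun t => d (-u' + t)) u'' ε f' := ⟨h.sign, fun y hy => by
    have := abs_le.mp ((h.abs y).trans_le hy)
    rw [b2 _ (by linarith), ← h'.eq y hy]
    congr 1
    ring, h'.smooth, h'.slope⟩
  have key : ∀ t, u + 1 / 2 ≤ t → t ≤ u'' - 1 / 2 →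
      (|-u' + t| < 1 / 2 ∧ d (-u' + t) = π (sl f' f'' (-ε) (-u' + t), -ε * (-u' + t))) ∨
      ∃ s, d (-u' + t) = γ s ∧ (u + 1 / 2 ≤ s ∧ s ≤ u' - 1 / 2 ∧ s = t ∨
        u' + 1 / 2 ≤ s ∧ s ≤ u'' - 1 / 2 ∧ s = u' + u'' - t) := fun t h1 h2 => by
    rcases le_or_gt t (u' - 1 / 2) with h3 | h3
    · exact Or.inr ⟨t, b1 t (by linarith), Or.inl ⟨h1, h3, rfl⟩⟩
    rcases lt_or_ge t (u' + 1 / 2) with h4 | h4
    · exact Or.inl ⟨abs_lt.mpr ⟨by linarith, by linarith⟩,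
        a3 _ (abs_le.mpr ⟨by linarith, by linarith⟩)⟩
    · exact Or.inr ⟨_, b2 t (by linarith), Or.inr ⟨by linarith, by linarith, rfl⟩⟩
  have miss : ∀ {w e : ℝ} {g : ℝ → ℝ}, Pass π γ w e g → |g 0| ≤ 1 / 2 → ∀ s t x y,
      (u + 1 / 2 ≤ s ∧ s ≤ u' - 1 / 2 ∧ s = t ∨
        u' + 1 / 2 ≤ s ∧ s ≤ u'' - 1 / 2 ∧ s = u' + u'' - t) → |y| < 1 / 2 →
      x ∈ uIcc (f' y) (g y) → γ s ≠ π (x, y) := fun hg hg0 s t x y hs hy hx e => by
    obtain ⟨s', a, k1, k2, k3⟩ := hit_between hb hγ h' hg h0' hg0 e hy hx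
    have := abs_lt.mp k1
    rcases hs with ⟨l1, l2, -⟩ | ⟨l1, l2, -⟩
    · exact hno s' a (by linarith) (by linarith) (abs_of_uIcc h0' hg0 k3) k2
    · exact hno' s' a (by linarith) (by linarith) (abs_of_uIcc h0' hg0 k3) k2
  obtain ⟨c, hc, e⟩ := closing hb hN p1 p2 h0 h0' (fun v => (a0 _).shift) (by linarith)
    (fun t t' h1 h2 h3 h4 e => by
      rcases key t h1 h2 with ⟨k1, k2⟩ | ⟨s, k1, k2⟩ <;>
        rcases key t' h3 h4 with ⟨l1, l2⟩ | ⟨s', l1, l2⟩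
      · have := sl_inj hπ h' (k2.symm.trans (e.trans l2))
        linarith
      · exact absurd (l1.symm.trans (e.symm.trans k2))
          (miss h'' h0'' _ _ _ _ l2 ((h'.abs _).trans_lt k1) (sl_mem _ _ _ _))
      · exact absurd (k1.symm.trans (e.trans l2))
          (miss h'' h0'' _ _ _ _ k2 ((h'.abs _).trans_lt l1) (sl_mem _ _ _ _))
      · have := hγ (k1.symm.trans (e.trans l1))
        rcases k2 with ⟨k2, k3, k4⟩ | ⟨k2, k3, k4⟩ <;>
          rcases l2 with ⟨l2, l3, l4⟩ | ⟨l2, l3, l4⟩ <;> linarith)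
    (fun t v h1 h2 hv e => by
      rcases key t h1 h2 with ⟨k1, k2⟩ | ⟨s, k1, k2⟩
      · have e1 := hπ (k2.symm.trans e)
        have e2 : -ε * (-u' + t) = ε * v := congrArg Prod.snd e1
        have e3 : sl f' f'' (-ε) (-u' + t) = sl f' f ε v := congrArg Prod.fst e1
        have e4 : -u' + t = -v := by linear_combination -ε * e2 - (-u' + t + v) * h.sq
        rw [sl, sl, e2, e4] at e3
        have hy : |ε * v| ≤ 1 := (h.abs v).trans_le (hv.le.trans (by norm_num))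
        have c1 := β_nonneg v
        have c2 := β_nonneg (-v)
        have c3 : 0 < β v ∨ 0 < β (-v) := by
          rcases le_total 0 v with k | k
          · exact Or.inl (β_pos (by linarith))
          · exact Or.inr (β_pos (by linarith))
        rcases hx with ⟨x1, x2⟩ | ⟨x1, x2⟩
        · have o1 := h.order hπ hγ h' x1 hy
          have o2 := h'.order hπ hγ h'' x2 hy
          rcases c3 with c3 | c3 <;> nlinarith
        · have o1 := h''.order hπ hγ h' x1 hy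
          have o2 := h'.order hπ hγ h x2 hy
          rcases c3 with c3 | c3 <;> nlinarith
      · exact miss h h0 _ _ _ _ k2 ((h.abs _).trans_lt hv) (sl_mem _ _ _ _) (k1.symm.trans e))
  exact ⟨c, hc, _, (e.trans (b2 _ (by linarith))).symm⟩

lemma inj_case [T2Space S] (hb : LeafBox J L N γ π m)
    (hN : ∀ v, |v| ≤ 1 → 1 + 2 * |deriv β v| ≤ N) (hγ : Function.Injective γ) :
    ∃ c, TrLoop J L c ∧ c 0 ∈ range γ := by
  obtain ⟨u, a, -, h0, e⟩ := hb.recur 0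
  obtain ⟨ε, f, h, rfl⟩ := hit_pass hb h0 e
  obtain ⟨u', ε', f', h', h0', hu, hno⟩ := next_hit hb h
  obtain ⟨u'', ε'', f'', h'', h0'', hu', hno'⟩ := next_hit hb h'
  by_cases e1 : ε' = ε
  · subst e1
    exact simple_case hb hN hγ h h' h0 h0' hu fun t a k1 k2 k3 =>
      hno t a k1 k2 (abs_of_uIcc h0' h0 k3)
  by_cases e2 : ε'' = ε'
  · subst e2
    exact simple_case hb hN hγ h' h'' h0' h0'' hu' fun t a k1 k2 k3 =>
      hno' t a k1 k2 (abs_of_uIcc h0'' h0' k3)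
  have e3 : ε' = -ε ∧ ε'' = ε := by
    rcases h.sign with rfl | rfl <;> rcases h'.sign with rfl | rfl <;>
      rcases h''.sign with rfl | rfl <;> simp_all
  obtain ⟨rfl, rfl⟩ := e3
  by_cases hx : f' 0 ∈ uIcc (f'' 0) (f 0)
  · have n1 : f' 0 ≠ f 0 := fun k => by
      have := hγ (h'.zero.trans (k ▸ h.zero.symm))
      linarith
    have n2 : f' 0 ≠ f'' 0 := fun k => by
      have := hγ (h'.zero.trans (k ▸ h''.zero.symm))
      linarith
    refine hard_case hb hN hγ h h' h'' h0 h0' h0'' hu hu' hno hno' ?_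
    rcases mem_uIcc.mp hx with ⟨k1, k2⟩ | ⟨k1, k2⟩
    · exact Or.inr ⟨lt_of_le_of_ne k1 n2.symm, lt_of_le_of_ne k2 n1⟩
    · exact Or.inl ⟨lt_of_le_of_ne k1 n1.symm, lt_of_le_of_ne k2 n2⟩
  · refine simple_case hb hN hγ h h'' h0 h0'' (by linarith) fun t a k1 k2 k3 k4 => ?_
    rcases lt_trichotomy t u' with k | rfl | k
    · exact hno t a k1 k (abs_of_uIcc h0'' h0 k3) k4
    · have : a = f' 0 := congrArg Prod.fst (hb.disc.2 (k4.symm.trans h'.zero))
      exact hx (this ▸ k3)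
    · exact hno' t a k k2 (abs_of_uIcc h0'' h0 k3) k4

end Loop

theorem loopStmt [T2Space S] : LoopStmt J S := by
  obtain ⟨N, h1, hN⟩ := Loop.exists_N
  refine ⟨N, h1, fun L γ π m hb => ?_⟩
  by_cases hγ : Function.Injective γ
  · obtain ⟨c, hc, t, e⟩ := Loop.inj_case hb hN hγ
    exact ⟨c, hc, (isPreconnected_range hb.curve.continuous).subset_connectedComponent
      ⟨0, rfl⟩ ⟨t, e⟩⟩
  · obtain ⟨c, hc, e⟩ := Loop.periodic_case hb hγ
    exact ⟨c, hc, e ▸ mem_connectedComponent⟩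

end

end Pool.Agent.Lib.MP_72f1d0_gt.PC
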