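import Pool.Agent.Lib.MP_72f1d0_gt.PC.Defs

/-!
Passes of a leaf through a box, and gluing of transverse curves.
-/

set_option linter.unusedSectionVars false

open scoped ContDiff Manifold Topology
open Set Filter

namespace Pool.Agent.Lib.MP_72f1d0_gt.PC

open Eq.Man (dp)

noncomputable section

variable {E₂ H₂ : Type*} [NormedAddCommGroup E₂] [NormedSpace ℝ E₂] [TopologicalSpace H₂]
  {J : ModelWithCorners ℝ E₂ H₂} {S : Type*} [TopologicalSpace S] [ChartedSpace H₂ S]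
  [IsManifold J ∞ S]

namespace Loop

lemma inv_at {π : Q → S} (hπ : Disc J π) (q : Q) :
    ContMDiffAt J 𝓘(ℝ, Q) ∞ (Function.invFun π) (π q) ∧
      ∀ᶠ y in 𝓝 (π q), π (Function.invFun π y) = y := by
  obtain ⟨σ, τ, h1, h2, -⟩ := Eq.Man.exists_section hπ.1 q
  have h3 : Function.invFun π =ᶠ[𝓝 (π q)] σ := by
    filter_upwards [h2] with y hy
    exact (congrArg (Function.invFun π) hy.symm).trans (Function.leftInverse_invFun hπ.2 _)
  refine ⟨h1.congr_of_eventuallyEq h3, ?_⟩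
  filter_upwards [h2, h3] with y hy hy'
  rw [hy', hy]

lemma dc_congr {c c' : ℝ → S} {t : ℝ} (h : c =ᶠ[𝓝 t] c') : dc J c t = dc J c' t :=
  congrArg (fun T : ℝ →L[ℝ] E₂ => T 1) h.mfderiv_eq

lemma dc_comp {c : ℝ → S} {k : ℝ → ℝ} {t k' : ℝ} (hc : MDifferentiableAt 𝓘(ℝ, ℝ) J c (k t))
    (hk : HasDerivAt k k' t) : dc J (fun s => c (k s)) t = k' • dc J c (k t) := by
  have h := (HasMFDerivAt.comp t hc.hasMFDerivAt hk.hasFDerivAt.hasMFDerivAt).mfderiv
  have h2 := congrArg (fun T : ℝ →L[ℝ] E₂ => T 1) h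
  refine h2.trans ?_
  set A : ℝ →L[ℝ] E₂ := mfderiv 𝓘(ℝ, ℝ) J c (k t) with hA
  show A ((ContinuousLinearMap.toSpanSingleton ℝ k') 1) = k' • A 1
  rw [← map_smul]
  simp

lemma dc_box {π : Q → S} (hπ : Disc J π) {k : ℝ → Q} {t : ℝ} {k' : Q} (hk : HasDerivAt k k' t) :
    dc J (fun s => π (k s)) t = dp J π (k t) k' := by
  have h := (HasMFDerivAt.comp t
    ((hπ.1.contMDiff (k t)).mdifferentiableAt (by simp)).hasMFDerivAt
    hk.hasFDerivAt.hasMFDerivAt).mfderiv
  have h2 := congrArg (fun T : ℝ →L[ℝ] E₂ => T 1) h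
  refine h2.trans ?_
  show dp J π (k t) ((ContinuousLinearMap.toSpanSingleton ℝ k') 1) = _
  simp

variable (J) in
/-- Smooth and transverse at a point. -/
def TrAt (L : S → Submodule ℝ E₂) (c : ℝ → S) (t : ℝ) : Prop :=
  ContMDiffAt 𝓘(ℝ, ℝ) J ∞ c t ∧ dc J c t ∉ L (c t)

variable {L : S → Submodule ℝ E₂}

lemma TrAt.congr {c c' : ℝ → S} {t : ℝ} (h : TrAt J L c t) (e : c' =ᶠ[𝓝 t] c) :
    TrAt J L c' t :=
  ⟨h.1.congr_of_eventuallyEq e, by rw [dc_congr e, e.eq_of_nhds]; exact h.2⟩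

lemma TrAt.affine {c : ℝ → S} {a b t : ℝ} (h : TrAt J L c (a * t + b)) (ha : a ≠ 0) :
    TrAt J L (fun s => c (a * s + b)) t := by
  have hk : HasDerivAt (fun s : ℝ => a * s + b) a t := by
    simpa using ((hasDerivAt_id t).const_mul a).add_const b
  have hs : ContDiff ℝ ∞ fun s : ℝ => a * s + b := by fun_prop
  refine ⟨ContMDiffAt.comp t (g := c) (f := fun s : ℝ => a * s + b) h.1 hs.contMDiff.contMDiffAt, ?_⟩
  rw [dc_comp (k := fun s : ℝ => a * s + b) (h.1.mdifferentiableAt (by simp)) hk]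
  exact fun hm => h.2 ((Submodule.smul_mem_iff _ ha).mp hm)

lemma loop_of {c0 : ℝ → S} {a P η : ℝ} (hP : 0 < P) (hη : 0 < η) (htr : ∀ v, TrAt J L c0 v)
    (hper : ∀ v, |v - a| < η → c0 (v + P) = c0 v)
    (hinj : ∀ v v', a ≤ v → v < a + P → a ≤ v' → v' < a + P → c0 v = c0 v' → v = v') :
    ∃ c, TrLoop J L c ∧ c 0 = c0 a := by
  have key : ∀ t, TrAt J L (fun t => c0 (P * Int.fract t + a)) t := fun t => by
    refine ((htr (P * t + (a - P * ⌊t⌋))).affine hP.ne').congr ?_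
    have h1 : ∀ᶠ s in 𝓝 t, s < (⌊t⌋ : ℝ) + 1 := Iio_mem_nhds (Int.lt_floor_add_one t)
    have h2 : ∀ᶠ s in 𝓝 t, (⌊t⌋ : ℝ) - 1 < s :=
      Ioi_mem_nhds (by linarith [Int.floor_le t])
    have h3 : ∀ᶠ s in 𝓝 t, (⌊t⌋ : ℝ) - η / P < s :=
      Ioi_mem_nhds (by linarith [Int.floor_le t, div_pos hη hP])
    filter_upwards [h1, h2, h3] with s h1 h2 h3
    rcases le_or_gt (⌊t⌋ : ℝ) s with h | h
    · have : ⌊s⌋ = ⌊t⌋ := Int.floor_eq_iff.mpr ⟨h, h1⟩
      rw [Int.fract, this]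
      congr 1
      ring
    · have : ⌊s⌋ = ⌊t⌋ - 1 := Int.floor_eq_iff.mpr ⟨by push_cast; linarith, by push_cast; linarith⟩
      rw [Int.fract, this, ← hper (P * s + (a - P * ⌊t⌋))]
      · congr 1
        push_cast
        ring
      · have h4 : (⌊t⌋ - s) * P < η := by
          rw [← lt_div_iff₀ hP]; linarith
        rw [abs_lt]
        constructor <;> nlinarith
  refine ⟨fun t => c0 (P * Int.fract t + a), ⟨fun t => (key t).1, fun t t' => ?_,
    fun t => (key t).2⟩, by simp⟩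
  constructor
  · intro h
    have b1 := Int.fract_nonneg t
    have b2 := Int.fract_lt_one t
    have b3 := Int.fract_nonneg t'
    have b4 := Int.fract_lt_one t'
    have h1 := hinj _ _ (by nlinarith) (by nlinarith) (by nlinarith) (by nlinarith) h
    have h2 : Int.fract t = Int.fract t' := mul_left_cancel₀ hP.ne' (by linarith)
    obtain ⟨n, hn⟩ := Int.fract_eq_fract.mp h2.symm
    exact ⟨n, by linarith⟩
  · rintro ⟨n, rfl⟩
    simp

/-- A passage of the curve through the box along the graph of `f`. -/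
structure Pass (π : Q → S) (γ : ℝ → S) (u ε : ℝ) (f : ℝ → ℝ) : Prop where
  sign : ε = 1 ∨ ε = -1
  eq : ∀ y, |y| ≤ 5 / 4 → γ (u + ε * y) = π (f y, y)
  smooth : ∀ y, |y| ≤ 5 / 4 → ContDiffAt ℝ ∞ f y
  slope : ∀ y, |y| ≤ 5 / 4 → |deriv f y| ≤ 1 / 10

variable {N : ℝ} {γ : ℝ → S} {π : Q → S} {m : Q → ℝ}

lemma local_pass (h : LeafBox J L N γ π m) {t : ℝ} (ht : γ t ∈ π '' Metric.ball 0 (3 / 2)) :
    (∀ᶠ s in 𝓝 t, γ s ∈ π '' Metric.ball 0 (3 / 2)) ∧
    ContDiffAt ℝ ∞ (fun s => Function.invFun π (γ s)) t ∧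
    ∃ e a : ℝ, (e = 1 ∨ e = -1) ∧ |a| ≤ 1 / 10 ∧
      HasDerivAt (fun s => Function.invFun π (γ s)) (a, e) t := by
  obtain ⟨q, hq, e⟩ := ht
  obtain ⟨h1, h2⟩ := inv_at h.disc q
  rw [e] at h1 h2
  have hc : ContinuousAt γ t := h.curve.continuous.continuousAt
  have hk : ContDiffAt ℝ ∞ (fun s => Function.invFun π (γ s)) t :=
    (ContMDiffAt.comp t h1 (h.curve t)).contDiffAt
  have h0 : Function.invFun π (γ t) = q := by
    rw [← e]; exact Function.leftInverse_invFun h.disc.2 _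
  have h3 : ∀ᶠ s in 𝓝 t, π (Function.invFun π (γ s)) = γ s := hc.eventually h2
  have h4 : ∀ᶠ s in 𝓝 t, Function.invFun π (γ s) ∈ Metric.ball (0 : Q) (3 / 2) :=
    hk.continuousAt.eventually (Metric.isOpen_ball.mem_nhds
      (show Function.invFun π (γ t) ∈ _ by rw [h0]; exact hq))
  refine ⟨?_, hk, ?_⟩
  · filter_upwards [h3, h4] with s h3 h4
    exact ⟨_, h4, h3⟩
  · have hd := (hk.differentiableAt (by simp)).hasDerivAt
    have h5 := dc_box h.disc hd
    rw [dc_congr h3, h0] at h5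
    have hi := (Eq.Man.dp_inv h.disc.1 q).injective
    rcases h.pass t q (mem_ball_zero_iff.mp hq).le e.symm with h6 | h6
    · refine ⟨1, m q, Or.inl rfl, h.small q, ?_⟩
      rwa [hi (h5.symm.trans h6)] at hd
    · refine ⟨-1, -m q, Or.inr rfl, by rw [abs_neg]; exact h.small q, ?_⟩
      rw [← map_neg] at h6
      rwa [hi (h5.symm.trans h6)] at hd

lemma exists_pass [T2Space S] (h : LeafBox J L N γ π m) {w s y0 : ℝ} (hw : γ w = π (s, y0))
    (hs : |s| ≤ 1) (hy : |y0| ≤ 1) : ∃ ε f, Pass π γ (w - ε * y0) ε f ∧ f y0 = s := by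
  set O : Set ℝ := {t | γ t ∈ π '' Metric.ball 0 (3 / 2)} with hO
  set k : ℝ → Q := fun s => Function.invFun π (γ s) with hk
  have hOo : IsOpen O := isOpen_iff_mem_nhds.mpr fun t ht => (local_pass h ht).1
  have hwO : w ∈ O := ⟨(s, y0), by
    rw [mem_ball_zero_iff, Prod.norm_def, Real.norm_eq_abs, Real.norm_eq_abs]
    exact max_lt (by linarith) (by linarith), hw.symm⟩
  have hkw : k w = (s, y0) := by
    simp only [hk, hw]; exact Function.leftInverse_invFun h.disc.2 _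
  have hπk : ∀ t ∈ O, π (k t) = γ t := fun t ⟨q, _, e⟩ => by
    simp only [hk, ← e]; rw [Function.leftInverse_invFun h.disc.2]
  set C := connectedComponentIn O w with hC
  have hCo : IsOpen C := hOo.connectedComponentIn
  have hCO : C ⊆ O := connectedComponentIn_subset _ _
  have hCc : IsPreconnected C := isPreconnected_connectedComponentIn
  have hwC : w ∈ C := mem_connectedComponentIn hwO
  have hcv : Convex ℝ C := hCc.ordConnected.convex
  have hd : ∀ t ∈ O, HasDerivAt k (deriv k t) t ∧ ((deriv k t).2 = 1 ∨ (deriv k t).2 = -1) ∧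
      |(deriv k t).1| ≤ 1 / 10 := fun t ht => by
    obtain ⟨-, -, e, a, he, ha, hd⟩ := local_pass h ht
    rw [hd.deriv]
    exact ⟨hd, he, ha⟩
  have hcont : ContinuousOn (fun t => (deriv k t).2) C :=
    continuous_snd.comp_continuousOn (ContDiffOn.continuousOn_deriv_of_isOpen (n := ∞)
      (fun t ht => (local_pass h (hCO ht)).2.1.contDiffWithinAt) hCo (by simp))
  obtain ⟨ε, hε⟩ : ∃ ε, (deriv k w).2 = ε := ⟨_, rfl⟩
  have hε1 : ε = 1 ∨ ε = -1 := hε ▸ (hd w hwO).2.1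
  have hε2 : ε * ε = 1 := by rcases hε1 with rfl | rfl <;> norm_num
  have hεa : ∀ x : ℝ, |ε * x| = |x| := fun x => by rcases hε1 with rfl | rfl <;> simp
  have hconst : ∀ t ∈ C, (deriv k t).2 = ε := fun t ht => by
    have z : ∀ x ∈ C, (deriv k x).2 ≠ 0 := fun x hx e => by
      rcases (hd x (hCO hx)).2.1 with e' | e' <;> rw [e] at e' <;> norm_num at e'
    rcases (hd t (hCO ht)).2.1 with e | e <;> rcases hε1 with e' | e'
    · rw [e, e']
    · obtain ⟨x, hx, e0⟩ := hCc.intermediate_value hwC ht hcont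
        (show (0 : ℝ) ∈ _ by simp only [hε, e, e']; constructor <;> norm_num)
      exact absurd e0 (z x hx)
    · obtain ⟨x, hx, e0⟩ := hCc.intermediate_value ht hwC hcont
        (show (0 : ℝ) ∈ _ by simp only [hε, e, e']; constructor <;> norm_num)
      exact absurd e0 (z x hx)
    · rw [e, e']
  have hd1 : ∀ t ∈ O, HasDerivAt (fun t => (k t).1) (deriv k t).1 t := fun t ht =>
    (ContinuousLinearMap.fst ℝ ℝ ℝ).hasFDerivAt.comp_hasDerivAt t (hd t ht).1
  have hd2 : ∀ t ∈ O, HasDerivAt (fun t => (k t).2) (deriv k t).2 t := fun t ht =>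
    (ContinuousLinearMap.snd ℝ ℝ ℝ).hasFDerivAt.comp_hasDerivAt t (hd t ht).1
  have hh : ∀ t ∈ C, (k t).2 = ε * (t - (w - ε * y0)) := fun t ht => by
    have := hcv.norm_image_sub_le_of_norm_hasDerivWithin_le (C := 0)
      (f := fun t => (k t).2 - ε * t) (f' := fun _ => 0) (fun x hx => by
        have := (hd2 x (hCO hx)).sub ((hasDerivAt_id x).const_mul ε)
        rw [hconst x hx, mul_one, sub_self] at this
        exact this.hasDerivWithinAt) (fun _ _ => by simp) hwC ht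
    rw [zero_mul, norm_le_zero_iff, hkw] at this
    simp only at this
    linear_combination this - y0 * hε2
  have hs1 : ∀ t ∈ C, |(k t).1 - s| ≤ 1 / 10 * |t - w| := fun t ht => by
    have := hcv.norm_image_sub_le_of_norm_hasDerivWithin_le (C := 1 / 10)
      (fun x hx => (hd1 x (hCO hx)).hasDerivWithinAt) (fun x hx => (hd x (hCO hx)).2.2) hwC ht
    rwa [hkw] at this
  have hcl : IsClosed (π '' Metric.closedBall 0 (7 / 5)) :=
    ((isCompact_closedBall _ _).image h.disc.1.contMDiff.continuous).isClosed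
  have hZ : Icc (w - ε * y0 - 5 / 4) (w - ε * y0 + 5 / 4) ⊆ C := by
    have hy' := abs_le.mp ((hεa y0).trans_le hy)
    refine isPreconnected_Icc.subset_of_closure_inter_subset hCo
      ⟨w, ⟨by linarith, by linarith⟩, hwC⟩ fun t ⟨ht, ht1, ht2⟩ => ?_
    have h1 : ∀ᶠ x in 𝓝 t, x ∈ Ioo (t - 1 / 20) (t + 1 / 20) :=
      Ioo_mem_nhds (by linarith) (by linarith)
    have h2 : ∃ᶠ x in 𝓝 t, γ x ∈ π '' Metric.closedBall 0 (7 / 5) := by
      refine ((mem_closure_iff_frequently.mp ht).and_eventually h1).mono ?_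
      rintro x ⟨hx, hx1, hx2⟩
      refine ⟨k x, ?_, hπk x (hCO hx)⟩
      rw [mem_closedBall_zero_iff, Prod.norm_def, Real.norm_eq_abs, Real.norm_eq_abs, hh x hx, hεa]
      have b1 := abs_le.mp ((hs1 x hx).trans (mul_le_mul_of_nonneg_left
        (show |x - w| ≤ 23 / 10 from abs_le.mpr ⟨by linarith, by linarith⟩) (by norm_num)))
      have b2 := abs_le.mp hs
      exact max_le (abs_le.mpr ⟨by linarith, by linarith⟩) (abs_le.mpr ⟨by linarith, by linarith⟩)
    have h3 : t ∈ O := by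
      obtain ⟨q, hq, e⟩ := hcl.mem_of_frequently_of_tendsto h2 h.curve.continuous.continuousAt
      exact ⟨q, Metric.closedBall_subset_ball (by norm_num) hq, e⟩
    obtain ⟨x, hx1, hx2⟩ := mem_closure_iff.mp ht _ hOo.connectedComponentIn
      (mem_connectedComponentIn h3)
    rw [hC, connectedComponentIn_eq hx2, ← connectedComponentIn_eq hx1]
    exact mem_connectedComponentIn h3
  have hmem : ∀ y, |y| ≤ 5 / 4 → w - ε * y0 + ε * y ∈ C := fun y hy => by
    have := abs_le.mp ((hεa y).trans_le hy)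
    exact hZ ⟨by linarith, by linarith⟩
  have hl : ∀ y, HasDerivAt (fun y => w - ε * y0 + ε * y) ε y := fun y => by
    simpa using ((hasDerivAt_id y).const_mul ε).const_add (w - ε * y0)
  refine ⟨ε, fun y => (k (w - ε * y0 + ε * y)).1, ⟨hε1, fun y hy => ?_, fun y hy => ?_,
    fun y hy => ?_⟩, ?_⟩
  · rw [← hπk _ (hCO (hmem y hy))]
    congr 1
    refine Prod.ext rfl ?_
    rw [hh _ (hmem y hy)]
    simp only
    linear_combination y * hε2
  · exact (ContDiffAt.comp y (g := k) (f := fun y => w - ε * y0 + ε * y)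
      (local_pass h (hCO (hmem y hy))).2.1 (by fun_prop)).fst
  · have := (HasDerivAt.comp y (h₂ := fun t => (k t).1) (hd1 _ (hCO (hmem y hy))) (hl y)).deriv
    rw [show (fun y => (k (w - ε * y0 + ε * y)).1) =
      (fun t => (k t).1) ∘ fun y => w - ε * y0 + ε * y from rfl, this, mul_comm, hεa]
    exact (hd _ (hCO (hmem y hy))).2.2
  · simp only [sub_add_cancel, hkw]

variable {u u' ε ε' : ℝ} {f f' : ℝ → ℝ}

lemma Pass.sq (h : Pass π γ u ε f) : ε * ε = 1 := by rcases h.sign with rfl | rfl <;> norm_num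

lemma Pass.abs (h : Pass π γ u ε f) (x : ℝ) : |ε * x| = |x| := by
  rcases h.sign with rfl | rfl <;> simp

lemma Pass.eq' (h : Pass π γ u ε f) (v : ℝ) (hv : |v| ≤ 5 / 4) :
    γ (u + v) = π (f (ε * v), ε * v) := by
  rw [← h.eq _ ((h.abs v).trans_le hv), ← mul_assoc, h.sq, one_mul]

lemma Pass.zero (h : Pass π γ u ε f) : γ u = π (f 0, 0) := by
  simpa using h.eq 0 (by norm_num)

lemma Pass.gap (hπ : Function.Injective π) (h : Pass π γ u ε f) (h' : Pass π γ u' ε' f')
    (hu : |u - u'| < 5 / 2) : u = u' := by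
  have key : ∀ t, |t - u| ≤ 5 / 4 → |t - u'| ≤ 5 / 4 → ε * (t - u) = ε' * (t - u') := by
    intro t h1 h2
    have e1 := h.eq' _ h1
    have e2 := h'.eq' _ h2
    rw [add_sub_cancel] at e1 e2
    exact congrArg Prod.snd (hπ (e1.symm.trans e2))
  have b1 := le_abs_self (u - u')
  have b2 := neg_abs_le (u - u')
  have k1 := key ((u + u') / 2 + (5 / 2 - |u - u'|) / 2) (abs_le.mpr ⟨by linarith, by linarith⟩)
    (abs_le.mpr ⟨by linarith, by linarith⟩)
  have k2 := key ((u + u') / 2 - (5 / 2 - |u - u'|) / 2) (abs_le.mpr ⟨by linarith, by linarith⟩)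
    (abs_le.mpr ⟨by linarith, by linarith⟩)
  rcases h.sign with rfl | rfl <;> rcases h'.sign with rfl | rfl <;> linarith

lemma Pass.bound (h : Pass π γ u ε f) {y : ℝ} (hy : |y| ≤ 1) : |f y - f 0| ≤ 1 / 10 := by
  have := (convex_Icc (-1 : ℝ) 1).norm_image_sub_le_of_norm_deriv_le (C := 1 / 10) (f := f)
    (fun x hx => (h.smooth x ((abs_le.mpr hx).trans (by norm_num))).differentiableAt (by simp))
    (fun x hx => h.slope x ((abs_le.mpr hx).trans (by norm_num)))
    (x := 0) (y := y) ⟨by norm_num, by norm_num⟩ (abs_le.mp hy)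
  rw [sub_zero, Real.norm_eq_abs, Real.norm_eq_abs] at this
  linarith

lemma Pass.order (hπ : Function.Injective π) (hγ : Function.Injective γ) (h : Pass π γ u ε f)
    (h' : Pass π γ u' ε' f') (h0 : f 0 < f' 0) {y : ℝ} (hy : |y| ≤ 1) : f y < f' y := by
  by_contra hn
  have hsub : ∀ z ∈ uIcc 0 y, |z| ≤ 1 := fun z hz => by
    have := abs_le.mp hy
    rcases mem_uIcc.mp hz with hz | hz <;> exact abs_le.mpr ⟨by linarith, by linarith⟩
  have hc : ContinuousOn (fun z => f z - f' z) (uIcc 0 y) := fun z hz =>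
    (((h.smooth z ((hsub z hz).trans (by norm_num))).continuousAt).sub
      (h'.smooth z ((hsub z hz).trans (by norm_num))).continuousAt).continuousWithinAt
  obtain ⟨z, hz, e⟩ := intermediate_value_uIcc hc
    (show (0 : ℝ) ∈ _ from mem_uIcc.mpr (Or.inl ⟨by linarith, by linarith⟩))
  have hz1 := hsub z hz
  have e1 := h.eq z (hz1.trans (by norm_num))
  have e2 := h'.eq z (hz1.trans (by norm_num))
  rw [show f z = f' z by linarith, ← e2] at e1
  have e3 := hγ e1
  have b1 := abs_le.mp ((h.abs z).trans_le hz1)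
  have b2 := abs_le.mp ((h'.abs z).trans_le hz1)
  obtain rfl := h.gap hπ h' (abs_lt.mpr ⟨by linarith, by linarith⟩)
  exact h0.ne (congrArg Prod.fst (hπ (h.zero.symm.trans h'.zero)))

lemma hit_between [T2Space S] (hb : LeafBox J L N γ π m) (hγ : Function.Injective γ)
    (h : Pass π γ u ε f) (h' : Pass π γ u' ε' f') (h0 : |f 0| ≤ 1 / 2) (h0' : |f' 0| ≤ 1 / 2)
    {w s y : ℝ} (hw : γ w = π (s, y)) (hy : |y| < 1 / 2) (hs : s ∈ uIcc (f y) (f' y)) :
    ∃ t a, |t - w| < 1 / 2 ∧ γ t = π (a, 0) ∧ a ∈ uIcc (f 0) (f' 0) := by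
  have hy1 : |y| ≤ 1 := hy.le.trans (by norm_num)
  have b1 := abs_le.mp (h.bound hy1)
  have b2 := abs_le.mp (h'.bound hy1)
  have b3 := abs_le.mp h0
  have b4 := abs_le.mp h0'
  obtain ⟨e, g, hg, rfl⟩ := exists_pass hb hw (by
    rcases mem_uIcc.mp hs with hs | hs <;> exact abs_le.mpr ⟨by linarith, by linarith⟩) hy1
  refine ⟨_, _, by rw [sub_sub_cancel_left, abs_neg, hg.abs]; exact hy, hg.zero, ?_⟩
  have hπ := hb.disc.2
  by_contra hn
  rw [mem_uIcc] at hs
  rcases lt_or_ge (g 0) (min (f 0) (f' 0)) with h1 | h1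
  · have k1 := hg.order hπ hγ h (h1.trans_le (min_le_left _ _)) hy1
    have k2 := hg.order hπ hγ h' (h1.trans_le (min_le_right _ _)) hy1
    rcases hs with hs | hs <;> linarith
  · have h2 : max (f 0) (f' 0) < g 0 := not_le.mp fun h2 => hn ⟨h1, h2⟩
    have k1 := h.order hπ hγ hg ((le_max_left _ _).trans_lt h2) hy1
    have k2 := h'.order hπ hγ hg ((le_max_right _ _).trans_lt h2) hy1
    rcases hs with hs | hs <;> linarith

end Loop

end

end Pool.Agent.Lib.MP_72f1d0_gt.PC
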