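import Pool.Agent.Lib.MP_72f1d0_gt.PC.Loop1

/-!
Slants between two passes, splicing and closing of transverse curves.
-/

set_option linter.unusedSectionVars false

open scoped ContDiff Manifold Topology
open Set Filter

namespace Pool.Agent.Lib.MP_72f1d0_gt.PC

open Eq.Man (dp)

noncomputable section

variable {E₂ H₂ : Type*} [NormedAddCommGroup E₂] [NormedSpace ℝ E₂] [TopologicalSpace H₂]
  {J : ModelWithCorners ℝ E₂ H₂} {S : Type*} [TopologicalSpace S] [ChartedSpace H₂ S]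
  [IsManifold J ∞ S]

namespace Loop

/-- The cutoff. -/
def β (v : ℝ) : ℝ := Real.smoothTransition (2 * v + 1 / 2)

lemma β_smooth : ContDiff ℝ ∞ β := Real.smoothTransition.contDiff.comp (by fun_prop)

lemma β_zero {v : ℝ} (h : v ≤ -1 / 4) : β v = 0 :=
  Real.smoothTransition.zero_of_nonpos (by linarith)

lemma β_one {v : ℝ} (h : 1 / 4 ≤ v) : β v = 1 :=
  Real.smoothTransition.one_of_one_le (by linarith)

lemma β_pos {v : ℝ} (h : -1 / 4 < v) : 0 < β v :=
  Real.smoothTransition.pos_of_pos (by linarith)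

lemma β_nonneg (v : ℝ) : 0 ≤ β v := Real.smoothTransition.nonneg _

lemma β_le (v : ℝ) : β v ≤ 1 := Real.smoothTransition.le_one _

lemma exists_N : ∃ N : ℝ, 1 ≤ N ∧ ∀ v, |v| ≤ 1 → 1 + 2 * |deriv β v| ≤ N := by
  obtain ⟨B, hB⟩ := (isCompact_Icc (a := (-1 : ℝ)) (b := 1)).exists_bound_of_continuousOn
    (β_smooth.continuous_deriv (by simp)).continuousOn
  refine ⟨1 + 2 * B, ?_, fun v hv => ?_⟩
  · have := (norm_nonneg _).trans (hB 0 ⟨by norm_num, by norm_num⟩)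
    linarith
  · have := hB v (abs_le.mp hv)
    rw [Real.norm_eq_abs] at this
    linarith

/-- The slant from one graph to another. -/
def sl (f f' : ℝ → ℝ) (ε v : ℝ) : ℝ := (1 - β v) * f (ε * v) + β v * f' (ε * v)

lemma conv_mem {a b t : ℝ} (h0 : 0 ≤ t) (h1 : t ≤ 1) : (1 - t) * a + t * b ∈ uIcc a b := by
  rw [mem_uIcc]
  rcases le_total a b with h | h
  · left; constructor <;> nlinarith
  · right; constructor <;> nlinarith

lemma sl_mem (f f' : ℝ → ℝ) (ε v : ℝ) : sl f f' ε v ∈ uIcc (f (ε * v)) (f' (ε * v)) :=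
  conv_mem (β_nonneg v) (β_le v)

variable {L : S → Submodule ℝ E₂} {N : ℝ} {γ α α' : ℝ → S} {π : Q → S} {m : Q → ℝ}
  {u u' ε ε' : ℝ} {f f' : ℝ → ℝ}

lemma slant_tr (hb : LeafBox J L N γ π m) (hN : ∀ v, |v| ≤ 1 → 1 + 2 * |deriv β v| ≤ N)
    (h : Pass π α u ε f) (h' : Pass π α' u' ε f') (h0 : |f 0| ≤ 1 / 2) (h0' : |f' 0| ≤ 1 / 2)
    {v : ℝ} (hv : |v| ≤ 1) : TrAt J L (fun v => π (sl f f' ε v, ε * v)) v := by
  have hv1 : |ε * v| ≤ 1 := (h.abs v).trans_le hv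
  have hv2 : |ε * v| ≤ 5 / 4 := hv1.trans (by norm_num)
  have hl : HasDerivAt (fun v => ε * v) ε v := by simpa using (hasDerivAt_id v).const_mul ε
  have hls : ContDiffAt ℝ ∞ (fun v => ε * v) v := by fun_prop
  have s1 : ContDiffAt ℝ ∞ (fun v => f (ε * v)) v := ContDiffAt.comp v (h.smooth _ hv2) hls
  have s2 : ContDiffAt ℝ ∞ (fun v => f' (ε * v)) v := ContDiffAt.comp v (h'.smooth _ hv2) hls
  have hs : ContDiffAt ℝ ∞ (fun v => ((sl f f' ε v, ε * v) : Q)) v :=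
    (((contDiffAt_const.sub β_smooth.contDiffAt).mul s1).add (β_smooth.contDiffAt.mul s2)).prodMk
      hls
  have d0 : HasDerivAt β (deriv β v) v := (β_smooth.differentiable (by simp) v).hasDerivAt
  have d1 : HasDerivAt (fun v => f (ε * v)) (deriv f (ε * v) * ε) v :=
    HasDerivAt.comp v ((h.smooth _ hv2).differentiableAt (by simp)).hasDerivAt hl
  have d2 : HasDerivAt (fun v => f' (ε * v)) (deriv f' (ε * v) * ε) v :=
    HasDerivAt.comp v ((h'.smooth _ hv2).differentiableAt (by simp)).hasDerivAt hl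
  have d3 : HasDerivAt (sl f f' ε) (deriv β v * (f' (ε * v) - f (ε * v)) +
      ε * ((1 - β v) * deriv f (ε * v) + β v * deriv f' (ε * v))) v := by
    exact HasDerivAt.congr_deriv (f := sl f f' ε) (((d0.const_sub 1).mul d1).add (d0.mul d2))
      (by ring)
  have b1 := abs_le.mp (h.bound hv1)
  have b2 := abs_le.mp (h'.bound hv1)
  have b3 := abs_le.mp h0
  have b4 := abs_le.mp h0'
  refine ⟨ContMDiffAt.comp v (hb.disc.1.contMDiff _) hs.contMDiffAt, ?_⟩
  rw [dc_box hb.disc (d3.prodMk hl)]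
  refine hb.cone _ _ ?_ (fun e => ?_) ?_
  · rw [Prod.norm_def, Real.norm_eq_abs, Real.norm_eq_abs]
    refine max_le ?_ (hv1.trans (by norm_num))
    rcases mem_uIcc.mp (sl_mem f f' ε v) with k | k <;> exact abs_le.mpr ⟨by linarith, by linarith⟩
  · have e2 : ε = 0 := congrArg Prod.snd e
    have := h.sq
    rw [e2] at this
    norm_num at this
  · have e1 : |ε| = 1 := by simpa using h.abs 1
    simp only [e1, mul_one]
    refine (abs_add_le _ _).trans (le_trans ?_ (hN v hv))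
    have c1 : |deriv β v * (f' (ε * v) - f (ε * v))| ≤ |deriv β v| * 2 := by
      rw [abs_mul]
      exact mul_le_mul_of_nonneg_left (abs_le.mpr ⟨by linarith, by linarith⟩) (abs_nonneg _)
    have c2 := abs_le.mp (h.slope _ hv2)
    have c3 := abs_le.mp (h'.slope _ hv2)
    have c4 : |(1 - β v) * deriv f (ε * v) + β v * deriv f' (ε * v)| ≤ 1 := by
      rcases mem_uIcc.mp (conv_mem (a := deriv f (ε * v)) (b := deriv f' (ε * v)) (β_nonneg v)
        (β_le v)) with k | k <;> exact abs_le.mpr ⟨by linarith, by linarith⟩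
    rw [h.abs]
    linarith

lemma TrAt.shift {c : ℝ → S} {b t : ℝ} (h : TrAt J L c (b + t)) :
    TrAt J L (fun s => c (b + s)) t := by
  have := TrAt.affine (a := 1) (b := b) (t := t) (c := c) (by rwa [one_mul, add_comm]) one_ne_zero
  simpa only [one_mul, add_comm] using this

lemma splice (hb : LeafBox J L N γ π m) (hN : ∀ v, |v| ≤ 1 → 1 + 2 * |deriv β v| ≤ N)
    (h : Pass π α u ε f) (h' : Pass π α' u' ε f') (h0 : |f 0| ≤ 1 / 2) (h0' : |f' 0| ≤ 1 / 2)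
    (hα : ∀ v, TrAt J L α v) (hα' : ∀ v, TrAt J L α' v) :
    ∃ c : ℝ → S, (∀ v, TrAt J L c v) ∧ (∀ v, v ≤ -1 / 4 → c v = α (u + v)) ∧
      (∀ v, 1 / 4 ≤ v → c v = α' (u' + v)) ∧
      ∀ v, |v| ≤ 1 → c v = π (sl f f' ε v, ε * v) := by
  classical
  have k1 : ∀ v, |v| ≤ 1 → v ≤ -1 / 4 → π (sl f f' ε v, ε * v) = α (u + v) := fun v h1 h2 => by
    rw [h.eq' v (h1.trans (by norm_num)), sl, β_zero h2]
    simp
  have k2 : ∀ v, |v| ≤ 1 → 1 / 4 ≤ v → π (sl f f' ε v, ε * v) = α' (u' + v) := fun v h1 h2 => by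
    rw [h'.eq' v (h1.trans (by norm_num)), sl, β_one h2]
    simp
  obtain ⟨c, a1, a2, a3⟩ : ∃ c : ℝ → S, (∀ v, v ≤ -1 / 4 → c v = α (u + v)) ∧
      (∀ v, 1 / 4 ≤ v → c v = α' (u' + v)) ∧
      ∀ v, |v| ≤ 1 → c v = π (sl f f' ε v, ε * v) := by
    refine ⟨fun v => if |v| ≤ 1 then π (sl f f' ε v, ε * v) else
      if v ≤ 0 then α (u + v) else α' (u' + v), fun v hv => ?_, fun v hv => ?_,
      fun v hv => if_pos hv⟩
    · by_cases h1 : |v| ≤ 1
      · simp only [if_pos h1, k1 v h1 hv]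
      · simp only [if_neg h1, if_pos (show v ≤ 0 by linarith)]
    · by_cases h1 : |v| ≤ 1
      · simp only [if_pos h1, k2 v h1 hv]
      · simp only [if_neg h1, if_neg (show ¬v ≤ 0 by linarith)]
  refine ⟨c, fun v => ?_, a1, a2, a3⟩
  rcases lt_or_ge v (-1 / 4) with h1 | h1
  · refine (hα (u + v)).shift.congr ?_
    filter_upwards [Iio_mem_nhds h1] with s hs using a1 s (le_of_lt hs)
  rcases lt_or_ge (1 / 4) v with h2 | h2
  · refine (hα' (u' + v)).shift.congr ?_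
    filter_upwards [Ioi_mem_nhds h2] with s hs using a2 s (le_of_lt hs)
  refine (slant_tr hb hN h h' h0 h0' (abs_le.mpr ⟨by linarith, by linarith⟩)).congr ?_
  filter_upwards [Ioo_mem_nhds (show -1 < v by linarith) (show v < 1 by linarith)] with s hs
    using a3 s (abs_le.mpr ⟨hs.1.le, hs.2.le⟩)

lemma sl_inj (hπ : Function.Injective π) (h : Pass π α u ε f) {a b v v' : ℝ}
    (e : π (a, ε * v) = π (b, ε * v')) : v = v' := by
  have e2 : ε * v = ε * v' := congrArg Prod.snd (hπ e)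
  linear_combination ε * e2 - (v - v') * h.sq

lemma closing (hb : LeafBox J L N γ π m) (hN : ∀ v, |v| ≤ 1 → 1 + 2 * |deriv β v| ≤ N)
    (h : Pass π α u ε f) (h' : Pass π α u' ε f') (h0 : |f 0| ≤ 1 / 2) (h0' : |f' 0| ≤ 1 / 2)
    (hα : ∀ v, TrAt J L α v) (hu : u + 5 / 2 ≤ u')
    (hinj : ∀ t t', u + 1 / 2 ≤ t → t ≤ u' - 1 / 2 → u + 1 / 2 ≤ t' → t' ≤ u' - 1 / 2 →
      α t = α t' → t = t')
    (hsl : ∀ t v, u + 1 / 2 ≤ t → t ≤ u' - 1 / 2 → |v| < 1 / 2 →
      α t ≠ π (sl f' f ε v, ε * v)) :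
    ∃ c, TrLoop J L c ∧ c 0 = α (u' - 1 / 2) := by
  obtain ⟨c, a0, a1, a2, a3⟩ := splice hb hN h' h h0' h0 hα hα
  have key : ∀ v, -1 / 2 ≤ v → v < -1 / 2 + (u' - u) →
      (|v| < 1 / 2 ∧ c v = π (sl f' f ε v, ε * v)) ∨ ∃ t, u + 1 / 2 ≤ t ∧ t ≤ u' - 1 / 2 ∧
        c v = α t ∧ (t = u + v ∨ t = u' + v ∧ v = -1 / 2) := fun v h1 h2 => by
    rcases h1.eq_or_lt with h3 | h3
    · exact Or.inr ⟨u' + v, by linarith, by linarith, a1 v (by linarith), Or.inr ⟨rfl, h3.symm⟩⟩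
    rcases lt_or_ge v (1 / 2) with h4 | h4
    · exact Or.inl ⟨abs_lt.mpr ⟨by linarith, h4⟩, a3 v (abs_le.mpr ⟨by linarith, by linarith⟩)⟩
    · exact Or.inr ⟨u + v, by linarith, by linarith, a2 v (by linarith), Or.inl rfl⟩
  obtain ⟨c', hc, e⟩ := loop_of (c0 := c) (a := -1 / 2) (P := u' - u) (η := 1 / 4) (by linarith)
    (by norm_num) a0 (fun v hv => by
      have := abs_lt.mp hv
      rw [a1 v (by linarith), a2 _ (by linarith)]
      congr 1
      ring) (fun v v' h1 h2 h3 h4 e => by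
      rcases key v h1 h2 with ⟨k1, k2⟩ | ⟨t, k1, k2, k3, k4⟩ <;>
        rcases key v' h3 h4 with ⟨l1, l2⟩ | ⟨t', l1, l2, l3, l4⟩
      · exact sl_inj hb.disc.2 h (k2.symm.trans (e.trans l2))
      · exact absurd (l3.symm.trans (e.symm.trans k2)) (hsl _ _ l1 l2 k1)
      · exact absurd (k3.symm.trans (e.trans l2)) (hsl _ _ k1 k2 l1)
      · have := hinj _ _ k1 k2 l1 l2 (k3.symm.trans (e.trans l3))
        rcases k4 with k4 | ⟨k4, k5⟩ <;> rcases l4 with l4 | ⟨l4, l5⟩ <;> linarith)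
  refine ⟨c', hc, ?_⟩
  rw [e, a1 _ (by norm_num)]
  congr 1
  ring

end Loop

end

end Pool.Agent.Lib.MP_72f1d0_gt.PC
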