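import Pool.Agent.Lib.MP_72f1d0_gt.PC.ModDefs
import Pool.Agent.Lib.MP_72f1d0_gt.GlobalA
import Pool.Agent.Lib.MP_72f1d0_gt.Eq.Band

/-!
The circle step and the annulus step on the manifold, from the periodic model.
-/

set_option linter.unusedSectionVars false

open scoped ContDiff Manifold Topology
open Set Filter

namespace Pool.Agent.Lib.MP_72f1d0_gt.PC

open Eq.Stmt (Distr Data IsPath derived diff Engel)
open Eq.Man (dp Fv md vv)

noncomputable section

namespace MStage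

lemma kab_closed {a b : ℝ} (ha : 0 ≤ a) (hb : b < 1) : IsClosed (Kab a b) :=
  Band.isClosed_band ha hb

lemma kab_per (a b : ℝ) : PerSet (Kab a b) :=
  Band.fract_per.perSet fun y => a ≤ y ∧ y ≤ b

lemma mem_RS {q : Q} (h0 : 0 ≤ q.1) (h1 : q.1 ≤ 1 / 4) : q ∈ RS := by
  have hp := Real.pi_pos
  show 1 / 2 < Real.cos (2 * Real.pi * (q.1 - 1 / 8))
  rw [← Real.cos_pi_div_three, ← Real.cos_abs (2 * Real.pi * (q.1 - 1 / 8))]
  refine Real.cos_lt_cos_of_nonneg_of_le_pi (abs_nonneg _) (by linarith) ?_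
  rw [abs_lt]
  constructor <;> nlinarith

lemma fract_add (q : Q) : ((Int.fract q.1, q.2) : Q) + lat (⌊q.1⌋, 0) = q := by
  ext <;> simp [lat]

lemma kab_RS (hR : PerSet RS) {a b : ℝ} (hb : b ≤ 1 / 4) : Kab a b ⊆ RS := fun q hq => by
  rw [← fract_add q]
  exact hR _ _ (mem_RS (Int.fract_nonneg _) (hq.2.trans hb))

lemma be_cont : Continuous be := by
  unfold be
  fun_prop

lemma be_mid : be (1 / 8) = 0 := by simp [be]

lemma be_pos : 0 < be (1 / 4) := by
  have e : 2 * Real.pi * (1 / 4 - 1 / 8) = Real.pi / 4 := by ring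
  unfold be
  rw [e, Real.sin_pi_div_four, Real.arctan_pos]
  positivity

lemma be_zero : be 0 = -be (1 / 4) := by
  have e : 2 * Real.pi * (0 - 1 / 8) = -(2 * Real.pi * (1 / 4 - 1 / 8)) := by ring
  unfold be
  rw [e, Real.sin_neg, Real.arctan_neg]

lemma be_deriv : HasDerivAt be (2 * Real.pi) (1 / 8) := by
  have h1 : HasDerivAt (fun s : ℝ => 2 * Real.pi * (s - 1 / 8)) (2 * Real.pi * 1) (1 / 8) :=
    ((hasDerivAt_id (1 / 8 : ℝ)).sub_const (1 / 8)).const_mul (2 * Real.pi)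
  exact h1.sin.arctan.congr_deriv (by simp)

/-- A logarithm on the plane is periodic as soon as it does not wind along one circle. -/
lemma lift_per {b : Q → ℂ} (hb : Continuous b) (h0 : ∀ q, b q ≠ 0)
    (hp : ∀ q, b (q + (0, 1)) = b q) (s0 : ℝ) {L : ℝ → ℂ} (hL : Continuous L)
    (hLp : ∀ t, L (t + 1) = L t) (hre : ∀ t, (b (s0, t) / Complex.exp (L t)).re ≠ 0) :
    ∃ Λ : Q → ℂ, Continuous Λ ∧ (∀ q, Λ (q + (0, 1)) = Λ q) ∧ ∀ q, Complex.exp (Λ q) = b q := by
  let f : C(Q, {z : ℂ // z ≠ 0}) := ⟨fun p => ⟨b p, h0 p⟩, hb.subtype_mk _⟩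
  obtain ⟨F, ⟨-, hF⟩, -⟩ := Complex.isCoveringMap_exp.existsUnique_continuousMap_lifts f 0
    (Complex.log (b 0)) (Subtype.ext (Complex.exp_log (h0 0)))
  have hexp : ∀ p, Complex.exp (F p) = b p := fun p => congrArg Subtype.val (congrFun hF p)
  have hFc := F.continuous
  let r : ℝ → ℂ := fun t => (b (s0, t) / Complex.exp (L t)) ^ 2
  have hr : Continuous r :=
    ((hb.comp (by fun_prop)).div (Complex.continuous_exp.comp hL)
      fun t => Complex.exp_ne_zero _).pow 2
  have hs : ∀ t, r t ∈ Complex.slitPlane := fun t => by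
    have h := hre t
    simp only [r]
    generalize b (s0, t) / Complex.exp (L t) = z at h
    rw [Complex.mem_slitPlane_iff, sq, Complex.mul_re, Complex.mul_im]
    by_cases hz : z.im = 0
    · left
      rw [hz]
      nlinarith [mul_self_pos.2 h]
    · right
      rw [mul_comm z.im, ← two_mul]
      exact mul_ne_zero two_ne_zero (mul_ne_zero h hz)
  have hlog : Continuous fun t => Complex.log (r t) := hr.clog hs
  have h1 : ∀ t, Complex.exp (2 * (F (s0, t) - L t) - Complex.log (r t)) = 1 := fun t => by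
    rw [Complex.exp_sub, Complex.exp_log (Complex.slitPlane_ne_zero (hs t)), two_mul,
      Complex.exp_add, Complex.exp_sub, hexp, ← sq]
    exact div_self (Complex.slitPlane_ne_zero (hs t))
  have h2 := Complex.isCoveringMap_exp.const_of_comp
    (g := fun t : ℝ => 2 * (F (s0, t) - L t) - Complex.log (r t))
    (by fun_prop) (fun a a' => Subtype.ext (by simp only [h1])) (0 + 1) 0
  have h3 : r (0 + 1) = r 0 := by
    have := hp (s0, 0)
    simp only [Prod.mk_add_mk, add_zero] at this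
    simp only [r, hLp, this]
  simp only [h3, hLp] at h2
  have h4 : F ((s0, 0) + (0, 1)) = F (s0, 0) := by
    simp only [Prod.mk_add_mk, add_zero]
    linear_combination (1 / 2 : ℂ) * h2
  refine ⟨F, hFc, fun q => ?_, hexp⟩
  have h5 : ∀ p : Q, Complex.exp (F (p + (0, 1)) - F p) = 1 := fun p => by
    rw [Complex.exp_sub, hexp, hexp, hp, div_self (h0 p)]
  have := Complex.isCoveringMap_exp.const_of_comp (g := fun p : Q => F (p + (0, 1)) - F p)
    (by fun_prop) (fun a a' => Subtype.ext (by simp only [h5])) q (s0, 0)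
  simp only [h4, sub_self] at this
  exact sub_eq_zero.1 this

lemma re_div_ne {z w : ℂ} {k : ℝ} (hz : z ≠ 0) (hw : w ≠ 0) (hk : 0 < k)
    (h : z.re * w.im = k * (z.im * w.re)) : (z / w).re ≠ 0 := by
  intro h0
  have hn : 0 < Complex.normSq w := Complex.normSq_pos.2 hw
  rw [Complex.div_re, ← add_div, div_eq_zero_iff, or_iff_left hn.ne'] at h0
  rw [Complex.normSq_apply] at hn
  have h1 : z.im * (k * (w.re * w.re) + w.im * w.im) = 0 := by
    linear_combination w.im * h0 - w.re * h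
  have h2 : 0 < k * (w.re * w.re) + w.im * w.im := by
    by_cases h3 : w.re = 0
    · rw [h3] at hn ⊢
      linarith
    · nlinarith [mul_pos hk (mul_self_pos.2 h3), mul_self_nonneg w.im]
  have h3 : z.im = 0 := (mul_eq_zero.1 h1).resolve_right h2.ne'
  have h4 : z.re * (w.re * w.re + w.im * w.im) = 0 := by
    rw [h3] at h h0
    linear_combination w.re * h0 + w.im * h
  exact hz (Complex.ext ((mul_eq_zero.1 h4).resolve_right hn.ne') h3)

variable {E : Type*} [NormedAddCommGroup E] [NormedSpace ℝ E] [FiniteDimensional ℝ E]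
  {M : Type*} [TopologicalSpace M] [ChartedSpace E M] [IsManifold 𝓘(ℝ, E) ∞ M]
  {E₂ H₂ : Type*} [NormedAddCommGroup E₂] [NormedSpace ℝ E₂] [FiniteDimensional ℝ E₂]
  [TopologicalSpace H₂] {J : ModelWithCorners ℝ E₂ H₂} {S : Type*} [TopologicalSpace S]
  [ChartedSpace H₂ S] [IsManifold J ∞ S]

lemma push {χ : Q → S} {q : Q} (h : IsLocalDiffeomorphAt 𝓘(ℝ, Q) J ∞ χ q) {P : S → Prop}
    (hP : ∀ᶠ q' in 𝓝 q, P (χ q')) : ∀ᶠ p in 𝓝 (χ q), P p := by
  have h1 := h.localInverse_contMDiffAt.continuousAt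
  rw [ContinuousAt, h.localInverse_left_inv h.localInverse_mem_target] at h1
  filter_upwards [h1.eventually hP, h.localInverse_eventuallyEq_right] with p h2 h3
  rwa [show χ (h.localInverse p) = p from h3] at h2

lemma image_closed [T2Space S] {χ : Q → S} (hc : Continuous χ) (hp : Per χ) {K : Set Q}
    (hK : IsClosed K) (hKp : PerSet K) : IsClosed (χ '' K) := by
  have e : χ '' K = χ '' (box ∩ K) := by
    refine Subset.antisymm ?_ (image_mono inter_subset_right)
    rintro _ ⟨q, hq, rfl⟩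
    obtain ⟨m, hm⟩ := exists_box q
    exact ⟨q + lat m, ⟨hm, hKp q m hq⟩, hp q m⟩
  rw [e]
  exact ((isCompact_box.inter_right hK).image hc).isClosed

lemma dp_chi {ψ : Q → S} (hψ : ContMDiff 𝓘(ℝ, Q) J ∞ ψ) (t : ℝ) (v : Q) :
    dp J (chi ψ) (1 / 8, t) v = dp J ψ (0, t) (2 * Real.pi * v.1, v.2) := by
  have hk : HasFDerivAt (fun q : Q => ((be q.1, q.2) : Q))
      (((2 * Real.pi) • ContinuousLinearMap.fst ℝ ℝ ℝ).prod (ContinuousLinearMap.snd ℝ ℝ ℝ))
      (1 / 8, t) :=
    (HasDerivAt.comp_hasFDerivAt (h₂ := be) (f := Prod.fst) ((1 / 8, t) : Q) be_deriv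
      hasFDerivAt_fst).prodMk hasFDerivAt_snd
  have := (HasMFDerivAt.comp ((1 / 8, t) : Q)
    (hψ.mdifferentiableAt (by simp)).hasMFDerivAt hk.hasMFDerivAt).mfderiv
  refine (congrArg (fun T : Q →L[ℝ] E₂ => T v) this).trans ?_
  show dp J ψ (be (1 / 8), t) (2 * Real.pi * v.1, v.2) = _
  rw [be_mid]

lemma zr_model {D : Distr E M} {x : Data J E S M} {ψ : Q → S} (hψ : Ann J ψ) (hZ : ZW D x ψ)
    {c : Ctx} {Θ : G → M} {U : Set G} {x' : St c ∅} (h : Mod D x (chi ψ) RS c Θ U x') :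
    ZR x' := by
  obtain ⟨L, hL, hLp, hl⟩ := hZ
  have hγ := x'.fam.cont
  have hπ := Real.pi_pos
  refine lift_per (Global.continuous_aa.comp (f := fun q : Q => x'.γ (1, q)) (by fun_prop))
    (fun q => Global.aa_ne (x'.g1 q)) (fun q => ?_) (1 / 8) hL hLp fun t => ?_
  · have := x'.fam.per 1 q (0, 1)
    simp only [lat, Int.cast_zero, Int.cast_one] at this
    simp only [this]
  · have hq : ((1 / 8, t) : Q) ∈ RS := mem_RS (by norm_num) (by norm_num)
    have h1 := h.form _ hq 1 ((Complex.exp (L t)).re / (2 * Real.pi), (Complex.exp (L t)).im)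
    have e : chi ψ (1 / 8, t) = ψ (0, t) := by simp only [chi, be_mid]
    have e2 : 2 * Real.pi * ((Complex.exp (L t)).re / (2 * Real.pi)) = (Complex.exp (L t)).re := by
      field_simp
    rw [dp_chi hψ.1.contMDiff, e2, e] at h1
    have h2 : vv E c Θ (i0 (1 / 8, t)) (ap (x'.γ ((1 : UI), (1 / 8, t)))
        ((Complex.exp (L t)).re / (2 * Real.pi), (Complex.exp (L t)).im)) ∈
        (derived D (Θ (i0 (1 / 8, t))) : Submodule ℝ E) := by
      rw [h1, (h.zero _ hq).2, e]
      exact hl t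
    have h3 := (h.ker _ _).1 h2
    rw [ap, al_add, al_smul, al_smul] at h3
    refine re_div_ne (k := 1 / (2 * Real.pi)) (Global.aa_ne (x'.g1 _)) (Complex.exp_ne_zero _)
      (by positivity) ?_
    simp only [aa]
    simp only [Set.Icc.coe_one] at h3
    linear_combination h3

end MStage

open MStage

variable {E : Type*} [NormedAddCommGroup E] [NormedSpace ℝ E] [FiniteDimensional ℝ E]
  {M : Type*} [TopologicalSpace M] [ChartedSpace E M] [IsManifold 𝓘(ℝ, E) ∞ M]
  {E₂ H₂ : Type*} [NormedAddCommGroup E₂] [NormedSpace ℝ E₂] [FiniteDimensional ℝ E₂]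
  [TopologicalSpace H₂] {J : ModelWithCorners ℝ E₂ H₂} {S : Type*} [TopologicalSpace S]
  [ChartedSpace H₂ S] [IsManifold J ∞ S]

theorem mcircle [T2Space S] {D : Distr E M} (hM : ModelStmt J S D) (hT : TransferStmt J S D)
    (hC : CircleStmt) : MCircle J S D := by
  intro x hx ψ hψ hTr C hCc hg
  obtain ⟨c, Θ, U, x', -, h⟩ := hM x hx ψ hψ hTr
  obtain ⟨hG, hR⟩ := hT x (chi ψ) RS c Θ U x' hx h
  have hc : Continuous (chi ψ) := h.χsmooth.continuous
  have Kc : IsClosed (Kab (1 / 16) (3 / 16)) := kab_closed (by norm_num) (by norm_num)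
  have KR : Kab (1 / 16) (3 / 16) ⊆ RS := kab_RS h.Rper (by norm_num)
  rw [eventually_nhdsSet_iff_forall] at hg
  obtain ⟨y', hy', hg'⟩ := hC c x' U h.Uok (fun q hq => by
      rw [h.base]
      exact (h.zero q (KR hq)).1) (Kab (1 / 16) (3 / 16) ∩ chi ψ ⁻¹' C)
    (Kc.inter (hCc.preimage hc)) ((kab_per _ _).inter (h.χper.perSet fun p => p ∈ C)) (by
      rw [eventually_nhdsSet_iff_forall]
      intro q hq
      filter_upwards [hc.continuousAt.eventually (hg _ hq.2), h.Ropen.mem_nhds (KR hq.1)]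
        with q' h1 h2
      exact (hG q' h2).2 h1)
  obtain ⟨y, hy, h1, h2⟩ := hR _ y' Kc (kab_per _ _) KR hy'
  rw [eventually_nhdsSet_iff_forall] at hg'
  have key : ∀ q ∈ RS, (∀ᶠ q' in 𝓝 q, Good y' q') → ∀ᶠ p in 𝓝 (chi ψ q), MGood y p := by
    intro q hq h3
    refine push (h.χloc q hq) ?_
    filter_upwards [h3, h.Ropen.mem_nhds hq] with q' h4 h5
    exact h1 q' h5 h4
  refine ⟨y, hy, ?_⟩
  rw [eventually_nhdsSet_iff_forall]
  rintro p (hp | ⟨t, rfl⟩)
  · by_cases h3 : p ∈ chi ψ '' Kab (1 / 16) (3 / 16)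
    · obtain ⟨q, hq, rfl⟩ := h3
      exact key q (KR hq) (hg' q (Or.inl ⟨hq, hp⟩))
    · filter_upwards [hg p hp,
        (image_closed hc h.χper Kc (kab_per _ _)).isOpen_compl.mem_nhds h3] with p' h4 h5
      exact h2 p' h5 h4
  · have e : chi ψ (1 / 8, t) = ψ (0, t) := by simp only [chi, be_mid]
    have := key (1 / 8, t) (mem_RS (by norm_num) (by norm_num)) (hg' _ (Or.inr (by
      show Int.fract (1 / 8 : ℝ) = 1 / 8
      exact Int.fract_eq_self.2 ⟨by norm_num, by norm_num⟩)))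
    rwa [e] at this

theorem mann [T2Space S] {D : Distr E M} (hM : ModelStmt J S D) (hT : TransferStmt J S D)
    (hA : AnnStmt) : MAnn J S D := by
  refine ⟨be (1 / 4), be_pos, fun x hx ψ hψ hZ ρ hρ hg => ?_⟩
  have hTr : Triv D x ψ := by
    obtain ⟨L, hL, hLp, hl⟩ := hZ
    refine ⟨fun t => ((Complex.exp (L t)).re, (Complex.exp (L t)).im), by fun_prop,
      fun t => by simp only [hLp], fun t => ⟨fun h0 => ?_, hl t⟩⟩
    exact Complex.exp_ne_zero (L t)
      (Complex.ext (congrArg Prod.fst h0) (congrArg Prod.snd h0))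
  obtain ⟨c, Θ, U, x', hN, h⟩ := hM x hx ψ hψ hTr
  obtain ⟨hG, hR⟩ := hT x (chi ψ) RS c Θ U x' hx h
  have ho : IsOpen {s : ℝ | ρ < |be s|} := isOpen_lt continuous_const be_cont.abs
  obtain ⟨δ₁, d1, e1⟩ := Metric.isOpen_iff.1 ho 0 (by
    show ρ < |be 0|
    rwa [be_zero, abs_neg, abs_of_pos be_pos])
  obtain ⟨δ₂, d2, e2⟩ := Metric.isOpen_iff.1 ho (1 / 4) (by
    show ρ < |be (1 / 4)|
    rwa [abs_of_pos be_pos])
  have m1 := min_le_left δ₁ δ₂
  have m2 := min_le_right δ₁ δ₂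
  have m0 := lt_min d1 d2
  obtain ⟨a, b, y', ha, hb, hy', hg'⟩ := hA c hN x' U h.Uok (fun q q0 q1 => by
      rw [h.base]
      exact (h.zero q (mem_RS q0 q1)).1) (zr_model hψ hZ h) (min δ₁ δ₂ / 2) (by linarith)
    fun q q0 q1 hq => by
      refine (hG q (mem_RS q0 q1)).2 (hg (be q.1, q.2) (le_of_lt ?_))
      rcases hq with hq | hq
      · refine e1 (a := q.1) ?_
        rw [Metric.mem_ball, Real.dist_eq, abs_lt]
        constructor <;> linarith
      · refine e2 (a := q.1) ?_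
        rw [Metric.mem_ball, Real.dist_eq, abs_lt]
        constructor <;> linarith
  obtain ⟨y, hy, h1, h2⟩ := hR _ y' (kab_closed ha.le (by linarith)) (kab_per a b)
    (kab_RS h.Rper hb.le) hy'
  have key : ∀ q : Q, 0 ≤ q.1 → q.1 ≤ 1 / 4 → MGood y (chi ψ q) := fun q q0 q1 =>
    h1 q (mem_RS q0 q1) (hg' q q0 q1)
  refine ⟨y, hy, fun p hp => ?_⟩
  by_cases h3 : p ∈ chi ψ '' Kab a b
  · obtain ⟨q, hq, rfl⟩ := h3
    rw [← fract_add q, h.χper]
    exact key _ (Int.fract_nonneg _) (hq.2.trans hb.le)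
  · rcases hp with hp | ⟨q, rfl⟩
    · exact h2 p h3 hp
    · by_cases h4 : ρ ≤ |q.1|
      · exact h2 _ h3 (hg q h4)
      · have h5 := abs_lt.1 ((not_le.1 h4).trans hρ)
        obtain ⟨s, hs, e⟩ := intermediate_value_Icc (show (0 : ℝ) ≤ 1 / 4 by norm_num)
          be_cont.continuousOn (show q.1 ∈ Icc (be 0) (be (1 / 4)) from
            ⟨by rw [be_zero]; exact h5.1.le, h5.2.le⟩)
        have := key (s, q.2) hs.1 hs.2
        simp only [chi, e] at this
        exact this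

end

end Pool.Agent.Lib.MP_72f1d0_gt.PC
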