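import Pool.Agent.Lib.MP_72f1d0_gt.PC.Defs

/-!
The periodic Euclidean model of a neighbourhood of an annulus in the surface.
-/

open scoped ContDiff Manifold Topology
open Set Filter

namespace Pool.Agent.Lib.MP_72f1d0_gt.PC

open Eq.Stmt (Distr Data IsPath derived diff)
open Eq.Man (dp Fv md vv)

noncomputable section

/-- The first coordinate in the annulus as a periodic function of the model coordinate. -/
def be (s : ℝ) : ℝ := Real.arctan (Real.sin (2 * Real.pi * (s - 1 / 8)))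

/-- The part of the model torus that belongs to the surface. -/
def RS : Set Q := {q | 1 / 2 < Real.cos (2 * Real.pi * (q.1 - 1 / 8))}

variable {E : Type*} [NormedAddCommGroup E] [NormedSpace ℝ E]
  {M : Type*} [TopologicalSpace M] [ChartedSpace E M] [IsManifold 𝓘(ℝ, E) ∞ M]
  {E₂ H₂ : Type*} [NormedAddCommGroup E₂] [NormedSpace ℝ E₂] [TopologicalSpace H₂]
  {J : ModelWithCorners ℝ E₂ H₂} {S : Type*} [TopologicalSpace S] [ChartedSpace H₂ S]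
  [IsManifold J ∞ S]

/-- The periodic parametrisation attached to an annulus. -/
def chi (ψ : Q → S) (q : Q) : S := ψ (be q.1, q.2)

/-- `x'` is a model of `x` along the part `R` of the periodic map `χ`. -/
structure Mod (D : Distr E M) (x : Data J E S M) (χ : Q → S) (R : Set Q) (c : Ctx) (Θ : G → M)
    (U : Set G) (x' : St c ∅) : Prop where
  Ropen : IsOpen R
  Rper : PerSet R
  χsmooth : ContMDiff 𝓘(ℝ, Q) J ∞ χ
  χper : Per χ
  χloc : ∀ q ∈ R, IsLocalDiffeomorphAt 𝓘(ℝ, Q) J ∞ χ q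
  χinj : ∀ q ∈ R, ∀ q' ∈ R, χ q = χ q' → ∃ m, q' = q + lat m
  ci : ∀ q, c.i q = i0 q
  smooth : ContMDiff 𝓘(ℝ, G) 𝓘(ℝ, E) ∞ Θ
  inv : ∀ p, (md E Θ p).IsInvertible
  per : ∀ p m, Θ (p + i0 (lat m)) = Θ p
  Uok : UOK c U
  Uinj : ∀ p ∈ U, ∀ p' ∈ U, Θ p = Θ p' → ∃ m, p' = p + i0 (lat m)
  Uavoid : ∀ p ∈ U, ∀ y, Θ p = x.f y → ∃ q ∈ R, p = i0 q
  zero : ∀ q ∈ R, i0 q ∈ U ∧ Θ (i0 q) = x.f (χ q)
  base : ∀ q, x'.f q = i0 q
  form : ∀ q ∈ R, ∀ (s : UI) (v : Q),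
    vv E c Θ (i0 q) (ap (x'.γ (s, q)) v) = Fv x s (χ q) (dp J χ q v)
  tr : ∀ p A, IsCompl (LinearMap.range ((vv E c Θ p).comp (Manifold.apL A)).toLinearMap)
    (D (Θ p) : Submodule ℝ E) ↔ dl A ≠ 0
  ker : ∀ p a, vv E c Θ p a ∈ (derived D (Θ p) : Submodule ℝ E) ↔ al a = 0

variable (J S)

def ModelStmt (D : Distr E M) : Prop :=
  ∀ x : Data J E S M, x.Formal D → ∀ ψ : Q → S, Ann J ψ → Triv D x ψ →
  ∃ (c : Ctx) (Θ : G → M) (U : Set G) (x' : St c ∅), c.Nrm ∧ Mod D x (chi ψ) RS c Θ U x'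

def TransferStmt (D : Distr E M) : Prop :=
  ∀ (x : Data J E S M) (χ : Q → S) (R : Set Q) (c : Ctx) (Θ : G → M) (U : Set G) (x' : St c ∅),
  x.Formal D → Mod D x χ R c Θ U x' → (∀ q ∈ R, Good x' q ↔ MGood x (χ q)) ∧
  ∀ (K : Set Q) (y' : St c ∅), IsClosed K → PerSet K → K ⊆ R → RR K U x' y' →
    ∃ y, MReach D x y ∧ (∀ q ∈ R, Good y' q → MGood y (χ q)) ∧
      ∀ p, p ∉ χ '' K → MGood x p → MGood y p

end

end Pool.Agent.Lib.MP_72f1d0_gt.PC
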