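import Pool.Agent.Lib.MP_72f1d0_gt.PC.Defs

/-!
The inverse function theorem, discs, polar annuli and composition of isotopies.
-/

set_option linter.unusedSectionVars false

open scoped ContDiff Manifold Topology
open Set Filter

namespace Pool.Agent.Lib.MP_72f1d0_gt.PC

noncomputable section

namespace Surf

/-- An open homeomorphism that is smooth in both directions is a local diffeomorphism. -/
lemma ld_of_oph {X Y : Type*} [NormedAddCommGroup X] [NormedSpace ℝ X]
    [NormedAddCommGroup Y] [NormedSpace ℝ Y] (e : OpenPartialHomeomorph X Y)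
    (h1 : ContDiffOn ℝ ∞ e e.source) (h2 : ContDiffOn ℝ ∞ e.symm e.target) {x : X}
    (hx : x ∈ e.source) : IsLocalDiffeomorphAt 𝓘(ℝ, X) 𝓘(ℝ, Y) ∞ e x :=
  PartialDiffeomorph.isLocalDiffeomorphAt _ _ _
    { toPartialEquiv := e.toPartialEquiv
      open_source := e.open_source
      open_target := e.open_target
      contMDiffOn_toFun := h1.contMDiffOn
      contMDiffOn_invFun := h2.contMDiffOn } hx

end Surf

theorem ift : IFTStmt := by
  intro X Y _ _ _ _ _ k U hU hk hi x hx
  have : CompleteSpace X := FiniteDimensional.complete ℝ X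
  have hd : ∀ y ∈ U, ∃ e : X ≃L[ℝ] Y, HasFDerivAt k (e : X →L[ℝ] Y) y := fun y hy => by
    obtain ⟨e, he⟩ := hi y hy
    refine ⟨e, ?_⟩
    rw [he]
    exact ((hk.contDiffAt (hU.mem_nhds hy)).differentiableAt (by simp)).hasFDerivAt
  obtain ⟨e, he⟩ := hd x hx
  have hkx := hk.contDiffAt (hU.mem_nhds hx)
  let φ := (hkx.toOpenPartialHomeomorph k he (by simp)).restrOpen U hU
  have hs : φ.source ⊆ U := inter_subset_right
  refine Surf.ld_of_oph φ (hk.mono hs) (fun y hy => ?_)
    ⟨hkx.mem_toOpenPartialHomeomorph_source he (by simp), hx⟩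
  have hy' := hs (φ.map_target hy)
  obtain ⟨e', he'⟩ := hd _ hy'
  exact (φ.contDiffAt_symm hy he' (hk.contDiffAt (hU.mem_nhds hy'))).contDiffWithinAt

variable {E₂ H₂ : Type*} [NormedAddCommGroup E₂] [NormedSpace ℝ E₂] [FiniteDimensional ℝ E₂]
  [TopologicalSpace H₂] {J : ModelWithCorners ℝ E₂ H₂} {S : Type*} [TopologicalSpace S]
  [ChartedSpace H₂ S] [IsManifold J ∞ S]

namespace Surf

/-- The inverse of a chart is a local diffeomorphism at interior points of the target. -/
lemma chart_symm (p : S) {y : E₂} (hy : y ∈ interior (extChartAt J p).target) :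
    IsLocalDiffeomorphAt 𝓘(ℝ, E₂) J ∞ (extChartAt J p).symm y :=
  PartialDiffeomorph.isLocalDiffeomorphAt _ _ _
    { toFun := (extChartAt J p).symm
      invFun := extChartAt J p
      source := interior (extChartAt J p).target
      target := (extChartAt J p).source ∩ extChartAt J p ⁻¹' interior (extChartAt J p).target
      map_source' := fun z hz => ⟨(extChartAt J p).map_target (interior_subset hz), by
        rw [mem_preimage, (extChartAt J p).right_inv (interior_subset hz)]
        exact hz⟩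
      map_target' := fun _ hz => hz.2
      left_inv' := fun _ hz => (extChartAt J p).right_inv (interior_subset hz)
      right_inv' := fun _ hz => (extChartAt J p).left_inv hz.1
      open_source := isOpen_interior
      open_target := isOpen_extChartAt_preimage' p isOpen_interior
      contMDiffOn_toFun := (contMDiffOn_extChartAt_symm p).mono interior_subset
      contMDiffOn_invFun := contMDiffOn_extChartAt.mono fun _ hz => by
        rw [← extChartAt_source J]
        exact hz.1 } hy

lemma pol_deriv (r : ℝ) (q : Q) : ∃ A : Q →L[ℝ] ℂ, HasFDerivAt (pol r) A q ∧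
    ∀ v : Q, A v = pol r q * (v.1 + 2 * Real.pi * v.2 * Complex.I) := by
  let L : Q →L[ℝ] ℂ := Complex.ofRealCLM.comp (ContinuousLinearMap.fst ℝ ℝ ℝ) +
    (2 * Real.pi * Complex.I : ℂ) • Complex.ofRealCLM.comp (ContinuousLinearMap.snd ℝ ℝ ℝ)
  have hL : ∀ v : Q, L v = v.1 + 2 * Real.pi * v.2 * Complex.I := fun v => by
    simp only [L, add_apply, smul_apply,
      ContinuousLinearMap.comp_apply, ContinuousLinearMap.coe_fst', ContinuousLinearMap.coe_snd',
      Complex.ofRealCLM_apply, smul_eq_mul]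
    ring
  have h := (L.hasFDerivAt (x := q)).cexp.const_mul (r : ℂ)
  refine ⟨_, h.congr_of_eventuallyEq (Eventually.of_forall fun v => ?_), fun v => ?_⟩
  · simp only [pol, hL]
  · simp only [pol, smul_apply, hL, smul_eq_mul]
    ring

lemma pol_smooth (r : ℝ) : ContDiff ℝ ∞ (pol r) := by
  have h1 : ContDiff ℝ ∞ fun q : Q => ((q.1 : ℝ) : ℂ) := Complex.ofRealCLM.contDiff.comp contDiff_fst
  have h2 : ContDiff ℝ ∞ fun q : Q => ((q.2 : ℝ) : ℂ) := Complex.ofRealCLM.contDiff.comp contDiff_snd
  exact contDiff_const.mul (h1.add ((contDiff_const.mul h2).mul contDiff_const)).cexp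

lemma pol_ld {r : ℝ} (hr : 0 < r) (q : Q) : IsLocalDiffeomorphAt 𝓘(ℝ, Q) 𝓘(ℝ, ℂ) ∞ (pol r) q := by
  refine ift Q ℂ (pol r) univ isOpen_univ (pol_smooth r).contDiffOn (fun x _ => ?_) q (mem_univ q)
  obtain ⟨A, hA, hv⟩ := pol_deriv r x
  rw [hA.fderiv]
  have h0 : pol r x ≠ 0 :=
    mul_ne_zero (Complex.ofReal_ne_zero.2 hr.ne') (Complex.exp_ne_zero _)
  have hi : Function.Injective A := by
    refine (injective_iff_map_eq_zero A).2 fun v h => ?_
    rw [hv] at h
    have h1 := (mul_eq_zero.1 h).resolve_left h0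
    have h2 := congrArg Complex.re h1
    have h3 := congrArg Complex.im h1
    simp at h2 h3
    exact Prod.ext h2 h3
  have hf : Module.finrank ℝ Q = Module.finrank ℝ ℂ := by simp
  exact ⟨(LinearEquiv.ofBijective A.toLinearMap ⟨hi,
    (LinearMap.injective_iff_surjective_of_finrank_eq_finrank hf).1 hi⟩).toContinuousLinearEquiv,
    rfl⟩

lemma pol_eq {r : ℝ} (hr : 0 < r) (q q' : Q) :
    pol r q = pol r q' ↔ ∃ n : ℤ, q' = q + (0, (n : ℝ)) := by
  rw [pol, pol, mul_right_inj' (Complex.ofReal_ne_zero.2 hr.ne'), eq_comm,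
    Complex.exp_eq_exp_iff_exists_int]
  refine exists_congr fun n => ⟨fun h => ?_, fun h => ?_⟩
  · have h2 := congrArg Complex.re h
    have h3 := congrArg Complex.im h
    simp at h2 h3
    refine Prod.ext (by simpa using h2) ?_
    have h4 : 2 * Real.pi * q'.2 = 2 * Real.pi * (q.2 + n) := by linarith
    simpa using mul_left_cancel₀ (by positivity) h4
  · rw [h]
    simp only [Prod.fst_add, Prod.snd_add, add_zero]
    push_cast
    ring

end Surf

theorem discStmt (h2 : Module.finrank ℝ E₂ = 2) : DiscStmt J S := by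
  intro p hp
  have hc := ModelWithCorners.isInteriorPoint_iff.1 hp
  let L : ℂ ≃L[ℝ] E₂ := ContinuousLinearEquiv.ofFinrankEq (by simp [h2])
  obtain ⟨r, hr, hb⟩ := Metric.isOpen_iff.1
    ((isOpen_interior (s := (extChartAt J p).target)).preimage L.continuous)
    (L.symm (extChartAt J p p)) (by rwa [mem_preimage, L.apply_symm_apply])
  let u : OpenPartialHomeomorph ℂ ℂ := OpenPartialHomeomorph.univBall (L.symm (extChartAt J p p)) r
  have hs : ∀ z, z ∈ u.source := fun z => by simp [u]
  have ht : u.target = Metric.ball (L.symm (extChartAt J p p)) r :=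
    OpenPartialHomeomorph.univBall_target _ hr
  have hm : ∀ z, L (u z) ∈ interior (extChartAt J p).target := fun z =>
    hb (ht ▸ u.map_source (hs z))
  have hD : Disc J fun z : ℂ => (extChartAt J p).symm (L (u z)) := by
    refine ⟨fun z => ?_, fun z w e => ?_⟩
    · have h1 : IsLocalDiffeomorphAt 𝓘(ℝ, ℂ) 𝓘(ℝ, ℂ) ∞ u z :=
        Surf.ld_of_oph u OpenPartialHomeomorph.contDiff_univBall.contDiffOn
          (ht ▸ OpenPartialHomeomorph.contDiffOn_univBall_symm) (hs z)
      exact (h1.comp _ _ (L.toDiffeomorph.isLocalDiffeomorph _)).comp _ _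
        (Surf.chart_symm p (hm z))
    · exact u.injOn (hs z) (hs w) (L.injective ((extChartAt J p).symm.injOn
        (interior_subset (hm z)) (interior_subset (hm w)) e))
  have h0 : (extChartAt J p).symm (L (u 0)) = p := by
    simp only [u, OpenPartialHomeomorph.univBall_apply_zero, ContinuousLinearEquiv.apply_symm_apply,
      extChartAt_to_inv]
  refine ⟨⟨_, hD, h0⟩, fun q => (extChartAt J p).symm (L (u (Complex.equivRealProdCLM.symm q))),
    ⟨fun q => ?_, hD.2.comp Complex.equivRealProdCLM.symm.injective⟩, by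
      simp only [map_zero, h0]⟩
  exact (Complex.equivRealProdCLM.symm.toDiffeomorph.isLocalDiffeomorph q).comp _ _ (hD.1 _)

theorem polarStmt : PolarStmt J S := fun _ hπ _ hr =>
  ⟨fun q => (Surf.pol_ld hr q).comp _ _ (hπ.1 _),
    fun q q' => hπ.2.eq_iff.trans (Surf.pol_eq hr q q')⟩

theorem compStmt : CompStmt J S := by
  refine ⟨⟨Prod.snd, contMDiff_snd, fun _ => rfl, fun _ => rfl, fun t =>
    ⟨Function.injective_id, fun p => ?_⟩⟩, ?_, ?_⟩
  · have e : mfderiv J J (fun p : S => ((t, p) : ℝ × S).2) p = ContinuousLinearMap.id ℝ _ :=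
      mfderiv_id
    rw [e]
    exact Function.injective_id
  · rintro φ ⟨Φ, h1, -, h3, h4⟩
    obtain rfl : φ = fun p => Φ (1, p) := (funext h3).symm
    exact ⟨h1.continuous.comp (continuous_const.prodMk continuous_id), (h4 1).1⟩
  · rintro φ φ' ⟨Φ, h1, h2, h3, h4⟩ ⟨Φ', g1, g2, g3, g4⟩
    refine ⟨fun z => Φ (z.1, Φ' z), h1.comp (contMDiff_fst.prodMk g1), fun p => ?_, fun p => ?_,
      fun t => ⟨(h4 t).1.comp (g4 t).1, fun p => ?_⟩⟩
    · simp only [g2, h2]
    · simp only [g3, h3]
    · have a1 : ContMDiff J J ∞ fun p => Φ (t, p) := h1.comp (contMDiff_const.prodMk contMDiff_id)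
      have a2 : ContMDiff J J ∞ fun p => Φ' (t, p) := g1.comp (contMDiff_const.prodMk contMDiff_id)
      have e := mfderiv_comp p (a1.mdifferentiableAt (by simp)) (a2.mdifferentiableAt (by simp))
      have e' : mfderiv J J (fun p => Φ (t, Φ' (t, p))) p = _ := e
      rw [e']
      exact ((h4 t).2 _).comp ((g4 t).2 p)

end

end Pool.Agent.Lib.MP_72f1d0_gt.PC
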