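import Pool.Agent.Lib.MP_72f1d0_gt.PC.PreStage
import Pool.Agent.Lib.MP_72f1d0_gt.PC.FakeDefs
import Pool.Agent.Lib.MP_72f1d0_gt.PC.Surf

/-!
The periodic model of a neighbourhood of an annulus.
-/

set_option linter.unusedSectionVars false

open scoped ContDiff Manifold Topology
open Set Filter

namespace Pool.Agent.Lib.MP_72f1d0_gt.PC

open Eq.Man Eq.Stmt

noncomputable section

variable {E : Type*} [NormedAddCommGroup E] [NormedSpace ℝ E] [FiniteDimensional ℝ E]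
  {M : Type*} [TopologicalSpace M] [ChartedSpace E M] [IsManifold 𝓘(ℝ, E) ∞ M]
  {E₂ H₂ : Type*} [NormedAddCommGroup E₂] [NormedSpace ℝ E₂] [TopologicalSpace H₂]
  {J : ModelWithCorners ℝ E₂ H₂} {S : Type*} [TopologicalSpace S] [ChartedSpace H₂ S]
  [IsManifold J ∞ S]

namespace Pre

/-- A change of the first coordinate. -/
def st (h : ℝ → ℝ) (q : Q) : Q := (h q.1, q.2)

lemma st_add (h : ℝ → ℝ) (q : Q) (a : ℝ) : st h (q + (0, a)) = st h q + (0, a) := by
  ext <;> simp [st]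

lemma st_deriv {h : ℝ → ℝ} {k : ℝ} {q : Q} (hh : HasDerivAt h k q.1) :
    HasFDerivAt (st h) (SymB.linA k) q :=
  (HasDerivAt.comp_hasFDerivAt (h₂ := h) (f := Prod.fst) q hh hasFDerivAt_fst).prodMk
    hasFDerivAt_snd

lemma st_smooth {h : ℝ → ℝ} (hh : ContDiff ℝ ∞ h) : ContDiff ℝ ∞ (st h) :=
  (hh.comp contDiff_fst).prodMk contDiff_snd

lemma st_ld {h : ℝ → ℝ} (hh : ContDiff ℝ ∞ h) {q : Q} (hq : deriv h q.1 ≠ 0) :
    IsLocalDiffeomorphAt 𝓘(ℝ, Q) 𝓘(ℝ, Q) ∞ (st h) q :=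
  ift Q Q (st h) {q | deriv h q.1 ≠ 0}
    (isOpen_ne_fun ((hh.continuous_deriv (by simp)).comp continuous_fst) continuous_const)
    (st_smooth hh).contDiffOn (fun y hy => by
      rw [(st_deriv (hh.differentiable (by simp) y.1).hasDerivAt).fderiv]
      have hy' : deriv h y.1 ≠ 0 := hy
      exact ⟨ContinuousLinearEquiv.equivOfInverse (SymB.linA (deriv h y.1))
        (SymB.linA (deriv h y.1)⁻¹) (fun v => by simp [SymB.linA_apply, hy'])
        fun v => by simp [SymB.linA_apply, hy'], rfl⟩) q hq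

lemma dp_st {ψ : Q → S} (hψ : ContMDiff 𝓘(ℝ, Q) J ∞ ψ) {h : ℝ → ℝ} {k : ℝ} {q : Q}
    (hh : HasDerivAt h k q.1) (v : Q) :
    dp J (fun q => ψ (st h q)) q v = dp J ψ (st h q) (k * v.1, v.2) := by
  have := (HasMFDerivAt.comp q (hψ.mdifferentiableAt (by simp)).hasMFDerivAt
    (st_deriv hh).hasMFDerivAt).mfderiv
  rw [← SymB.linA_apply]
  exact congrArg (fun T : Q →L[ℝ] E₂ => T v) this

lemma dp_add {π : Q → S} (hπ : ContMDiff 𝓘(ℝ, Q) J ∞ π) {b : Q} (h : ∀ q, π (q + b) = π q)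
    (q : Q) : dp J π (q + b) = dp J π q := by
  have := (HasMFDerivAt.comp q (hπ.mdifferentiableAt (by simp)).hasMFDerivAt
    ((hasFDerivAt_id q).add_const b).hasMFDerivAt).mfderiv
  rw [show π ∘ (fun q => id q + b) = π from funext h] at this
  exact ContinuousLinearMap.ext fun v => (congrArg (fun T : Q →L[ℝ] E₂ => T v) this).symm

lemma ann_st {ψ : Q → S} (hψ : Ann J ψ) : Ann J fun q => ψ (st Real.arctan q) := by
  refine ⟨fun q => (st_ld Real.contDiff_arctan ?_).comp _ _ (hψ.1 _),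
    fun q q' => (hψ.2 _ _).trans (exists_congr fun n => ⟨fun h => ?_, fun h => ?_⟩)⟩
  · rw [Real.deriv_arctan]
    positivity
  · rw [← st_add] at h
    have h1 := congrArg Prod.fst h
    have h2 := congrArg Prod.snd h
    exact Prod.ext (Real.arctan_injective h1) h2
  · rw [h, st_add]

lemma pa_of {D : Distr E M} {A : Data J E S M} (hA : A.Formal D) {π : Q → S} (hπ : Ann J π) :
    PA D (fun q => A.f (π q)) fun s q => (Fv A s (π q)).comp (dp J π q) where
  smooth := hA.1.1.comp hπ.1.contMDiff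
  fib q q' := hA.1.2.1.eq_iff.trans (hπ.2 q q')
  cont := hA.2.1.comp (continuous_fst.prodMk
    ((hπ.1.contMDiff.continuous_tangentMap (by simp)).comp
      ((tangentBundleModelSpaceHomeomorph 𝓘(ℝ, Q)).symm.continuous.comp continuous_snd)))
  inv s q := by
    have h : ∀ q, π (q + (0, 1)) = π q := fun q => ((hπ.2 q _).mpr ⟨1, by simp⟩).symm
    rw [dp_add hπ.1.contMDiff h, h]
  inj s q := (hA.2.2.1 s _).comp (dp_inv hπ.1 q).injective
  start q := by
    rw [dv_comp hA.1.1 hπ.1.contMDiff]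
    exact congrArg (fun T : E₂ →L[ℝ] E => T.comp (dp J π q)) (hA.2.2.2.1 (π q))
  tr q := by
    rw [range_comp_inv (dp_inv hπ.1 q)]
    exact hA.2.2.2.2 (π q)

lemma sign_cases {X : Type*} [TopologicalSpace X] [PreconnectedSpace X] {l : X → ℝ}
    (hl : Continuous l) (h0 : ∀ t, l t ≠ 0) : (∀ t, 0 < l t) ∨ ∀ t, l t < 0 := by
  by_contra h
  push Not at h
  obtain ⟨⟨a, ha⟩, b, hb⟩ := h
  obtain ⟨t, ht⟩ := intermediate_value_univ a b hl ⟨ha, hb⟩
  exact h0 t ht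

lemma sign_one {l : ℝ → ℝ} (hl : Continuous l) (h0 : ∀ t, l t ≠ 0) {w : ℝ} (hw : w = 1 ∨ w = -1)
    (h : l 1 = w * l 0) : w = 1 := by
  refine hw.resolve_right fun e => ?_
  rw [e] at h
  rcases sign_cases hl h0 with k | k <;> linarith [k 0, k 1]

theorem pre [T2Space M] [CompactSpace S] (hE : Module.finrank ℝ E = 4) {D : Distr E M}
    (hD : Engel D) {x : Data J E S M} (hx : x.Formal D) {ψ : Q → S} (hψ : Ann J ψ)
    (hT : Triv D x ψ) :
    ∃ (c : V3.Ctx0) (Θ : G → M) (Γ : UI → Q → G × G), ContMDiff 𝓘(ℝ, G) 𝓘(ℝ, E) ∞ Θ ∧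
      (∀ p, (md E Θ p).IsInvertible) ∧
      (∀ p p', Θ p = Θ p' ↔ ∃ n : ℤ, p' = p + i0 (0, (n : ℝ))) ∧
      (∀ q, Θ (i0 q) = x.f (ψ (st Real.arctan q))) ∧ (∀ p y, Θ p = x.f y → p.2 = 0) ∧
      V3.Form c Γ ∧ (∀ q, 0 < dl (Γ 1 q)) ∧ (∀ p, c.e (p + i0 (0, 1)) = c.e p) ∧
      (∀ s q, Γ s (q + (0, 1)) = Γ s q) ∧
      (∀ s q v, v0 E c Θ (i0 q) (ap (Γ s q) v) =
        Fv x s (ψ (st Real.arctan q)) (dp J (fun q => ψ (st Real.arctan q)) q v)) ∧
      (∀ p, (D (Θ p) : Submodule ℝ E) = Submodule.span ℝ {v0 E c Θ p vW, v0 E c Θ p vX}) ∧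
      ∀ p a, v0 E c Θ p a ∈ (derived D (Θ p) : Submodule ℝ E) ↔ al a = 0 := by
  have hO : IsOpen (ψ '' {q | |q.1| < 2}) :=
    hψ.1.isOpenMap _ (isOpen_lt (by fun_prop) continuous_const)
  have hC : IsClosed (x.f '' (ψ '' {q | |q.1| < 2})ᶜ) :=
    (hO.isClosed_compl.isCompact.image hx.1.1.continuous).isClosed
  obtain ⟨N, Jm, Θ, w, κ, W, Y, hw, hκ, hJ, Ji, hΘ, hi, hfib, h0, hU, hav, hW, hY, hF, Wb, Yb⟩ :=
    stage_tube1 hE hD (pa_of hx hψ) (isCompact_range hx.1.1.continuous) (fun q => ⟨_, rfl⟩)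
      hC.isOpen_compl fun q hq => by
        rintro ⟨y, hy, e⟩
        exact hy ⟨q, hq, (hx.1.2.1 e).symm⟩
  replace h0 : ∀ q, Θ (i0 q) = x.f (ψ (st Real.arctan q)) := h0
  have t : ∀ p, Θ (LL 1 κ w p + i0 (0, 1)) = Θ p := fun p => ((hfib p _).mpr ⟨1, by simp⟩).symm
  have ca := (st_smooth Real.contDiff_arctan).continuous
  obtain ⟨W', X', sW, sX, cW, cD, eW, eX⟩ := stage_frame hE hD hw hκ hJ Ji hΘ hi t
    (W := fun q => W (st Real.arctan q)) (Y := fun q => Y (st Real.arctan q)) (hW.comp ca)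
    (hY.comp ca) (by rw [funext h0]; exact fun q => hF _) (fun q => by rw [st_add, Wb])
    fun q => by rw [st_add, Yb]
  have hP : PA D (fun q => Θ (i0 q)) fun s q => (Fv x s (ψ (st Real.arctan q))).comp
      (dp J (fun q => ψ (st Real.arctan q)) q) := by
    rw [funext h0]
    exact pa_of hx (ann_st hψ)
  have main : ∀ X' : G → G, ContDiff ℝ ∞ X' → (∀ p, (D (Θ p) : Submodule ℝ E) =
      Submodule.span ℝ {md E Θ p (W' p), md E Θ p (X' p)}) →
      (∀ p, LL 1 κ w (X' p) = κ • X' (LL 1 κ w p + i0 (0, 1))) →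
      ∃ (c : V3.Ctx0) (Γ : UI → Q → G × G), c.e = fr W' X' ∧ V3.Form c Γ ∧
        (∀ p a, c.e (LL 1 κ w p + i0 (0, 1)) (EE w κ a) = LL 1 κ w (c.e p a)) ∧
        (∀ s q, Γ s (q + (0, 1)) = rho 1 w κ (Γ s q)) ∧
        (∀ s q v, v0 E c Θ (i0 q) (ap (Γ s q) v) =
          Fv x s (ψ (st Real.arctan q)) (dp J (fun q => ψ (st Real.arctan q)) q v)) ∧
        (∀ p, (D (Θ p) : Submodule ℝ E) = Submodule.span ℝ {v0 E c Θ p vW, v0 E c Θ p vX}) ∧
        ∀ p a, v0 E c Θ p a ∈ (derived D (Θ p) : Submodule ℝ E) ↔ al a = 0 := by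
    intro X' sX cD eX
    obtain ⟨c, ce, ck⟩ := ctx0_of hE hD hΘ hi sW sX cW cD
    have cT := fr_equi sW sX _ _ hκ eW eX
    rw [← ce] at cT
    have cD' : ∀ p, (D (Θ p) : Submodule ℝ E) =
        Submodule.span ℝ {v0 E c Θ p vW, v0 E c Θ p vX} := fun p => by
      simp only [v0, ContinuousLinearMap.comp_apply, ce, fr_W, fr_X]
      exact cD p
    obtain ⟨Γ, h1, h2, h3⟩ := stage_form hJ Ji hΘ hi t c cT cD' hP
    exact ⟨c, Γ, ce, h1, cT, h3, h2, cD', ck⟩
  obtain ⟨c, Γ, ce, h1, cT, h3, h2, cD', ck⟩ := main X' sX cD eX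
  have cΓ : Continuous (Γ 1) := h1.cont.comp (continuous_const.prodMk continuous_id)
  have cd : Continuous fun q => dl (Γ 1 q) := by unfold dl; fun_prop
  have h4 : Γ 1 (0, 1) = rho 1 w κ (Γ 1 (0, 0)) := by rw [← h3]; simp
  obtain rfl : κ = 1 := sign_one (l := fun t => dl (Γ 1 (0, t))) (by fun_prop) (fun t => h1.tr _) hκ
    (by rw [h4, SymB.dl_rho, sq, sq_sign hw]; ring)
  obtain rfl : w = 1 := by
    obtain ⟨σ, cσ, pσ, hσ⟩ := hT
    refine sign_one
      (l := fun t => (σ t).1 * al (Γ 1 (0, t)).2 - (σ t).2 * al (Γ 1 (0, t)).1)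
      (by unfold al; fun_prop) (fun t e => ?_) hw ?_
    · have k1 : al (ap (Γ 1 (0, t)) (σ t)) = 0 := by
        rw [← ck (i0 (0, t)), h2, h0, dp_st hψ.1.contMDiff (Real.hasDerivAt_arctan _),
          show st Real.arctan (0, t) = (0, t) by simp [st]]
        rw [show ((1 / (1 + ((0, t) : Q).1 ^ 2) * (σ t).1, (σ t).2) : Q) = σ t by simp]
        exact (hσ t).2
      have k2 := h1.tr (0, t)
      simp only [al, ap, dl, Prod.snd_add, Prod.smul_snd, Complex.add_re, Complex.smul_re,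
        smul_eq_mul] at e k1 k2
      refine (hσ t).1 ?_
      set a := (Γ 1 (0, t)).1.2.re
      set b := (Γ 1 (0, t)).2.2.re
      have k3 : a ^ 2 + b ^ 2 ≠ 0 := fun k => k2 (by
        rw [show a = 0 by nlinarith, show b = 0 by nlinarith]; ring)
      exact Prod.ext (mul_left_cancel₀ k3 (by rw [Prod.fst_zero]; linear_combination a * k1 + b * e))
        (mul_left_cancel₀ k3 (by rw [Prod.snd_zero]; linear_combination b * k1 - a * e))
    · have := pσ 0
      rw [zero_add] at this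
      rw [h4, this]
      simp only [rho, one_smul, SymB.EE_apply, al]
      ring
  have l1 : ∀ p, LL 1 1 1 p = p := fun p => by simp [SymB.LL_apply]
  have l2 : ∀ p, EE 1 1 p = p := fun p => by simp [SymB.EE_apply]
  have l3 : ∀ A, rho 1 1 1 A = A := fun A => by simp [rho, l2]
  simp only [l1, l2, l3, one_zpow, one_smul] at hfib main eX cT h3
  have av : ∀ p y, Θ p = x.f y → p.2 = 0 := fun p y e => by
    by_cases hy : y ∈ ψ '' {q | |q.1| < 2}
    · obtain ⟨q, hq, rfl⟩ := hy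
      exact hav p q (le_of_lt hq) e
    · exact absurd ⟨y, hy, e.symm⟩ (hU p)
  rcases sign_cases cd h1.tr with k | k
  · exact ⟨c, Θ, Γ, hΘ, hi, hfib, h0, av, h1, k, fun p => ContinuousLinearMap.ext (cT p), h3, h2,
      cD', ck⟩
  · obtain ⟨c', Γ', ce', h1', cT', h3', h2', cD'', ck'⟩ := main (fun p => -X' p) sX.neg
      (fun p => by
        rw [cD, map_neg, Submodule.span_insert, Submodule.span_insert, ← Set.neg_singleton,
          Submodule.span_neg])
      fun p => by rw [← eX]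
    refine ⟨c', Θ, Γ', hΘ, hi, hfib, h0, av, h1', fun q => ?_,
      fun p => ContinuousLinearMap.ext (cT' p), h3', h2', cD'', ck'⟩
    have e : Γ 1 q = rho 1 1 (-1) (Γ' 1 q) := ap_ext (v0_inv c hi (i0 q)).injective fun v => by
      rw [h2, ← h2', ap_rho, one_mul]
      simp only [v0, ContinuousLinearMap.comp_apply, ce, ce', fr_neg sW sX]
    have := k q
    rw [e, SymB.dl_rho] at this
    linarith

end Pre

open Pre

theorem modelStmt [T2Space M] [CompactSpace S] (hE : Module.finrank ℝ E = 4) {D : Distr E M}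
    (hD : Engel D) (hF : FakeStmt) : ModelStmt J S D := by
  intro x hx ψ hψ hT
  obtain ⟨c₀, Θ, Γ, hΘ, hi, hfib, h0, hav, hΓ, hpos, cper, Γper, eΓ, cD, ck⟩ := pre hE hD hx hψ hT
  obtain ⟨c, Λ, x', cN, ci, sΛ, iΛ, eΛ, pΛ, jΛ, zΛ, bΛ, xf, xγ⟩ := hF c₀ Γ hΓ hpos cper Γper
  have e1 : ∀ p, md E (fun p => Θ (Λ p)) p = (md E Θ (Λ p)).comp (fderiv ℝ Λ p) := fun p =>
    md_comp (E := E) (g := Θ) (sΛ.differentiable (by simp) p).hasFDerivAt
      (hΘ.mdifferentiableAt (by simp))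
  have e2 : ∀ p, vv E c (fun p => Θ (Λ p)) p = v0 E c₀ Θ (Λ p) := fun p =>
    ContinuousLinearMap.ext fun a => by
      simp only [vv, v0, e1, ContinuousLinearMap.comp_apply, eΛ]
  have hψ' := ann_st hψ
  have sh : ContDiff ℝ ∞ fun s : ℝ => Real.sin (2 * Real.pi * (s - 1 / 8)) := by fun_prop
  have dh : ∀ s : ℝ, HasDerivAt (fun s : ℝ => Real.sin (2 * Real.pi * (s - 1 / 8)))
      (2 * Real.pi * Real.cos (2 * Real.pi * (s - 1 / 8))) s := fun s => by
    have := (((hasDerivAt_id s).sub_const (1 / 8)).const_mul (2 * Real.pi)).sin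
    rw [mul_one, mul_comm (Real.cos _)] at this
    exact this
  have ang : ∀ (q : Q) m, 2 * Real.pi * ((q + lat m).1 - 1 / 8) =
      2 * Real.pi * (q.1 - 1 / 8) + m.1 * (2 * Real.pi) := fun q m => by
    simp only [lat, Prod.fst_add]
    ring
  have Rper : PerSet RS := fun q m hq => by
    rw [RS, mem_ofPred_eq, ang, Real.cos_add_int_mul_two_pi]
    exact hq
  have Ropen : IsOpen RS := isOpen_lt continuous_const (by fun_prop)
  have pi0 : ∀ q, pq (i0 q) = q := fun q => rfl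
  refine ⟨c, fun p => Θ (Λ p), {p | pq p ∈ RS}, x', cN,
    { Ropen := Ropen
      Rper := Rper
      χsmooth := hψ'.1.contMDiff.comp (st_smooth sh).contMDiff
      χper := fun q m => ((hψ.2 _ _).mpr ⟨m.2, ?_⟩).symm
      χloc := fun q hq => (st_ld sh ?_).comp _ _ (hψ'.1 _)
      χinj := fun q hq q' hq' e => ?_
      ci := ci
      smooth := hΘ.comp sΛ.contMDiff
      inv := fun p => by rw [e1]; exact (hi _).comp (iΛ p)
      per := fun p m => ((hfib _ _).mpr ⟨m.2, pΛ p m⟩).symm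
      Uok := ⟨Ropen.preimage (by unfold pq; fun_prop), fun p m hp => ?_⟩
      Uinj := fun p hp p' hp' e => ((hfib _ _).mp e).elim (jΛ p p' hp hp')
      Uavoid := fun p hp y e => ⟨pq p, hp, Prod.ext rfl (zΛ p hp (hav _ y e))⟩
      zero := fun q hq => ⟨hq, by rw [bΛ q hq, h0]; rfl⟩
      base := xf
      form := fun q hq s v => ?_
      tr := fun p A => by rw [e2, cD]; exact compl_iff (v0_inv c₀ hi _) A
      ker := fun p a => by rw [e2]; exact ck _ a }⟩
  · rw [be, be, ang, Real.sin_add_int_mul_two_pi]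
    ext <;> simp [lat]
  · rw [(dh _).deriv]
    have : 1 / 2 < Real.cos (2 * Real.pi * (q.1 - 1 / 8)) := hq
    have := Real.pi_pos
    positivity
  · obtain ⟨n, hn⟩ := (hψ'.2 (fold q) (fold q')).mp e
    obtain ⟨m, hm⟩ := jΛ (i0 q) (i0 q') hq hq' n (by rw [bΛ q hq, bΛ q' hq', hn, i0_add])
    exact ⟨m, Manifold.i0_inj (by rw [hm, i0_add])⟩
  · rw [ci]
    exact Rper _ m hp
  · rw [e2, bΛ q hq, xγ q hq]
    refine Eq.trans ?_ ((eΓ s (fold q) _).trans (congrArg _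
      (dp_st hψ'.1.contMDiff (dh q.1) v).symm))
    simp only [ap, smul_smul, mul_comm]

end

end Pool.Agent.Lib.MP_72f1d0_gt.PC
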