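import Pool.Agent.Lib.MP_72f1d0_gt.Eq.ManPlane
import Pool.Agent.Lib.MP_72f1d0_gt.V3.Model

/-!
The Engel frame on the source of a local diffeomorphism.
-/

set_option linter.unusedSectionVars false

open scoped ContDiff Manifold Topology
open Set Filter VectorField

namespace Pool.Agent.Lib.MP_72f1d0_gt.PC.Pre

open Eq.Man Eq.Stmt

noncomputable section

variable {E : Type*} [NormedAddCommGroup E] [NormedSpace ℝ E] [FiniteDimensional ℝ E]
  {M : Type*} [TopologicalSpace M] [ChartedSpace E M] [IsManifold 𝓘(ℝ, E) ∞ M]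

lemma br_pull {Θ : G → M} (hΘ : ContMDiff 𝓘(ℝ, G) 𝓘(ℝ, E) ∞ Θ) {V V' : VField E M} {p : G}
    (hV : SmAt V (Θ p)) (hV' : SmAt V' (Θ p)) :
    br (mpullback 𝓘(ℝ, G) 𝓘(ℝ, E) Θ V) (mpullback 𝓘(ℝ, G) 𝓘(ℝ, E) Θ V') p =
      mpullback 𝓘(ℝ, G) 𝓘(ℝ, E) Θ (br V V') p := by
  have : CompleteSpace E := FiniteDimensional.complete ℝ E
  have : IsManifold 𝓘(ℝ, E) (minSmoothness ℝ 2) M := by
    rw [minSmoothness_of_isRCLikeNormedField]; infer_instance
  exact (mpullback_mlieBracket (hV.mdifferentiableAt (by simp)) (hV'.mdifferentiableAt (by simp))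
    (hΘ p) (by rw [minSmoothness_of_isRCLikeNormedField]; exact ENat.LEInfty.out)).symm

theorem ctx0_of (hE : Module.finrank ℝ E = 4) {D : Distr E M} (hD : Engel D) {Θ : G → M}
    (hΘ : ContMDiff 𝓘(ℝ, G) 𝓘(ℝ, E) ∞ Θ) (hi : ∀ p, (md E Θ p).IsInvertible) {W X : G → G}
    (hW : ContDiff ℝ ∞ W) (hX : ContDiff ℝ ∞ X)
    (sW : ∀ p, chl D (Θ p) = Submodule.span ℝ {(md E Θ p (W p) : TangentSpace 𝓘(ℝ, E) (Θ p))})
    (sX : ∀ p, D (Θ p) = Submodule.span ℝ {(md E Θ p (W p) : TangentSpace 𝓘(ℝ, E) (Θ p)),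
      (md E Θ p (X p) : TangentSpace 𝓘(ℝ, E) (Θ p))}) :
    ∃ c : V3.Ctx0, c.e = fr W X ∧
      ∀ p a, md E Θ p (c.e p a) ∈ (derived D (Θ p) : Submodule ℝ E) ↔ al a = 0 := by
  have hA : ∀ p, (LinearIndependent ℝ
      ![W p, X p, lieBracket ℝ W X p, lieBracket ℝ X (lieBracket ℝ W X) p] ∧
      lieBracket ℝ W (lieBracket ℝ W X) p ∈ Submodule.span ℝ {W p, X p, lieBracket ℝ W X p}) ∧
      (derived D (Θ p) : Submodule ℝ E) = Submodule.map (md E Θ p).toLinearMap
        (Submodule.span ℝ {W p, X p, lieBracket ℝ W X p}) := by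
    intro p
    obtain ⟨U, W₀, X₀, hU, hp, hA, hs⟩ := exists_ad hE hD (Θ p)
    have e : ∀ (V : VField E M) y, md E Θ y (mpullback 𝓘(ℝ, G) 𝓘(ℝ, E) Θ V y) = V (Θ y) :=
      fun V y => (hi y).self_apply_inverse _
    have hA' := ad_pull hΘ hi hU hA
    have hU' := hU.preimage hΘ.continuous
    have e2 : ∀ y ∈ Θ ⁻¹' U, Submodule.span ℝ {W y, X y} =
        Submodule.span ℝ {mpullback 𝓘(ℝ, G) 𝓘(ℝ, E) Θ W₀ y, mpullback 𝓘(ℝ, G) 𝓘(ℝ, E) Θ X₀ y} :=
      fun y hy => span2_inj (md E Θ y).toLinearMap (hi y).injective (by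
        simp only [ContinuousLinearMap.coe_coe, e]
        exact (sX y).symm.trans (hs _ hy).1)
    have := hA'.change (W' := W) (X' := X) hU'
      (fun y _ => contMDiff_vectorSpace_iff_contDiff.mpr hW y)
      (fun y _ => contMDiff_vectorSpace_iff_contDiff.mpr hX y)
      (fun y hy => span1_inj (md E Θ y).toLinearMap (hi y).injective (by
        simp only [ContinuousLinearMap.coe_coe, e]
        exact (sW y).symm.trans (hs _ hy).2)) e2
    have h1 := this.ind p hp
    have h2 := this.chr p hp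
    have h3 := (derived_eq (E := G) (M := G) (D := fun y => Submodule.span ℝ {W y, X y}) hU' this.hW
      this.hX (fun y hy => ind2_of3 (ind3_of4 (this.ind y hy))) (fun _ _ => rfl) hp).symm.trans
      (derived_eq (E := G) (M := G) hU' hA'.hW hA'.hX
        (fun y hy => ind2_of3 (ind3_of4 (hA'.ind y hy))) e2 hp)
    have h4 := derived_eq hU hA.hW hA.hX (fun y hy => ind2_of3 (ind3_of4 (hA.ind y hy)))
      (fun y hy => (hs y hy).1) hp
    rw [br_pull hΘ (hA.hW _ hp) (hA.hX _ hp)] at h3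
    rw [br_eq (X := G) W X] at h1 h2 h3
    rw [br_eq (X := G) X (lieBracket ℝ W X)] at h1
    rw [br_eq (X := G) W (lieBracket ℝ W X)] at h2
    refine ⟨⟨h1, h2⟩, h4.trans ?_⟩
    have h5 := congrArg (Submodule.map (md E Θ p).toLinearMap) h3
    refine Eq.trans ?_ h5.symm
    have h6 : ∀ u v w : G, Submodule.map (md E Θ p).toLinearMap (Submodule.span ℝ {u, v, w}) =
        Submodule.span ℝ {md E Θ p u, md E Θ p v, md E Θ p w} := fun u v w => by
      rw [Submodule.map_span, image_insert_eq, image_pair]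
      rfl
    refine Eq.trans ?_ (h6 _ _ _).symm
    rw [e, e, e]
    rfl
  have hZ : ContDiff ℝ ∞ (lieBracket ℝ W X) := hW.lieBracket_vectorField hX (by simp)
  have hR : ContDiff ℝ ∞ (lieBracket ℝ X (lieBracket ℝ W X)) :=
    hX.lieBracket_vectorField hZ (by simp)
  have he : ContDiff ℝ ∞ (fr W X) := contDiff_clm_apply_iff.mpr fun a => by
    simp only [fr_apply]
    exact (((hW.const_smul _).add (hX.const_smul _)).add (hZ.const_smul _)).add (hR.const_smul _)
  have hinv : ∀ p, (fr W X p).IsInvertible := fun p =>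
    ⟨(LinearMap.linearEquivOfInjective (fr W X p).toLinearMap
      ((cols_inj.mpr (hA p).1.1).comp Manifold.co.injective) rfl).toContinuousLinearEquiv,
      ContinuousLinearMap.ext fun _ => rfl⟩
  have ho : ContDiff ℝ ∞ fun p => (fr W X p).inverse := contDiff_iff_contDiffAt.mpr fun p =>
    (hinv p).contDiffAt_map_inverse.comp p he.contDiffAt
  have h1 : ∀ p v, (fr W X p).inverse (fr W X p v) = v := fun p v => (hinv p).inverse_apply_self v
  have h3 : ∀ p (a b c : ℝ), a • W p + b • X p + c • lieBracket ℝ W X p =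
      fr W X p (a • vW + b • vX + c • vZ) := fun p a b c => by
    rw [map_add, map_add, map_smul, map_smul, map_smul, fr_W, fr_X, fr_Z]
  refine ⟨{ e := fr W X
            om := fun p => (fr W X p).inverse
            e_smooth := he
            om_smooth := ho
            om_e := h1
            e_om := fun p v => (hinv p).self_apply_inverse v
            brXW := fun p => ?_
            brXZ := fun p => ?_
            nrm := fun p => ?_ }, rfl, fun p a => ?_⟩
  · rw [Manifold.brk_eq he ho h1, lieBracket_swap, map_neg, neg_neg]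
    simp only [fr_W, fr_X]
    rw [← fr_Z, h1]
    rfl
  · rw [Manifold.brk_eq he ho h1]
    simp only [fr_Z, fr_X]
    rw [← fr_R, h1]
    simp [al, vR]
  · rw [Manifold.brk_eq he ho h1]
    simp only [fr_Z, fr_W]
    obtain ⟨a, b, c, e⟩ := Submodule.mem_span_triple.mp (hA p).1.2
    rw [← e, h3, h1]
    simp [al, vW, vX, vZ]
  · rw [(hA p).2]
    refine Iff.trans ⟨fun ⟨u, hu, e⟩ => (hi p).injective e ▸ hu, fun h => ⟨_, h, rfl⟩⟩ ?_
    change fr W X p a ∈ Submodule.span ℝ {W p, X p, lieBracket ℝ W X p} ↔ _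
    rw [Submodule.mem_span_triple]
    constructor
    · rintro ⟨x, y, z, e⟩
      rw [h3] at e
      rw [← (hinv p).injective e]
      simp [al, vW, vX, vZ]
    · intro h
      refine ⟨a.1.im, a.1.re, a.2.im, ?_⟩
      rw [fr_apply, show a.2.re = 0 from h, zero_smul, add_zero]

lemma fr_neg {W X : G → G} (hW : ContDiff ℝ ∞ W) (hX : ContDiff ℝ ∞ X) (p a : G) :
    fr W (fun p => -X p) p a = fr W X p (EE 1 (-1) a) := by
  have hZ : ContDiff ℝ ∞ (lieBracket ℝ W X) := hW.lieBracket_vectorField hX (by simp)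
  have e1 : lieBracket ℝ W (fun p => -X p) = fun p => -lieBracket ℝ W X p := by
    funext p
    simp only [lieBracket, fderiv_fun_neg, neg_apply, map_neg]
    abel
  have e2 : lieBracket ℝ (fun p => -X p) (fun p => -lieBracket ℝ W X p) p =
      lieBracket ℝ X (lieBracket ℝ W X) p := by
    rw [lieBracket, lieBracket, fderiv_fun_neg, fderiv_fun_neg]
    simp only [neg_apply, map_neg, neg_neg]
    rfl
  rw [fr_apply, fr_apply, SymB.EE_apply, e1, e2]
  simp only
  module

end

end Pool.Agent.Lib.MP_72f1d0_gt.PC.Pre
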