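import Pool.Agent.Lib.MP_72f1d0_gt.PC.PreTube
import Pool.Agent.Lib.MP_72f1d0_gt.PC.PreFrame

/-!
The tube, the frame and the formal data along an annulus.
-/

set_option linter.unusedSectionVars false

open scoped ContDiff Manifold Topology RealInnerProductSpace
open Set Filter VectorField

namespace Pool.Agent.Lib.MP_72f1d0_gt.PC.Pre

open Eq.Man Eq.Stmt

noncomputable section

variable {E : Type*} [NormedAddCommGroup E] [NormedSpace ℝ E] [FiniteDimensional ℝ E]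
  {M : Type*} [TopologicalSpace M] [ChartedSpace E M] [IsManifold 𝓘(ℝ, E) ∞ M]

/-- A formal transverse embedding of an annulus, lifted to the plane. -/
structure PA (D : M → Submodule ℝ E) (f : Q → M) (F : UI → Q → (Q →L[ℝ] E)) : Prop where
  smooth : ContMDiff 𝓘(ℝ, Q) 𝓘(ℝ, E) ∞ f
  fib : ∀ q q', f q = f q' ↔ ∃ n : ℤ, q' = q + (0, (n : ℝ))
  cont : Continuous fun z : UI × Q × Q =>
    (⟨f z.2.1, F z.1 z.2.1 z.2.2⟩ : TangentBundle 𝓘(ℝ, E) M)
  inv : ∀ s q, F s (q + (0, 1)) = F s q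
  inj : ∀ s q, Function.Injective (F s q)
  start : ∀ q, F 0 q = md E f q
  tr : ∀ q, IsCompl (LinearMap.range (F 1 q).toLinearMap) (D (f q))

/-- A periodic folding map. -/
def zig (q : Q) : Q := (2 * Real.arcsin (Real.sin (4 * Real.pi * q.1)), 2 * q.2)

/-- A section of the folding map over the middle part. -/
def zag (q : Q) : Q := (q.1 / (8 * Real.pi), q.2 / 2)

lemma zig_cont : Continuous zig := by
  unfold zig
  exact (continuous_const.mul (Real.continuous_arcsin.comp (by fun_prop))).prodMk (by fun_prop)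

lemma zig_Ra (q : Q) : zig (Ra q) = zig q := by
  simp only [zig, Ra]
  rw [show 4 * Real.pi * (q.1 + 1 / 2) = 4 * Real.pi * q.1 + 2 * Real.pi by ring,
    Real.sin_add_two_pi]

lemma zig_Rb (q : Q) : zig (Rb 1 q) = zig q + (0, 1) := by
  ext <;> simp [zig, Rb]
  ring

lemma zig_zag {q : Q} (hq : |q.1| ≤ 2) : zig (zag q) = q := by
  have := Real.pi_gt_three
  have h := abs_le.mp hq
  ext
  · simp only [zig, zag]
    rw [show 4 * Real.pi * (q.1 / (8 * Real.pi)) = q.1 / 2 by field_simp; ring,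
      Real.arcsin_sin (by linarith) (by linarith)]
    ring
  · simp only [zig, zag]
    ring

lemma zag_add (q : Q) : zag (q + (0, 1)) = Rb 1 (zag q) := by
  ext <;> simp [zag, Rb]
  ring

theorem stage_tube1 [T2Space M] (hE : Module.finrank ℝ E = 4) {D : Distr E M} (hD : Engel D)
    {f : Q → M} {F : UI → Q → (Q →L[ℝ] E)} (h : PA D f F) {K : Set M} (hK : IsCompact K)
    (hfK : ∀ q, f q ∈ K) {U : Set M} (hU : IsOpen U) (hfU : ∀ q : Q, |q.1| < 2 → f q ∈ U) :
    ∃ (N : ℕ) (J : M → (E →L[ℝ] EuclideanSpace ℝ (Fin N))) (Θ : G → M) (w x : ℝ)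
      (W Y : Q → EuclideanSpace ℝ (Fin N)), (w = 1 ∨ w = -1) ∧ (x = 1 ∨ x = -1) ∧
      ContMDiff 𝓘(ℝ, E).tangent 𝓘(ℝ, EuclideanSpace ℝ (Fin N)) ∞
        (fun z : TangentBundle 𝓘(ℝ, E) M => J z.1 z.2) ∧
      (∀ p, Function.Injective (J (Θ p))) ∧ ContMDiff 𝓘(ℝ, G) 𝓘(ℝ, E) ∞ Θ ∧
      (∀ p, (md E Θ p).IsInvertible) ∧
      (∀ p p', Θ p = Θ p' ↔ ∃ n : ℤ, p' = LL 1 (x ^ n) (w ^ n) p + i0 (0, (n : ℝ))) ∧
      (∀ q, Θ (i0 q) = f (Real.arctan q.1, q.2)) ∧ (∀ p, Θ p ∈ U) ∧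
      (∀ p (q : Q), |q.1| ≤ 2 → Θ p = f q → p.2 = 0) ∧
      Continuous W ∧ Continuous Y ∧ Fl J D f W Y ∧
      (∀ q, W (q + (0, 1)) = w • W q) ∧ ∀ q, Y (q + (0, 1)) = x • Y q := by
  have fb : ∀ q, f (q + (0, 1)) = f q := fun q => ((h.fib q _).mpr ⟨1, by simp⟩).symm
  obtain ⟨N, J, P, r, hJ, hJP, hr, hPJ, r0, hEx⟩ := exists_emb (E := E) hK
  have Ji : ∀ p, 0 < r p → Function.Injective (J p) := fun p hp u v e =>
    smul_right_injective E hp.ne' (by
      change r p • u = r p • v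
      rw [← hPJ, ← hPJ, e])
  have rf : ∀ q, 0 < r (f q) := fun q => r0 _ (hfK q)
  obtain ⟨W, Y, hW, hY, hF⟩ := flag_along hE hD hJ h.smooth fun q => Ji _ (rf q)
  obtain ⟨w, x, hw, hx, Wb, Yb⟩ := hF.signs hW.continuous hY.continuous
    (γ := fun q => q + (0, 1)) (by fun_prop) fb
  let A : UI → Q → EuclideanSpace ℝ (Fin N) × EuclideanSpace ℝ (Fin N) := fun s q =>
    (J (f q) (F s q (1, 0)), J (f q) (F s q (0, 1)))
  have eA : ∀ s q (v : Q), v.1 • (A s q).1 + v.2 • (A s q).2 = J (f q) (F s q v) := fun s q v =>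
    Manifold.ap_cols ((J (f q)).comp (F s q)) v
  have cA : ∀ v, Continuous fun z : UI × Q => J (f z.2) (F z.1 z.2 v) := fun v =>
    hJ.continuous.comp (h.cont.comp (continuous_fst.prodMk (continuous_snd.prodMk continuous_const)))
  have mem : ∀ q, ∀ u ∈ jm J D (f q), u ∈ LinearMap.range (J (f q)).toLinearMap :=
    fun q u hu => LinearMap.map_le_range hu
  have h1 : ∀ q (c d : ℝ), c • Y q + d • W q ∈ Submodule.span ℝ {(A 1 q).1, (A 1 q).2} →
      c = 0 ∧ d = 0 := fun q c d hm => by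
    obtain ⟨a, b, e⟩ := Submodule.mem_span_pair.mp hm
    have h1 : c • Y q + d • W q ∈ jm J D (f q) := by
      rw [(hF q).2.2.2.2]
      exact Submodule.mem_span_pair.mpr ⟨d, c, add_comm _ _⟩
    obtain ⟨u, hu, eu⟩ := h1
    have h2 : F 1 q (a, b) = u := Ji _ (rf q) (((eA 1 q (a, b)).symm.trans e).trans eu.symm)
    have h3 : u = 0 := Submodule.disjoint_def.mp (h.tr q).disjoint u ⟨(a, b), h2⟩ hu
    have h4 : c • Y q + d • W q = 0 := by rw [← eu, h3, map_zero]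
    have h5 : ⟪W q, Y q⟫ = 0 := by
      have : Y q ∈ jm J D (f q) ⊓ (jm J (chl D) (f q))ᗮ := by
        rw [(hF q).2.2.2.1]; exact Submodule.mem_span_singleton_self _
      exact this.2 _ (by rw [(hF q).2.2.1]; exact Submodule.mem_span_singleton_self _)
    have h6 := congrArg (fun u => ⟪W q, u⟫) h4
    simp only [inner_add_right, real_inner_smul_right, h5, real_inner_self_eq_norm_sq,
      (hF q).1, inner_zero_right] at h6
    have hd : d = 0 := by linarith
    rw [hd, zero_smul, add_zero, smul_eq_zero] at h4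
    refine ⟨h4.resolve_right fun h0 => ?_, hd⟩
    simpa [h0] using (hF q).2.1
  obtain ⟨n₁, n₂, s₁, s₂, -, b1, -, b2, hn⟩ := normal_signs (x := 1) (a₁ := 1) (a₂ := 1)
    (Or.inl rfl) (Or.inl rfl) hx (Or.inl rfl) hw (A := fun s q => A s (zig q))
    (((cA _).prodMk (cA _)).comp (continuous_fst.prodMk (zig_cont.comp continuous_snd)))
    (fun s q => LinearIndependent.pair_iff.mpr fun a b e => by
      have := h.inj s _ (Ji _ (rf _) (((eA s (zig q) (a, b)).symm.trans e).trans (by simp)) :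
        F s (zig q) (a, b) = F s (zig q) 0)
      exact ⟨congrArg Prod.fst this, congrArg Prod.snd this⟩)
    (fun s q => by rw [zig_Ra]) (fun s q => by simp only [zig_Rb, A, fb, h.inv, one_smul])
    (W := fun q => Y (zig q)) (Y := fun q => W (zig q)) (hY.continuous.comp zig_cont)
    (hW.continuous.comp zig_cont) (fun q => by rw [zig_Ra, one_smul]) (fun q => by rw [zig_Rb, Yb])
    (fun q => by rw [zig_Ra, one_smul]) (fun q => by rw [zig_Rb, Wb]) (fun q => h1 (zig q))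
    (S := fun q => LinearMap.range (J (f (zig q))).toLinearMap) (fun q s => ⟨⟨_, rfl⟩, ⟨_, rfl⟩⟩)
    (fun q => mem _ _ (by rw [(hF _).2.2.2.2]; exact mem2_2 _ _))
    (fun q => mem _ _ (by rw [(hF _).2.2.2.2]; exact mem2_1 _ _))
    (P := fun q => (J (f (zig q))).comp (P (f (zig q))))
    (hJP.comp (h.smooth.continuous.comp zig_cont))
    (per_of_gen (fun q => by rw [← Ra_Ra, zig_Ra, zig_Ra])
      fun q => by rw [← Rb_Rb (Or.inl rfl), zig_Rb, fb, zig_Rb, fb])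
    (r := fun q => r (f (zig q))) (fun q => (rf _).ne')
    (by rintro q _ ⟨u, rfl⟩; simp [hPJ])
  obtain ⟨Ex, inv, zero, smooth, fib⟩ := hEx Q f h.smooth
  have sz : ContDiff ℝ ∞ zag := by unfold zag; fun_prop
  obtain ⟨Θ, hΘ, hi, hfib, h0, hΘU, hav⟩ := tube1 hE h.fib inv zero smooth fib
    (n₁ := fun q => n₁ (zag q)) (n₂ := fun q => n₂ (zag q)) (s₁.comp sz) (s₂.comp sz) hx hw
    (fun q => by rw [zag_add, b1]) (fun q => by rw [zag_add, b2])
    (fun q hq v a b e => by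
      have h2 := hn (zag q)
      rw [zig_zag hq] at h2
      have := ind4_iff'.mp h2 v.1 v.2 a b (by
        have := congrArg (J (f q)) e
        rw [map_add, map_add, map_smul, map_smul, map_zero, ← h.start, ← eA] at this
        exact this)
      exact ⟨Prod.ext this.1 this.2.1, this.2.2⟩)
    (hU.inter (isOpen_lt continuous_const hr)) fun q hq => ⟨hfU q hq, rf q⟩
  exact ⟨N, J, Θ, w, x, W, Y, hw, hx, hJ, fun p => Ji _ (hΘU p).2, hΘ, hi, hfib, h0,
    fun p => (hΘU p).1, hav, hW.continuous, hY.continuous, hF, Wb, Yb⟩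

section Frame

variable {V : Type*} [NormedAddCommGroup V] [InnerProductSpace ℝ V] [FiniteDimensional ℝ V]

lemma i0_smooth : ContDiff ℝ ∞ i0 := by
  rw [show i0 = Manifold.iL from (funext Manifold.iL_apply).symm]
  exact Manifold.iL.contDiff

lemma aff_one (q : Q) : aff 1 (0, 1) q = q + (0, 1) := by ext <;> simp [aff]

theorem stage_frame (hE : Module.finrank ℝ E = 4) {D : Distr E M} (hD : Engel D)
    {w x : ℝ} (hw : w = 1 ∨ w = -1) (hx : x = 1 ∨ x = -1) {J : M → (E →L[ℝ] V)}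
    (hJ : ContMDiff 𝓘(ℝ, E).tangent 𝓘(ℝ, V) ∞ fun z : TangentBundle 𝓘(ℝ, E) M => J z.1 z.2)
    {Θ : G → M} (Ji : ∀ p, Function.Injective (J (Θ p))) (hΘ : ContMDiff 𝓘(ℝ, G) 𝓘(ℝ, E) ∞ Θ)
    (hi : ∀ p, (md E Θ p).IsInvertible) (t : ∀ p, Θ (LL 1 x w p + i0 (0, 1)) = Θ p)
    {W Y : Q → V} (hW : Continuous W) (hY : Continuous Y) (hF : Fl J D (fun q => Θ (i0 q)) W Y)
    (Wb : ∀ q, W (q + (0, 1)) = w • W q) (Yb : ∀ q, Y (q + (0, 1)) = x • Y q) :
    ∃ W' X' : G → G, ContDiff ℝ ∞ W' ∧ ContDiff ℝ ∞ X' ∧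
      (∀ p, (chl D (Θ p) : Submodule ℝ E) = Submodule.span ℝ {md E Θ p (W' p)}) ∧
      (∀ p, (D (Θ p) : Submodule ℝ E) = Submodule.span ℝ {md E Θ p (W' p), md E Θ p (X' p)}) ∧
      (∀ p, LL 1 x w (W' p) = w • W' (LL 1 x w p + i0 (0, 1))) ∧
      ∀ p, LL 1 x w (X' p) = x • X' (LL 1 x w p + i0 (0, 1)) := by
  obtain ⟨W₁, Y₁, hW₁, hY₁, hF₁⟩ := flag_along hE hD hJ hΘ Ji
  have ci : Continuous i0 := i0_smooth.continuous
  have inj : ∀ p, Function.Injective ((J (Θ p)).comp (md E Θ p)) := fun p =>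
    (Ji p).comp (hi p).injective
  have sol : ∀ {u : G → V}, ContDiff ℝ ∞ u → (∀ p, u p ∈ jm J D (Θ p)) →
      ∃ u' : G → G, ContDiff ℝ ∞ u' ∧ ∀ p, J (Θ p) (md E Θ p (u' p)) = u p := fun {u} hu hm => by
    have : ∀ p, ∃ a, J (Θ p) (md E Θ p a) = u p := fun p => by
      obtain ⟨v, -, e⟩ := hm p
      exact ⟨(md E Θ p).inverse v, by rw [(hi p).self_apply_inverse]; exact e⟩
    choose u' h using this
    exact ⟨u', ContMDiff.contDiff fun p => solve_smooth ((jmd_smooth hJ hΘ).contMDiff p) (inj p)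
      (hu.contMDiff p) (Eventually.of_forall h), h⟩
  obtain ⟨W', sW, eW⟩ := sol hW₁ fun p => by rw [(hF₁ p).2.2.2.2]; exact mem2_1 _ _
  obtain ⟨X', sX, eX⟩ := sol hY₁ fun p => by rw [(hF₁ p).2.2.2.2]; exact mem2_2 _ _
  obtain ⟨a, ha, ea⟩ := sign_const (v := fun q => W₁ (i0 q)) hW (hW₁.continuous.comp ci)
    (fun q => (hF q).1) (fun q => (hF₁ _).1) fun q => by
      rw [← (hF q).2.2.1, (hF₁ _).2.2.1]; exact Submodule.mem_span_singleton_self _
  obtain ⟨b, hb, eb⟩ := sign_const (v := fun q => Y₁ (i0 q)) hY (hY₁.continuous.comp ci)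
    (fun q => (hF q).2.1) (fun q => (hF₁ _).2.1) fun q => by
      rw [← (hF q).2.2.2.1, (hF₁ _).2.2.2.1]; exact Submodule.mem_span_singleton_self _
  obtain ⟨w', x', -, -, e1, e2⟩ := hF₁.signs hW₁.continuous hY₁.continuous
    (γ := fun p => LL 1 x w p + i0 (0, 1)) (by fun_prop) t
  have f1 : w' = w := by
    have := e1 (i0 0)
    rw [LL_i0, ea, ea, aff_one, Wb, smul_comm] at this
    exact (smul_left_injective ℝ (by rw [← ea, ← norm_ne_zero_iff, (hF₁ _).1]; simp) this).symm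
  have f2 : x' = x := by
    have := e2 (i0 0)
    rw [LL_i0, eb, eb, aff_one, Yb, smul_comm] at this
    exact (smul_left_injective ℝ (by rw [← eb, ← norm_ne_zero_iff, (hF₁ _).2.1]; simp) this).symm
  subst f1 f2
  refine ⟨W', X', sW, sX, fun p => Submodule.map_injective_of_injective
      (f := (J (Θ p)).toLinearMap) (Ji p) ((hF₁ p).2.2.1.trans (by
        rw [Submodule.map_span, image_singleton, ← eW]; rfl)),
    fun p => Submodule.map_injective_of_injective (f := (J (Θ p)).toLinearMap) (Ji p)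
      ((hF₁ p).2.2.2.2.trans (by rw [Submodule.map_span, image_pair, ← eW, ← eX]; rfl)),
    fun p => inj (LL 1 x' w' p + i0 (0, 1)) ?_, fun p => inj (LL 1 x' w' p + i0 (0, 1)) ?_⟩
  · simp only [ContinuousLinearMap.comp_apply, map_smul]
    rw [md_equi hΘ _ _ t, eW, e1, smul_smul, sq_sign hw, one_smul, t, eW]
  · simp only [ContinuousLinearMap.comp_apply, map_smul]
    rw [md_equi hΘ _ _ t, eX, e2, smul_smul, sq_sign hx, one_smul, t, eX]

/-- The frame of the model, pushed to the manifold. -/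
def v0 (E : Type*) [NormedAddCommGroup E] [NormedSpace ℝ E] {M : Type*} [TopologicalSpace M]
    [ChartedSpace E M] (c : V3.Ctx0) (Θ : G → M) (p : G) : G →L[ℝ] E := (md E Θ p).comp (c.e p)

lemma v0_inv (c : V3.Ctx0) {Θ : G → M} (hi : ∀ p, (md E Θ p).IsInvertible) (p : G) :
    (v0 E c Θ p).IsInvertible := (hi p).comp
  ⟨ContinuousLinearEquiv.equivOfInverse (c.e p) (c.om p) (c.om_e p) (c.e_om p), rfl⟩

lemma compl_iff {T : G →L[ℝ] E} (hT : T.IsInvertible) (A : G × G) :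
    IsCompl (LinearMap.range (T.comp (Manifold.apL A)).toLinearMap)
      (Submodule.span ℝ {T vW, T vX}) ↔ dl A ≠ 0 := by
  obtain ⟨φ, hφ⟩ := hT
  have e : ∀ a, φ.toLinearEquiv a = T a := fun a => by rw [← hφ]; rfl
  rw [← Manifold.isCompl_map φ.toLinearEquiv A]
  simp only [e]
  rw [show range (fun v => T (ap A v)) =
    (LinearMap.range (T.comp (Manifold.apL A)).toLinearMap : Set E) from rfl, Submodule.span_eq]

lemma ap_ext {T : G →L[ℝ] E} (hT : Function.Injective T) {A B : G × G}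
    (e : ∀ v, T (ap A v) = T (ap B v)) : A = B := by
  have k1 := hT (e (1, 0))
  have k2 := hT (e (0, 1))
  simp only [ap, one_smul, zero_smul, add_zero, zero_add] at k1 k2
  exact Prod.ext k1 k2

theorem stage_form {D : Distr E M} {w x : ℝ} {J : M → (E →L[ℝ] V)}
    (hJ : ContMDiff 𝓘(ℝ, E).tangent 𝓘(ℝ, V) ∞ fun z : TangentBundle 𝓘(ℝ, E) M => J z.1 z.2)
    {Θ : G → M} (Ji : ∀ p, Function.Injective (J (Θ p))) (hΘ : ContMDiff 𝓘(ℝ, G) 𝓘(ℝ, E) ∞ Θ)
    (hi : ∀ p, (md E Θ p).IsInvertible) (t : ∀ p, Θ (LL 1 x w p + i0 (0, 1)) = Θ p)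
    (c : V3.Ctx0)
    (cT : ∀ p a, c.e (LL 1 x w p + i0 (0, 1)) (EE w x a) = LL 1 x w (c.e p a))
    (cD : ∀ p, (D (Θ p) : Submodule ℝ E) = Submodule.span ℝ {v0 E c Θ p vW, v0 E c Θ p vX})
    {F : UI → Q → (Q →L[ℝ] E)} (h : PA D (fun q => Θ (i0 q)) F) :
    ∃ Γ : UI → Q → G × G, V3.Form c Γ ∧ (∀ s q v, v0 E c Θ (i0 q) (ap (Γ s q) v) = F s q v) ∧
      ∀ s q, Γ s (q + (0, 1)) = rho 1 w x (Γ s q) := by
  have vi := v0_inv c hi
  have vT : ∀ p a, v0 E c Θ (LL 1 x w p + i0 (0, 1)) (EE w x a) = v0 E c Θ p a :=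
    fun p a => by simp only [v0, ContinuousLinearMap.comp_apply, cT, md_equi hΘ _ _ t]
  let Γ : UI → Q → G × G := fun s q =>
    ((v0 E c Θ (i0 q)).inverse (F s q (1, 0)), (v0 E c Θ (i0 q)).inverse (F s q (0, 1)))
  have eΓ : ∀ s q v, v0 E c Θ (i0 q) (ap (Γ s q) v) = F s q v := fun s q v => by
    have : ap (Γ s q) v = (v0 E c Θ (i0 q)).inverse (F s q v) :=
      Manifold.ap_of ((v0 E c Θ (i0 q)).inverse.comp (F s q)) v
    rw [this, (vi _).self_apply_inverse]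
  have cΓ : ∀ v, Continuous fun z : UI × Q => (v0 E c Θ (i0 z.2)).inverse (F z.1 z.2 v) :=
    fun v => continuous_iff_continuousAt.mpr fun z => solve_cont
      (A := fun z : UI × Q => ((J (Θ (i0 z.2))).comp (md E Θ (i0 z.2))).comp (c.e (i0 z.2)))
      (y := fun z : UI × Q => J (Θ (i0 z.2)) (F z.1 z.2 v))
      ((((jmd_smooth hJ hΘ).continuous.clm_comp c.e_smooth.continuous).comp
        (i0_smooth.continuous.comp continuous_snd)).continuousAt) ((Ji _).comp (vi _).injective)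
      (hJ.continuous.comp (h.cont.comp
        (continuous_fst.prodMk (continuous_snd.prodMk continuous_const)))).continuousAt
      (Eventually.of_forall fun z => congrArg (J (Θ (i0 z.2))) ((vi _).self_apply_inverse _))
  refine ⟨Γ, ⟨(cΓ _).prodMk (cΓ _), fun s q => (Manifold.inj_iff _).mpr fun v w e =>
    h.inj s q (by rw [← eΓ, ← eΓ, e]), fun q => ap_ext (vi (i0 q)).injective fun v => ?_,
    fun q => (compl_iff (vi (i0 q)) _).mp ?_⟩, eΓ,
    fun s q => ap_ext (vi (i0 (q + (0, 1)))).injective fun v => ?_⟩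
  · have e1 : ap (V3.dd0 c i0 q) v = c.om (i0 q) (fderiv ℝ i0 q v) :=
      Manifold.ap_of ((c.om (i0 q)).comp (fderiv ℝ i0 q)) v
    have e2 := md_comp (E := E) (g := Θ) (i0_smooth.differentiable (by simp) q).hasFDerivAt
      (hΘ.mdifferentiableAt (by simp))
    rw [eΓ, h.start, show md E (fun q => Θ (i0 q)) q = _ from e2, e1]
    simp only [v0, ContinuousLinearMap.comp_apply, c.e_om]
  · rw [← cD, show (v0 E c Θ (i0 q)).comp (Manifold.apL (Γ 1 q)) = F 1 q from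
      ContinuousLinearMap.ext (eΓ 1 q)]
    exact h.tr q
  · rw [eΓ, ap_rho, ← aff_one, ← LL_i0 1 x w, vT, eΓ, aff_one, h.inv, one_mul]

end Frame

end

end Pool.Agent.Lib.MP_72f1d0_gt.PC.Pre
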