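import Pool.Agent.Lib.MP_72f1d0_gt.Eq.ManStage

/-!
A tubular neighbourhood of an annulus.
-/

set_option linter.unusedSectionVars false

open scoped ContDiff Manifold Topology
open Set Filter

namespace Pool.Agent.Lib.MP_72f1d0_gt.PC.Pre

open Eq.Man

noncomputable section

variable {E : Type*} [NormedAddCommGroup E] [NormedSpace ℝ E] [FiniteDimensional ℝ E]
  {M : Type*} [TopologicalSpace M] [ChartedSpace E M] [IsManifold 𝓘(ℝ, E) ∞ M]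
  {V : Type*} [NormedAddCommGroup V] [NormedSpace ℝ V]

theorem radius_mem {Th : Q × ℂ → M} {C : Set Q} (hC : IsCompact C)
    (hc : ∀ q, ContinuousAt Th (q, 0)) {U : Set M} (hU : IsOpen U) (hfU : ∀ q ∈ C, Th (q, 0) ∈ U) :
    ∀ᶠ z in 𝓝 (0 : ℂ), ∀ q ∈ C, Th (q, z) ∈ U :=
  hC.eventually_forall_of_forall_eventually fun q hq =>
    (continuous_swap.continuousAt (x := ((0, q) : ℂ × Q))).eventually
      ((hc q).preimage_mem_nhds (hU.mem_nhds (hfU q hq)))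

theorem radius_inj [T2Space M] (hE : Module.finrank ℝ E = 4) {Th : Q × ℂ → M} {C : Set Q}
    (hC : IsCompact C)
    (smooth : ∀ q, ∀ᶠ x in 𝓝 ((q, 0) : Q × ℂ), ContMDiffAt 𝓘(ℝ, Q × ℂ) 𝓘(ℝ, E) ∞ Th x)
    (hi : ∀ q ∈ C, Function.Injective (md E Th (q, 0))) {R : Q × ℂ → Q × ℂ → Prop}
    (hf : ∀ q q', Th (q, 0) = Th (q', 0) → ∃ γ : Q × ℂ → Q × ℂ, Continuous γ ∧
      γ (q', 0) = (q, 0) ∧ ∀ y, Th (γ y) = Th y ∧ R (γ y) y) :
    (∀ᶠ z in 𝓝 (0 : ℂ), ∀ q ∈ C,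
      ContMDiffAt 𝓘(ℝ, Q × ℂ) 𝓘(ℝ, E) ∞ Th (q, z) ∧ Function.Injective (md E Th (q, z))) ∧
    ∀ᶠ z in 𝓝 ((0, 0) : ℂ × ℂ), ∀ k ∈ C ×ˢ C,
      Th (k.1, z.1) = Th (k.2, z.2) → R (k.1, z.1) (k.2, z.2) := by
  have hX : Module.finrank ℝ (Q × ℂ) = Module.finrank ℝ E := by simp [hE]
  have hcont : ∀ q, ContinuousAt Th (q, 0) := fun q => (smooth q).self_of_nhds.continuousAt
  constructor
  · exact hC.eventually_forall_of_forall_eventually fun q hq =>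
      (continuous_swap.continuousAt (x := ((0, q) : ℂ × Q))).eventually
        ((smooth q).and (loc hX (smooth q) (hi q hq)).1)
  · refine (hC.prod hC).eventually_forall_of_forall_eventually fun k hk => ?_
    have c1 : ContinuousAt (fun y : (ℂ × ℂ) × Q × Q => ((y.2.1, y.1.1) : Q × ℂ)) ((0, 0), k) := by
      fun_prop
    have c2 : ContinuousAt (fun y : (ℂ × ℂ) × Q × Q => ((y.2.2, y.1.2) : Q × ℂ)) ((0, 0), k) := by
      fun_prop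
    by_cases he : Th (k.1, 0) = Th (k.2, 0)
    · obtain ⟨γ, hγ, h0, hm⟩ := hf _ _ he
      obtain ⟨O, hO, hinj⟩ := (loc hX (smooth k.1) (hi k.1 hk.1)).2
      have c3 := hγ.continuousAt.comp c2
      have hO' : O ∈ 𝓝 (γ (k.2, 0)) := by rwa [h0]
      filter_upwards [c1.preimage_mem_nhds hO, c3.preimage_mem_nhds hO'] with y a1 a2 h
      have e : (y.2.1, y.1.1) = γ (y.2.2, y.1.2) := hinj a1 a2 (h.trans (hm _).1.symm)
      rw [e]
      exact (hm _).2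
    · have d1 : ContinuousAt (fun y : (ℂ × ℂ) × Q × Q => Th (y.2.1, y.1.1)) ((0, 0), k) :=
        ContinuousAt.comp_of_eq (hcont k.1) c1 rfl
      have d2 : ContinuousAt (fun y : (ℂ × ℂ) × Q × Q => Th (y.2.2, y.1.2)) ((0, 0), k) :=
        ContinuousAt.comp_of_eq (hcont k.2) c2 rfl
      filter_upwards [(d1.ne_iff_eventually_ne d2).1 he] with y a1 h
      exact absurd h a1

theorem transfer' {X : Type*} [NormedAddCommGroup X] [NormedSpace ℝ X] {Th : X → M} {x b : X}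
    {A : X →L[ℝ] X} (hA : Function.Injective A) (hp : ∀ y, Th (A y + b) = Th y)
    (hs : ContMDiffAt 𝓘(ℝ, X) 𝓘(ℝ, E) ∞ Th (A x + b))
    (hi : Function.Injective (md E Th (A x + b))) :
    ContMDiffAt 𝓘(ℝ, X) 𝓘(ℝ, E) ∞ Th x ∧ Function.Injective (md E Th x) := by
  have h2 : (Th ∘ fun y => A y + b) = Th := funext hp
  constructor
  · rw [← h2]
    exact ContMDiffAt.comp x hs (A.contDiff.add contDiff_const).contMDiff.contMDiffAt
  · have h1 := md_comp (E := E) (g := Th) (A.hasFDerivAt.add_const b (x := x))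
      (hs.mdifferentiableAt (by simp))
    rw [h2] at h1
    rw [h1]
    exact hi.comp hA

lemma sg2_sg2 {a b : ℝ} (ha : a = 1 ∨ a = -1) (hb : b = 1 ∨ b = -1) (z : ℂ) :
    sg2 a b (sg2 a b z) = z :=
  Complex.ext (by simp [← mul_assoc, sq_sign ha]) (by simp [← mul_assoc, sq_sign hb])

lemma norm_sg2 {a b : ℝ} (ha : a = 1 ∨ a = -1) (hb : b = 1 ∨ b = -1) (z : ℂ) :
    ‖sg2 a b z‖ = ‖z‖ := by
  rw [Complex.norm_def, Complex.norm_def, Complex.normSq_apply, Complex.normSq_apply, sg2_re,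
    sg2_im, mul_mul_mul_comm, sq_sign ha, mul_mul_mul_comm _ z.im, sq_sign hb, one_mul, one_mul]

lemma sign_int {a : ℝ} (ha : a = 1 ∨ a = -1) {g : Q → V} (h : ∀ q, g (q + (0, 1)) = a • g q)
    (n : ℤ) (q : Q) : g (q + (0, (n : ℝ))) = a ^ n • g q := by
  refine int_equi (a := fun n : ℤ => g (q + (0, (n : ℝ)))) (b := fun n : ℤ => a ^ n • g q)
    (smul_right_injective V (sign_ne ha)) (fun m => ?_) (fun m => ?_) (by simp [Prod.mk_zero_zero]) n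
  · rw [← h]; congr 1; ext <;> simp [add_assoc]
  · rw [smul_smul, zpow_add_one₀ (sign_ne ha), mul_comm]

/-- The tube. -/
theorem tube1 [T2Space M] (hE : Module.finrank ℝ E = 4) {g : Q → M}
    (gfib : ∀ q q', g q = g q' ↔ ∃ n : ℤ, q' = q + (0, (n : ℝ)))
    {Ex : Q × V → M} {P : M → (V →L[ℝ] E)}
    (inv : ∀ q q' y, g q = g q' → Ex (q, y) = Ex (q', y)) (zero : ∀ q, Ex (q, 0) = g q)
    (smooth : ∀ q, ∀ᶠ x in 𝓝 ((q, 0) : Q × V), ContMDiffAt 𝓘(ℝ, Q × V) 𝓘(ℝ, E) ∞ Ex x)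
    (fib : ∀ q y, md E Ex (q, 0) (0, y) = P (g q) y)
    {n₁ n₂ : Q → V} (s₁ : ContDiff ℝ ∞ n₁) (s₂ : ContDiff ℝ ∞ n₂) {x w : ℝ}
    (hx : x = 1 ∨ x = -1) (hw : w = 1 ∨ w = -1) (p₁ : ∀ q, n₁ (q + (0, 1)) = x • n₁ q)
    (p₂ : ∀ q, n₂ (q + (0, 1)) = w • n₂ q)
    (hn : ∀ q : Q, |q.1| ≤ 2 → ∀ (v : Q) (a b : ℝ),
      md E g q v + a • P (g q) (n₁ q) + b • P (g q) (n₂ q) = 0 → v = 0 ∧ a = 0 ∧ b = 0)
    {U : Set M} (hU : IsOpen U) (hfU : ∀ q : Q, |q.1| < 2 → g q ∈ U) :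
    ∃ Θ : G → M, ContMDiff 𝓘(ℝ, G) 𝓘(ℝ, E) ∞ Θ ∧ (∀ p, (md E Θ p).IsInvertible) ∧
      (∀ p p', Θ p = Θ p' ↔ ∃ n : ℤ, p' = LL 1 (x ^ n) (w ^ n) p + i0 (0, (n : ℝ))) ∧
      (∀ q, Θ (i0 q) = g (Real.arctan q.1, q.2)) ∧ (∀ p, Θ p ∈ U) ∧
      ∀ p (q : Q), |q.1| ≤ 2 → Θ p = g q → p.2 = 0 := by
  let Φ : Q × ℂ → Q × V := fun y => (y.1, nf n₁ n₂ y.1 y.2)
  have hΦ : ContDiff ℝ ∞ Φ := by
    simp only [Φ, nf_apply]
    exact contDiff_fst.prodMk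
      (((Complex.reCLM.contDiff.comp contDiff_snd).smul (s₁.comp contDiff_fst)).add
        ((Complex.imCLM.contDiff.comp contDiff_snd).smul (s₂.comp contDiff_fst)))
  have Φ0 : ∀ q, Φ (q, 0) = (q, 0) := fun q => by simp [Φ]
  have T0 : ∀ q, (Ex ∘ Φ) (q, 0) = g q := fun q => by rw [Function.comp_apply, Φ0, zero]
  have sx := sign_zpow hx
  have sw := sign_zpow hw
  have Te : ∀ (n : ℤ) q z, (Ex ∘ Φ) (q + (0, (n : ℝ)), sg2 (x ^ n) (w ^ n) z) = (Ex ∘ Φ) (q, z) :=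
    fun n q z => by
      have : nf n₁ n₂ (q + (0, (n : ℝ))) (sg2 (x ^ n) (w ^ n) z) = nf n₁ n₂ q z := by
        rw [nf_apply, nf_apply, sign_int hx p₁, sign_int hw p₂, sg2_re, sg2_im, smul_smul, smul_smul,
          mul_right_comm, sq_sign (sx n), mul_right_comm _ z.im, sq_sign (sw n), one_mul, one_mul]
      simp only [Function.comp_apply, Φ, this]
      exact inv _ _ _ ((gfib _ _).mpr ⟨n, rfl⟩).symm
  have Ts : ∀ q, ∀ᶠ y in 𝓝 ((q, 0) : Q × ℂ), ContMDiffAt 𝓘(ℝ, Q × ℂ) 𝓘(ℝ, E) ∞ (Ex ∘ Φ) y :=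
    fun q => by
      have : Tendsto Φ (𝓝 (q, 0)) (𝓝 (q, 0)) := by
        have := hΦ.continuous.tendsto (q, 0)
        rwa [Φ0] at this
      filter_upwards [this.eventually (smooth q)] with y hy
      exact hy.comp y hΦ.contMDiff.contMDiffAt
  have Tinj : ∀ q : Q, |q.1| ≤ 2 → Function.Injective (md E (Ex ∘ Φ) (q, 0)) := fun q hq => by
    have hd := (Ts q).self_of_nhds.mdifferentiableAt (by simp)
    have h1 := md_comp (E := E) (hasFDerivAt_prodMk_left (𝕜 := ℝ) q (0 : ℂ)) hd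
    rw [show ((Ex ∘ Φ) ∘ fun v : Q => ((v, 0) : Q × ℂ)) = g from funext T0] at h1
    have h2 := md_comp (E := E) (hasFDerivAt_prodMk_right (𝕜 := ℝ) q (0 : ℂ)) hd
    have hk : HasFDerivAt (fun z : ℂ => ((q, nf n₁ n₂ q z) : Q × V))
        ((0 : ℂ →L[ℝ] Q).prod (nf n₁ n₂ q)) 0 :=
      (hasFDerivAt_const q 0).prodMk (nf n₁ n₂ q).hasFDerivAt
    have h3 := md_comp (E := E) (g := Ex) hk (by
      rw [map_zero]; exact (smooth q).self_of_nhds.mdifferentiableAt (by simp))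
    rw [map_zero] at h3
    rw [injective_iff_map_eq_zero]
    rintro ⟨v, z⟩ h
    have h4 : md E (Ex ∘ Φ) (q, 0) (v, z) =
        md E (Ex ∘ Φ) (q, 0) (v, 0) + md E (Ex ∘ Φ) (q, 0) (0, z) := by
      rw [← map_add]; simp
    have h5 : md E (Ex ∘ Φ) (q, 0) (v, 0) = md E g q v := by rw [h1]; rfl
    have h6 : md E (Ex ∘ Φ) (q, 0) (0, z) = P (g q) (nf n₁ n₂ q z) := by
      rw [← fib]
      exact (congrArg (fun A : ℂ →L[ℝ] E => A z) h2).symm.trans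
        (congrArg (fun A : ℂ →L[ℝ] E => A z) h3)
    rw [h4, h5, h6, nf_apply, map_add, map_smul, map_smul, ← add_assoc] at h
    obtain ⟨a1, a2, a3⟩ := hn q hq _ _ _ h
    exact Prod.ext a1 (Complex.ext a2 a3)
  have mem : ∀ {B : ℝ} {q : Q}, |q.1| ≤ B →
      q + (0, ((-⌊q.2⌋ : ℤ) : ℝ)) ∈ Icc (-B) B ×ˢ Icc (0 : ℝ) 1 := fun {B q} hq =>
    ⟨by simpa using abs_le.mp hq, by simpa using Int.floor_le q.2,
      by simpa [← sub_eq_add_neg] using (Int.fract_lt_one q.2).le⟩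
  obtain ⟨e1, e2⟩ := radius_inj hE (C := Icc (-2) 2 ×ˢ Icc 0 1) (isCompact_Icc.prod isCompact_Icc) Ts
    (fun q hq => Tinj q (abs_le.mpr hq.1))
    (R := fun a b => ∃ n : ℤ, a = (b.1 + (0, (n : ℝ)), sg2 (x ^ n) (w ^ n) b.2))
    (fun q q' h => by
      rw [T0, T0] at h
      obtain ⟨n, rfl⟩ := (gfib _ _).mp h.symm
      exact ⟨fun y => (y.1 + (0, (n : ℝ)), sg2 (x ^ n) (w ^ n) y.2), by fun_prop, by simp,
        fun y => ⟨Te n y.1 y.2, n, rfl⟩⟩)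
  have e3 := radius_mem (C := Icc (-(8 / 5)) (8 / 5) ×ˢ Icc 0 1) (isCompact_Icc.prod isCompact_Icc)
    (fun q => (Ts q).self_of_nhds.continuousAt) hU fun q hq => by
      rw [T0]; exact hfU q ((abs_le.mpr hq.1).trans_lt (by norm_num))
  obtain ⟨d₁, hd₁, b₁⟩ := Metric.eventually_nhds_iff_ball.1 (e1.and e3)
  obtain ⟨d₂, hd₂, b₂⟩ := Metric.eventually_nhds_iff_ball.1 e2
  have hd := lt_min hd₁ hd₂
  have ball1 : ∀ (n : ℤ) {z : ℂ} {d : ℝ}, z ∈ Metric.ball (0 : ℂ) d →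
      sg2 (x ^ n) (w ^ n) z ∈ Metric.ball (0 : ℂ) d := fun n z d h => by
    rwa [mem_ball_zero_iff, norm_sg2 (sx n) (sw n), ← mem_ball_zero_iff]
  have hs : ∀ q : Q, |q.1| ≤ 2 → ∀ z ∈ Metric.ball (0 : ℂ) (min d₁ d₂),
      ContMDiffAt 𝓘(ℝ, Q × ℂ) 𝓘(ℝ, E) ∞ (Ex ∘ Φ) (q, z) ∧
        Function.Injective (md E (Ex ∘ Φ) (q, z)) := fun q hq z hz => by
    obtain ⟨a1, a2⟩ := (b₁ _ (ball1 (-⌊q.2⌋) (Metric.ball_subset_ball (min_le_left _ _) hz))).1 _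
      (mem hq)
    have e : ∀ y : Q × ℂ, ((ContinuousLinearMap.id ℝ Q).prodMap
        (sg2 (x ^ (-⌊q.2⌋)) (w ^ (-⌊q.2⌋)))) y + ((0, ((-⌊q.2⌋ : ℤ) : ℝ)), 0) =
        (y.1 + (0, ((-⌊q.2⌋ : ℤ) : ℝ)), sg2 (x ^ (-⌊q.2⌋)) (w ^ (-⌊q.2⌋)) y.2) := fun y => by
      ext <;> simp
    refine transfer' (A := (ContinuousLinearMap.id ℝ Q).prodMap
      (sg2 (x ^ (-⌊q.2⌋)) (w ^ (-⌊q.2⌋)))) (b := ((0, ((-⌊q.2⌋ : ℤ) : ℝ)), 0))
      (fun a b h => Prod.ext (by simpa using congrArg Prod.fst h) ?_)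
      (fun y => by rw [e, Te]) (by rwa [e]) (by rwa [e])
    rw [← sg2_sg2 (sx (-⌊q.2⌋)) (sw (-⌊q.2⌋)) a.2, ← sg2_sg2 (sx (-⌊q.2⌋)) (sw (-⌊q.2⌋)) b.2]
    exact congrArg (fun y : Q × ℂ => sg2 (x ^ (-⌊q.2⌋)) (w ^ (-⌊q.2⌋)) y.2) h
  have hi : ∀ q q' : Q, |q.1| ≤ 2 → |q'.1| ≤ 2 → ∀ z ∈ Metric.ball (0 : ℂ) (min d₁ d₂),
      ∀ z' ∈ Metric.ball (0 : ℂ) (min d₁ d₂), (Ex ∘ Φ) (q, z) = (Ex ∘ Φ) (q', z') →
      ∃ n : ℤ, q' = q + (0, (n : ℝ)) ∧ z' = sg2 (x ^ n) (w ^ n) z := fun q q' hq hq' z hz z' hz' h => by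
    rw [← Te (-⌊q.2⌋), ← Te (-⌊q'.2⌋) q'] at h
    obtain ⟨n, e⟩ := b₂ (_, _) (by
      rw [← ball_prod_same]
      exact ⟨ball1 _ (Metric.ball_subset_ball (min_le_right _ _) hz'),
        ball1 _ (Metric.ball_subset_ball (min_le_right _ _) hz)⟩) (_, _) ⟨mem hq', mem hq⟩ h.symm
    simp only [Prod.mk.injEq] at e
    refine ⟨n - ⌊q.2⌋ + ⌊q'.2⌋, ?_, ?_⟩
    · have e1 := congrArg Prod.fst e.1
      have e2 := congrArg Prod.snd e.1
      simp only [Prod.fst_add, Prod.snd_add, add_zero, Int.cast_neg] at e1 e2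
      ext
      · simpa using e1
      · simp only [Prod.snd_add]
        push_cast
        linarith
    · rw [← sg2_sg2 (sx (-⌊q'.2⌋)) (sw _) z', e.2]
      have k : ∀ {a : ℝ}, a = 1 ∨ a = -1 → a ^ (n - ⌊q.2⌋ + ⌊q'.2⌋) =
          a ^ (-⌊q'.2⌋) * (a ^ n * a ^ (-⌊q.2⌋)) := fun {a} ha => by
        rw [← zpow_add₀ (sign_ne ha), ← zpow_add₀ (sign_ne ha),
          show n - ⌊q.2⌋ + ⌊q'.2⌋ = -⌊q'.2⌋ + (n + -⌊q.2⌋) + ⌊q'.2⌋ + ⌊q'.2⌋ by ring,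
          zpow_add₀ (sign_ne ha), zpow_add₀ (sign_ne ha), mul_assoc, sq_sign (sign_zpow ha _),
          mul_one]
      apply Complex.ext <;> simp only [sg2_re, sg2_im, k hx, k hw, mul_assoc]
  obtain ⟨σ, c, hσ, σi, σb, σd, hc, σe⟩ := exists_shrink hd
  have σs : ∀ (n : ℤ) z, σ (sg2 (x ^ n) (w ^ n) z) = sg2 (x ^ n) (w ^ n) (σ z) := fun n z => by
    rw [σe, σe z, norm_sg2 (sx n) (sw n), map_smul]
  have at1 : ∀ s, |Real.arctan s| ≤ 8 / 5 := fun s => by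
    have := Real.pi_lt_d2
    exact abs_le.mpr ⟨by linarith [Real.neg_pi_div_two_lt_arctan s],
      by linarith [Real.arctan_lt_pi_div_two s]⟩
  have at2 : ∀ s, |Real.arctan s| ≤ 2 := fun s => (at1 s).trans (by norm_num)
  let Ψ : G → Q × ℂ := fun p => ((Real.arctan p.1.re, p.1.im), σ p.2)
  have hΨ : ContDiff ℝ ∞ Ψ :=
    ((Real.contDiff_arctan.comp (Complex.reCLM.contDiff.comp contDiff_fst)).prodMk
      (Complex.imCLM.contDiff.comp contDiff_fst)).prodMk (hσ.comp contDiff_snd)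
  refine ⟨(Ex ∘ Φ) ∘ Ψ, fun p => (hs _ (at2 _) _ (σb p.2)).1.comp p hΨ.contMDiff.contMDiffAt,
    fun p => ?_, fun p p' => ⟨fun h => ?_, ?_⟩, fun q => ?_, fun p => ?_, fun p q hq h => ?_⟩
  · have hk : HasFDerivAt Ψ ((((1 / (1 + p.1.re ^ 2)) •
        Complex.reCLM.comp (ContinuousLinearMap.fst ℝ ℂ ℂ)).prod
        (Complex.imCLM.comp (ContinuousLinearMap.fst ℝ ℂ ℂ))).prod
        ((fderiv ℝ σ p.2).comp (ContinuousLinearMap.snd ℝ ℂ ℂ))) p :=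
      ((HasDerivAt.comp_hasFDerivAt (f := fun p : G => p.1.re) p (Real.hasDerivAt_arctan p.1.re)
        (Complex.reCLM.comp (ContinuousLinearMap.fst ℝ ℂ ℂ)).hasFDerivAt).prodMk
        (Complex.imCLM.comp (ContinuousLinearMap.fst ℝ ℂ ℂ)).hasFDerivAt).prodMk
        ((hσ.differentiable (by simp) p.2).hasFDerivAt.comp p hasFDerivAt_snd)
    have h1 := md_comp (E := E) (g := Ex ∘ Φ) hk
      ((hs _ (at2 _) _ (σb p.2)).1.mdifferentiableAt (by simp))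
    refine inv_of_inj (by simp [hE]) (md E ((Ex ∘ Φ) ∘ Ψ) p) ?_
    rw [h1]
    refine (hs _ (at2 _) _ (σb p.2)).2.comp ((injective_iff_map_eq_zero _).mpr fun v hv => ?_)
    have hp : (1 + p.1.re ^ 2 : ℝ) ≠ 0 := by positivity
    have v1 : (1 / (1 + p.1.re ^ 2)) * v.1.re = 0 := congrArg (fun y : Q × ℂ => y.1.1) hv
    have v2 : v.1.im = 0 := congrArg (fun y : Q × ℂ => y.1.2) hv
    have v3 : fderiv ℝ σ p.2 v.2 = 0 := congrArg (fun y : Q × ℂ => y.2) hv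
    refine Prod.ext (Complex.ext ?_ v2) (σd p.2 (v3.trans (map_zero _).symm))
    simpa [hp] using v1
  · obtain ⟨n, a1, a2⟩ := hi _ _ (at2 _) (at2 _) _ (σb p.2) _ (σb p'.2) h
    rw [← σs] at a2
    refine ⟨n, Prod.ext (Complex.ext ?_ ?_) ?_⟩
    · simpa [SymB.LL_apply, i0] using Real.arctan_injective (by simpa using congrArg Prod.fst a1)
    · simpa [SymB.LL_apply, i0] using congrArg Prod.snd a1
    · rw [σi a2]; simp [LL, i0]
  · rintro ⟨n, rfl⟩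
    rw [Function.comp_apply, Function.comp_apply (f := Ex ∘ Φ), ← Te n]
    congr 1
    refine Prod.ext (Prod.ext ?_ ?_) ?_
    · simp [Ψ, SymB.LL_apply, i0]
    · simp [Ψ, SymB.LL_apply, i0]
    · simp only [Ψ, ← σs]
      congr 1
      simp [LL, i0]
  · have : Ψ (i0 q) = ((Real.arctan q.1, q.2), 0) := by
      ext <;> simp [Ψ, i0, σe]
    rw [Function.comp_apply, this, T0]
  · rw [Function.comp_apply, ← Te (-⌊p.1.im⌋)]
    exact (b₁ _ (ball1 _ (Metric.ball_subset_ball (min_le_left _ _) (σb p.2)))).2 _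
      (mem (q := (Real.arctan p.1.re, p.1.im)) (at1 _))
  · obtain ⟨n, -, a2⟩ := hi _ _ hq (at2 _) _ (Metric.mem_ball_self hd) _ (σb p.2)
      ((T0 q).trans h.symm)
    refine σi (a2.trans ?_)
    simp [σe]

end

end Pool.Agent.Lib.MP_72f1d0_gt.PC.Pre
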