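import Pool.Agent.Lib.MP_72f1d0_gt.PC.Shrink

/-!
Pushing a surface away from a boundary point.
-/

open scoped ContDiff Manifold Topology
open Set Filter

namespace Pool.Agent.Lib.MP_72f1d0_gt.PC

noncomputable section

variable {E₂ H₂ : Type*} [NormedAddCommGroup E₂] [NormedSpace ℝ E₂] [FiniteDimensional ℝ E₂]
  [TopologicalSpace H₂] {J : ModelWithCorners ℝ E₂ H₂} {S : Type*} [TopologicalSpace S]
  [ChartedSpace H₂ S] [IsManifold J ∞ S]

namespace Push

omit [FiniteDimensional ℝ E₂] in
lemma ext_chart (q : S) : Shrink.Chart J (extChartAt J q).source (extChartAt J q).target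
    (extChartAt J q) (extChartAt J q).symm :=
  ⟨isOpen_extChartAt_source q, by rw [extChartAt_source]; exact contMDiffOn_extChartAt,
    contMDiffOn_extChartAt_symm q, (extChartAt J q).mapsTo, (extChartAt J q).symm.mapsTo,
    fun _ hp => (extChartAt J q).left_inv hp, fun _ hy => (extChartAt J q).right_inv hy⟩

omit [FiniteDimensional ℝ E₂] in
lemma interior_of {q p : S} (hp : p ∈ (extChartAt J q).source)
    (h : extChartAt J q p ∈ interior (extChartAt J q).target) : J.IsInteriorPoint p :=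
  (J.isInteriorPoint_iff_of_mem_atlas (n := ∞) (by simp) (chart_mem_atlas H₂ q)
    (by rwa [extChartAt_source] at hp)).2 h

end Push

open _root_.Pool.Agent.Lib.MP_72f1d0_gt.PC.Shrink in
theorem pushStmt [T2Space S] : PushStmt J S := by
  intro q hq V hV
  have hch := Push.ext_chart (J := J) q
  set σ : S → E₂ := ⇑(extChartAt J q) with hσ
  set π : E₂ → S := ⇑(extChartAt J q).symm with hπ
  set O := (extChartAt J q).source with hO
  set T := (extChartAt J q).target with hT
  have hTC : T ⊆ range J := extChartAt_target_subset_range q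
  have hcv : Convex ℝ (range J) := J.convex_range
  have hx0 : σ q ∉ interior (range J) := hq.2
  obtain ⟨c, hc⟩ := J.nonempty_interior
  have n1 : T ∩ π ⁻¹' V ∈ 𝓝[range J] σ q :=
    inter_mem (extChartAt_target_mem_nhdsWithin q)
      (mem_nhdsWithin_of_mem_nhds (extChartAt_preimage_mem_nhds hV))
  obtain ⟨ρ1, r1, hρ1⟩ := Metric.mem_nhdsWithin_iff.1 n1
  obtain ⟨ρ2, r2, hρ2⟩ := Metric.isOpen_iff.1 isOpen_interior c hc
  obtain ⟨ρ, r0, hA, hB⟩ : ∃ ρ : ℝ, 0 < ρ ∧ Metric.ball (σ q) ρ ∩ range J ⊆ T ∩ π ⁻¹' V ∧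
      Metric.ball c ρ ⊆ interior (range J) :=
    ⟨min ρ1 ρ2, lt_min r1 r2,
      (inter_subset_inter_left _ (Metric.ball_subset_ball (min_le_left _ _))).trans hρ1,
      (Metric.ball_subset_ball (min_le_right _ _)).trans hρ2⟩
  set e := c - σ q with he
  let β : ContDiffBump (σ q) := ⟨ρ / 4, ρ / 2, by linarith, by linarith⟩
  have hv : ContDiff ℝ ∞ fun y : E₂ => β y • e := β.contDiff.smul contDiff_const
  have hcs : HasCompactSupport fun y : E₂ => β y • e := β.hasCompactSupport.smul_right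
  have e0 := norm_nonneg e
  obtain ⟨η, h0, h1, hL⟩ := exists_small hv hcs
    (η0 := min 1 (ρ / 8 / (‖e‖ + 1))) (lt_min one_pos (by positivity))
  have hη1 : η ≤ 1 := h1.trans (min_le_left _ _)
  have hη2 : η * ‖e‖ ≤ ρ / 8 := by
    have h2 : η * (‖e‖ + 1) ≤ ρ / 8 := (le_div_iff₀ (by positivity)).1 (h1.trans (min_le_right _ _))
    nlinarith
  set b : E₂ → E₂ := fun y => η • (β y • e) with hb
  have hbs : ContDiff ℝ ∞ b := hv.const_smul η
  have hz : ∀ y, y ∉ Metric.ball (σ q) (ρ / 2) → β y = 0 := fun y hy =>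
    β.zero_of_le_dist (by simpa using hy)
  -- the basic displacement
  have hmove : ∀ y ∈ T, ∀ t : ℝ, 0 ≤ t → t ≤ 1 → t • b y = 0 ∨
      y + t • b y ∈ Metric.ball (σ q) ρ ∩ interior (range J) := by
    intro y hy t t0 t1
    have hs : t • b y = (t * η * β y) • e := by simp only [hb, smul_smul, mul_assoc]
    have b0 : 0 ≤ β y := β.nonneg
    have b1 : β y ≤ 1 := β.le_one
    have s0 : 0 ≤ t * η * β y := by positivity
    have s1 : t * η * β y ≤ η := by
      have h3 : t * β y ≤ 1 := mul_le_one₀ t1 b0 b1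
      nlinarith
    rcases s0.eq_or_lt with h2 | h2
    · left; rw [hs, ← h2, zero_smul]
    · right
      have hyb : y ∈ Metric.ball (σ q) (ρ / 2) := by
        by_contra h3
        rw [hz y h3] at h2
        simp at h2
      rw [Metric.mem_ball, dist_eq_norm] at hyb
      rw [hs]
      refine ⟨?_, hcv.add_smul_mem_interior (hTC hy) (hB ?_) ⟨h2, s1.trans hη1⟩⟩
      · rw [Metric.mem_ball, dist_eq_norm, add_sub_right_comm]
        have h3 := norm_add_le (y - σ q) ((t * η * β y) • e)
        rw [norm_smul, Real.norm_of_nonneg s0] at h3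
        have h4 := mul_le_mul_of_nonneg_right s1 e0
        linarith
      · rw [Metric.mem_ball, dist_eq_norm, show y + e - c = y - σ q by rw [he]; abel]
        linarith
  have hTT : ∀ y ∈ T, ∀ t : ℝ, 0 ≤ t → t ≤ 1 → y + t • b y ∈ T := fun y hy t t0 t1 => by
    rcases hmove y hy t t0 t1 with h2 | h2
    · rwa [h2, add_zero]
    · exact (hA ⟨h2.1, interior_subset h2.2⟩).1
  have hsub : Metric.closedBall (σ q) (ρ / 2) ∩ range J ⊆ T ∩ π ⁻¹' V :=
    (inter_subset_inter_left _ (Metric.closedBall_subset_ball (by linarith))).trans hA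
  have hbK : ∀ y ∈ T, y ∉ Metric.closedBall (σ q) (ρ / 2) ∩ range J → b y = 0 := fun y hy hK => by
    have : β y = 0 := hz y fun h2 => hK ⟨Metric.ball_subset_closedBall h2, hTC hy⟩
    simp [hb, this]
  have hcase : ∀ p, mv O σ π b 1 p = p ∨ (p ∈ O ∧
      σ p + (1 : ℝ) • b (σ p) ∈ Metric.ball (σ q) ρ ∩ interior (range J)) := fun p => by
    by_cases hp : p ∈ O
    · rcases hmove _ (hch.mσ hp) 1 zero_le_one le_rfl with h2 | h2
      · left; rw [mv_of_mem hp, h2, add_zero, hch.left p hp]
      · exact Or.inr ⟨hp, h2⟩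
    · exact Or.inl (mv_of_notMem hp)
  refine ⟨mv O σ π b 1, hch.selfIso hbs hL
    ((isCompact_closedBall (σ q) (ρ / 2)).inter_right J.isClosed_range)
    (hsub.trans inter_subset_left) hbK hTT, fun p hp => ?_, fun p hp => ?_, fun p => ?_, ?_⟩
  · refine hch.mv_eq fun hpO => hbK _ (hch.mσ hpO) fun hK => hp ?_
    have h2 : π (σ p) ∈ V := (hsub hK).2
    rwa [hch.left p hpO] at h2
  · rcases hcase p with h2 | ⟨h2, h3⟩
    · rwa [h2]
    · rw [mv_of_mem h2]
      exact (hA ⟨h3.1, interior_subset h3.2⟩).2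
  · rcases hcase p with h2 | ⟨h2, h3⟩
    · exact Or.inl h2
    · right
      have h4 := hTT _ (hch.mσ h2) 1 zero_le_one le_rfl
      rw [mv_of_mem h2]
      refine Push.interior_of (q := q) (hch.mπ h4) ?_
      show σ (π _) ∈ interior T
      rw [hch.right _ h4]
      refine mem_interior.2 ⟨_, ?_, Metric.isOpen_ball.inter isOpen_interior, h3⟩
      exact fun y hy => (hA ⟨hy.1, interior_subset hy.2⟩).1
  · have hout : σ q - η • e ∉ range J := fun hm => by
      have h2 := hcv.add_smul_sub_mem_interior hm hc (t := η / (1 + η))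
        ⟨by positivity, (div_le_one (by linarith)).2 (by linarith)⟩
      refine hx0 ?_
      convert h2 using 1
      have h3 : c - (σ q - η • e) = (1 + η) • e := by rw [add_smul, one_smul, he]; abel
      rw [h3, smul_smul, div_mul_cancel₀ _ (by linarith)]
      abel
    obtain ⟨δ1, d1, hδ1⟩ := Metric.isOpen_iff.1 J.isClosed_range.isOpen_compl _ hout
    refine ⟨O ∩ σ ⁻¹' Metric.ball (σ q) (min δ1 (ρ / 8)), inter_mem (extChartAt_source_mem_nhds q)
      ((continuousAt_extChartAt q).preimage_mem_nhds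
        (Metric.ball_mem_nhds _ (lt_min d1 (by linarith)))), fun p hp => ?_⟩
    have hpO : p ∈ O := by
      by_contra h2
      rw [mv_of_notMem h2] at hp
      exact h2 hp.1
    have h4 := hTT _ (hch.mσ hpO) 1 zero_le_one le_rfl
    have h5 : σ (mv O σ π b 1 p) ∈ Metric.ball (σ q) (min δ1 (ρ / 8)) := hp.2
    rw [mv_of_mem hpO, hch.right _ h4] at h5
    set z := σ p + (1 : ℝ) • b (σ p) with hzd
    rw [Metric.mem_ball, dist_eq_norm, lt_min_iff] at h5
    have h6 : β (z - η • e) = 1 := β.one_of_mem_closedBall (by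
      show _ ∈ Metric.closedBall (σ q) (ρ / 4)
      rw [Metric.mem_closedBall, dist_eq_norm, sub_right_comm]
      have h7 := norm_sub_le (z - σ q) (η • e)
      rw [norm_smul, Real.norm_of_nonneg h0.le] at h7
      linarith [h5.2])
    have h7 : (z - η • e) + (1 : ℝ) • b (z - η • e) = z := by simp [hb, h6]
    have h8 : σ p = z - η • e := inj_of_small hbs hL zero_le_one le_rfl (hzd.symm.trans h7.symm)
    refine hδ1 (show z - η • e ∈ _ from ?_) (h8 ▸ hTC (hch.mσ hpO))
    rw [Metric.mem_ball, dist_eq_norm, sub_sub_sub_cancel_right]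
    exact h5.1

end

end Pool.Agent.Lib.MP_72f1d0_gt.PC
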