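import Pool.Agent.Lib.MP_72f1d0_gt.PC.Defs

/-!
Concatenation of paths of formal embeddings and reparametrisation of the surface.
-/

set_option linter.unusedSectionVars false

open scoped ContDiff Manifold Topology
open Set Filter

namespace Pool.Agent.Lib.MP_72f1d0_gt.PC

open Eq.Stmt (Distr Data IsPath derived diff)

noncomputable section

variable {E : Type*} [NormedAddCommGroup E] [NormedSpace ℝ E] [FiniteDimensional ℝ E]
  {M : Type*} [TopologicalSpace M] [ChartedSpace E M] [IsManifold 𝓘(ℝ, E) ∞ M]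
  {E₂ H₂ : Type*} [NormedAddCommGroup E₂] [NormedSpace ℝ E₂] [FiniteDimensional ℝ E₂]
  [TopologicalSpace H₂] {J : ModelWithCorners ℝ E₂ H₂} {S : Type*} [TopologicalSpace S]
  [ChartedSpace H₂ S] [IsManifold J ∞ S]

namespace Reach

/-- The smooth step with values in the unit interval. -/
def st (t : ℝ) : UI :=
  ⟨Real.smoothTransition t, Real.smoothTransition.nonneg t, Real.smoothTransition.le_one t⟩

lemma st_cont : Continuous st := Real.smoothTransition.continuous.subtype_mk _

lemma st_zero {t : ℝ} (h : t ≤ 0) : st t = 0 := Subtype.ext (Real.smoothTransition.zero_of_nonpos h)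

lemma st_one {t : ℝ} (h : 1 ≤ t) : st t = 1 := Subtype.ext (Real.smoothTransition.one_of_one_le h)

lemma trans {D : Distr E M} {x y z : Data J E S M} (h : MReach D x y) (h' : MReach D y z) :
    MReach D x z := by
  obtain ⟨γ, ⟨⟨k, hk, ek⟩, cγ⟩, fγ, γ0, γ1⟩ := h
  obtain ⟨δ, ⟨⟨m, hm, em⟩, cδ⟩, fδ, δ0, δ1⟩ := h'
  have hj : ∀ p, k (1, p) = m (0, p) := fun p =>
    (ek 1 p).symm.trans ((congrArg (fun A : Data J E S M => A.f p) (γ1.trans δ0.symm)).trans
      (em 0 p))
  have ht : ∀ a : ℝ, ContMDiff (𝓘(ℝ, ℝ).prod J) (𝓘(ℝ, ℝ).prod J) ∞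
      fun w : ℝ × S => (Real.smoothTransition (3 * w.1 - a), w.2) := fun a =>
    (((Real.smoothTransition.contDiff (n := ⊤)).comp
      ((contDiff_const.mul contDiff_id).sub contDiff_const)).contMDiff.comp
        contMDiff_fst).prodMk contMDiff_snd
  refine ⟨fun l => if (l : ℝ) ≤ 1 / 2 then γ (st (3 * l - 0)) else δ (st (3 * l - 2)),
    ⟨⟨fun w => if w.1 ≤ 1 / 2 then k (Real.smoothTransition (3 * w.1 - 0), w.2)
      else m (Real.smoothTransition (3 * w.1 - 2), w.2), fun w => ?_, fun l p => ?_⟩, ?_⟩,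
    fun l => ?_, ?_, ?_⟩
  · by_cases hw : w.1 < 2 / 3
    · refine ((hk.comp (ht 0)) w).congr_of_eventuallyEq ?_
      filter_upwards [(isOpen_lt continuous_fst continuous_const).mem_nhds hw] with v hv
      split_ifs with h1
      · rfl
      · have h2 : v.1 < 2 / 3 := hv
        rw [Function.comp_apply, Real.smoothTransition.zero_of_nonpos (by linarith),
          Real.smoothTransition.one_of_one_le (by linarith), hj]
    · refine ((hm.comp (ht 2)) w).congr_of_eventuallyEq ?_
      have hw' : 1 / 2 < w.1 := by linarith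
      filter_upwards [(isOpen_lt continuous_const continuous_fst).mem_nhds hw'] with v hv
      exact if_neg (not_le.2 hv)
  · dsimp only
    split_ifs
    · exact ek _ p
    · exact em _ p
  · have hc : ∀ a : ℝ, Continuous fun w : UI × UI × TangentBundle J S =>
        (st (3 * w.1 - a), w.2) := fun a =>
      (st_cont.comp (by fun_prop)).prodMk continuous_snd
    have := Continuous.if_le (f := fun w : UI × UI × TangentBundle J S => (w.1 : ℝ))
      (g := fun _ => (1 / 2 : ℝ)) (cγ.comp (hc 0)) (cδ.comp (hc 2)) (by fun_prop) continuous_const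
      (fun w hw => by
        simp only [Function.comp_apply]
        rw [hw, st_one (by norm_num), st_zero (by norm_num), γ1, δ0])
    refine this.congr fun w => ?_
    dsimp only
    split_ifs <;> rfl
  · dsimp only
    split_ifs
    · exact fγ _
    · exact fδ _
  · dsimp only
    rw [if_pos (by norm_num), st_zero (by norm_num), γ0]
  · dsimp only
    rw [if_neg (by norm_num), st_one (by norm_num), δ1]

/-- The pull back of the data along a map of the surface. -/
def pull (x : Data J E S M) (φ : S → S) : Data J E S M :=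
  ⟨fun p => x.f (φ p), fun s p => (x.F s (φ p)).comp (mfderiv J J φ p)⟩

lemma pull_id (x : Data J E S M) : pull x (fun p => p) = x := by
  refine Eq.Man.data_ext rfl fun s p => ?_
  have e : mfderiv J J (fun p : S => p) p = ContinuousLinearMap.id ℝ _ := mfderiv_id
  change (x.F s p).comp (mfderiv J J (fun p : S => p) p) = x.F s p
  rw [e, ContinuousLinearMap.comp_id]

lemma total_pull (x : Data J E S M) (φ : S → S) (s : UI) (v : TangentBundle J S) :
    (pull x φ).total s v = x.total s (tangentMap J J φ v) := rfl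

lemma diff_pull {x : Data J E S M} (hx : ContMDiff J 𝓘(ℝ, E) ∞ x.f) {φ : S → S}
    (hφ : ContMDiff J J ∞ φ) (p : S) :
    diff J E (pull x φ).f p = (diff J E x.f (φ p)).comp (mfderiv J J φ p) :=
  mfderiv_comp p (hx.mdifferentiableAt (by simp)) (hφ.mdifferentiableAt (by simp))

lemma formal_pull {D : Distr E M} {x : Data J E S M} (hx : x.Formal D) {φ : S → S}
    (hφ : ContMDiff J J ∞ φ) (hi : Function.Injective φ)
    (hd : ∀ p, Function.Injective (mfderiv J J φ p)) : (pull x φ).Formal D := by
  refine ⟨⟨hx.1.1.comp hφ, hx.1.2.1.comp hi, fun p => ?_⟩, ?_, fun s p => ?_, fun p => ?_,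
    fun p => ?_⟩
  · rw [diff_pull hx.1.1 hφ]
    exact (hx.1.2.2 _).comp (hd p)
  · exact hx.2.1.comp (continuous_fst.prodMk
      ((hφ.continuous_tangentMap (by simp)).comp continuous_snd))
  · exact (hx.2.2.1 s _).comp (hd p)
  · rw [diff_pull hx.1.1 hφ, ← hx.2.2.2.1]
    rfl
  · have key : ∀ A : E₂ →L[ℝ] E₂, Function.Injective A → Function.Surjective A := fun A hA =>
      (LinearMap.injective_iff_surjective (f := A.toLinearMap)).1 hA
    have hs : Function.Surjective (mfderiv J J φ p) := key (mfderiv J J φ p) (hd p)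
    have e : LinearMap.range ((pull x φ).F 1 p).toLinearMap =
        LinearMap.range (x.F 1 (φ p)).toLinearMap :=
      LinearMap.range_comp_of_range_eq_top (x.F 1 (φ p)).toLinearMap
        (f := (mfderiv J J φ p).toLinearMap) (LinearMap.range_eq_top.mpr hs)
    rw [e]
    exact hx.2.2.2.2 _

lemma cont_tangent {Φ : ℝ × S → S} (h : ContMDiff (𝓘(ℝ, ℝ).prod J) J ∞ Φ) :
    Continuous fun w : ℝ × TangentBundle J S => tangentMap J J (fun p => Φ (w.1, p)) w.2 := by
  have h0 : Continuous fun t : ℝ => (⟨t, 0⟩ : TangentBundle 𝓘(ℝ, ℝ) ℝ) :=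
    (tangentBundleModelSpaceHomeomorph 𝓘(ℝ, ℝ)).symm.continuous.comp
      (continuous_id.prodMk continuous_const)
  have h1 := (contMDiff_equivTangentBundleProd_symm (I := 𝓘(ℝ, ℝ)) (M := ℝ) (I' := J) (M' := S)
    (n := 0)).continuous
  refine ((h.continuous_tangentMap (by simp)).comp
    (h1.comp ((h0.comp continuous_fst).prodMk continuous_snd))).congr fun w => ?_
  have a : ContMDiff J (𝓘(ℝ, ℝ).prod J) ∞ fun p : S => (w.1, p) :=
    contMDiff_const.prodMk contMDiff_id
  have e := tangentMap_comp_at w.2 (h.mdifferentiableAt (by simp)) (a.mdifferentiableAt (by simp))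
  rw [tangentMap_prod_right] at e
  exact e.symm

end Reach

theorem reachStmt (D : Distr E M) : ReachStmt J S D := by
  refine ⟨fun _ _ _ => Reach.trans, ?_⟩
  rintro x φ hx ⟨Φ, h1, h2, h3, h4⟩
  obtain rfl : φ = fun p => Φ (1, p) := (funext h3).symm
  have a : ∀ t, ContMDiff J J ∞ fun p => Φ (t, p) := fun t =>
    h1.comp (contMDiff_const.prodMk contMDiff_id)
  refine ⟨Reach.pull x fun p => Φ (1, p), ⟨fun l => Reach.pull x fun p => Φ (l, p),
    ⟨⟨fun w => x.f (Φ w), hx.1.1.comp h1, fun _ _ => rfl⟩, ?_⟩,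
    fun l => Reach.formal_pull hx (a l) (h4 l).1 (h4 l).2, ?_, rfl⟩, fun p hp s => ?_⟩
  · exact hx.2.1.comp (continuous_snd.fst.prodMk ((Reach.cont_tangent h1).comp
      ((continuous_subtype_val.comp continuous_fst).prodMk continuous_snd.snd)))
  · exact (congrArg (Reach.pull x) (funext h2)).trans (Reach.pull_id x)
  · rw [Reach.diff_pull hx.1.1 (a 1), ← hp s]
    rfl

end

end Pool.Agent.Lib.MP_72f1d0_gt.PC
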