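import Pool.Agent.Lib.MP_72f1d0_gt.PC.RelG
import Pool.Agent.Lib.MP_72f1d0_gt.Common
import Pool.Agent.Lib.MP_72f1d0_gt.Eq.Band

/-! The relative theorem on an annulus without winding. -/

open scoped ContDiff Topology
open Set Filter

namespace Pool.Agent.Lib.MP_72f1d0_gt.PC

namespace RelAnn

open Common

variable {c : Ctx} {U : Set G} {r : ℕ}

/-- The band `a ≤ r s ≤ 1 - a`. -/
def Kb (r : ℕ) (a : ℝ) : Set Q := Kab (a / r) ((1 - a) / r)

lemma kab_per (a b : ℝ) : PerSet (Kab a b) := Band.fract_per.perSet fun y => a ≤ y ∧ y ≤ b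

lemma mem_kb (hr : 2 ≤ r) {a : ℝ} {q : Q} : q ∈ Kb r a ↔ a ≤ xr r q.1 ∧ xr r q.1 ≤ 1 - a := by
  have hr' : (2 : ℝ) ≤ r := by exact_mod_cast hr
  have hr0 : (0 : ℝ) < r := by linarith
  show a / r ≤ Int.fract q.1 ∧ Int.fract q.1 ≤ (1 - a) / r ↔ _
  rw [div_le_iff₀ hr0, le_div_iff₀ hr0, xr, mul_comm]

lemma kb_mono (hr : 2 ≤ r) {a b : ℝ} (h : a ≤ b) : Kb r b ⊆ Kb r a := fun q hq => by
  rw [mem_kb hr] at hq ⊢
  constructor <;> linarith [hq.1, hq.2]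

lemma kb_closed (hr : 2 ≤ r) {a : ℝ} (ha : 0 ≤ a) : IsClosed (Kb r a) := by
  have hr' : (2 : ℝ) ≤ r := by exact_mod_cast hr
  have hr0 : (0 : ℝ) < r := by linarith
  exact Band.isClosed_band (div_nonneg ha hr0.le) (by rw [div_lt_one hr0]; linarith)

/-- Straightening near one circle. -/
lemma circle (h0 : R0Stmt) (hr : 2 ≤ r) (hO : UOK c U)
    (x : St c ∅) (hU : ∀ q ∈ Kb r 0, x.f q ∈ U) {Λ : Q → ℂ} (hΛ : LogOn r x Λ) {y₀ d a : ℝ}
    (hd : 0 < d) (ha : 0 < a) (hy0 : a + d ≤ y₀) (hy1 : y₀ + d ≤ 1 - a)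
    (hgood : ∀ q : Q, |r * q.1 - y₀| ≤ d → Good x q) (θ : ℝ) :
    ∃ (x' : St c ∅) (Λ' : Q → ℂ) (d₁ : ℝ), 0 < d₁ ∧ RR (Kb r a) U x x' ∧
      (∀ q, Good x q → Good x' q) ∧
      LogOn r x' Λ' ∧ (∀ q : Q, d ≤ |r * q.1 - y₀| → Λ' q = Λ q) ∧
      ∀ q : Q, |r * q.1 - y₀| ≤ d₁ → |(Λ' q).im - θ| < Real.pi / 2 := by
  have hr' : (2 : ℝ) ≤ r := by exact_mod_cast hr
  have hr0 : (0 : ℝ) < r := by linarith
  have hK : IsClosed (Kab ((y₀ - d) / r) ((y₀ + d) / r)) :=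
    Band.isClosed_band (div_nonneg (by linarith) hr0.le) (by rw [div_lt_one hr0]; linarith)
  have hsub : Kab ((y₀ - d) / r) ((y₀ + d) / r) ⊆ Kb r a := fun q hq =>
    ⟨(div_le_div_of_nonneg_right (by linarith) hr0.le).trans hq.1,
      hq.2.trans (div_le_div_of_nonneg_right (by linarith) hr0.le)⟩
  have hUa : ∀ q ∈ Kb r a, x.f q ∈ U := fun q hq => hU q (kb_mono hr ha.le hq)
  have hmem : ∀ s : ℝ, ((y₀ - d) / r ≤ s ∧ s ≤ (y₀ + d) / r) ↔ |s - y₀ / r| ≤ d / r := fun s => by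
    rw [abs_le, sub_div, add_div]
    constructor <;> rintro ⟨h1, h2⟩ <;> constructor <;> linarith
  have hgK : ∀ q : Q, |Int.fract q.1 - y₀ / r| ≤ d / r → Good x q := fun q hq =>
    good_fract (hgood _ ((abs_scale hr0).1 hq))
  obtain ⟨ε, hε, hiso⟩ := RelG.iso x hK (kab_per _ _) hO (fun q hq => hUa q (hsub hq))
    fun q hq => hgK q ((hmem _).1 hq)
  have hstrip : ∀ s : ℝ, |r * s - y₀| ≤ d → 0 ≤ s ∧ r * s ≤ 1 := fun s hs => by
    rw [abs_le] at hs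
    refine ⟨?_, by linarith [hs.2]⟩
    by_contra hneg
    have : r * s < 0 := mul_neg_of_pos_of_neg hr0 (not_le.1 hneg)
    linarith [hs.1]
  obtain ⟨F, J, δ₁, Λ', hδ₁, hout, hnear, hdl, hc', hp', he', hoff, him⟩ :=
    h0 c x.f x.emb (y₀ / r) (d / r) (div_pos hd hr0) (div_lt_div_of_pos_right (by linarith) hr0)
      (by rw [← add_div, div_lt_one hr0]; linarith)
      (fun q hq => by rw [good_one (hgK q hq)]; exact x.g1 q) Λ hΛ.1 hΛ.2.1
      (fun q hq => by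
        have hq' := (abs_scale hr0).1 hq
        rw [good_one (hgood q hq')]
        exact hΛ.2.2 q (hstrip _ hq').1 (hstrip _ hq').2) θ ε hε
  obtain ⟨y, hxy, hgy, hyK⟩ := hiso F J
    (fun l q hq => hout l q (le_of_lt (not_le.1 fun h => hq ((hmem _).2 h)))) hnear
    (fun l q hq => hdl l q ((hmem _).1 hq))
  refine ⟨y, Λ', r * δ₁, mul_pos hr0 hδ₁, RelG.mono hxy hsub hUa, hgy,
    ⟨hc', hp', fun q q0 q1 => ?_⟩, fun q hq => hoff q ?_, fun q hq => him q ?_⟩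
  · have hf := fract_strip hr q0 q1
    by_cases hq : |q.1 - y₀ / r| ≤ d / r
    · rw [he' q hq, hyK q (by simpa only [Kab, mem_ofPred_eq, hf] using (hmem _).2 hq)]
    · rw [hoff q (le_of_lt (not_le.1 hq)), hΛ.2.2 q q0 q1, RelG.out_one hxy fun h => hq
        ((hmem _).1 (by simpa only [Kab, mem_ofPred_eq, hf] using h))]
  · by_contra h
    have h' : |q.1 - y₀ / r| < d / r := not_le.1 h
    rw [lt_div_iff₀ hr0, ← abs_of_pos hr0, ← abs_mul, abs_of_pos hr0,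
      show (q.1 - y₀ / r) * r = r * q.1 - y₀ by field_simp] at h'
    linarith
  · have := (abs_scale (y := y₀) (s := q.1) hr0).2 hq
    rwa [mul_div_cancel_left₀ _ hr0.ne'] at this

/-- Straightening near three circles. -/
lemma three (h0 : R0Stmt) (hr : 2 ≤ r) (hO : UOK c U)
    (x : St c ∅) (hU : ∀ q ∈ Kb r 0, x.f q ∈ U) (hz : ZR x) {δ : ℝ} (hδ : 0 < δ)
    (hδ1 : δ ≤ 1 / 10) (hgood : ∀ q : Q, 0 ≤ r * q.1 → r * q.1 ≤ 1 →
      r * q.1 ≤ δ ∨ 1 - δ ≤ r * q.1 → Good x q) :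
    ∃ (y : St c ∅) (Λ : Q → ℂ) (e : ℝ), 0 < e ∧ e ≤ δ / 8 ∧ RR (Kb r (δ / 8)) U x y ∧
      (∀ q : Q, Good x q → Good y q) ∧ LogOn r y Λ ∧
      (∀ q : Q, |r * q.1 - δ / 4| ≤ e → |(Λ q).im - Real.pi| < Real.pi / 2) ∧
      ∀ q : Q, |r * q.1 - 3 * δ / 4| ≤ e ∨ |r * q.1 - (1 - δ / 2)| ≤ e →
        |(Λ q).im| < Real.pi / 2 := by
  obtain ⟨Λ₀, hc0, hp0, he0⟩ := hz
  have hd : 0 < δ / 8 := by positivity
  obtain ⟨x₁, Λ₁, d₁, hd₁, hr₁, hg₁, hl₁, -, hi₁⟩ := circle h0 hr hO x hU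
    (Λ := Λ₀) ⟨hc0, hp0, fun q _ _ => he0 q⟩ (y₀ := δ / 4) hd hd (by linarith) (by linarith)
    (fun q hq => by
      rw [abs_le] at hq
      exact hgood q (by linarith [hq.1]) (by linarith [hq.2]) (Or.inl (by linarith [hq.2])))
    Real.pi
  have hU₁ := RelG.keepU hr₁ hU
  obtain ⟨x₂, Λ₂, d₂, hd₂, hr₂, hg₂, hl₂, ho₂, hi₂⟩ := circle h0 hr hO x₁ hU₁ hl₁
    (y₀ := 3 * δ / 4) hd hd (by linarith) (by linarith)
    (fun q hq => hg₁ q (by
      rw [abs_le] at hq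
      exact hgood q (by linarith [hq.1]) (by linarith [hq.2]) (Or.inl (by linarith [hq.2])))) 0
  have hU₂ := RelG.keepU hr₂ hU₁
  obtain ⟨x₃, Λ₃, d₃, hd₃, hr₃, hg₃, hl₃, ho₃, hi₃⟩ := circle h0 hr hO x₂ hU₂ hl₂
    (y₀ := 1 - δ / 2) hd hd (by linarith) (by linarith)
    (fun q hq => hg₂ q (hg₁ q (by
      rw [abs_le] at hq
      exact hgood q (by linarith [hq.1]) (by linarith [hq.2]) (Or.inr (by linarith [hq.1]))))) 0
  set e := min (min d₁ d₂) (min d₃ (δ / 8)) with he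
  have e1 : e ≤ d₁ := (min_le_left _ _).trans (min_le_left _ _)
  have e2 : e ≤ d₂ := (min_le_left _ _).trans (min_le_right _ _)
  have e3 : e ≤ d₃ := (min_le_right _ _).trans (min_le_left _ _)
  have e4 : e ≤ δ / 8 := (min_le_right _ _).trans (min_le_right _ _)
  refine ⟨x₃, Λ₃, e, lt_min (lt_min hd₁ hd₂) (lt_min hd₃ hd), e4,
    RelG.trans (RelG.trans hr₁ hr₂) hr₃,
    fun q hq => hg₃ q (hg₂ q (hg₁ q hq)), hl₃, fun q hq => ?_, fun q hq => ?_⟩
  · have hq' := abs_le.1 hq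
    rw [ho₃ q (le_abs.2 (Or.inr (by linarith [hq'.1, hq'.2]))),
      ho₂ q (le_abs.2 (Or.inr (by linarith [hq'.1, hq'.2])))]
    exact hi₁ q (hq.trans e1)
  · rcases hq with hq | hq
    · have hq' := abs_le.1 hq
      rw [ho₃ q (le_abs.2 (Or.inr (by linarith [hq'.1, hq'.2])))]
      simpa using hi₂ q (hq.trans e2)
    · simpa using hi₃ q (hq.trans e3)

/-- A monotone ramp. -/
lemma ramp {a : ℝ} (ha : 0 < a) : ∃ g : ℝ → ℝ, ContDiff ℝ ∞ g ∧ Monotone g ∧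
    (∀ t, t ≤ 0 → g t = 0) ∧ ∀ t, a ≤ t → g t = t := by
  have z : ∀ t : ℝ, t ≤ 0 → Real.smoothTransition (t / a) * t = 0 := fun t ht => by
    rw [Real.smoothTransition.zero_of_nonpos (div_nonpos_of_nonpos_of_nonneg ht ha.le), zero_mul]
  refine ⟨fun t => Real.smoothTransition (t / a) * t,
    (Real.smoothTransition.contDiff.comp (contDiff_id.div_const a)).mul contDiff_id,
    fun s t hst => ?_, z, fun t ht => ?_⟩
  · simp only
    rcases le_total s 0 with h | h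
    · rw [z s h]
      rcases le_total t 0 with h' | h'
      · rw [z t h']
      · exact mul_nonneg (Real.smoothTransition.nonneg _) h'
    · exact mul_le_mul (Real.smoothTransition.monotone (div_le_div_of_nonneg_right hst ha.le)) hst
        h (Real.smoothTransition.nonneg _)
  · simp only
    rw [Real.smoothTransition.one_of_one_le (by rw [le_div_iff₀ ha]; linarith), one_mul]

/-- The profile of the stretching map. -/
lemma profile {δ e a : ℝ} (hδ : 0 < δ) (hδ1 : δ ≤ 1 / 10) (he : 0 < e) (he1 : e ≤ δ / 8)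
    (ha : 0 < a) (ha1 : a ≤ e / 8) (ha2 : a ≤ 1 / 1000) :
    ∃ P : ℝ → ℝ, ContDiff ℝ ∞ P ∧ (∀ y, 0 < deriv P y) ∧ (∀ y, y ≤ a → P y = y) ∧
      (∀ y, 1 - a ≤ y → P y = y) ∧ (∀ y, 1 / 100 ≤ y → y ≤ 49 / 100 → |P y - δ / 4| ≤ e) ∧
      (∀ y, 51 / 100 ≤ y → y ≤ 8 / 10 → |P y - 3 * δ / 4| ≤ e) ∧
      ∀ y, 85 / 100 ≤ y → y ≤ 99 / 100 → |P y - (1 - δ / 2)| ≤ e := by
  obtain ⟨g, sg, mg, g0, g1⟩ := ramp ha
  have hm := stair_mono (e := 1 - (1 - e / 2) * (1 - 4 * a)) hδ hδ1 (by nlinarith)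
  have hs := stair_smooth δ (1 - (1 - e / 2) * (1 - 4 * a))
  let p : ℝ → ℝ := fun y => (1 - e / 2) * (2 * a - g (2 * a - y) + g (y - (1 - 2 * a))) +
    stair δ (1 - (1 - e / 2) * (1 - 4 * a)) y
  have sp : ContDiff ℝ ∞ p := by simp only [p]; fun_prop
  have mp : Monotone p := fun s t hst => by
    have h1 := mg (show 2 * a - t ≤ 2 * a - s by linarith)
    have h2 := mg (show s - (1 - 2 * a) ≤ t - (1 - 2 * a) by linarith)
    exact add_le_add (mul_le_mul_of_nonneg_left (by linarith) (by linarith)) (hm hst)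
  have mid : ∀ y v, 1 / 100 ≤ y → y ≤ 99 / 100 →
      stair δ (1 - (1 - e / 2) * (1 - 4 * a)) y = v → |e / 2 * y + p y - v| ≤ e :=
    fun y v y0 y1 hv => by
      simp only [p]
      rw [hv, g0 _ (by linarith), g0 _ (by linarith), abs_le]
      constructor <;> nlinarith
  refine ⟨fun y => e / 2 * y + p y, by fun_prop, fun y => ?_, fun y hy => ?_, fun y hy => ?_,
    fun y y0 y1 => mid y _ y0 (by linarith) (stair_1 _ _ y0 y1),
    fun y y0 y1 => mid y _ (by linarith) (by linarith) (stair_2 _ _ y0 y1),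
    fun y y0 y1 => mid y _ (by linarith) y1 (stair_3 _ _ y0 y1)⟩
  · have h2 := ((hasDerivAt_id y).const_mul (e / 2)).add (sp.differentiable (by simp) y).hasDerivAt
    have h3 : deriv (fun y => e / 2 * y + p y) y = _ := h2.deriv
    rw [h3]
    linarith [mp.deriv_nonneg (x := y)]
  · simp only [p]
    rw [g1 _ (by linarith), g0 _ (by linarith), stair_0 _ _ (by linarith)]
    ring
  · simp only [p]
    rw [g0 _ (by linarith), g1 _ (by linarith), stair_4 _ _ (by linarith)]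
    ring

/-- The periodic extension of a profile which is the identity near the ends. -/
lemma perio (hr : 2 ≤ r) {P : ℝ → ℝ} {a : ℝ} (sP : ContDiff ℝ ∞ P) (ha : 0 < a)
    (dP : ∀ y, 0 < deriv P y) (p0 : ∀ y, y ≤ a → P y = y) (p1 : ∀ y, 1 - a ≤ y → P y = y) :
    ∃ ψ : ℝ → ℝ, Global.Sp (∅ : Set (Sym c)) ψ ∧
      (∀ s : ℝ, 0 ≤ s → r * s ≤ 1 → r * ψ s = P (r * s)) ∧
      ∀ s, s ∉ {s | a / r ≤ Int.fract s ∧ Int.fract s ≤ (1 - a) / r} →
        ψ s = s ∧ deriv ψ s = 1 := by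
  have hr' : (2 : ℝ) ≤ r := by exact_mod_cast hr
  have hr0 : (0 : ℝ) < r := by linarith
  set ψ : ℝ → ℝ := fun y => P (r * Int.fract y) / r + ⌊y⌋ with hψ
  have loc : ∀ y₀ : ℝ, ψ =ᶠ[𝓝 y₀] fun y => P (r * (y - ⌊y₀⌋)) / r + ⌊y₀⌋ := fun y₀ => by
    filter_upwards [Ioo_mem_nhds (show ⌊y₀⌋ - 1 / 2 < y₀ by linarith [Int.floor_le y₀])
      (Int.lt_floor_add_one y₀)] with y hy
    rcases le_or_gt (⌊y₀⌋ : ℝ) y with h | h
    · have e1 : ⌊y⌋ = ⌊y₀⌋ := Int.floor_eq_iff.2 ⟨h, hy.2⟩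
      simp only [hψ, Int.fract, e1]
    · have e1 : ⌊y⌋ = ⌊y₀⌋ - 1 := Int.floor_eq_iff.2
        ⟨by push_cast; linarith [hy.1], by push_cast; linarith⟩
      simp only [hψ, Int.fract, e1]
      rw [p1 _ (by push_cast; nlinarith [hy.1]), p0 _ (by nlinarith)]
      push_cast; field_simp; ring
  have sl : ∀ y₀ : ℝ, ContDiff ℝ ∞ fun y => P (r * (y - ⌊y₀⌋)) / r + ⌊y₀⌋ := fun y₀ => by fun_prop
  have dψ : ∀ y, deriv ψ y = deriv P (r * Int.fract y) := fun y => by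
    have h1 : HasDerivAt (fun s : ℝ => P (r * (s - ⌊y⌋))) (deriv P (r * (y - ⌊y⌋)) * r) y :=
      (sP.differentiable (by simp) _).hasDerivAt.comp y
        (by simpa using ((hasDerivAt_id y).sub_const (⌊y⌋ : ℝ)).const_mul (r : ℝ))
    rw [(loc y).deriv_eq, ((h1.div_const r).add_const _).deriv, mul_div_cancel_right₀ _ hr0.ne']
    rfl
  refine ⟨ψ, ⟨contDiff_iff_contDiffAt.2 fun y => (sl y).contDiffAt.congr_of_eventuallyEq (loc y),
    fun y => by rw [dψ]; exact dP _, fun s => ?_, fun σ hσ => hσ.elim⟩, fun s s0 s1 => ?_,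
    fun s hs => ?_⟩
  · simp only [hψ, Int.fract_add_one, Int.floor_add_one]
    push_cast; ring
  · have e1 : ⌊s⌋ = 0 := Int.floor_eq_iff.2 ⟨by simpa using s0, by push_cast; nlinarith⟩
    simp only [hψ, fract_strip hr s0 s1, e1]
    push_cast; field_simp; ring
  · have h1 : r * Int.fract s < a ∨ 1 - a < r * Int.fract s := by
      simp only [mem_ofPred_eq, not_and_or, not_le] at hs
      rwa [lt_div_iff₀ hr0, div_lt_iff₀ hr0, mul_comm] at hs
    have h2 : P =ᶠ[𝓝 (r * Int.fract s)] id := by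
      rcases h1 with h | h
      · filter_upwards [Iio_mem_nhds h] with y hy using p0 y (le_of_lt hy)
      · filter_upwards [Ioi_mem_nhds h] with y hy using p1 y (le_of_lt hy)
    refine ⟨?_, by rw [dψ, h2.deriv_eq, deriv_id]⟩
    simp only [hψ, h2.eq_of_nhds, id]
    rw [mul_div_cancel_left₀ _ hr0.ne', Int.fract_add_floor]

/-- The collars in standard position. -/
lemma stretch (h0 : R0Stmt) (hr : 2 ≤ r) (hO : UOK c U)
    (x : St c ∅) (hU : ∀ q ∈ Kb r 0, x.f q ∈ U) (hz : ZR x) {δ b : ℝ} (hδ : 0 < δ)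
    (hδ1 : δ ≤ 1 / 10) (hb : 0 < b) (hgood : ∀ q : Q, 0 ≤ r * q.1 → r * q.1 ≤ 1 →
      r * q.1 ≤ δ ∨ 1 - δ ≤ r * q.1 → Good x q) :
    ∃ (y : St c ∅) (Λ : Q → ℂ) (a : ℝ), 0 < a ∧ a ≤ b ∧ RR (Kb r a) U x y ∧
      (∀ q : Q, 0 ≤ q.1 → r * q.1 ≤ 1 → r * q.1 ≤ 8 / 10 ∨ 85 / 100 ≤ r * q.1 → Good y q) ∧
      LogOn r y Λ ∧
      (∀ q : Q, 1 / 100 ≤ r * q.1 → r * q.1 ≤ 49 / 100 → al (y.γ (1, q)).2 < 0) ∧
      ∀ q : Q, 51 / 100 ≤ r * q.1 → r * q.1 ≤ 99 / 100 →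
        r * q.1 ≤ 8 / 10 ∨ 85 / 100 ≤ r * q.1 → |(Λ q).im| < Real.pi / 2 := by
  have hr' : (2 : ℝ) ≤ r := by exact_mod_cast hr
  have hr0 : (0 : ℝ) < r := by linarith
  have hpos : ∀ s : ℝ, 0 ≤ r * s → 0 ≤ s := fun s hs =>
    le_of_mul_le_mul_left (by simpa using hs) hr0
  obtain ⟨x₁, Λ₁, e, he0, he1, hr₁, hg₁, hl₁, hi₁, hi₂⟩ := three h0 hr hO x hU hz hδ hδ1 hgood
  set a := min (min (e / 8) (1 / 1000)) b with ha
  have a0 : 0 < a := lt_min (lt_min (by linarith) (by norm_num)) hb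
  have a1 : a ≤ e / 8 := (min_le_left _ _).trans (min_le_left _ _)
  have a2 : a ≤ 1 / 1000 := (min_le_left _ _).trans (min_le_right _ _)
  obtain ⟨P, sP, dP, p0, p1, m1, m2, m3⟩ := profile hδ hδ1 he0 he1 a0 a1 a2
  have hm := (strictMono_of_deriv_pos dP).monotone
  obtain ⟨ψ, hψ, hψv, hψo⟩ := perio (c := c) hr sP a0 dP p0 p1
  have hU₁ := RelG.keepU hr₁ hU
  obtain ⟨y, hr₂, hg₂, hγ⟩ := RelG.stretch (U := U) x₁ ψ hψ hψo
    fun q hq => hU₁ q (kb_mono hr a0.le hq)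
  have hin : ∀ s : ℝ, 0 ≤ s → r * s ≤ 1 → 0 ≤ ψ s ∧ r * ψ s ≤ 1 := fun s s0 s1 => by
    have h1 : 0 ≤ r * s := mul_nonneg hr0.le s0
    refine ⟨hpos _ ?_, ?_⟩ <;> rw [hψv s s0 s1]
    · rw [← p0 0 a0.le]; exact hm h1
    · rw [← p1 1 (by linarith)]; exact hm s1
  have hψc : Continuous ψ := hψ.smooth.continuous
  have hdc : Continuous (deriv ψ) := hψ.smooth.continuous_deriv (by simp)
  obtain ⟨L, hLc, hLp, hLe, hLi⟩ := log_stretch (Λ := fun q : Q => Λ₁ (ψ q.1, q.2))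
    (k := fun q : Q => deriv ψ q.1) (hl₁.1.comp (by fun_prop)) (hdc.comp continuous_fst)
    fun q => hψ.pos q.1
  refine ⟨y, L, a, a0, min_le_right _ _, RelG.trans (RelG.mono hr₁ (kb_mono hr (by linarith))
      fun q hq => hU q (kb_mono hr a0.le hq)) hr₂,
    fun q q0 q1 hq => hg₂ q (hg₁ _ (hgood _ (mul_nonneg hr0.le (hin _ q0 q1).1) (hin _ q0 q1).2 ?_)),
    ⟨hLc, fun q => hLp _ _ ?_ (by simp), fun q q0 q1 => ?_⟩, fun q q0 q1 => ?_,
    fun q q0 q1 hq => hLi q (hi₂ _ ?_)⟩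
  · simp only
    rw [hψv _ q0 q1]
    rcases hq with hq | hq
    · left
      linarith [hm hq, (abs_le.1 (m2 (8 / 10) (by norm_num) le_rfl)).2]
    · right
      linarith [hm hq, (abs_le.1 (m3 (85 / 100) le_rfl (by norm_num))).1]
  · have := hl₁.2.1 (ψ q.1, q.2)
    simpa using this
  · have h2 := hin _ q0 q1
    rw [hLe, hγ, hl₁.2.2 (ψ q.1, q.2) h2.1 h2.2]
    simp [aa, al_smul]
  · have q0' : 0 ≤ q.1 := hpos _ (by linarith)
    have q1' : r * q.1 ≤ 1 := by linarith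
    have h2 := hin _ q0' q1'
    have h3 := congrArg Complex.re (hl₁.2.2 (ψ q.1, q.2) h2.1 h2.2)
    have h4 := hi₁ (ψ q.1, q.2) (by
      simp only
      rw [hψv _ q0' q1']
      exact m1 _ q0 q1)
    rw [hγ]
    simp only [aa] at h3
    simp only
    rw [← h3, Complex.exp_re]
    refine mul_neg_of_pos_of_neg (Real.exp_pos _) ?_
    rw [abs_lt] at h4
    exact Real.cos_neg_of_pi_div_two_lt_of_lt (by linarith [h4.1]) (by linarith [h4.2])
  · have q0' : 0 ≤ q.1 := hpos _ (by linarith)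
    have q1' : r * q.1 ≤ 1 := by linarith
    simp only
    rw [hψv _ q0' q1']
    exact hq.imp (fun hq => m2 _ q0 hq) fun hq => m3 _ hq q1

/-- The relative theorem on a strip of width `1 / r`. -/
theorem strip (hF : FramesStmt) (h0 : R0Stmt) {η : ℝ} (e0 : 0 < η) (e1 : η ≤ 1 / 200)
    (hR : RStmt η) (hN : c.Nrm) (hr : 2 ≤ r) (hO : UOK c U)
    (x : St c ∅) (hU : ∀ q ∈ Kb r 0, x.f q ∈ U) (hz : ZR x) {δ : ℝ} (hδ : 0 < δ)
    (hgood : ∀ q : Q, 0 ≤ r * q.1 → r * q.1 ≤ 1 → r * q.1 ≤ δ ∨ 1 - δ ≤ r * q.1 → Good x q) :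
    ∃ (a : ℝ) (y : St c ∅), 0 < a ∧ RR (Kb r a) U x y ∧
      ∀ q : Q, 0 ≤ q.1 → r * q.1 ≤ 1 → Good y q := by
  have hr' : (2 : ℝ) ≤ r := by exact_mod_cast hr
  have hr0 : (0 : ℝ) < r := by linarith
  obtain ⟨y, Λ, a, a0, a1, hxy, hgy, hl, hneg, him⟩ := stretch h0 hr hO x hU hz
    (δ := min δ (1 / 10)) (b := η / 32) (lt_min hδ (by norm_num)) (min_le_right _ _)
    (by positivity) fun q q0 q1 hq => hgood q q0 q1
      (hq.imp (fun h => h.trans (min_le_left _ _)) fun h => by linarith [min_le_left δ (1 / 10)])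
  have hUy := RelG.keepU hxy hU
  have hη : 0 ≤ η / 16 := by positivity
  have hK := kb_closed hr hη
  have hKp : PerSet (Kb r (η / 16)) := kab_per _ _
  have hgx : ∀ q : Q, xr r q.1 ≤ 1 → xr r q.1 ≤ 8 / 10 ∨ 85 / 100 ≤ xr r q.1 → Good y q :=
    fun q q1 hq => good_fract (hgy _ (Int.fract_nonneg _) q1 hq)
  have hu : ∀ q : Q, xr r q.1 ≤ 1 → cut (xr r q.1) = 1 ∨ Good y q := fun q q1 => by
    by_cases hq : xr r q.1 ≤ 8 / 10 ∨ 85 / 100 ≤ xr r q.1
    · exact Or.inr (hgx q q1 hq)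
    · rw [not_or, not_le, not_le] at hq
      exact Or.inl (cut_one hq.1.le hq.2.le)
  have hone : ∀ q : Q, xr r q.1 ≤ 1 → ∀ s, cut (xr r q.1) ≤ s → s ≤ 1 →
      y.γ (s, q) = y.γ (1, q) := fun q q1 s s0 s1 => by
    rcases hu q q1 with h | h
    · rw [le_antisymm s1 (h ▸ s0)]
    · exact good_eq h ((cut_mem _).1.trans s0) s1
  obtain ⟨E, γ, hγ, hNF, ε, hε, hloc⟩ := RelG.setup hF y hK hKp hO
    (fun q hq => hUy q (kb_mono hr hη hq)) (fun q => cut (xr r q.1))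
    (cut_cont hr) ((xr_per r).comp cut) (fun q => cut_mem _) (fun q hq => by
      have hq' := mt (mem_kb hr).2 hq
      rw [not_and_or, not_le, not_le] at hq'
      exact cut_zero (hq'.imp (fun h => by linarith) fun h => by linarith))
  have hE : ∀ q, E q = y.γ (cut (xr r q.1), q) := fun q => by
    have := hγ 1 q
    rw [γ.target] at this
    simpa using this
  have hE1 : ∀ q : Q, xr r q.1 ≤ 1 → E q = y.γ (1, q) := fun q q1 =>
    (hE q).trans (hone q q1 _ le_rfl (cut_mem _).2)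
  obtain ⟨z, hyz, hzK⟩ := hloc _ (hR c hN (RelG.rel y hK hKp) y.f (RelG.embR y hK hKp) E γ r
    (by omega) (fun q q0 q1 => (mem_kb hr).2 ⟨q0, q1⟩)
    (fun q hq t => by
      rw [hγ, hE]
      by_cases q1 : xr r q.1 ≤ 1
      · have hg := hgx q q1 hq
        have h1 := cut_mem (xr r q.1)
        rw [good_eq hg (mul_nonneg h1.1 t.2.1) (mul_le_one₀ h1.2 t.2.1 t.2.2),
          good_eq hg h1.1 h1.2]
      · rw [cut_zero (Or.inr (by linarith [not_le.1 q1])), zero_mul])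
    (by
      obtain ⟨a, b, h1, h2, h3, h4, h5, h6⟩ := hNF
      exact ⟨a, b, h1, h2, h3, h4, h5, fun q hq => h6 q (hu q (by linarith [hq.2]))⟩)
    (fun q _ q1 => by rw [hE1 q (by linarith)]; exact y.g1 q)
    (fun q q0 q1 => by
      rw [hE1 q (by linarith), gam_fract]
      exact hneg _ q0 q1)
    Λ hl.1 hl.2.1
    (fun q q0 q1 => by
      have s0 : 0 ≤ q.1 := by
        by_contra hneg'
        have : r * q.1 < 0 := mul_neg_of_pos_of_neg hr0 (not_le.1 hneg')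
        linarith
      have s1 : r * q.1 ≤ 1 := by linarith
      refine ⟨?_, him q q0 q1⟩
      rw [hE1 q (by rw [xr, fract_strip hr s0 s1]; exact s1)]
      exact hl.2.2 q s0 s1)
    ε hε)
  have hGo : ∀ q : Q, xr r q.1 ≤ 1 → q ∉ Kb r (η / 16) → Good z q := fun q q1 hq => by
    refine RelG.out_good hyz hq (hgx q q1 ?_)
    have h1 := mt (mem_kb hr).2 hq
    rw [not_and_or, not_le, not_le] at h1
    exact h1.imp (fun h => by linarith) fun h => by linarith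
  have hT : ∀ q : Q, xr r q.1 ≤ 1 → Tr z q := fun q q1 => by
    by_cases hq : q ∈ Kb r (η / 16)
    · intro s s0 s1
      have hq' := (mem_kb hr).1 hq
      rcases hzK q s with h | ⟨s', h1, h2, h3⟩
      · exact h hq'.1 hq'.2
      · rw [h3, hone q q1 s' h1 h2]
        exact y.g1 q
    · exact good_tr (hGo q q1 hq)
  let k : ℝ → ℝ := fun t => cl (32 / η * t - 1) * cl (32 / η * (1 - t) - 1)
  have k0 : ∀ t, t ≤ η / 32 ∨ 1 - η / 32 ≤ t → k t = 0 := fun t ht => by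
    have h : ∀ s, s ≤ η / 32 → cl (32 / η * s - 1) = 0 := fun s hs => cl_zero' (by
      rw [div_mul_eq_mul_div, sub_nonpos, div_le_one e0]; linarith)
    rcases ht with ht | ht
    · simp only [k, h t ht, zero_mul]
    · simp only [k, h (1 - t) (by linarith), mul_zero]
  have k1 : ∀ t, η / 16 ≤ t → t ≤ 1 - η / 16 → k t = 1 := fun t t0 t1 => by
    have h : ∀ s, η / 16 ≤ s → cl (32 / η * s - 1) = 1 := fun s hs => cl_one' (by
      rw [div_mul_eq_mul_div, le_sub_iff_add_le, le_div_iff₀ e0]; linarith)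
    simp only [k, h t t0, h (1 - t) (by linarith), mul_one]
  have kc : Continuous fun q : Q => k (xr r q.1) := by
    have h : Continuous fun t : ℝ => k (r * t) := by simp only [k]; fun_prop
    have h2 := h.continuousOn.comp_fract'' (by
      rw [k0 _ (Or.inl (by rw [mul_zero]; positivity)), k0 _ (Or.inr (by linarith))])
    exact h2.comp continuous_fst
  have hsub : Kb r (η / 16) ⊆ Kb r a := kb_mono hr (by linarith)
  have hUa : ∀ q ∈ Kb r a, y.f q ∈ U := fun q hq => hUy q (kb_mono hr a0.le hq)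
  have hyz' := RelG.mono hyz hsub hUa
  obtain ⟨w, hzw, hw⟩ := RelG.trunc (K := Kb r a) (U := U) z (fun q => k (xr r q.1)) kc
    ((xr_per r).comp k) (fun q => ⟨mul_nonneg (cl_nonneg _) (cl_nonneg _),
      mul_le_one₀ (cl_le_one _) (cl_nonneg _) (cl_le_one _)⟩)
    (fun q hq => hT q (by
      by_contra hn
      exact hq (k0 _ (Or.inr (by linarith [not_le.1 hn])))))
    (fun q hq => by
      have h1 := mt (mem_kb hr).2 hq
      rw [not_and_or, not_le, not_le] at h1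
      exact k0 _ (h1.imp (fun h => by linarith) fun h => by linarith))
    fun q hq => RelG.memU hyz' hq
  refine ⟨a, w, a0, RelG.trans (RelG.trans hxy hyz') hzw, fun q q0 q1 => hw q ?_⟩
  by_cases hq : q ∈ Kb r (η / 16)
  · exact Or.inl (k1 _ ((mem_kb hr).1 hq).1 ((mem_kb hr).1 hq).2)
  · exact Or.inr (hGo q (by rw [xr, fract_strip hr q0 q1]; exact q1) hq)

end RelAnn

theorem ann (hF : FramesStmt) (h0 : R0Stmt) {η : ℝ} (e0 : 0 < η) (e1 : η ≤ 1 / 200)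
    (hR : RStmt η) : AnnStmt := by
  intro c hN x U hO hU hz δ hδ hgood
  obtain ⟨a, y, a0, h1, h2⟩ := RelAnn.strip hF h0 e0 e1 hR hN (r := 4) (by norm_num) hO x
    (fun q hq => by
      have h := hO.2 _ (⌊q.1⌋, 0) (hU (Int.fract q.1, q.2) (Int.fract_nonneg _)
        (by simpa using hq.2))
      rwa [← x.emb.equi, Common.fract_lat] at h)
    hz (δ := 4 * δ) (by positivity) fun q q0 q1 hq => by
      push_cast at q0 q1 hq
      exact hgood q (by linarith) (by linarith) (hq.imp (fun h => by linarith) fun h => by linarith)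
  refine ⟨a / (4 : ℕ), (1 - a) / (4 : ℕ), y, by positivity, by push_cast; linarith, h1,
    fun q q0 q1 => h2 q q0 (by push_cast; linarith)⟩

end Pool.Agent.Lib.MP_72f1d0_gt.PC
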