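import Pool.Agent.Lib.MP_72f1d0_gt.PC.RelG
import Pool.Agent.Lib.MP_72f1d0_gt.Eq.Cores

/-! Transversality near one circle, relative to a closed set. -/

open scoped ContDiff Topology
open Set Filter

namespace Pool.Agent.Lib.MP_72f1d0_gt.PC

namespace RelCircle

open Cores

variable {c : Ctx} {K : Set Q} {U : Set G}

lemma kab_closed {a b : ℝ} (ha : 0 ≤ a) (hb : b < 1) : IsClosed (Kab a b) :=
  Band.isClosed_band ha hb

lemma kab_per (a b : ℝ) : PerSet (Kab a b) := Strip.band_per a b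

lemma ostep (hF : FramesStmt) (hO : OStmt) (x : St c ∅) (hK : IsClosed K) (hKp : PerSet K)
    (hUo : UOK c U) (hU : ∀ q ∈ K, x.f q ∈ U) {r : ℕ}
    (hr : 1 ≤ r) {d w : Q → ℝ} (sd : ContDiff ℝ ∞ d) (pd : Per d) (sw : ContDiff ℝ ∞ w)
    (pw : Per w) (h1 : ∀ q, q ∉ K → d q ≤ 0 ∨ w q ≤ -1)
    (h2 : ∀ q, 0 ≤ d q → d q ≤ 9 → 0 < w q → Good x q) :
    ∃ (y : St c ∅) (δ : ℝ), 0 < δ ∧ RR K U x y ∧
      (∀ q : Q, |ss r q.1| ≤ δ → 0 < cc r q.1 → 0 ≤ d q → 5 ≤ w q → Tr y q) ∧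
      ∀ q, d q ≤ 2 → Good x q → Good y q := by
  have cd := sd.continuous
  have cw := sw.continuous
  have ub : ∀ q, 0 ≤ cl (w q) * cl (d q) ∧ cl (w q) * cl (d q) ≤ 1 := fun q =>
    ⟨mul_nonneg (cl_nonneg _) (cl_nonneg _),
      mul_le_one₀ (cl_le_one _) (cl_nonneg _) (cl_le_one _)⟩
  obtain ⟨E, γ, e1, e2, ε, hε, e3⟩ := RelG.setup hF x hK hKp hUo hU (fun q => cl (w q) * cl (d q))
    (by fun_prop) (pw.comp₂ pd fun a b => cl a * cl b) ub fun q hq => by
      rcases h1 q hq with h | h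
      · rw [cl0 h, mul_zero]
      · rw [cl0 (by linarith : w q ≤ 0), zero_mul]
  have eE : ∀ q, E q = x.γ (cl (w q) * cl (d q), q) := fun q => by simpa using e1 1 q
  have h3 : ∀ q, 0 ≤ d q → 1 ≤ w q → cl (w q) * cl (d q) = 1 ∨ Good x q := fun q a b => by
    rcases le_total 1 (d q) with h | h
    · exact Or.inl (by rw [cl1 h, cl1 b, mul_one])
    · exact Or.inr (h2 q a (by linarith) (by linarith))
  have h4 : ∀ q s, 0 ≤ d q → 1 ≤ w q → cl (w q) * cl (d q) ≤ s → s ≤ 1 → 0 < dl (x.γ (s, q)) :=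
    fun q s a b s0 s1 => by
      rcases h3 q a b with h | h
      · rw [le_antisymm s1 (h ▸ s0)]; exact x.g1 q
      · exact good_tr h s ((ub q).1.trans s0) s1
  obtain ⟨δ, hδ, hL⟩ := hO c (RelG.rel x hK hKp) x.f (RelG.embR x hK hKp) E γ r d w hr sd pd sw
    pw h1
    (fun q hq t => by
      rw [e1, eE]
      by_cases hz : cl (w q) * cl (d q) = 0
      · rw [hz, zero_mul]
      · have a1 : 0 < w q := not_le.1 fun h => hz (by rw [cl0 h, zero_mul])
        have a2 : 0 < d q := not_le.1 fun h => hz (by rw [cl0 h, mul_zero])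
        have a3 := h2 q a2.le (hq.resolve_right (not_le.2 a1)) a1
        rw [good_eq a3 (ub q).1 (ub q).2, good_eq a3 (mul_nonneg (ub q).1 t.2.1)
          (mul_le_one₀ (ub q).2 t.2.1 t.2.2)])
    (by
      obtain ⟨X, W, a1, a2, a3, a4, a5, a6⟩ := e2
      exact ⟨X, W, a1, a2, a3, a4, a5, fun q hq => a6 q (h3 q hq.1 hq.2)⟩)
    (fun q a b => by rw [eE]; exact h4 q _ a b le_rfl (ub q).2) ε hε
  obtain ⟨y, y1, y2⟩ := e3 _ hL
  refine ⟨y, δ, hδ, y1, fun q a1 a2 a3 a4 s s0 s1 => ?_, fun q hd hg => ?_⟩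
  · rcases y2 q s with h | ⟨s', b1, b2, b3⟩
    · exact h.1 a1 a2 a3 a4
    · rw [b3]; exact h4 q s' a3 (by linarith) b1 b2
  · refine RelG.good_of_const (A := dd c x.f q) fun s _ _ => ?_
    rcases y2 q s with h | ⟨s', b1, b2, b3⟩
    · rw [h.2 hd, eE]; exact hg _ (ub q).1 (ub q).2
    · rw [b3]; exact hg _ ((ub q).1.trans b1) b2

lemma interior_per {S : Set Q} (h : PerSet S) : PerSet (interior S) := fun q m hq => by
  have h1 : (fun p : Q => p - lat m) ⁻¹' interior S ⊆ S := fun p hp => by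
    have := h _ m (interior_subset hp)
    simpa using this
  exact interior_maximal h1 (isOpen_interior.preimage (by fun_prop)) (by simpa using hq)

end RelCircle

open RelCircle in
theorem circle (hF : FramesStmt) (hO : OStmt) : CircleStmt := by
  intro c x U hUo hU C hC hCp hg
  have hK : IsClosed (Kab (1 / 16) (3 / 16)) := kab_closed (by norm_num) (by norm_num)
  have hKp := kab_per (1 / 16) (3 / 16)
  have hV : C ⊆ interior {q | Good x q} := subset_interior_iff_mem_nhdsSet.2 hg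
  obtain ⟨ν, K1, sν, pν, bν, ν1, -, -, -, ν2, ν3⟩ := urysohn hC hCp isOpen_interior
    (interior_per (S := {q | Good x q}) fun q m hq => Global.good_lat x m hq) hV
  have hB : ∀ a b : ℝ, PerSet {q : Q | a < Int.fract q.1 ∧ Int.fract q.1 < b} := fun a b =>
    Band.fract_per.perSet fun y => a < y ∧ y < b
  obtain ⟨wv, K2, swv, pwv, bwv, wv1, -, -, -, wv2, wv3⟩ := urysohn
    (kab_closed (a := 3 / 32) (b := 5 / 32) (by norm_num) (by norm_num)) (kab_per _ _)
    (Band.isOpen_band (a := 1 / 16) (b := 3 / 16) (by norm_num)) (hB _ _)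
    fun q hq => ⟨by linarith [hq.1], by linarith [hq.2]⟩
  obtain ⟨y, δ, hδ, y1, y2, y3⟩ := ostep hF hO x hK hKp hUo hU (r := 8) (by norm_num)
    (d := fun q => 20 * (1 - ν q)) (w := fun q => 10 * wv q - 1) (by fun_prop)
    (pν.comp fun t => 20 * (1 - t)) (by fun_prop) (pwv.comp fun t => 10 * t - 1)
    (fun q hq => Or.inr (by
      rw [wv3 q fun h => hq ⟨(wv2 h).1.le, (wv2 h).2.le⟩]; norm_num))
    fun q _ h _ => by
      by_contra hn
      rw [ν3 q fun h => hn (interior_subset (ν2 h))] at h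
      norm_num at h
  have cs := (ss_smooth 8).continuous
  have ccc := (cc_smooth 8).continuous
  obtain ⟨μ, K3, sμ, pμ, bμ, μ1, -, -, -, μ2, μ3⟩ := urysohn
    (kab_closed (a := 1 / 8) (b := 1 / 8) (by norm_num) (by norm_num)) (kab_per _ _)
    (O := {q : Q | 3 / 32 < Int.fract q.1 ∧ Int.fract q.1 < 5 / 32} ∩
      {q : Q | |ss 8 q.1| < δ ∧ 0 < cc 8 q.1})
    ((Band.isOpen_band (by norm_num)).inter
      ((isOpen_lt (f := fun q : Q => |ss 8 q.1|) (g := fun _ => δ) (by fun_prop)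
        continuous_const).inter
      (isOpen_lt (f := fun _ => (0 : ℝ)) (g := fun q : Q => cc 8 q.1) continuous_const
        (by fun_prop))))
    ((hB _ _).inter (((ss_per 8).perSet fun t => |t| < δ).inter ((cc_per 8).perSet fun t => 0 < t)))
    fun q hq => by
      have e : Int.fract q.1 = 1 / 8 := le_antisymm hq.2 hq.1
      have e1 : 2 * Real.pi * ((8 : ℕ) : ℝ) * q.1 = ((8 * ⌊q.1⌋ + 1 : ℤ) : ℝ) * (2 * Real.pi) := by
        have := Int.fract_add_floor q.1
        rw [e] at this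
        push_cast
        linear_combination (-16 * Real.pi) * this
      refine ⟨⟨by rw [e]; norm_num, by rw [e]; norm_num⟩, ?_, ?_⟩
      · have h0 := Real.sin_add_int_mul_two_pi 0 (8 * ⌊q.1⌋ + 1)
        rw [zero_add, Real.sin_zero] at h0
        rw [ss, e1, h0]; simpa using hδ
      · rw [cc, e1, Real.cos_int_mul_two_pi]; exact one_pos
  have cμ := sμ.continuous
  have hne : ∀ q, cl (2 * μ q) ≠ 0 → (3 / 32 < Int.fract q.1 ∧ Int.fract q.1 < 5 / 32) ∧
      |ss 8 q.1| < δ ∧ 0 < cc 8 q.1 := fun q hq => by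
    by_contra hn
    rw [μ3 q fun h => hn (μ2 h)] at hq
    simp at hq
  obtain ⟨z, z1, z2⟩ := RelG.trunc (K := Kab (1 / 16) (3 / 16)) (U := U) y (fun q => cl (2 * μ q))
    (by fun_prop) (pμ.comp fun t => cl (2 * t)) (fun q => ⟨cl_nonneg _, cl_le_one _⟩)
    (fun q hq => by
      obtain ⟨⟨a1, a2⟩, a3, a4⟩ := hne q hq
      refine y2 q a3.le a4 (by linarith [(bν q).2]) ?_
      rw [wv1 q ⟨a1.le, a2.le⟩]; norm_num)
    (fun q hq => by
      by_contra hn
      obtain ⟨⟨a1, a2⟩, -⟩ := hne q hn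
      exact hq ⟨by linarith, by linarith⟩)
    fun q hq => RelG.memU y1 hq
  refine ⟨z, RelG.trans y1 z1, ?_⟩
  rw [nhdsSet_union, eventually_sup]
  constructor
  · have h1 : {q | 9 / 10 < ν q} ∈ 𝓝ˢ C := (isOpen_lt continuous_const sν.continuous).mem_nhdsSet.2
      fun q hq => by simp only [mem_ofPred_eq, ν1 q hq]; norm_num
    filter_upwards [h1, hg] with q a b
    exact z2 q (Or.inr (y3 q (by linarith [show 9 / 10 < ν q from a]) b))
  · have h1 : {q | 1 / 2 < μ q} ∈ 𝓝ˢ {q : Q | Int.fract q.1 = 1 / 8} :=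
      (isOpen_lt continuous_const cμ).mem_nhdsSet.2 fun q hq => by
        have e : Int.fract q.1 = 1 / 8 := hq
        simp only [mem_ofPred_eq, μ1 q ⟨e.ge, e.le⟩]; norm_num
    filter_upwards [h1] with q a
    exact z2 q (Or.inl (Cores.cl1 (by linarith [show 1 / 2 < μ q from a])))

end Pool.Agent.Lib.MP_72f1d0_gt.PC
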