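import Pool.Agent.Lib.MP_72f1d0_gt.PC.Defs
import Pool.Agent.Lib.MP_72f1d0_gt.Global

/-! Deformations supported in a closed periodic set: concatenation and the local stages. -/

open scoped ContDiff Topology
open Set Filter

namespace Pool.Agent.Lib.MP_72f1d0_gt.PC

namespace RelG

open Global

variable {c : Ctx} {K K' : Set Q} {U : Set G} {x y z : St c ∅}

lemma memU (h : RR K U x y) {q : Q} (hq : q ∈ K) : y.f q ∈ U := by
  obtain ⟨w, φ, -, -, -, rfl, -, -, -, -, -, h⟩ := h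
  exact h 1 q hq

lemma out_f (h : RR K U x y) {q : Q} (hq : q ∉ K) : y.f q = x.f q := by
  obtain ⟨w, φ, -, -, -, rfl, -, -, -, -, h, -⟩ := h
  exact (h 1 q hq).1

lemma out_one (h : RR K U x y) {q : Q} (hq : q ∉ K) : y.γ (1, q) = x.γ (1, q) := by
  obtain ⟨w, φ, -, -, -, rfl, -, -, -, h1, h, -⟩ := h
  rw [(h 1 q hq).2 1 zero_le_one le_rfl, (h1 1).2]

lemma good_of_const {q : Q} {A : G × G} (h : ∀ s, 0 ≤ s → s ≤ 1 → y.γ (s, q) = A) : Good y q :=
  fun s s0 s1 => by rw [h s s0 s1, ← y.g0, h 0 le_rfl zero_le_one]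

lemma out_good (h : RR K U x y) {q : Q} (hq : q ∉ K) (hg : Good x q) : Good y q := by
  obtain ⟨w, φ, -, -, -, rfl, -, hm, -, -, h, -⟩ := h
  exact good_of_const fun s s0 s1 =>
    ((h 1 q hq).2 s s0 s1).trans (hg _ (hm 1 s s0 s1).1 (hm 1 s s0 s1).2)

lemma keepU (h : RR K U x y) (hU : ∀ q ∈ K', x.f q ∈ U) : ∀ q ∈ K', y.f q ∈ U := fun q hq => by
  by_cases hK : q ∈ K
  · exact memU h hK
  · rw [out_f h hK]; exact hU q hq

lemma mono (h : RR K U x y) (hK : K ⊆ K') (hU : ∀ q ∈ K', x.f q ∈ U) : RR K' U x y := by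
  obtain ⟨w, φ, a1, a2, a3, a4, a5, a6, a7, a8, a9, a10⟩ := h
  refine ⟨w, φ, a1, a2, a3, a4, a5, a6, a7, a8, fun l q hq => a9 l q fun h => hq (hK h),
    fun l q hq => ?_⟩
  by_cases h : q ∈ K
  · exact a10 l q h
  · rw [(a9 l q h).1]; exact hU q hq

theorem trans (h : RR K U x y) (h' : RR K U y z) : RR K U x z := by
  obtain ⟨z₁, φ₁, s₁, c₁, a₁, b₁, p1, p2, p3, p4, p5, p6⟩ := h
  obtain ⟨z₂, φ₂, s₂, c₂, a₂, b₂, r1, r2, r3, r4, r5, r6⟩ := h'
  let w : ℝ → St c ∅ := fun l => if l ≤ 1 / 2 then z₁ (Real.smoothTransition (2 * l))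
    else z₂ (Real.smoothTransition (2 * l - 1))
  have key : ∀ {Y : Type} [AddCommGroup Y] (π : St c ∅ → Y) (l : ℝ), π (w l) =
      π (z₁ (Real.smoothTransition (2 * l))) + π (z₂ (Real.smoothTransition (2 * l - 1))) - π y := by
    intro Y _ π l
    simp only [w]
    split_ifs with hl
    · rw [Real.smoothTransition.zero_of_nonpos (by linarith : 2 * l - 1 ≤ 0), a₂]; simp
    · rw [Real.smoothTransition.one_of_one_le (by linarith : 1 ≤ 2 * l), b₁]; simp
  have h1 : ContDiff ℝ ∞ fun l : ℝ => Real.smoothTransition (2 * l) :=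
    Real.smoothTransition.contDiff.comp (by fun_prop)
  have h2 : ContDiff ℝ ∞ fun l : ℝ => Real.smoothTransition (2 * l - 1) :=
    Real.smoothTransition.contDiff.comp (by fun_prop)
  refine ⟨w, fun p => φ₁ (Real.smoothTransition (2 * p.1),
    φ₂ (Real.smoothTransition (2 * p.1 - 1), p.2)), ?_, ?_, ?_, ?_, ?_,
    fun l s s0 s1 => p2 _ _ (r2 _ s s0 s1).1 (r2 _ s s0 s1).2, fun s s0 s1 => ?_,
    fun l => ?_, fun l q hq => ?_, fun l q hq => ?_⟩
  · have e : (fun p : ℝ × Q => (w p.1).f p.2) = fun p =>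
        (z₁ (Real.smoothTransition (2 * p.1))).f p.2 +
          (z₂ (Real.smoothTransition (2 * p.1 - 1))).f p.2 - y.f p.2 :=
      funext fun p => key (fun v => v.f p.2) p.1
    rw [e]
    exact ((s₁.comp ((h1.comp contDiff_fst).prodMk contDiff_snd)).add
      (s₂.comp ((h2.comp contDiff_fst).prodMk contDiff_snd))).sub (y.emb.smooth.comp contDiff_snd)
  · have e : (fun p : ℝ × ℝ × Q => (w p.1).γ p.2) = fun p =>
        (z₁ (Real.smoothTransition (2 * p.1))).γ p.2 +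
          (z₂ (Real.smoothTransition (2 * p.1 - 1))).γ p.2 - y.γ p.2 :=
      funext fun p => key (fun v => v.γ p.2) p.1
    rw [e]
    exact ((c₁.comp ((h1.continuous.comp continuous_fst).prodMk continuous_snd)).add
      (c₂.comp ((h2.continuous.comp continuous_fst).prodMk continuous_snd))).sub
      (y.fam.cont.comp continuous_snd)
  · simp [w, a₁]
  · have : ¬ ((1 : ℝ) ≤ 1 / 2) := by norm_num
    simp only [w, this, if_false]
    rw [Real.smoothTransition.one_of_one_le (by norm_num), b₂]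
  · exact p1.comp ((h1.continuous.comp continuous_fst).prodMk
      (r1.comp ((h2.continuous.comp continuous_fst).prodMk continuous_snd)))
  · simp only
    rw [Real.smoothTransition.zero_of_nonpos (by norm_num : 2 * (0 : ℝ) ≤ 0),
      Real.smoothTransition.zero_of_nonpos (by norm_num : 2 * (0 : ℝ) - 1 ≤ 0), r3 s s0 s1,
      p3 s s0 s1]
  · simp only [(r4 _).1, (r4 _).2, (p4 _).1, (p4 _).2, and_self]
  · simp only [w]
    split_ifs with hl
    · refine ⟨(p5 _ q hq).1, fun s s0 s1 => ?_⟩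
      rw [Real.smoothTransition.zero_of_nonpos (by linarith : 2 * l - 1 ≤ 0), r3 s s0 s1]
      exact (p5 _ q hq).2 s s0 s1
    · have e := p5 1 q hq
      rw [b₁] at e
      refine ⟨(r5 _ q hq).1.trans e.1, fun s s0 s1 => ?_⟩
      rw [Real.smoothTransition.one_of_one_le (by linarith : 1 ≤ 2 * l), (r5 _ q hq).2 s s0 s1]
      exact e.2 _ (r2 _ s s0 s1).1 (r2 _ s s0 s1).2
  · simp only [w]
    split_ifs
    · exact p6 _ q hq
    · exact r6 _ q hq

/-- The basic constructor when the formal parameter is not changed outside `K`. -/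
lemma of_path (w : ℝ → St c ∅) (a1 : ContDiff ℝ ∞ fun p : ℝ × Q => (w p.1).f p.2)
    (a2 : Continuous fun p : ℝ × ℝ × Q => (w p.1).γ p.2) (a3 : w 0 = x) (a4 : w 1 = y)
    (a5 : ∀ l q, q ∉ K → (w l).f q = x.f q ∧ ∀ s, 0 ≤ s → s ≤ 1 → (w l).γ (s, q) = x.γ (s, q))
    (a6 : ∀ l, ∀ q ∈ K, (w l).f q ∈ U) : RR K U x y :=
  ⟨w, fun p => p.2, a1, a2, a3, a4, continuous_snd, fun _ _ s0 s1 => ⟨s0, s1⟩, fun _ _ _ => rfl,
    fun _ => ⟨rfl, rfl⟩, a5, a6⟩

lemma rr_rep (x y : St c ∅) {φ : ℝ × Q → ℝ} (h : Rp (∅ : Set (Sym c)) φ)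
    (h1 : ∀ l q, 0 ≤ l → l ≤ 1 → 0 < dl (x.γ ((1 - l) * 1 + l * φ (1, q), q)))
    (hf : y.f = x.f) (hγ : ∀ p, y.γ p = x.γ (φ p, p.2)) {φ0 : ℝ → ℝ} (c0 : Continuous φ0)
    (m0 : ∀ s, 0 ≤ s → s ≤ 1 → 0 ≤ φ0 s ∧ φ0 s ≤ 1) (z0 : φ0 0 = 0) (z1 : φ0 1 = 1)
    (ho : ∀ s q, q ∉ K → φ (s, q) = φ0 s) (hU : ∀ q ∈ K, x.f q ∈ U) : RR K U x y := by
  refine ⟨fun l => rep x (h.mix l) fun q => h1 _ q (cl_nonneg l) (cl_le_one l),
    fun p => (1 - cl p.1) * p.2 + cl p.1 * φ0 p.2,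
    x.emb.smooth.comp contDiff_snd, ?_, St.ext rfl ?_, St.ext hf.symm ?_, by fun_prop,
    fun l s s0 s1 => ?_, fun s _ _ => by simp, fun l => by simp [z0, z1],
    fun l q hq => ⟨rfl, fun s _ _ => by simp only [rep, ho s q hq]⟩, fun l q hq => hU q hq⟩
  · have := h.cont
    exact x.fam.cont.comp (f := fun p : ℝ × ℝ × Q =>
      ((1 - cl p.1) * p.2.1 + cl p.1 * φ p.2, p.2.2)) (by fun_prop)
  · funext p; simp [rep]
  · funext p; simp [rep, hγ]
  · obtain ⟨a, b⟩ := m0 s s0 s1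
    have := cl_nonneg l
    have := cl_le_one l
    constructor <;> nlinarith

theorem trunc (x : St c ∅) (u : Q → ℝ) (hc : Continuous u) (hp : Per u)
    (hm : ∀ q, 0 ≤ u q ∧ u q ≤ 1) (ht : ∀ q, u q ≠ 0 → Tr x q) (ho : ∀ q, q ∉ K → u q = 0)
    (hU : ∀ q ∈ K, x.f q ∈ U) : ∃ y, RR K U x y ∧ ∀ q, u q = 1 ∨ Good x q → Good y q := by
  have h : Rp (∅ : Set (Sym c)) fun p => p.1 * (1 - u p.2) :=
    ⟨by fun_prop, fun s q m => by simp only [hp q m], fun σ hσ => hσ.elim,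
      fun s q h0 h1 => by obtain ⟨a, b⟩ := hm q; constructor <;> nlinarith, fun q => by simp⟩
  have h1 : ∀ l q, 0 ≤ l → l ≤ 1 → 0 < dl (x.γ ((1 - l) * 1 + l * (1 * (1 - u q)), q)) := by
    intro l q l0 l1
    by_cases hq : u q = 0
    · rw [hq, show (1 - l) * 1 + l * (1 * (1 - 0)) = 1 by ring]; exact x.g1 q
    · obtain ⟨a, b⟩ := hm q
      exact ht q hq _ (by nlinarith) (by nlinarith)
  refine ⟨rep x h fun q => by simpa using h1 1 q zero_le_one le_rfl,
    rr_rep x _ h h1 rfl (fun _ => rfl) (φ0 := fun s => s) continuous_id (fun _ a b => ⟨a, b⟩)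
      rfl rfl (fun s q hq => by simp [ho q hq]) hU, fun q hq s s0 s1 => ?_⟩
  rcases hq with hq | hq
  · simp [rep, hq, x.g0]
  · exact hq _ (h.mem s q s0 s1).1 (h.mem s q s0 s1).2

theorem stretch (x : St c ∅) (ψ : ℝ → ℝ) (h : Sp (∅ : Set (Sym c)) ψ) {B : Set ℝ}
    (ho : ∀ s, s ∉ B → ψ s = s ∧ deriv ψ s = 1) (hU : ∀ q : Q, q.1 ∈ B → x.f q ∈ U) :
    ∃ y, RR {q | q.1 ∈ B} U x y ∧ (∀ q : Q, Good x (ψ q.1, q.2) → Good y q) ∧
      ∀ q : Q, y.γ (1, q) =
        (deriv ψ q.1 • (x.γ (1, (ψ q.1, q.2))).1, (x.γ (1, (ψ q.1, q.2))).2) := by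
  have n0 := Real.smoothTransition.nonneg
  have n1 := Real.smoothTransition.le_one
  have hs : ContDiff ℝ ∞ Real.smoothTransition := Real.smoothTransition.contDiff
  have h0 := h.smooth
  refine ⟨str x h, of_path (fun l => str x (h.mix (n0 l) (n1 l)).1) ?_ ?_ (St.ext ?_ ?_)
    (St.ext ?_ ?_) (fun l q hq => ?_) fun l q hq => ?_, fun q hq s s0 s1 => ?_, fun q => rfl⟩
  · exact x.emb.smooth.comp (f := fun p : ℝ × Q => ((1 - Real.smoothTransition p.1) * p.2.1 +
      Real.smoothTransition p.1 * ψ p.2.1, p.2.2)) (by fun_prop)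
  · have h1 := h.smooth.continuous
    have h2 : Continuous (deriv ψ) := h.smooth.continuous_deriv (by simp)
    have h3 := x.fam.cont
    have h4 := hs.continuous
    simp only [str, (h.mix (n0 _) (n1 _)).2]
    fun_prop
  · funext q; simp [str]
  · funext p; simp [str]
  · funext q; simp [str]
  · funext p; simp [str]
  · obtain ⟨e1, e2⟩ := ho q.1 hq
    have e3 : (1 - Real.smoothTransition l) * q.1 + Real.smoothTransition l * q.1 = q.1 := by ring
    refine ⟨by simp only [str, e1, e3], fun s _ _ => ?_⟩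
    simp only [str, (h.mix (n0 _) (n1 _)).2, e1, e2, e3]
    simp
  · refine hU (_, q.2) ?_
    by_contra hn
    have e1 := (ho _ hn).1
    have hi := (strictMono_of_deriv_pos (h.mix (n0 l) (n1 l)).1.pos).injective
    have e2 : (1 - Real.smoothTransition l) * q.1 + Real.smoothTransition l * ψ q.1 = q.1 := by
      apply hi
      simp only at e1 ⊢
      rw [e1]; ring
    simp only [e2] at hn
    exact hn hq
  · simp only [str, h.dd_eq x.emb.smooth, hq s s0 s1]

/-- A uniform neighbourhood of the image of `K` lies in `U`. -/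
lemma exists_eps (hK : IsClosed K) (hKp : PerSet K) (hU : UOK c U) {f : Q → G} (hf : IsEmb c f)
    (h : ∀ q ∈ K, f q ∈ U) : ∃ ε : ℝ, 0 < ε ∧ ∀ q ∈ K, ∀ p, ‖p - f q‖ ≤ ε → p ∈ U := by
  have hc : IsCompact (f '' (box ∩ K)) :=
    (isCompact_box.inter_right hK).image hf.smooth.continuous
  obtain ⟨ε, hε, hs⟩ := hc.exists_cthickening_subset_open hU.1
    (by rintro _ ⟨q, hq, rfl⟩; exact h q hq.2)
  refine ⟨ε, hε, fun q hq p hp => ?_⟩
  obtain ⟨m, hm⟩ := exists_box q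
  have h1 : p + c.i (lat m) ∈ U := hs (Metric.mem_cthickening_of_dist_le _ (f (q + lat m)) _ _
    ⟨_, ⟨hm, hKp q m hq⟩, rfl⟩ (by rw [hf.equi, dist_add_right, dist_eq_norm]; exact hp))
  have h2 := hU.2 _ (-m) h1
  rwa [lat_neg, map_neg, add_neg_cancel_right] at h2

/-- The state built from a local deformation whose end is on the formal path. -/
lemma rr_ls (x : St c ∅) {ε : ℝ} (D : LS c x.f K ε) (hε : 0 ≤ ε)
    (hU : ∀ q ∈ K, ∀ p, ‖p - x.f q‖ ≤ ε → p ∈ U)
    (hm : ∀ q, 0 ≤ D.u q ∧ D.u q ≤ 1) (h1 : ∀ l q, D.Kf (l, 1, q) = x.γ (D.u q, q))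
    (h0 : ∀ s q, D.Kf (0, s, q) = x.γ (D.u q * cl s, q)) :
    ∃ y, RR K U x y ∧ ∀ s q, y.γ (s, q) = if s ≤ 1 / 2 then D.Kf (1, 2 * s, q)
      else x.γ (D.u q + (1 - D.u q) * cl (2 * s - 1), q) := by
  have hγ := x.fam.cont
  have hK := D.cont
  have hu := D.ucont
  let Γ : ℝ × ℝ × Q → G × G := fun p => if p.2.1 ≤ 1 / 2 then D.Kf (p.1, 2 * p.2.1, p.2.2)
    else x.γ (D.u p.2.2 + (1 - D.u p.2.2) * cl (2 * p.2.1 - 1), p.2.2)
  have hΓ : Continuous Γ := by
    refine Continuous.if_le (by fun_prop) (by fun_prop) (by fun_prop) continuous_const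
      fun p hp => ?_
    rw [hp]
    norm_num [h1]
  have hh : ¬ ((1 : ℝ) ≤ 1 / 2) := by norm_num
  let z : ℝ → St c ∅ := fun l =>
    { f := D.H l
      γ := fun p => Γ (l, p)
      emb := D.emb l
      fam := ⟨hΓ.comp (by fun_prop), fun s q m => by
          have a1 := D.per l (2 * s) q m
          have a2 := x.fam.per (D.u q + (1 - D.u q) * cl (2 * s - 1)) q m
          simp only at a1 a2
          simp only [Γ, D.uper q m, a1, a2],
        fun s q _ _ => by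
          simp only [Γ]
          split_ifs
          · exact D.inj _
          · have e := mix_mem (hm q).1 (hm q).2 (cl_nonneg (2 * s - 1)) (cl_le_one _)
            exact x.fam.inj _ q ((hm q).1.trans e.1) e.2⟩
      g0 := fun q => by simp [Γ, D.k0]
      g1 := fun q => by
        simp only [Γ, hh, if_false]
        norm_num
        exact x.g1 q
      ef := fun σ hσ => hσ.elim
      eg := fun σ hσ => hσ.elim }
  have hφ : Rp (∅ : Set (Sym c))
      fun p => D.u p.2 * cl (2 * p.1) + (1 - D.u p.2) * cl (2 * p.1 - 1) :=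
    ⟨by fun_prop, fun s q m => by simp only [D.uper q m],
      fun σ hσ => hσ.elim, fun s q _ _ => by
        obtain ⟨a, b⟩ := hm q
        have := cl_nonneg (2 * s)
        have := cl_le_one (2 * s)
        have := cl_nonneg (2 * s - 1)
        have := cl_le_one (2 * s - 1)
        constructor <;> nlinarith,
      fun q => by simp [cl_of_nonpos]⟩
  refine ⟨z 1, trans (y := z 0) (rr_rep x (z 0) hφ (fun l q _ _ => ?_) D.h0 (fun p => ?_)
    (φ0 := fun s => cl (2 * s - 1)) (by fun_prop) (fun s _ _ => ⟨cl_nonneg _, cl_le_one _⟩)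
    (cl_of_nonpos (by norm_num)) (cl_of_one_le (by norm_num))
    (fun s q hq => by simp [(D.out 0 0 q hq).2.2]) fun q hq => hU q hq _ (by simpa using hε))
    (of_path z D.smooth hΓ rfl rfl (fun l q hq => ⟨?_, fun s _ _ => ?_⟩)
      fun l q hq => hU q hq _ (D.near l q)), fun s q => rfl⟩
  · have e : (1 - l) * 1 + l * (D.u q * cl (2 * 1) + (1 - D.u q) * cl (2 * 1 - 1)) = 1 := by
      rw [cl_of_one_le (by norm_num), cl_of_one_le (by norm_num)]; ring
    rw [e]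
    exact x.g1 q
  · simp only [z, Γ]
    split_ifs with hp
    · rw [h0, cl_of_nonpos (by linarith : 2 * p.1 - 1 ≤ 0), mul_zero, add_zero]
    · rw [cl_of_one_le (by linarith : 1 ≤ 2 * p.1), mul_one]
  · exact (D.out l 0 q hq).1.trans (D.out 0 0 q hq).1.symm
  · simp only [z, Γ]
    split_ifs
    · exact (D.out l _ q hq).2.1.trans (D.out 0 _ q hq).2.1.symm
    · rfl

/-- The boundary values of a state. -/
noncomputable def rel (x : St c ∅) (hK : IsClosed K) (hKp : PerSet K) : Rel :=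
  ⟨K, dd c x.f, hK, hKp⟩

lemma embR (x : St c ∅) (hK : IsClosed K) (hKp : PerSet K) : R.Emb c (rel x hK hKp) x.f :=
  ⟨x.emb, fun _ _ => rfl⟩

theorem setup (hF : FramesStmt) (x : St c ∅) (hK : IsClosed K) (hKp : PerSet K) (hO : UOK c U)
    (hU : ∀ q ∈ K, x.f q ∈ U) (u : Q → ℝ)
    (hc : Continuous u) (hp : Per u) (hm : ∀ q, 0 ≤ u q ∧ u q ≤ 1) (hu : ∀ q, q ∉ K → u q = 0) :
    ∃ (E : R.II (rel x hK hKp)) (γ : Path (embR x hK hKp).d E),
      (∀ (t : UI) q, γ t q = x.γ (u q * t, q)) ∧ HasNF E {q | u q = 1 ∨ Good x q} ∧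
      ∃ ε : ℝ, 0 < ε ∧ ∀ P : Q → G × G → Prop, R.Loc (embR x hK hKp) γ P ε →
        ∃ y, RR K U x y ∧ ∀ q s, P q (y.γ (s, q)) ∨
            ∃ s', u q ≤ s' ∧ s' ≤ 1 ∧ y.γ (s, q) = x.γ (s', q) := by
  have hγ := x.fam.cont
  have fam : R.IsFam (rel x hK hKp) fun p : ℝ × Q => x.γ (u p.2 * p.1, p.2) :=
    ⟨by fun_prop, fun s q m => by
        have e := x.fam.per (u q * s) q m
        simp only at e ⊢
        rw [hp q m, e],
      fun s q s0 s1 => x.fam.inj _ q (mul_nonneg (hm q).1 s0) (by nlinarith [hm q]),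
      fun s q _ _ hq => by simp only [hu q hq, zero_mul, x.g0]; rfl⟩
  let E : R.II (rel x hK hKp) := R.II.mk' (fun q => x.γ (u q, q)) (by fun_prop)
    (fun q m => by
      have e := x.fam.per (u q) q m
      simp only at e ⊢
      rw [hp q m, e])
    (fun q => x.fam.inj _ q (hm q).1 (hm q).2) fun q hq => by simp only [hu q hq, x.g0]; rfl
  let γ : Path (embR x hK hKp).d E := R.mkPath fam (fun q => by simp [x.g0]) fun q => by simp [E]
  obtain ⟨ε, hε, hs⟩ := exists_eps hK hKp hO x.emb hU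
  refine ⟨E, γ, fun t q => rfl, hasNF hF x hc hp hm, ε, hε, fun P hP => ?_⟩
  obtain ⟨F, J, Kf, k1, k2, k3, k4, k5, k6, k7, k8⟩ := hP.sol
  let D : LS c x.f K ε :=
    { H := J.H, Kf := Kf, u := u, smooth := J.smooth, emb := J.emb, h0 := J.h0, near := J.near
      cont := k1, per := k2, inj := k3, k0 := k5, ucont := hc, uper := hp
      out := fun l s q hq => ⟨J.out l q hq, k4 l s q hq, hu q hq⟩ }
  obtain ⟨y, hy, yγ⟩ := rr_ls x D hε.le hs hm k6 fun s q => (k7 s q).trans (by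
    rw [cl_proj]
    rfl)
  refine ⟨y, hy, fun q s => ?_⟩
  rw [yγ]
  split_ifs
  · exact Or.inl (k8 (2 * s) q)
  · have e := mix_mem (hm q).1 (hm q).2 (cl_nonneg (2 * s - 1)) (cl_le_one _)
    exact Or.inr ⟨_, e.1, e.2, rfl⟩

theorem iso (x : St c ∅) (hK : IsClosed K) (hKp : PerSet K) (hO : UOK c U)
    (hU : ∀ q ∈ K, x.f q ∈ U) (hg : ∀ q ∈ K, Good x q) :
    ∃ ε : ℝ, 0 < ε ∧ ∀ (F : Q → G) (J : Iso c x.f F),
      (∀ l q, q ∉ K → J.H l q = x.f q) → (∀ l q, ‖J.H l q - x.f q‖ ≤ ε) →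
      (∀ l, ∀ q ∈ K, 0 < dl (dd c (J.H l) q)) →
      ∃ y, RR K U x y ∧ (∀ q, Good x q → Good y q) ∧ ∀ q ∈ K, y.γ (1, q) = dd c F q := by
  obtain ⟨ε, hε, hs⟩ := exists_eps hK hKp hO x.emb hU
  refine ⟨ε, hε, fun F J ho hn hd => ?_⟩
  have e3 : ∀ l q, q ∉ K → dd c (J.H l) q = dd c x.f q := fun l q hq =>
    dd_congr_open c hK.isOpen_compl (fun q hq => ho l q hq) hq
  let Γ : ℝ × ℝ × Q → G × G := fun p => x.γ p.2 + (dd c (J.H p.1) p.2.2 - x.γ (0, p.2.2))
  have hΓ : Continuous Γ := by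
    have hγ := x.fam.cont
    have hK : Continuous fun p : ℝ × ℝ × Q => dd c (J.H p.1) p.2.2 :=
      J.dd_cont.comp (f := fun p : ℝ × ℝ × Q => (p.1, p.2.2)) (by fun_prop)
    fun_prop
  have on : ∀ l s q, Good x q → 0 ≤ s → s ≤ 1 → Γ (l, s, q) = dd c (J.H l) q :=
    fun l s q hq s0 s1 => by simp only [Γ, hq s s0 s1, x.g0, add_sub_cancel]
  have off : ∀ l s q, dd c (J.H l) q = dd c x.f q → Γ (l, s, q) = x.γ (s, q) :=
    fun l s q hq => by simp only [Γ, hq, x.g0, sub_self, add_zero]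
  let z : ℝ → St c ∅ := fun l =>
    { f := J.H l
      γ := fun p => Γ (l, p)
      emb := J.emb l
      fam := ⟨hΓ.comp (by fun_prop), fun s q m => by
          have a1 := (J.emb l).dd_per q m
          have a2 := x.fam.per s q m
          have a3 := x.fam.per 0 q m
          simp only at a1 a2 a3
          simp only [Γ, a1, a2, a3],
        fun s q s0 s1 => by
          by_cases hq : q ∈ K
          · rw [on l s q (hg q hq) s0 s1]; exact (J.emb l).imm q
          · rw [off l s q (e3 l q hq)]; exact x.fam.inj s q s0 s1⟩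
      g0 := fun q => by simp only [Γ, add_sub_cancel]
      g1 := fun q => by
        by_cases hq : q ∈ K
        · rw [on l 1 q (hg q hq) zero_le_one le_rfl]; exact hd l q hq
        · rw [off l 1 q (e3 l q hq)]; exact x.g1 q
      ef := fun σ hσ => hσ.elim
      eg := fun σ hσ => hσ.elim }
  refine ⟨z 1, of_path z J.smooth hΓ (St.ext J.h0 ?_) rfl
    (fun l q hq => ⟨ho l q hq, fun s _ _ => off l s q (e3 l q hq)⟩)
    fun l q hq => hs q hq _ (hn l q), fun q hq s s0 s1 => on 1 s q hq s0 s1, fun q hq => ?_⟩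
  · funext p
    exact off 0 p.1 p.2 (by rw [J.h0])
  · refine (on 1 1 q (hg q hq) zero_le_one le_rfl).trans ?_
    rw [J.h1]

end RelG

end Pool.Agent.Lib.MP_72f1d0_gt.PC
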