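import Pool.Agent.Lib.MP_72f1d0_gt.PC.Defs

/-!
Isotopies `id + t b` in charts, and shrinking of a disc.
-/

open scoped ContDiff Manifold Topology
open Set Filter

namespace Pool.Agent.Lib.MP_72f1d0_gt.PC

noncomputable section

namespace Shrink

section Lin

variable {X : Type*} [NormedAddCommGroup X] [NormedSpace ℝ X]

lemma exists_small {v : X → X} (hv : ContDiff ℝ ∞ v) (hc : HasCompactSupport v) {η0 : ℝ}
    (h0 : 0 < η0) :
    ∃ η : ℝ, 0 < η ∧ η ≤ η0 ∧ ∀ y, ‖fderiv ℝ (fun y => η • v y) y‖ ≤ 1 / 2 := by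
  obtain ⟨M, hM⟩ := (hc.fderiv (𝕜 := ℝ)).exists_bound_of_continuous
    (hv.continuous_fderiv (by simp))
  have hM0 : 0 ≤ M := (norm_nonneg _).trans (hM 0)
  refine ⟨min η0 (1 / (2 * (M + 1))), lt_min h0 (by positivity), min_le_left _ _, fun y => ?_⟩
  have hd : DifferentiableAt ℝ v y := hv.differentiable (by simp) y
  rw [fderiv_fun_const_smul hd, norm_smul, Real.norm_of_nonneg (le_min h0.le (by positivity))]
  calc min η0 (1 / (2 * (M + 1))) * ‖fderiv ℝ v y‖ ≤ 1 / (2 * (M + 1)) * M :=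
        mul_le_mul (min_le_right _ _) (hM y) (norm_nonneg _) (by positivity)
    _ ≤ 1 / 2 := by
        rw [div_mul_eq_mul_div, div_le_div_iff₀ (by positivity) (by positivity)]
        linarith

lemma inj_of_small {b : X → X} (hb : ContDiff ℝ ∞ b) (hL : ∀ y, ‖fderiv ℝ b y‖ ≤ 1 / 2) {t : ℝ}
    (h0 : 0 ≤ t) (h1 : t ≤ 1) : Function.Injective fun y => y + t • b y := by
  intro y y' h
  have h2 : ‖b y' - b y‖ ≤ 1 / 2 * ‖y' - y‖ :=
    convex_univ.norm_image_sub_le_of_norm_fderiv_le (𝕜 := ℝ)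
      (fun z _ => hb.differentiable (by simp) z) (fun z _ => hL z) (mem_univ _) (mem_univ _)
  have h3 : y' - y = -(t • (b y' - b y)) := by
    have h4 : y + t • b y = y' + t • b y' := h
    rw [smul_sub]
    linear_combination (norm := module) -h4
  have h5 : ‖y' - y‖ ≤ t * ‖b y' - b y‖ := by
    rw [h3, norm_neg, norm_smul, Real.norm_of_nonneg h0]
  have h6 : t * ‖b y' - b y‖ ≤ ‖b y' - b y‖ := mul_le_of_le_one_left (norm_nonneg _) h1
  have h7 : ‖y' - y‖ ≤ 0 := by linarith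
  exact (sub_eq_zero.1 (norm_le_zero_iff.1 h7)).symm

lemma inj_deriv {B : X →L[ℝ] X} (hB : ‖B‖ ≤ 1 / 2) {t : ℝ} (h0 : 0 ≤ t) (h1 : t ≤ 1) :
    Function.Injective (ContinuousLinearMap.id ℝ X + t • B) := by
  refine (injective_iff_map_eq_zero _).2 fun w hw => ?_
  have h2 : w = -(t • B w) := eq_neg_of_add_eq_zero_left (by simpa using hw)
  have h3 : ‖B w‖ ≤ 1 / 2 * ‖w‖ := B.le_of_opNorm_le hB w
  have h5 : ‖w‖ ≤ t * ‖B w‖ := by
    conv_lhs => rw [h2, norm_neg, norm_smul, Real.norm_of_nonneg h0]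
  have h6 : t * ‖B w‖ ≤ ‖B w‖ := mul_le_of_le_one_left (norm_nonneg _) h1
  exact norm_le_zero_iff.1 (by linarith)

end Lin

variable {E₂ H₂ : Type*} [NormedAddCommGroup E₂] [NormedSpace ℝ E₂] [TopologicalSpace H₂]
  {J : ModelWithCorners ℝ E₂ H₂} {S : Type*} [TopologicalSpace S] [ChartedSpace H₂ S]
  {X : Type*} [NormedAddCommGroup X] [NormedSpace ℝ X]

variable (J) in
/-- A coordinate system on an open set `O` with values in a set `T`. -/
structure Chart (O : Set S) (T : Set X) (σ : S → X) (π : X → S) : Prop where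
  op : IsOpen O
  sσ : ContMDiffOn J 𝓘(ℝ, X) ∞ σ O
  sπ : ContMDiffOn 𝓘(ℝ, X) J ∞ π T
  mσ : MapsTo σ O T
  mπ : MapsTo π T O
  left : ∀ p ∈ O, π (σ p) = p
  right : ∀ y ∈ T, σ (π y) = y

variable {O : Set S} {T : Set X} {σ : S → X} {π : X → S}

lemma Chart.inj_mfderiv (h : Chart J O T σ π) {p : S} (hp : p ∈ O) :
    Function.Injective (mfderiv J 𝓘(ℝ, X) σ p) := by
  have hn := h.op.mem_nhds hp
  have h1 : HasMFDerivAt J 𝓘(ℝ, X) σ p (mfderiv J 𝓘(ℝ, X) σ p) :=
    ((h.sσ.contMDiffAt hn).mdifferentiableAt (by simp)).hasMFDerivAt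
  have h2 := ((h.sπ _ (h.mσ hp)).mdifferentiableWithinAt (by simp)).hasMFDerivWithinAt
  have h3 := (h2.comp p (h1.hasMFDerivWithinAt (s := O)) h.mσ).hasMFDerivAt hn
  have h4 : (fun x : S => x) =ᶠ[𝓝 p] π ∘ σ := by
    filter_upwards [hn] with x hx using (h.left x hx).symm
  have h5 := h3.congr_of_eventuallyEq h4
  have h6 := hasMFDerivAt_unique h5 (hasMFDerivAt_id p)
  intro v w hvw
  have h7 := congrArg (mfderivWithin 𝓘(ℝ, X) J π T (σ p)) hvw
  have h8 : ∀ u, mfderivWithin 𝓘(ℝ, X) J π T (σ p) (mfderiv J 𝓘(ℝ, X) σ p u) = u := fun u =>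
    congrArg (fun L => L u) h6
  exact (h8 v).symm.trans (h7.trans (h8 w))

open Classical in
/-- The map `id + t b` read through the coordinate system. -/
def mv (O : Set S) (σ : S → X) (π : X → S) (b : X → X) (t : ℝ) (p : S) : S :=
  if p ∈ O then π (σ p + t • b (σ p)) else p

omit [TopologicalSpace S] in
lemma mv_of_mem {b : X → X} {t : ℝ} {p : S} (hp : p ∈ O) :
    mv O σ π b t p = π (σ p + t • b (σ p)) := if_pos hp

omit [TopologicalSpace S] in
lemma mv_of_notMem {b : X → X} {t : ℝ} {p : S} (hp : p ∉ O) : mv O σ π b t p = p := if_neg hp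

lemma Chart.mv_eq (h : Chart J O T σ π) {b : X → X} {t : ℝ} {p : S}
    (hp : p ∈ O → b (σ p) = 0) : mv O σ π b t p = p := by
  by_cases hO : p ∈ O
  · rw [mv_of_mem hO, hp hO, smul_zero, add_zero, h.left p hO]
  · exact mv_of_notMem hO

theorem Chart.selfIso [T2Space S] (h : Chart J O T σ π) {b : X → X} (hb : ContDiff ℝ ∞ b)
    (hL : ∀ y, ‖fderiv ℝ b y‖ ≤ 1 / 2) {K : Set X} (hK : IsCompact K) (hKT : K ⊆ T)
    (hbK : ∀ y ∈ T, y ∉ K → b y = 0)
    (hT : ∀ y ∈ T, ∀ t : ℝ, 0 ≤ t → t ≤ 1 → y + t • b y ∈ T) : SelfIso J (mv O σ π b 1) := by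
  have t0 := Real.smoothTransition.nonneg
  have t1 := Real.smoothTransition.le_one
  have hcl : IsClosed (π '' K) :=
    (hK.image_of_continuousOn (h.sπ.continuousOn.mono hKT)).isClosed
  have hout : ∀ p, p ∉ π '' K → ∀ t, mv O σ π b t p = p := fun p hp t =>
    h.mv_eq fun hO => hbK _ (h.mσ hO) fun hK' => hp ⟨_, hK', h.left p hO⟩
  have hsm : ContMDiff (𝓘(ℝ, ℝ).prod J) J ∞
      fun z : ℝ × S => mv O σ π b (Real.smoothTransition z.1) z.2 := by
    intro z
    by_cases hz : z.2 ∈ O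
    · have hn : (univ ×ˢ O : Set (ℝ × S)) ∈ 𝓝 z :=
        (isOpen_univ.prod h.op).mem_nhds ⟨trivial, hz⟩
      have h1 : ContMDiffOn (𝓘(ℝ, ℝ).prod J) 𝓘(ℝ, X) ∞ (fun z : ℝ × S => σ z.2) (univ ×ˢ O) :=
        h.sσ.comp contMDiffOn_snd fun w hw => hw.2
      have h2 : ContMDiffOn (𝓘(ℝ, ℝ).prod J) 𝓘(ℝ, ℝ) ∞
          (fun z : ℝ × S => Real.smoothTransition z.1) (univ ×ˢ O) :=
        ((Real.smoothTransition.contDiff (n := ⊤)).contMDiff.comp contMDiff_fst).contMDiffOn
      have h3 : ContMDiffOn (𝓘(ℝ, ℝ).prod J) 𝓘(ℝ, X) ∞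
          (fun z : ℝ × S => σ z.2 + Real.smoothTransition z.1 • b (σ z.2)) (univ ×ˢ O) :=
        h1.add (h2.smul (hb.contMDiff.comp_contMDiffOn h1))
      have h4 := h.sπ.comp h3 fun w hw => hT _ (h.mσ hw.2) _ (t0 _) (t1 _)
      refine (h4.contMDiffAt hn).congr_of_eventuallyEq ?_
      filter_upwards [hn] with w hw using mv_of_mem hw.2
    · have hz' : z.2 ∉ π '' K := fun ⟨y, hy, e⟩ => hz (e ▸ h.mπ (hKT hy))
      have hn : (univ ×ˢ (π '' K)ᶜ : Set (ℝ × S)) ∈ 𝓝 z :=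
        (isOpen_univ.prod hcl.isOpen_compl).mem_nhds ⟨trivial, hz'⟩
      refine contMDiffAt_snd.congr_of_eventuallyEq ?_
      filter_upwards [hn] with w hw using hout _ hw.2 _
  refine ⟨_, hsm, fun p => ?_, fun p => ?_, fun l => ⟨?_, fun p => ?_⟩⟩
  · simp only [Real.smoothTransition.zero]
    by_cases hO : p ∈ O
    · rw [mv_of_mem hO, zero_smul, add_zero, h.left p hO]
    · exact mv_of_notMem hO
  · simp only [Real.smoothTransition.one]
  · intro p p' e
    have e' : mv O σ π b (Real.smoothTransition l) p = mv O σ π b (Real.smoothTransition l) p' := e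
    have hm : ∀ x ∈ O, σ x + Real.smoothTransition l • b (σ x) ∈ T := fun x hx =>
      hT _ (h.mσ hx) _ (t0 _) (t1 _)
    by_cases hp : p ∈ O <;> by_cases hp' : p' ∈ O
    · rw [mv_of_mem hp, mv_of_mem hp'] at e'
      have h1 := congrArg σ e'
      rw [h.right _ (hm p hp), h.right _ (hm p' hp')] at h1
      rw [← h.left p hp, ← h.left p' hp', inj_of_small hb hL (t0 l) (t1 l) h1]
    · rw [mv_of_mem hp, mv_of_notMem hp'] at e'
      exact absurd (e' ▸ h.mπ (hm p hp)) hp'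
    · rw [mv_of_notMem hp, mv_of_mem hp'] at e'
      exact absurd (e'.symm ▸ h.mπ (hm p' hp')) hp
    · rwa [mv_of_notMem hp, mv_of_notMem hp'] at e'
  · set t := Real.smoothTransition l with ht
    show Function.Injective (mfderiv J J (mv O σ π b t) p)
    by_cases hp : p ∈ O
    · have hn := h.op.mem_nhds hp
      have hm : ∀ x ∈ O, σ x + t • b (σ x) ∈ T := fun x hx => hT _ (h.mσ hx) _ (t0 _) (t1 _)
      have hq : mv O σ π b t p ∈ O := by rw [mv_of_mem hp]; exact h.mπ (hm p hp)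
      have h0 : ContMDiff J J ∞ (mv O σ π b t) :=
        hsm.comp (contMDiff_const.prodMk contMDiff_id : ContMDiff J (𝓘(ℝ, ℝ).prod J) ∞
          fun x : S => (l, x))
      have h1 := (h0.mdifferentiableAt (x := p) (by simp)).hasMFDerivAt
      have h2 := ((h.sσ.contMDiffAt (h.op.mem_nhds hq)).mdifferentiableAt (by simp)).hasMFDerivAt
      have h3 := h2.comp p h1
      have h4 := ((h.sσ.contMDiffAt hn).mdifferentiableAt (by simp)).hasMFDerivAt
      have h5 : HasFDerivAt (fun y => y + t • b y)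
          (ContinuousLinearMap.id ℝ X + t • fderiv ℝ b (σ p)) (σ p) :=
        (hasFDerivAt_id _).add ((hb.differentiable (by simp) _).hasFDerivAt.const_smul t)
      have h6 := h5.hasMFDerivAt.comp p h4
      have h7 : σ ∘ mv O σ π b t =ᶠ[𝓝 p] (fun y => y + t • b y) ∘ σ := by
        filter_upwards [hn] with x hx
        show σ (mv O σ π b t x) = _
        rw [mv_of_mem hx, h.right _ (hm x hx)]
        rfl
      have h8 := hasMFDerivAt_unique h3 (h6.congr_of_eventuallyEq h7)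
      intro v w hvw
      have h9 := congrArg (mfderiv J 𝓘(ℝ, X) σ (mv O σ π b t p)) hvw
      have h10 : ∀ u, mfderiv J 𝓘(ℝ, X) σ (mv O σ π b t p) (mfderiv J J (mv O σ π b t) p u) =
          (ContinuousLinearMap.id ℝ X + t • fderiv ℝ b (σ p)) (mfderiv J 𝓘(ℝ, X) σ p u) :=
        fun u => congrArg (fun L => L u) h8
      exact h.inj_mfderiv hp (inj_deriv (hL _) (t0 l) (t1 l)
        ((h10 v).symm.trans (h9.trans (h10 w))))
    · have hz' : p ∉ π '' K := fun ⟨y, hy, e⟩ => hp (e ▸ h.mπ (hKT hy))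
      have h1 : mv O σ π b t =ᶠ[𝓝 p] id := by
        filter_upwards [hcl.isOpen_compl.mem_nhds hz'] with x hx using hout x hx t
      have h2 := ((hasMFDerivAt_id (I := J) p).congr_of_eventuallyEq h1).mfderiv
      intro v w hvw
      have h3 : ∀ u, mfderiv J J (mv O σ π b t) p u = u := fun u => congrArg (fun L => L u) h2
      exact (h3 v).symm.trans (hvw.trans (h3 w))

lemma disc_chart {π : X → S} (h : Disc J π) :
    Chart J (range π) univ (Function.invFun π) π := by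
  have hl : ∀ y, Function.invFun π (π y) = y := Function.leftInverse_invFun h.2
  refine ⟨h.1.isOpen_range, ?_, h.1.contMDiff.contMDiffOn, mapsTo_univ _ _,
    fun y _ => ⟨y, rfl⟩, ?_, fun y _ => hl y⟩
  · rintro _ ⟨y, rfl⟩
    refine ((h.1 y).localInverse_contMDiffAt.congr_of_eventuallyEq ?_).contMDiffWithinAt
    filter_upwards [(h.1 y).localInverse_eventuallyEq_right] with x hx
    have hx' : π ((h.1 y).localInverse x) = x := hx
    conv_lhs => rw [← hx', hl]
  · rintro _ ⟨y, rfl⟩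
    rw [hl]

/-- One step of the expansion away from `a`. -/
lemma step [T2Space S] {π : ℂ → S} (h : Disc J π) {r R : ℝ} {a : ℂ} (hr : r < R) (ha : ‖a‖ ≤ r) :
    ∃ (η : ℝ) (φ : S → S), 0 < η ∧ SelfIso J φ ∧ (∀ p, p ∉ π '' Metric.ball 0 R → φ p = p) ∧
      ∀ p y, ‖y‖ ≤ r → φ p = π y → p = π (a + (1 + η)⁻¹ • (y - a)) := by
  have hr0 : 0 ≤ r := (norm_nonneg _).trans ha
  let β : ContDiffBump (0 : ℂ) := ⟨(2 * r + R) / 3, (r + 2 * R) / 3, by linarith, by linarith⟩
  have hv : ContDiff ℝ ∞ fun y : ℂ => β y • (y - a) := β.contDiff.smul (contDiff_id.sub contDiff_const)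
  have hc : HasCompactSupport fun y : ℂ => β y • (y - a) := β.hasCompactSupport.smul_right
  obtain ⟨η, h0, -, hL⟩ := exists_small hv hc one_pos
  set b : ℂ → ℂ := fun y => η • (β y • (y - a)) with hb
  have hbs : ContDiff ℝ ∞ b := hv.const_smul η
  have hch := disc_chart h
  have hz : ∀ y, y ∉ Metric.closedBall (0 : ℂ) ((r + 2 * R) / 3) → b y = 0 := fun y hy => by
    have : β y = 0 := β.zero_of_le_dist (le_of_lt (by simpa using hy))
    simp [hb, this]
  refine ⟨η, mv (range π) (Function.invFun π) π b 1, h0,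
    hch.selfIso hbs hL (isCompact_closedBall 0 ((r + 2 * R) / 3)) (subset_univ _)
      (fun y _ hy => hz y hy) fun _ _ _ _ _ => trivial, fun p hp => ?_, fun p y hy e => ?_⟩
  · refine hch.mv_eq fun hO => hz _ fun hm => hp ⟨_, ?_, hch.left p hO⟩
    exact Metric.closedBall_subset_ball (by linarith) hm
  · by_cases hp : p ∈ range π
    · rw [mv_of_mem hp] at e
      have h1 := h.2 e
      have hη : (1 + η) ≠ 0 := by linarith
      have hc1 : 0 ≤ (1 + η)⁻¹ := by positivity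
      have hc2 : (1 + η)⁻¹ ≤ 1 := inv_le_one_of_one_le₀ (by linarith)
      have h2 : a + (1 + η)⁻¹ • (y - a) ∈ Metric.closedBall (0 : ℂ) r :=
        (convex_closedBall 0 r).add_smul_sub_mem (by simpa using ha) (by simpa using hy) ⟨hc1, hc2⟩
      have h3 : β (a + (1 + η)⁻¹ • (y - a)) = 1 :=
        β.one_of_mem_closedBall (Metric.closedBall_subset_closedBall (by
          show r ≤ (2 * r + R) / 3
          linarith) h2)
      have h4 : (a + (1 + η)⁻¹ • (y - a)) + (1 : ℝ) • b (a + (1 + η)⁻¹ • (y - a)) = y := by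
        simp only [hb, h3, add_sub_cancel_left, smul_smul, one_mul, mul_one]
        rw [add_assoc, ← add_smul, show (1 + η)⁻¹ + η * (1 + η)⁻¹ = 1 by field_simp, one_smul]
        abel
      have h5 := inj_of_small hbs hL zero_le_one le_rfl (h1.trans h4.symm)
      rw [← h5, hch.left p hp]
    · rw [mv_of_notMem hp] at e
      exact absurd ⟨y, e.symm⟩ hp

end Shrink

variable {E₂ H₂ : Type*} [NormedAddCommGroup E₂] [NormedSpace ℝ E₂] [FiniteDimensional ℝ E₂]
  [TopologicalSpace H₂] {J : ModelWithCorners ℝ E₂ H₂} {S : Type*} [TopologicalSpace S]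
  [ChartedSpace H₂ S] [IsManifold J ∞ S]

omit [FiniteDimensional ℝ E₂] [IsManifold J ∞ S] in
theorem shrinkStmt [T2Space S] (hC : CompStmt J S) : ShrinkStmt J S := by
  intro π h r R ε a hr hε ha
  obtain ⟨η, φ1, h0, h1, h2, h3⟩ := Shrink.step h hr ha
  have hc1 : 0 ≤ (1 + η)⁻¹ := by positivity
  have hc2 : (1 + η)⁻¹ < 1 := inv_lt_one_of_one_lt₀ (by linarith)
  have key : ∀ n : ℕ, ∃ φ : S → S, SelfIso J φ ∧ (∀ p, p ∉ π '' Metric.ball 0 R → φ p = p) ∧
      ∀ p, φ p ∈ π '' Metric.closedBall 0 r →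
        ∃ y, ‖y‖ ≤ r ∧ ‖y - a‖ ≤ (1 + η)⁻¹ ^ n * (2 * r) ∧ p = π y := by
    intro n
    induction n with
    | zero =>
      refine ⟨fun p => p, hC.1, fun _ _ => rfl, ?_⟩
      rintro _ ⟨y, hy, rfl⟩
      have hy' : ‖y‖ ≤ r := by simpa using hy
      exact ⟨y, hy', by have := norm_sub_le y a; simp; linarith, rfl⟩
    | succ n ih =>
      obtain ⟨φ, g1, g2, g3⟩ := ih
      refine ⟨fun p => φ (φ1 p), hC.2.2 _ _ g1 h1, fun p hp => ?_, fun p hp => ?_⟩
      · show φ (φ1 p) = p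
        rw [h2 p hp, g2 p hp]
      · obtain ⟨y, y1, y2, y3⟩ := g3 _ hp
        refine ⟨_, ?_, ?_, h3 p y y1 y3⟩
        · have := (convex_closedBall (0 : ℂ) r).add_smul_sub_mem (x := a) (y := y)
            (by simpa using ha) (by simpa using y1) ⟨hc1, hc2.le⟩
          simpa only [mem_closedBall_zero_iff] using this
        · rw [add_sub_cancel_left, norm_smul, Real.norm_of_nonneg hc1, pow_succ', mul_assoc]
          exact mul_le_mul_of_nonneg_left y2 hc1
  have hlim : Tendsto (fun n : ℕ => (1 + η)⁻¹ ^ n * (2 * r)) atTop (𝓝 (0 * (2 * r))) :=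
    (tendsto_pow_atTop_nhds_zero_of_lt_one hc1 hc2).mul_const _
  rw [zero_mul] at hlim
  obtain ⟨n, hn⟩ := (hlim.eventually (gt_mem_nhds hε)).exists
  obtain ⟨φ, g1, g2, g3⟩ := key n
  refine ⟨φ, g1, g2, fun p hp => ?_, fun p hp => ?_⟩
  · by_contra hne
    exact hne (((hC.2.1 φ g1).2 (g2 _ hne)).symm ▸ hp)
  · obtain ⟨y, -, y2, y3⟩ := g3 p hp
    exact ⟨y, by rw [Metric.mem_ball, dist_eq_norm]; exact y2.trans_lt hn, y3.symm⟩

end

end Pool.Agent.Lib.MP_72f1d0_gt.PC
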