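import Pool.Agent.Lib.MP_72f1d0_gt.PC.ModDefs

/-!
Transfer of a supported deformation from the periodic model to the manifold.
-/

set_option linter.unusedSectionVars false

open scoped ContDiff Manifold Topology
open Set Filter

namespace Pool.Agent.Lib.MP_72f1d0_gt.PC

open Eq.Stmt (Distr Data IsPath derived diff)
open Eq.Man (dp Fv dv md vv)

noncomputable section

variable {E : Type*} [NormedAddCommGroup E] [NormedSpace ℝ E] [FiniteDimensional ℝ E]
  {M : Type*} [TopologicalSpace M] [ChartedSpace E M] [IsManifold 𝓘(ℝ, E) ∞ M]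
  {E₂ H₂ : Type*} [NormedAddCommGroup E₂] [NormedSpace ℝ E₂] [FiniteDimensional ℝ E₂]
  [TopologicalSpace H₂]
  {J : ModelWithCorners ℝ E₂ H₂} {S : Type*} [TopologicalSpace S] [ChartedSpace H₂ S]
  [IsManifold J ∞ S]

namespace Transfer

lemma dp_inv_at {π : Q → S} {q : Q} (h : IsLocalDiffeomorphAt 𝓘(ℝ, Q) J ∞ π q) :
    (dp J π q).IsInvertible := ⟨h.mfderivToContinuousLinearEquiv (by simp), rfl⟩

/-- Local sections of a map that is a local diffeomorphism at one point. -/
lemma exists_section {π : Q → S} (hπ : ContMDiff 𝓘(ℝ, Q) J ∞ π) {q : Q}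
    (h : IsLocalDiffeomorphAt 𝓘(ℝ, Q) J ∞ π q) {R : Set Q} (hR : R ∈ 𝓝 q) :
    ∃ (σ : S → Q) (τ : TangentBundle J S → Q), ContMDiffAt J 𝓘(ℝ, Q) ∞ σ (π q) ∧
      (∀ᶠ y in 𝓝 (π q), σ y ∈ R ∧ π (σ y) = y) ∧ ∀ z : TangentBundle J S, z.1 = π q →
        ContinuousAt τ z ∧ ∀ᶠ w in 𝓝 z, σ w.1 ∈ R ∧ π (σ w.1) = w.1 ∧
          dp J π (σ w.1) (τ w) = w.2 := by
  have ho := h.localInverse_open_source
  have hp : Continuous fun z : TangentBundle J S => z.1 := FiberBundle.continuous_proj _ _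
  have e0 : h.localInverse (π q) = q := h.localInverse_eventuallyEq_left.eq_of_nhds
  have hRe : ∀ᶠ y in 𝓝 (π q), h.localInverse y ∈ R :=
    h.localInverse_contMDiffAt.continuousAt.preimage_mem_nhds (by rw [e0]; exact hR)
  refine ⟨h.localInverse, fun z => mfderiv J 𝓘(ℝ, Q) h.localInverse z.1 z.2,
    h.localInverse_contMDiffAt, hRe.and h.localInverse_eventuallyEq_right, fun z hz => ?_⟩
  have hn : (fun z : TangentBundle J S => z.1) ⁻¹' h.localInverse.source ∈ 𝓝 z :=
    hp.continuousAt.preimage_mem_nhds (ho.mem_nhds (hz ▸ h.localInverse_mem_source))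
  have hn' : ∀ᶠ w : TangentBundle J S in 𝓝 z, h.localInverse w.1 ∈ R :=
    hp.continuousAt.eventually (p := fun y => h.localInverse y ∈ R) (by
      rw [← hz] at hRe; exact hRe)
  constructor
  · have h1 := (h.localInverse_contMDiffOn.continuousOn_tangentMapWithin (by simp)
      ho.uniqueMDiffOn).continuousAt hn
    have h2 := (continuous_snd.comp
      (tangentBundleModelSpaceHomeomorph 𝓘(ℝ, Q)).continuous).continuousAt.comp h1
    refine h2.congr ?_
    filter_upwards [hn] with w hw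
    exact congrArg (fun T : E₂ →L[ℝ] Q => T w.2) (mfderivWithin_of_mem_nhds (ho.mem_nhds hw))
  · filter_upwards [hn, hn'] with w hw hw'
    refine ⟨hw', h.localInverse_right_inv hw, ?_⟩
    have e : π ∘ h.localInverse =ᶠ[𝓝 w.1] id :=
      eventuallyEq_of_mem (ho.mem_nhds hw) h.localInverse_eqOn_right
    have h1 := mfderiv_comp w.1 (hπ.mdifferentiableAt (by simp))
      ((h.localInverse_contMDiffOn.contMDiffAt (ho.mem_nhds hw)).mdifferentiableAt (by simp))
    rw [e.mfderiv_eq, mfderiv_id] at h1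
    exact (congrArg (fun T : E₂ →L[ℝ] E₂ => T w.2) h1).symm

lemma dp_per {π : Q → S} (hπ : ContMDiff 𝓘(ℝ, Q) J ∞ π) (h : Per π) (q : Q) (m : ℤ × ℤ) :
    dp J π (q + lat m) = dp J π q := by
  have hk : HasFDerivAt (fun q : Q => q + lat m) (ContinuousLinearMap.id ℝ Q) q :=
    (hasFDerivAt_id q).add_const _
  have := (HasMFDerivAt.comp q (hπ.mdifferentiableAt (by simp)).hasMFDerivAt
    hk.hasMFDerivAt).mfderiv
  rw [show (π ∘ fun q : Q => q + lat m) = π from funext fun q => h q m] at this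
  exact ContinuousLinearMap.ext fun v => (congrArg (fun T : Q →L[ℝ] E₂ => T v) this).symm

lemma image_compact {π : Q → S} (hπ : Continuous π) (h : Per π) {K : Set Q} (hK : IsClosed K)
    (hP : PerSet K) : IsCompact (π '' K) := by
  have : π '' K = π '' (Icc ((0, 0) : Q) (1, 1) ∩ K) := by
    refine Subset.antisymm ?_ (image_mono inter_subset_right)
    rintro _ ⟨q, hq, rfl⟩
    obtain ⟨q0, h0, m, rfl⟩ := Manifold.exists_fund q
    refine ⟨q0, ⟨h0, ?_⟩, (h q0 m).symm⟩
    have := hP _ (-m) hq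
    rwa [show q0 + lat m + lat (-m) = q0 by ext <;> simp [lat]] at this
  rw [this]
  exact (isCompact_Icc.inter_right hK).image hπ

lemma cancel {B B' : E₂ →L[ℝ] E} {T : Q →L[ℝ] E₂} (hT : T.IsInvertible)
    (hb : B.comp T = B'.comp T) : B = B' := ContinuousLinearMap.ext fun v => by
  obtain ⟨u, rfl⟩ := hT.surjective v
  exact congrArg (fun T : Q →L[ℝ] E => T u) hb

variable {D : Distr E M} {x : Data J E S M} {χ : Q → S} {R : Set Q} {c : Ctx} {Θ : G → M}
  {U : Set G} {x' : St c ∅}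

lemma vv_inv (hm : Mod D x χ R c Θ U x') (p : G) : (vv E c Θ p).IsInvertible := (hm.inv p).comp
  ⟨ContinuousLinearEquiv.equivOfInverse (c.e p) (c.om p) (c.om_e p) (c.e_om p), rfl⟩

lemma vv_per (hm : Mod D x χ R c Θ U x') (p : G) (m : ℤ × ℤ) :
    vv E c Θ (p + i0 (lat m)) = vv E c Θ p := by
  refine ContinuousLinearMap.ext fun a => ?_
  have h1 : c.e (p + i0 (lat m)) = c.e p := by rw [← hm.ci, c.e_per]
  have h2 := Eq.Man.md_equi hm.smooth (ContinuousLinearMap.id ℝ G) (i0 (lat m))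
    (fun p => hm.per p m) p (c.e p a)
  simp only [vv, ContinuousLinearMap.comp_apply, h1]
  exact h2

lemma pair_ext (hm : Mod D x χ R c Θ U x') (p : G) {A B : G × G}
    (e : ∀ v, vv E c Θ p (ap A v) = vv E c Θ p (ap B v)) : A = B := by
  have k1 := (vv_inv hm p).injective (e (1, 0))
  have k2 := (vv_inv hm p).injective (e (0, 1))
  simp only [ap, one_smul, zero_smul, add_zero, zero_add] at k1 k2
  exact Prod.ext k1 k2

lemma form' (hm : Mod D x χ R c Θ U x') {q : Q} (hq : q ∈ R) (s : UI) :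
    (vv E c Θ (i0 q)).comp (Manifold.apL (x'.γ (s, q))) = (Fv x s (χ q)).comp (dp J χ q) :=
  ContinuousLinearMap.ext fun v => hm.form q hq s v

lemma good_iff (hx : x.Formal D) (hm : Mod D x χ R c Θ U x') {q : Q} (hq : q ∈ R) :
    Good x' q ↔ MGood x (χ q) := by
  have h0 : Fv x 0 (χ q) = dv E J x.f (χ q) := hx.2.2.2.1 (χ q)
  constructor
  · intro h s
    change Fv x s (χ q) = dv E J x.f (χ q)
    rw [← h0]
    refine cancel (dp_inv_at (hm.χloc q hq)) ?_
    rw [← form' hm hq, ← form' hm hq, h s s.2.1 s.2.2, h (0 : UI) le_rfl zero_le_one]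
  · intro h s s0 s1
    rw [← x'.g0]
    refine pair_ext hm (i0 q) fun v => ?_
    have e1 := hm.form q hq ⟨s, s0, s1⟩ v
    have e2 := hm.form q hq 0 v
    have e3 : Fv x ⟨s, s0, s1⟩ (χ q) = dv E J x.f (χ q) := h _
    rw [e3] at e1
    rw [h0] at e2
    exact e1.trans e2.symm

/-- The distribution with values in the model space. -/
def Dv (D : Distr E M) (m : M) : Submodule ℝ E := D m

end Transfer

open Transfer in
theorem transferStmt [T2Space S] (D : Distr E M) : TransferStmt J S D := by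
  classical
  intro x χ R c Θ U x' hx hm
  refine ⟨fun q hq => good_iff hx hm hq, fun K y' hK hP hKR hRR => ?_⟩
  obtain ⟨z, φ, hz, cz, z0, z1, cφ, φI, φ0, φe, zout, zin⟩ := hRR
  have hKc : IsClosed (χ '' K) :=
    (image_compact hm.χsmooth.continuous hm.χper hK hP).isClosed
  have hsec := fun q (hq : q ∈ R) =>
    exists_section hm.χsmooth (hm.χloc q hq) (hm.Ropen.mem_nhds hq)
  have di := fun q (hq : q ∈ R) => dp_inv_at (hm.χloc q hq)
  have hκ : ∀ p : S, ∃ q : Q, p ∈ χ '' R → q ∈ R ∧ χ q = p := fun p => by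
    by_cases hp : p ∈ χ '' R
    · obtain ⟨q, h1, h2⟩ := hp
      exact ⟨q, fun _ => ⟨h1, h2⟩⟩
    · exact ⟨0, fun h => absurd h hp⟩
  choose κ hκ using hκ
  let ph : ℝ → ℝ → UI := fun l s => projIcc 0 1 zero_le_one (φ (l, s))
  have eph : ∀ (l : ℝ) (s : UI), (ph l s : ℝ) = φ (l, s) := fun l s => by
    simp only [ph]
    rw [projIcc_of_mem zero_le_one (φI l s s.2.1 s.2.2)]
  let h : ℝ × S → M := fun w => if w.2 ∈ χ '' R then Θ ((z w.1).f (κ w.2)) else x.f w.2
  let B : ℝ → ℝ → Q → (Q →L[ℝ] E) := fun l s q =>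
    (vv E c Θ ((z l).f q)).comp (Manifold.apL ((z l).γ (s, q)))
  let F : UI → UI → S → (E₂ →L[ℝ] E) := fun l s p =>
    if p ∈ χ '' R then (B l s (κ p)).comp (dp J χ (κ p)).inverse else Fv x (ph l s) p
  have zeq : ∀ l q m, (z l).f (q + lat m) = (z l).f q + i0 (lat m) := fun l q m => by
    rw [(z l).emb.equi, hm.ci]
  have eh : ∀ l q, q ∈ R → h (l, χ q) = Θ ((z l).f q) := fun l q hq => by
    have hp : χ q ∈ χ '' R := ⟨q, hq, rfl⟩
    obtain ⟨m, e⟩ := hm.χinj _ (hκ _ hp).1 q hq (hκ _ hp).2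
    simp only [h, if_pos hp]
    conv_rhs => rw [e, zeq, hm.per]
  have eF : ∀ (l s : UI) q, q ∈ R → (F l s (χ q)).comp (dp J χ q) = B l s q := fun l s q hq => by
    have hp : χ q ∈ χ '' R := ⟨q, hq, rfl⟩
    obtain ⟨m, e⟩ := hm.χinj _ (hκ _ hp).1 q hq (hκ _ hp).2
    have hq' := (hκ _ hp).1
    simp only [F, if_pos hp]
    generalize κ (χ q) = q' at e hq'
    subst e
    refine ContinuousLinearMap.ext fun v => ?_
    rw [ContinuousLinearMap.comp_apply, ContinuousLinearMap.comp_apply,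
      dp_per hm.χsmooth hm.χper, (di q' hq').inverse_apply_self]
    simp only [B]
    have e2 : (z l).γ (s, q' + lat m) = (z l).γ (s, q') := (z l).fam.per s q' m
    rw [zeq, vv_per hm, e2]
  have oh : ∀ l p, p ∉ χ '' K → h (l, p) = x.f p := fun l p hp => by
    by_cases hp' : p ∈ χ '' R
    · obtain ⟨q, hq, rfl⟩ := hp'
      rw [eh l q hq, (zout l q fun hq' => hp ⟨q, hq', rfl⟩).1, hm.base, (hm.zero q hq).2]
    · simp only [h, if_neg hp']
  have oF : ∀ (l s : UI) p, p ∉ χ '' K → F l s p = Fv x (ph l s) p := fun l s p hp => by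
    by_cases hp' : p ∈ χ '' R
    · obtain ⟨q, hq, rfl⟩ := hp'
      have h1 := zout l q fun hq' => hp ⟨q, hq', rfl⟩
      refine cancel (di q hq) ?_
      rw [eF l s q hq, ← form' hm hq, eph]
      simp only [B]
      rw [h1.1, h1.2 s s.2.1 s.2.2, hm.base]
    · simp only [F, if_neg hp']
  have alt : ∀ p, (∃ q ∈ R, χ q = p) ∨ p ∉ χ '' K := fun p => by
    by_cases hp : p ∈ χ '' K
    · exact Or.inl (image_mono hKR hp)
    · exact Or.inr hp
  have hH : ContMDiff 𝓘(ℝ, ℝ × Q) 𝓘(ℝ, E) ∞ fun w : ℝ × Q => Θ ((z w.1).f w.2) :=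
    hm.smooth.comp hz.contMDiff
  have hh : ContMDiff (𝓘(ℝ, ℝ).prod J) 𝓘(ℝ, E) ∞ h := fun w => by
    rcases alt w.2 with ⟨q, hq, e⟩ | hp
    · obtain ⟨σ, -, h1, h2, -⟩ := hsec q hq
      rw [e] at h1 h2
      refine ((hH _).comp w (contMDiffAt_fst.prodMk_space
        (h1.comp w contMDiffAt_snd))).congr_of_eventuallyEq ?_
      filter_upwards [continuous_snd.continuousAt.eventually h2] with y hy
      have e2 := eh y.1 _ hy.1
      rw [hy.2] at e2
      exact e2
    · refine ((hx.1.1 _).comp w contMDiffAt_snd).congr_of_eventuallyEq ?_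
      filter_upwards [continuous_snd.continuousAt.eventually (hKc.isOpen_compl.mem_nhds hp)]
        with y hy
      exact oh y.1 y.2 hy
  have cH : Continuous fun w : UI × UI × Q × Q => (z w.1).f w.2.2.1 :=
    hz.continuous.comp ((continuous_subtype_val.comp continuous_fst).prodMk
      continuous_snd.snd.fst)
  have cK : Continuous fun w : UI × UI × Q × Q => (z w.1).γ (w.2.1, w.2.2.1) :=
    cz.comp ((continuous_subtype_val.comp continuous_fst).prodMk
      ((continuous_subtype_val.comp continuous_snd.fst).prodMk continuous_snd.snd.fst))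
  have cT : Continuous fun w : UI × UI × Q × Q => (⟨Θ ((z w.1).f w.2.2.1),
      B w.1 w.2.1 w.2.2.1 w.2.2.2⟩ : TangentBundle 𝓘(ℝ, E) M) :=
    Eq.Man.tm_cont hm.smooth cH ((c.e_smooth.continuous.comp cH).clm_apply
      ((continuous_snd.snd.snd.fst.smul cK.fst).add (continuous_snd.snd.snd.snd.smul cK.snd)))
  have cph : Continuous fun w : UI × UI × TangentBundle J S => ph w.1 w.2.1 :=
    continuous_projIcc.comp (cφ.comp ((continuous_subtype_val.comp continuous_fst).prodMk
      (continuous_subtype_val.comp continuous_snd.fst)))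
  have hc : Continuous fun w : UI × UI × TangentBundle J S =>
      (⟨h (w.1, w.2.2.1), F w.1 w.2.1 w.2.2.1 w.2.2.2⟩ : TangentBundle 𝓘(ℝ, E) M) :=
    continuous_iff_continuousAt.mpr fun w => by
      have hp : Continuous fun z : TangentBundle J S => z.1 := FiberBundle.continuous_proj _ _
      have c0 : ContinuousAt (fun z : UI × UI × TangentBundle J S => z.2.2) w :=
        continuous_snd.snd.continuousAt
      rcases alt w.2.2.1 with ⟨q, hq, e⟩ | hw
      · obtain ⟨σ, τ, h1, -, h2⟩ := hsec q hq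
        obtain ⟨h3, h4⟩ := h2 w.2.2 e.symm
        rw [e] at h1
        refine (cT.continuousAt.comp (continuousAt_fst.prodMk
          (continuousAt_snd.fst.prodMk (((h1.continuousAt.comp hp.continuousAt).comp
            (f := fun z : UI × UI × TangentBundle J S => z.2.2) c0).prodMk
            (h3.comp (f := fun z : UI × UI × TangentBundle J S => z.2.2) c0))))).congr ?_
        filter_upwards [c0.eventually h4] with y hy
        simp only [Function.comp_apply]
        rw [← eh _ _ hy.1, ← eF _ _ _ hy.1, ContinuousLinearMap.comp_apply, hy.2.2, hy.2.1]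
      · refine (hx.2.1.comp (cph.prodMk continuous_snd.snd)).continuousAt.congr ?_
        filter_upwards [(hp.continuousAt.comp c0).eventually (hKc.isOpen_compl.mem_nhds hw)]
          with y hy
        have hy' : y.2.2.1 ∉ χ '' K := hy
        rw [oh _ _ hy', oF _ _ _ hy']
        rfl
  have sm : ∀ l : ℝ, ContMDiff J 𝓘(ℝ, E) ∞ fun p => h (l, p) := fun l =>
    hh.comp (contMDiff_const.prodMk contMDiff_id)
  have Fi : ∀ l s p, Function.Injective (F l s p) := fun l s p => by
    by_cases hp : p ∈ χ '' R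
    · simp only [F, if_pos hp]
      exact ((vv_inv hm _).injective.comp ((Manifold.inj_iff _).mp
        ((z l).fam.inj s _ s.2.1 s.2.2))).comp (di _ (hκ p hp).1).inverse.injective
    · simp only [F, if_neg hp]
      exact hx.2.2.1 _ _
  have ph0 : ∀ l : ℝ, ph l (0 : UI) = 0 := fun l => Subtype.ext (by rw [eph]; exact (φe l).1)
  have ph1 : ∀ l : ℝ, ph l (1 : UI) = 1 := fun l => Subtype.ext (by rw [eph]; exact (φe l).2)
  have F0 : ∀ (l : UI) p, F l 0 p = dv E J (fun p => h (l, p)) p := fun l p => by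
    rcases alt p with ⟨q, hq, rfl⟩ | hp
    · refine cancel (di q hq) ?_
      rw [eF l 0 q hq, ← Eq.Man.dv_comp (sm l) hm.χsmooth]
      have e : (fun q => h (l, χ q)) =ᶠ[𝓝 q] fun q => Θ ((z l).f q) :=
        eventuallyEq_of_mem (hm.Ropen.mem_nhds hq) fun q' hq' => eh l q' hq'
      have e' : md E (fun q => h (l, χ q)) q = md E (fun q => Θ ((z l).f q)) q := e.mfderiv_eq
      rw [e', ← Eq.Man.vv_dd c hm.smooth (z l).emb.smooth, ← (z l).g0]
      rfl
    · have e : (fun p => h (l, p)) =ᶠ[𝓝 p] x.f :=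
        eventuallyEq_of_mem (hKc.isOpen_compl.mem_nhds hp) fun p' hp' => oh l p' hp'
      have e' : dv E J (fun p => h (l, p)) p = dv E J x.f p := e.mfderiv_eq
      rw [e', oF l 0 p hp, ph0]
      exact hx.2.2.2.1 p
  have zU : ∀ l q, q ∈ R → (z l).f q ∈ U := fun l q hq => by
    by_cases hq' : q ∈ K
    · exact zin l q hq'
    · rw [(zout l q hq').1, hm.base]
      exact (hm.zero q hq).1
  have mix : ∀ l q, q ∈ R → ∀ p, Θ ((z l).f q) = x.f p → p ∈ χ '' R := fun l q hq p e => by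
    obtain ⟨q', hq', e'⟩ := hm.Uavoid _ (zU l q hq) p e
    rw [e', (hm.zero q' hq').2] at e
    exact ⟨q', hq', hx.1.2.1 e⟩
  have hinj : ∀ l : ℝ, Function.Injective fun p => h (l, p) := fun l p p' e => by
    have nK : ∀ p, p ∉ χ '' R → p ∉ χ '' K := fun p hp hp' => hp (image_mono hKR hp')
    simp only at e
    by_cases hp : p ∈ χ '' R <;> by_cases hp' : p' ∈ χ '' R
    · obtain ⟨q, hq, rfl⟩ := hp
      obtain ⟨q', hq', rfl⟩ := hp'
      rw [eh l q hq, eh l q' hq'] at e
      obtain ⟨m, e'⟩ := hm.Uinj _ (zU l q hq) _ (zU l q' hq') e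
      rw [← zeq] at e'
      rw [(z l).emb.inj e', hm.χper]
    · obtain ⟨q, hq, rfl⟩ := hp
      rw [eh l q hq, oh l p' (nK _ hp')] at e
      exact absurd (mix l q hq p' e) hp'
    · obtain ⟨q, hq, rfl⟩ := hp'
      rw [eh l q hq, oh l p (nK _ hp)] at e
      exact absurd (mix l q hq p e.symm) hp
    · rw [oh l p (nK _ hp), oh l p' (nK _ hp')] at e
      exact hx.1.2.1 e
  have htr : ∀ (l : UI) p, IsCompl (LinearMap.range (F l 1 p).toLinearMap) (Dv D (h (l, p))) :=
    fun l p => by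
      rcases alt p with ⟨q, hq, rfl⟩ | hp
      · rw [← Eq.Man.range_comp_inv (di q hq), eF l 1 q hq, eh l q hq]
        exact (hm.tr _ _).mpr ((z l).g1 q).ne'
      · rw [oF l 1 p hp, oh l p hp, ph1]
        exact hx.2.2.2.2 p
  refine ⟨⟨fun p => h ((1 : UI), p), F 1⟩, ⟨fun l => ⟨fun p => h (l, p), F l⟩,
    ⟨⟨h, hh, fun _ _ => rfl⟩, hc⟩, fun l => ⟨⟨sm l, hinj l, fun p => ?_⟩,
      hc.comp (continuous_const.prodMk continuous_id), Fi l, F0 l, htr l⟩,
    Eq.Man.data_ext (funext fun p => ?_) fun s p => ?_, rfl⟩, fun q hq hg s => ?_,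
    fun p hp hg s => ?_⟩
  · exact (F0 l p ▸ Fi l 0 p : Function.Injective (dv E J (fun x => h (l, x)) p))
  · rcases alt p with ⟨q, hq, rfl⟩ | hp
    · change h (((0 : UI) : ℝ), χ q) = _
      rw [eh _ q hq, Set.Icc.coe_zero, z0, hm.base, (hm.zero q hq).2]
    · exact oh _ p hp
  · change F 0 s p = _
    rcases alt p with ⟨q, hq, rfl⟩ | hp
    · refine cancel (di q hq) ?_
      rw [eF 0 s q hq, ← form' hm hq]
      simp only [B]
      rw [Set.Icc.coe_zero, z0, hm.base]
    · rw [oF 0 s p hp]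
      congr 1
      exact Subtype.ext (by rw [eph]; exact φ0 s s.2.1 s.2.2)
  · change F 1 s (χ q) = dv E J (fun p => h ((1 : UI), p)) (χ q)
    rw [← F0]
    refine cancel (di q hq) ?_
    rw [eF 1 s q hq, eF 1 0 q hq]
    simp only [B]
    rw [Set.Icc.coe_one, z1, hg s s.2.1 s.2.2, hg (0 : UI) le_rfl zero_le_one]
  · change F 1 s p = dv E J (fun p => h ((1 : UI), p)) p
    rw [← F0, oF 1 s p hp, oF 1 0 p hp]
    exact (hg _).trans (hg _).symm

end

end Pool.Agent.Lib.MP_72f1d0_gt.PC
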